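import Mathlib

open Finset Matrix

namespace Pool.Agent.MP_79429d_co

/-- For every nonzero `u` the roots of unity `e(s u / p)`, `s ∈ S`, have a vanishing combination
with positive weights. -/
def HasWeights (p : ℕ) [NeZero p] (S : Finset (ZMod p)) : Prop :=
  ∀ u : ZMod p, u ≠ 0 → ∃ k : ZMod p → ℝ, (∀ s, 0 < k s) ∧
    ∑ s ∈ S, (k s : ℂ) * ZMod.stdAddChar (s * u) = 0

variable {p : ℕ} [Fact p.Prime]

lemma psi_sum {ι : Type*} (t : Finset ι) (f : ι → ZMod p) :
    (ZMod.stdAddChar (∑ i ∈ t, f i) : ℂ) = ∏ i ∈ t, ZMod.stdAddChar (f i) := by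
  classical
  induction t using Finset.induction_on with
  | empty => simp
  | insert a s ha ih => rw [sum_insert ha, prod_insert ha, AddChar.map_add_eq_mul, ih]

lemma orth {n : ℕ} (z : Fin n → ZMod p) (hz : z ≠ 0) :
    ∑ y : Fin n → ZMod p, (ZMod.stdAddChar (z ⬝ᵥ y) : ℂ) = 0 := by
  classical
  let f : (Fin n → ZMod p) →+ ZMod p :=
    { toFun := fun y => z ⬝ᵥ y
      map_zero' := by simp
      map_add' := fun a b => by simp [dotProduct_add] }
  have h := (AddChar.sum_eq_zero_iff_ne_zero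
    (ψ := (ZMod.stdAddChar (N := p)).compAddMonoidHom f)).2 ?_
  · simpa [f] using h
  · intro h0
    obtain ⟨i, hi⟩ := Function.ne_iff.1 hz
    have h1 := DFunLike.congr_fun h0 (Pi.single i 1)
    simp only [AddChar.compAddMonoidHom_apply, AddChar.zero_apply] at h1
    have h2 : f (Pi.single i 1) = z i := by simp [f]
    rw [h2, ← (ZMod.stdAddChar (N := p)).map_zero_eq_one] at h1
    exact hi (ZMod.injective_stdAddChar h1)

/-- The key invariance step. -/
lemma shift_mem {n : ℕ} {κ : Type*} [Fintype κ] [DecidableEq κ] (S : Finset (ZMod p))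
    (hS : HasWeights p S) (r : κ → Fin n → ZMod p) (c : κ → ZMod p)
    (hcov : ∀ x : Fin n → ZMod p, ∃ v, r v ⬝ᵥ x = c v) (w : κ) (x : Fin n → ZMod p)
    (hx : ∀ v, v ≠ w → r v ⬝ᵥ x ≠ c v) (t : ZMod p) (g : Fin n → ZMod p)
    (hg : g ∈ (Fintype.piFinset fun _ : κ => S).image fun a => ∑ v, a v • r v) :
    g + t • r w ∈ (Fintype.piFinset fun _ : κ => S).image fun a => ∑ v, a v • r v := by
  classical
  have hxw : r w ⬝ᵥ x = c w := by
    obtain ⟨v, hv⟩ := hcov x
    by_cases h : v = w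
    · exact h ▸ hv
    · exact absurd hv (hx v h)
  have hk : ∀ v : κ, ∃ k : ZMod p → ℝ, (∀ s, 0 < k s) ∧
      (v ≠ w → ∑ s ∈ S, (k s : ℂ) * ZMod.stdAddChar (s * (r v ⬝ᵥ x - c v)) = 0) := by
    intro v
    by_cases h : v = w
    · exact ⟨fun _ => 1, fun _ => one_pos, fun h' => absurd h h'⟩
    · obtain ⟨k, hk1, hk2⟩ := hS (r v ⬝ᵥ x - c v) (sub_ne_zero.2 (hx v h))
      exact ⟨k, hk1, fun _ => hk2⟩
  choose k hkpos hkzero using hk
  set box := Fintype.piFinset fun _ : κ => S with hbox
  set σ : (κ → ZMod p) → Fin n → ZMod p := fun a => ∑ v, a v • r v with hσ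
  set K : (κ → ZMod p) → ℝ := fun a => ∏ v, k v (a v) with hK
  have hKpos : ∀ a, 0 < K a := fun a => prod_pos fun v _ => hkpos v (a v)
  set R : (Fin n → ZMod p) → ℂ :=
    fun y => ∑ a ∈ box, (K a : ℂ) * ZMod.stdAddChar (σ a ⬝ᵥ y) with hR
  have hRprod : ∀ y, R y = ∏ v, ∑ s ∈ S, (k v s : ℂ) * ZMod.stdAddChar (s * (r v ⬝ᵥ y)) := by
    intro y
    rw [prod_univ_sum]
    refine sum_congr rfl fun a _ => ?_
    rw [prod_mul_distrib, ← psi_sum]
    simp only [hK, hσ, sum_dotProduct, smul_dotProduct, smul_eq_mul, Complex.ofReal_prod]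
  have hRzero : ∀ y, r w ⬝ᵥ y ≠ 0 → R y = 0 := by
    intro y hy
    obtain ⟨v, hv⟩ := hcov (x - y)
    rw [dotProduct_sub] at hv
    have hvw : v ≠ w := by
      rintro rfl
      apply hy
      rw [hxw] at hv
      linear_combination -hv
    rw [hRprod]
    refine prod_eq_zero (mem_univ v) ?_
    have : r v ⬝ᵥ y = r v ⬝ᵥ x - c v := by linear_combination -hv
    rw [this]
    exact hkzero v hvw
  have hinv : ∀ h : Fin n → ZMod p, ∑ y, ZMod.stdAddChar (-(h ⬝ᵥ y)) * R y =
      (Fintype.card (Fin n → ZMod p) : ℂ) * ((∑ a ∈ box.filter fun a => σ a = h, K a : ℝ) : ℂ) := by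
    intro h
    simp only [hR, mul_sum]
    rw [sum_comm, Complex.ofReal_sum, mul_sum, sum_filter]
    refine sum_congr rfl fun a _ => ?_
    have e : ∀ y : Fin n → ZMod p, ZMod.stdAddChar (-(h ⬝ᵥ y)) *
        ((K a : ℂ) * ZMod.stdAddChar (σ a ⬝ᵥ y)) = K a * ZMod.stdAddChar ((σ a - h) ⬝ᵥ y) := by
      intro y
      rw [sub_dotProduct, sub_eq_add_neg, AddChar.map_add_eq_mul]
      ring
    simp only [e, ← mul_sum]
    split_ifs with hh
    · simp [hh, mul_comm]
    · rw [orth _ (sub_ne_zero.2 hh), mul_zero]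
  have heq : ∑ y, ZMod.stdAddChar (-((g + t • r w) ⬝ᵥ y)) * R y =
      ∑ y, ZMod.stdAddChar (-(g ⬝ᵥ y)) * R y := by
    refine sum_congr rfl fun y _ => ?_
    by_cases hy : r w ⬝ᵥ y = 0
    · rw [add_dotProduct, smul_dotProduct, hy, smul_zero, add_zero]
    · rw [hRzero y hy, mul_zero, mul_zero]
  rw [hinv, hinv] at heq
  have hcard : (Fintype.card (Fin n → ZMod p) : ℂ) ≠ 0 := Nat.cast_ne_zero.2 Fintype.card_ne_zero
  have heq2 := Complex.ofReal_injective (mul_left_cancel₀ hcard heq)
  obtain ⟨a, ha, hag⟩ := mem_image.1 hg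
  have hpos : 0 < ∑ a ∈ box.filter fun a => σ a = g, K a :=
    sum_pos (fun a _ => hKpos a) ⟨a, mem_filter.2 ⟨ha, hag⟩⟩
  rw [← heq2] at hpos
  obtain ⟨b, hb⟩ := nonempty_of_sum_ne_zero hpos.ne'
  exact mem_image.2 ⟨b, (mem_filter.1 hb).1, (mem_filter.1 hb).2⟩

theorem avoid_of_weights (S : Finset (ZMod p)) (hS : HasWeights p S) (hne : S.Nonempty)
    (hcard : S.card ^ 2 < p) {n : ℕ} (A : Matrix (Fin n) (Fin n) (ZMod p)) (hA : IsUnit A.det)
    (c d : Fin n → ZMod p) :
    ∃ x : Fin n → ZMod p, (∀ i, x i ≠ c i) ∧ ∀ i, A.mulVec x i ≠ d i := by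
  classical
  by_contra hcon
  let M : Bool → Matrix (Fin n) (Fin n) (ZMod p) := fun b => if b then A else 1
  have hM : ∀ b, IsUnit (M b) := by
    intro b
    cases b
    · simp [M]
    · simpa [M] using (Matrix.isUnit_iff_isUnit_det A).2 hA
  let r : Bool × Fin n → Fin n → ZMod p := fun v => M v.1 v.2
  let e : Bool × Fin n → ZMod p := fun v => if v.1 then d v.2 else c v.2
  let Cov : Finset (Bool × Fin n) → Prop := fun V => ∀ x : Fin n → ZMod p, ∃ v ∈ V, r v ⬝ᵥ x = e v
  have hall : Cov univ := by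
    intro x
    by_contra h
    push Not at h
    apply hcon
    refine ⟨x, fun i hi => h (false, i) (mem_univ _) ?_, fun i hi => h (true, i) (mem_univ _) ?_⟩
    · have : r (false, i) ⬝ᵥ x = (1 : Matrix (Fin n) (Fin n) (ZMod p)).mulVec x i := rfl
      rw [this, one_mulVec]
      exact hi
    · exact hi
  obtain ⟨V, hV, hmin⟩ := exists_min_image ((univ : Finset (Finset (Bool × Fin n))).filter Cov)
    Finset.card ⟨univ, mem_filter.2 ⟨mem_univ _, hall⟩⟩
  have hVc : Cov V := (mem_filter.1 hV).2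
  have hVne : V.Nonempty := by
    obtain ⟨v, hv, -⟩ := hVc 0
    exact ⟨v, hv⟩
  set B := (Fintype.piFinset fun _ : V => S).image fun a => ∑ v : V, a v • r v with hB
  have hshift : ∀ w ∈ V, ∀ t : ZMod p, ∀ g ∈ B, g + t • r w ∈ B := by
    intro w hw t g hg
    have hnot : ¬ Cov (V.erase w) := by
      intro h
      have := hmin _ (mem_filter.2 ⟨mem_univ _, h⟩)
      rw [card_erase_of_mem hw] at this
      have := card_pos.2 hVne
      omega
    simp only [Cov, not_forall, not_exists, not_and] at hnot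
    obtain ⟨x, hx⟩ := hnot
    refine shift_mem S hS (fun v : V => r v) (fun v : V => e v) ?_ ⟨w, hw⟩ x ?_ t g hg
    · intro y
      obtain ⟨v, hv, h⟩ := hVc y
      exact ⟨⟨v, hv⟩, h⟩
    · intro v hv
      exact hx v (mem_erase.2 ⟨fun h => hv (Subtype.ext h), v.2⟩)
  have hBne : B.Nonempty := by
    obtain ⟨s, hs⟩ := hne
    exact ⟨_, mem_image.2 ⟨fun _ => s, Fintype.mem_piFinset.2 fun _ => hs, rfl⟩⟩
  obtain ⟨g, hg⟩ := hBne
  have hBcard : B.card ≤ S.card ^ V.card := by
    refine card_image_le.trans ?_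
    simp [Fintype.card_piFinset]
  have hlow : ∀ b : Bool, p ^ (univ.filter fun i : Fin n => (b, i) ∈ V).card ≤ B.card := by
    intro b
    let T := Fintype.piFinset fun i : Fin n =>
      if (b, i) ∈ V then (univ : Finset (ZMod p)) else {0}
    have hT : T.card = p ^ (univ.filter fun i : Fin n => (b, i) ∈ V).card := by
      rw [Fintype.card_piFinset]
      have : ∀ i : Fin n, (if (b, i) ∈ V then (univ : Finset (ZMod p)) else {0}).card =
          if (b, i) ∈ V then p else 1 := by
        intro i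
        split_ifs <;> simp
      simp only [this]
      rw [prod_ite, prod_const, prod_const_one, mul_one]
    rw [← hT]
    refine card_le_card_of_injOn (fun t => g + (M b).vecMul t) ?_ ?_
    · intro t ht
      have ht' := Fintype.mem_piFinset.1 ht
      have hsum : (M b).vecMul t = ∑ i, t i • r (b, i) := by
        rw [Matrix.vecMul_eq_sum]
      have key : ∀ g ∈ B, g + ∑ i, t i • r (b, i) ∈ B := by
        refine Finset.sum_induction _ (fun z => ∀ g ∈ B, g + z ∈ B) ?_ ?_ ?_
        · intro a b ha hb g hg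
          rw [← add_assoc]
          exact hb _ (ha g hg)
        · intro g hg
          simpa using hg
        · intro i _ g hg
          by_cases hi : (b, i) ∈ V
          · exact hshift _ hi _ g hg
          · have := ht' i
            rw [if_neg hi, mem_singleton] at this
            simpa [this] using hg
      simp only [hsum]
      exact_mod_cast key g hg
    · intro s _ t _ h
      exact vecMul_injective_of_isUnit (hM b) (add_left_cancel h)
  have hsplit : V.card = (univ.filter fun i : Fin n => (true, i) ∈ V).card +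
      (univ.filter fun i : Fin n => (false, i) ∈ V).card := by
    have h1 : V.card = ∑ v : Bool × Fin n, if v ∈ V then 1 else 0 := by simp
    rw [h1, Fintype.sum_prod_type]
    simp
  have hp : p ^ V.card ≤ (S.card ^ 2) ^ V.card := by
    calc p ^ V.card = p ^ (univ.filter fun i : Fin n => (true, i) ∈ V).card *
          p ^ (univ.filter fun i : Fin n => (false, i) ∈ V).card := by rw [hsplit, pow_add]
      _ ≤ B.card * B.card := Nat.mul_le_mul (hlow true) (hlow false)
      _ ≤ S.card ^ V.card * S.card ^ V.card := Nat.mul_le_mul hBcard hBcard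
      _ = (S.card ^ 2) ^ V.card := by ring
  have := Nat.pow_lt_pow_left hcard (card_pos.2 hVne).ne'
  omega

end Pool.Agent.MP_79429d_co
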