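import Pool.Agent.Mg.F79429d.G4a7d93

/-! The vanishing theorem with general weights. -/

set_option autoImplicit false

namespace Pool.Agent.AJT.G

open scoped Polynomial
open TensorProduct

section
variable {K E ι : Type} [Field K] [AddCommGroup E] [Module K E]

/-- The weights of the main grading. -/
def wT (p kw bw : ℕ) : Gen E ι → ℕ
  | .x _ => kw + bw
  | .d _ => kw + bw + p * bw
  | .k _ => p * kw

/-- The main grading. -/
noncomputable def tau (K E ι : Type) [Field K] [AddCommGroup E] [Module K E] (p kw bw : ℕ) :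
    Om K E ι →ₐ[K] (Om K E ι)[X] :=
  grad LinearMap.id (kw + bw) (kw + bw + p * bw) (fun _ => p * kw)

theorem xx_tau (p kw bw : ℕ) (e : E) :
    xx (K := K) ι e ∈ Hom (tau K E ι p kw bw) (kw + bw) := xx_Hom_left _ _ _ _ rfl
theorem dd_tau (p kw bw : ℕ) (e : E) :
    dd (K := K) ι e ∈ Hom (tau K E ι p kw bw) (kw + bw + p * bw) := dd_Hom_left _ _ _ _ rfl
theorem kk_tau (p kw bw : ℕ) (i : ι) : kk K E i ∈ Hom (tau K E ι p kw bw) (p * kw) :=
  kk_Hom _ _ _ (fun _ => p * kw) i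

theorem gen_tau (p kw bw : ℕ) (g : Gen E ι) : gen K g ∈ Hom (tau K E ι p kw bw) (wT p kw bw g) := by
  cases g with
  | x e => exact xx_tau p kw bw e
  | d e => exact dd_tau p kw bw e
  | k i => exact kk_tau p kw bw i

theorem pr_tau (p kw bw : ℕ) (l : List (Gen E ι)) : pr K l ∈ Hom (tau K E ι p kw bw) (wt (wT p kw bw) l) :=
  pr_Hom l fun g _ => gen_tau p kw bw g

theorem cp_tau_Sp (p kw bw k : ℕ) {Q : List (Gen E ι) → Prop} {a : Om K E ι} (ha : a ∈ Sp K Q) :
    cp (tau K E ι p kw bw) k a ∈ Sp K Q :=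
  Sp_mono (fun _ hl => hl.1) (cp_Sp (w := wT p kw bw) (fun _ _ g _ => gen_tau p kw bw g) k ha)

theorem cp_tau_Hom (p kw bw k : ℕ) (a : Om K E ι) : cp (tau K E ι p kw bw) k a ∈ Hom (tau K E ι p kw bw) k :=
  Sp_le_Hom (w := wT p kw bw) (fun _ hl => ⟨fun g _ => gen_tau p kw bw g, hl.2⟩)
    (cp_Sp (w := wT p kw bw) (fun _ _ g _ => gen_tau p kw bw g) k (mem_Sp_true a))

theorem DD_pr_tau (p kw bw : ℕ) (u : ι → E) (l : List (Gen E ι)) :
    DD p u (pr K l) ∈ Hom (tau K E ι p kw bw) (wt (wT p kw bw) l + p * bw) := by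
  refine der_pr_Hom (DD_isOdd p u).der (p * bw) l fun g _ =>
    ⟨gen_tau p kw bw g, par_Hom_gen (gen_tau p kw bw g), ?_⟩
  cases g with
  | x e => simpa [wT] using dd_tau (K := K) (ι := ι) p kw bw e
  | d e => simp
  | k i => simpa [wT, mul_add] using Hom_pow (xx_tau (K := K) (ι := ι) p kw bw (u i)) p

theorem cp_tau_DD (p kw bw : ℕ) (u : ι → E) (k : ℕ) (a : Om K E ι) :
    cp (tau K E ι p kw bw) (k + p * bw) (DD p u a) = DD p u (cp (tau K E ι p kw bw) k a) :=
  cp_lin (w := wT p kw bw) _ (p * bw) (fun l _ => ⟨pr_tau p kw bw l, DD_pr_tau p kw bw u l⟩) k (mem_Sp_true a)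

theorem cp_tau_DD_lt (p kw bw : ℕ) (u : ι → E) {k : ℕ} (hk : k < p * bw) (a : Om K E ι) :
    cp (tau K E ι p kw bw) k (DD p u a) = 0 :=
  cp_lin_lt (w := wT p kw bw) _ (p * bw) (fun l _ => DD_pr_tau p kw bw u l) hk (mem_Sp_true a)

theorem DD_tau (p kw bw : ℕ) (u : ι → E) {k : ℕ} {a : Om K E ι} (ha : a ∈ Hom (tau K E ι p kw bw) k) :
    DD p u a ∈ Hom (tau K E ι p kw bw) (k + p * bw) := by
  rw [← cp_self ha, ← cp_tau_DD]; exact cp_tau_Hom _ _ _ _ _

theorem cp_tau_alg (p kw bw : ℕ) (φ : Om K E ι →ₐ[K] Om K E ι)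
    (h : ∀ g, φ (gen K g) ∈ Hom (tau K E ι p kw bw) (wT p kw bw g)) (k : ℕ) (a : Om K E ι) :
    cp (tau K E ι p kw bw) k (φ a) = φ (cp (tau K E ι p kw bw) k a) :=
  cp_lin (w := wT p kw bw) φ.toLinearMap 0
    (fun l _ => ⟨pr_tau p kw bw l, map_pr_Hom φ l fun g _ => h g⟩) k (mem_Sp_true a)

theorem alg_tau (p kw bw : ℕ) (φ : Om K E ι →ₐ[K] Om K E ι)
    (h : ∀ g, φ (gen K g) ∈ Hom (tau K E ι p kw bw) (wT p kw bw g)) {k : ℕ} {a : Om K E ι}
    (ha : a ∈ Hom (tau K E ι p kw bw) k) : φ a ∈ Hom (tau K E ι p kw bw) k := by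
  rw [← cp_self ha, ← cp_tau_alg p kw bw φ h]; exact cp_tau_Hom _ _ _ _ _

theorem par_tau (p kw bw : ℕ) {k : ℕ} {a : Om K E ι}
    (ha : a ∈ Hom (tau K E ι p kw bw) k) : par a ∈ Hom (tau K E ι p kw bw) k :=
  alg_tau p kw bw par (fun g => par_Hom_gen (gen_tau p kw bw g)) ha

/-- Making a primitive homogeneous. -/
theorem exists_cp_DD (p kw bw : ℕ) (u : ι → E) (U : Submodule K (Om K E ι))
    (hU : ∀ k, ∀ a ∈ U, cp (tau K E ι p kw bw) k a ∈ U) (t : ℕ) {a : Om K E ι} (ha : a ∈ U) :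
    ∃ b ∈ U, cp (tau K E ι p kw bw) t (DD p u a) = DD p u b ∧
      (b = 0 ∨ ∃ k, k + p * bw = t ∧ b ∈ Hom (tau K E ι p kw bw) k) := by
  by_cases h : t < p * bw
  · exact ⟨0, U.zero_mem, by rw [cp_tau_DD_lt p kw bw u h, map_zero], Or.inl rfl⟩
  · obtain ⟨k, rfl⟩ : ∃ k, t = k + p * bw := ⟨t - p * bw, by omega⟩
    exact ⟨_, hU k a ha, cp_tau_DD p kw bw u k a, Or.inr ⟨k, rfl, cp_tau_Hom _ _ _ _ _⟩⟩

end

section
variable {K E ι : Type} [Field K] [AddCommGroup E] [Module K E]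
variable (p kw bw : ℕ) [Fact p.Prime] [CharP K p] [NeZero (2 : K)]

omit [CharP K p] [NeZero (2 : K)] in
theorem top_tau (y : E) :
    xx (K := K) ι y ^ (p - 1) * dd (K := K) ι y ∈ Hom (tau K E ι p kw bw) (p * (kw + 2 * bw)) := by
  have := Hom_mul (Hom_pow (xx_tau (K := K) (ι := ι) p kw bw y) (p - 1)) (dd_tau p kw bw y)
  obtain ⟨n, hn⟩ : ∃ n, p = n + 1 := ⟨p - 1, by have := (Fact.out : p.Prime).two_le; omega⟩
  rwa [show (p - 1) * (kw + bw) + (kw + bw + p * bw) = p * (kw + 2 * bw) by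
    rw [hn, Nat.add_sub_cancel]; ring] at this

theorem base_case [FiniteDimensional K E] [Fintype ι] [DecidableEq ι] (hK : ∀ r : K, r ^ p = r)
    (n : ℕ) : ∀ (X : Finset ι), X.card = n → ∀ (T : Submodule K E) (v : ι → E),
      Submodule.span K (v '' X) = T → ∀ t,
      p * (2 * bw * Module.finrank K T + kw * n) < t →
      ∀ a ∈ Fil K (gens T (X : Set ι)) 0 0, a ∈ Hom (tau K E ι p kw bw) t → DD p v a = 0 →
        ∃ b ∈ Fil K (gens T (X : Set ι)) 0 0, DD p v b = a := by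
  induction n using Nat.strong_induction_on with
  | _ n ih =>
  intro X hX T v hT t ht a ha hat hD
  by_cases h0 : ∀ i ∈ X, v i = 0
  · have hT0 : T = ⊥ := by
      rw [← hT, Submodule.span_eq_bot]
      rintro _ ⟨i, hi, rfl⟩
      exact h0 i hi
    have h1 : a ∈ Fil K {g | ∃ i ∈ X, g = .k i} 0 0 := by
      refine Fil_le (fun g hg => ?_) 0 ha
      cases g with
      | x e =>
        have : e = 0 := by simpa [hT0] using hg
        simp [this]
      | d e =>
        have : e = 0 := by simpa [hT0] using hg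
        simp [this]
      | k i => exact gen_mem_Fil ⟨i, hg, rfl⟩ le_rfl
    have h2 := cp_Sp (G := tau K E ι p kw bw) (w := wT p kw bw) (fun _ _ g _ => gen_tau p kw bw g) t h1
    rw [cp_self hat] at h2
    refine ⟨0, Submodule.zero_mem _, ?_⟩
    rw [map_zero]
    refine Sp_ext 0 LinearMap.id (fun l hl => ?_) h2
    by_contra hne
    have h3 := wt_le_sum (K := K) (fun i => (.k i : Gen E ι)) (fun _ => trivial)
      (fun i => if i ∈ X then p * kw else 0) (w := wT p kw bw) (l := l) (fun h => hne (by simp [h]))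
      (fun g hg => by
        obtain ⟨i, hi, rfl⟩ := hl.1.1 g hg
        exact Or.inr ⟨i, rfl, by simp [hi, wT]⟩)
    simp only [Finset.sum_ite_mem, Finset.univ_inter, Finset.sum_const, smul_eq_mul, hX,
      hl.2] at h3
    have h4 : n * (p * kw) ≤ p * (2 * bw * Module.finrank K T + kw * n) := by
      rw [mul_add, show n * (p * kw) = p * (kw * n) by ring]; omega
    omega
  push Not at h0
  obtain ⟨i, hi, hy0⟩ := h0
  obtain ⟨f, hf, -⟩ := exists_functional (K := K) (S := ⊥) (y := v i) (by simpa using hy0)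
  have hvT : ∀ j ∈ X, v j ∈ T := fun j hj => hT ▸ Submodule.subset_span ⟨j, hj, rfl⟩
  let π := prj f (v i)
  let v' : ι → E := fun j => if j = i then v i else π (v j)
  have hv'i : v' i = v i := by simp [v']
  let T' := T.map π
  have hlt : T' < T := prj_map_lt hf (hvT i hi)
  have hXe : (X : Set ι) = insert i (X.erase i : Set ι) := by
    rw [← Finset.coe_insert, Finset.insert_erase hi]
  have hT' : Submodule.span K (v' '' (X.erase i)) = T' := by
    apply le_antisymm
    · rw [Submodule.span_le]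
      rintro _ ⟨j, hj, rfl⟩
      have hj' := Finset.mem_erase.1 (Finset.mem_coe.1 hj)
      simp only [v', if_neg hj'.1]
      exact Submodule.mem_map_of_mem (hvT j hj'.2)
    · simp only [T']
      rw [← hT, Submodule.map_span, Submodule.span_le]
      rintro _ ⟨_, ⟨j, hj, rfl⟩, rfl⟩
      by_cases hji : j = i
      · subst hji; simp [π, prj_self hf]
      · exact Submodule.subset_span ⟨j, by simpa [hji] using hj, by simp [v', hji]⟩
  let α : Om K E ι →ₐ[K] Om K E ι := endo LinearMap.id LinearMap.id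
    (fun j => if j = i then kk K E i else kk K E j - f (v j) • kk K E i) (fun j => by
      split_ifs
      exacts [kk_mem_O1 i, Submodule.sub_mem _ (kk_mem_O1 j) (Submodule.smul_mem _ _ (kk_mem_O1 i))])
  let β : Om K E ι →ₐ[K] Om K E ι := endo LinearMap.id LinearMap.id
    (fun j => if j = i then kk K E i else kk K E j + f (v j) • kk K E i) (fun j => by
      split_ifs
      exacts [kk_mem_O1 i, Submodule.add_mem _ (kk_mem_O1 j) (Submodule.smul_mem _ _ (kk_mem_O1 i))])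
  have hαβ : ∀ c, α (β c) = c := alg_ext (α.comp β) (AlgHom.id K _) (fun g => by
    cases g with
    | x e => simp [α, β]
    | d e => simp [α, β]
    | k j => by_cases h : j = i <;> simp [α, β, h])
  have hβα : ∀ c, β (α c) = c := alg_ext (β.comp α) (AlgHom.id K _) (fun g => by
    cases g with
    | x e => simp [α, β]
    | d e => simp [α, β]
    | k j => by_cases h : j = i <;> simp [α, β, h])
  have hDα : ∀ c, DD p v (α c) = α (DD p v' c) := by
    intro c
    have := der_zero_all ((DD p v).comp α.toLinearMap - α.toLinearMap.comp (DD p v'))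
      (fun c => par (α c)) α (fun a b => by
        simp only [LinearMap.sub_apply, LinearMap.comp_apply, AlgHom.toLinearMap_apply, map_mul,
          (DD_isOdd p v).der _ _, (DD_isOdd p v').der _ _, map_add, α, endo_par]
        noncomm_ring)
      (by simp [(DD_isOdd (K := K) p v).der.one, (DD_isOdd (K := K) p v').der.one])
      (fun g => by
        cases g with
        | x e => simp [α]
        | d e => simp [α]
        | k j =>
          by_cases h : j = i
          · simp [α, h, v']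
          · have h1 := xx_add_pow (K := K) (ι := ι) p (π (v j)) (f (v j) • v i)
            rw [show π (v j) + f (v j) • v i = v j by simp [π, prj_apply], map_smul, smul_pow,
              hK] at h1
            simp [α, h, v', h1]) c
    simpa [sub_eq_zero] using this
  have hFil : ∀ φ : Om K E ι →ₐ[K] Om K E ι, (φ = α ∨ φ = β) →
      (∀ c ∈ Fil K (gens T (X : Set ι)) 0 0, φ c ∈ Fil K (gens T (X : Set ι)) 0 0) ∧
      ∀ g, φ (gen K g) ∈ Hom (tau K E ι p kw bw) (wT p kw bw g) := by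
    intro φ hφ
    have h1 : ∀ U : Submodule K (Om K E ι), ∀ j, kk K E i ∈ U → kk K E j ∈ U →
        φ (kk K E j) ∈ U := by
      intro U j h1 h2
      rcases hφ with rfl | rfl
      · simp only [α, endo_kk]
        split_ifs
        exacts [h1, U.sub_mem h2 (U.smul_mem _ h1)]
      · simp only [β, endo_kk]
        split_ifs
        exacts [h1, U.add_mem h2 (U.smul_mem _ h1)]
    have h2 : ∀ e, φ (xx (K := K) ι e) = xx (K := K) ι e := by
      intro e; rcases hφ with rfl | rfl <;> simp [α, β]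
    have h3 : ∀ e, φ (dd (K := K) ι e) = dd (K := K) ι e := by
      intro e; rcases hφ with rfl | rfl <;> simp [α, β]
    refine ⟨fun c hc => Fil_map φ (fun g hg => ?_) hc, fun g => ?_⟩
    · cases g with
      | x e => rw [gen_x, h2]; exact gen_mem_Fil (g := .x e) hg le_rfl
      | d e => rw [gen_d, h3]; exact gen_mem_Fil (g := .d e) hg le_rfl
      | k j =>
        exact h1 _ j (gen_mem_Fil (g := .k i) hi le_rfl) (gen_mem_Fil (g := .k j) hg le_rfl)
    · cases g with
      | x e => rw [gen_x, h2]; exact xx_tau p kw bw e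
      | d e => rw [gen_d, h3]; exact dd_tau p kw bw e
      | k j => exact h1 _ j (kk_tau p kw bw i) (kk_tau p kw bw j)
  have ha' := (hFil β (Or.inr rfl)).1 a ha
  have hat' := alg_tau p kw bw β (hFil β (Or.inr rfl)).2 hat
  have hD' : DD p v' (β a) = 0 := by rw [← hβα (DD p v' (β a)), ← hDα, hαβ, hD, map_zero]
  have hv'T : ∀ j ∈ (X.erase i : Set ι), v' j ∈ T' := fun j hj =>
    hT' ▸ Submodule.subset_span ⟨j, hj, rfl⟩
  obtain ⟨b, hb, a0, ha0, a1, ha1, hD0, hD1, hab⟩ := base_step p hK (T := T) (T' := T')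
    (X := (X.erase i : Set ι)) (i := i) (by simp) (v := v') (f := f) (by rw [hv'i, hf])
    (by rw [hv'i]; exact hvT i hi) hlt.le
    (by rintro _ ⟨e, _, rfl⟩; simp [π, prj_apply, hf])
    (fun e he => by rw [hv'i]; exact Submodule.mem_map_of_mem he) hv'T (hXe ▸ ha') hD'
  rw [← hXe] at hb
  have hdim : Module.finrank K T' < Module.finrank K T := Submodule.finrank_lt_finrank_of_lt hlt
  have hn : 0 < n := hX ▸ Finset.card_pos.2 ⟨i, hi⟩
  have hcard : (X.erase i).card = n - 1 := by rw [Finset.card_erase_of_mem hi, hX]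
  have hineq : p * (2 * bw * Module.finrank K T' + kw * (n - 1)) + p * (kw + 2 * bw)
      ≤ p * (2 * bw * Module.finrank K T + kw * n) := by
    rw [← mul_add]
    refine Nat.mul_le_mul_left _ ?_
    have a1 := Nat.mul_le_mul_left (2 * bw) (Nat.succ_le_of_lt hdim)
    have a2 : kw * n = kw * (n - 1) + kw := by
      rw [← Nat.mul_succ]; congr 1; omega
    rw [Nat.mul_succ] at a1
    omega
  obtain ⟨t', rfl⟩ : ∃ t', t = t' + p * (kw + 2 * bw) := ⟨t - p * (kw + 2 * bw), by omega⟩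
  have hcl : ∀ k c, DD p v' c = 0 → DD p v' (cp (tau K E ι p kw bw) k c) = 0 := fun k c hc => by
    rw [← cp_tau_DD, hc, map_zero]
  obtain ⟨e0, he0, he0'⟩ := ih (n - 1) (by omega) _ hcard T' v' hT' (t' + p * (kw + 2 * bw)) (by omega) _
    (cp_tau_Sp p kw bw _ ha0) (cp_tau_Hom p kw bw _ _) (hcl _ _ hD0)
  obtain ⟨e1, he1, he1'⟩ := ih (n - 1) (by omega) _ hcard T' v' hT' t' (by omega) _
    (cp_tau_Sp p kw bw _ ha1) (cp_tau_Hom p kw bw _ _) (hcl _ _ hD1)
  obtain ⟨b', hb', hb'', -⟩ := exists_cp_DD p kw bw v' _ (fun k c hc => cp_tau_Sp p kw bw k hc)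
    (t' + p * (kw + 2 * bw)) hb
  have hsub : Fil K (gens T' (X.erase i : Set ι)) 0 0 ≤ Fil K (gens T (X : Set ι)) 0 0 :=
    Fil_le_zero (gens_mono hlt.le (by simp))
  have htop : xx (K := K) ι (v' i) ^ (p - 1) * dd (K := K) ι (v' i)
      ∈ Fil K (gens T (X : Set ι)) 0 0 := by
    have hy : v' i ∈ T := by rw [hv'i]; exact hvT i hi
    exact Fil_mul (pow_mem_Fil (gen_mem_Fil (g := .x (v' i)) hy le_rfl) _)
      (gen_mem_Fil (g := .d (v' i)) hy le_rfl) (Nat.zero_le _)
  refine ⟨α (b' + e0 - xx (K := K) ι (v' i) ^ (p - 1) * dd (K := K) ι (v' i) * e1),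
    (hFil α (Or.inl rfl)).1 _ (Submodule.sub_mem _ (Submodule.add_mem _ hb' (hsub he0))
      (Fil_mul htop (hsub he1) le_rfl)), ?_⟩
  rw [hDα, ← hαβ a]
  congr 1
  rw [← cp_self hat', hab, map_add, map_add, hb'', cp_Hom_mul (top_tau p kw bw _), ← he0', ← he1',
    map_sub, map_add, (DD_isOdd p v').der (_ * _), DD_top, map_mul, map_pow, par_xx, par_dd]
  simp

end

/-- The numerical condition on the weights. -/
structure Num (p kw bw g0 : ℕ) : Prop where
  pos : 0 < bw
  bd : g0 * (kw + 2 * bw) ≤ p + g0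

theorem Num.le' {p kw bw g0 : ℕ} (h : Num p kw bw g0) : g0 * (kw + bw) ≤ p := by
  have h1 := h.bd
  have h2 : g0 * 1 ≤ g0 * bw := Nat.mul_le_mul_left _ h.pos
  rw [show kw + 2 * bw = kw + bw + bw by ring, mul_add] at h1
  omega

theorem Num.le {p kw bw g0 : ℕ} (h : Num p kw bw g0) : g0 * kw ≤ p := by
  have := h.le'
  rw [mul_add] at this
  omega

theorem Num.key {p kw bw g0 q h m s n0 : ℕ} (H : Num p kw bw g0) (hs : 1 ≤ s) (hh : h ≤ s)
    (hq : q = 0 → h = 0) (hm : p * q + g0 * kw * m + 1 ≤ g0 * n0) :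
    (kw + bw) * q + bw * h + kw * m + bw ≤ bw * s + n0 := by
  have a0 : kw * m < n0 := by
    refine lt_of_mul_lt_mul_left (a := g0) ?_ (Nat.zero_le _)
    rw [← mul_assoc]; omega
  rcases q with _ | q
  · have a1 : bw * 1 ≤ bw * s := Nat.mul_le_mul_left _ hs
    rw [hq rfl]; omega
  · have a1 : bw * h ≤ bw * s := Nat.mul_le_mul_left _ hh
    by_contra hc
    have a2 : n0 + 1 ≤ (kw + bw) * q + (kw + 2 * bw) + kw * m := by
      rw [Nat.mul_succ] at hc; omega
    have a3 := Nat.mul_le_mul_left g0 a2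
    have a4 := Nat.mul_le_mul_right q H.le'
    have a5 := H.bd
    nlinarith

section
variable {K E ι : Type} [Field K] [AddCommGroup E] [Module K E]
variable [Fintype ι] [DecidableEq ι] [FiniteDimensional K E]
  (p kw bw : ℕ) [Fact p.Prime] [CharP K p] [NeZero (2 : K)]
variable {T S : Submodule K E} {σ : E →ₗ[K] E} {X : Set ι} {v : ι → E}

open Classical in
theorem YY_bound (hK : ∀ r : K, r ^ p = r) {g0 : ℕ} (hp : Num p kw bw g0) (h : Spl T S σ)
    (hs : 1 ≤ Module.finrank K S) {c : ι → ℕ}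
    (hc : ∀ i ∈ X, c i ≤ g0 * kw) {y : ι} {n0 : ℕ}
    (hm : mass S v c + (∑ i, if i ∈ X ∧ v i ∈ S ∧ i ≠ y then g0 * kw - c i else 0) + 1
      ≤ g0 * n0)
    (u : ι → E) {z : Om K E ι} (hz : z ∈ YY S σ X v c y) (hE : EE p u σ z = 0) {j : ℕ}
    (hj : p * (bw * Module.finrank K S + n0) < j + p * bw)
    (hzj : z ∈ Hom (tau K E ι p kw bw) j) : z = 0 := by
  let b := Module.finBasis K S
  let lg : Set (Gen E ι) := {g | (∃ j, g = .x (b j)) ∨ (∃ j, g = .d (b j)) ∨
    ∃ i, (i ∈ X ∧ v i ∈ S) ∧ g = .k i}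
  have hlg : lg ⊆ gens S {i ∈ X | v i ∈ S} := by
    rintro g (⟨j, rfl⟩ | ⟨j, rfl⟩ | ⟨i, hi, rfl⟩)
    exacts [(b j).2, (b j).2, hi]
  have hlg' : gens S {i ∈ X | v i ∈ S} ⊆ hgens T S σ X := by
    intro g hg
    cases g with
    | x e => exact Or.inl hg
    | d e => exact Or.inl hg
    | k i => exact hg.1
  have h1 : z ∈ Fil K lg (ws S v c) (mass S v c) := by
    refine Fil_le (fun g hg => ?_) _ (mem_KK.1 (mem_FF.1 hz.2).1 S le_rfl)
    have hrep : ∀ e ∈ S, ∃ r : Fin (Module.finrank K S) → K, e = ∑ j, r j • (b j : E) := by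
      intro e he
      refine ⟨fun j => b.repr ⟨e, he⟩ j, ?_⟩
      have := congrArg (fun s : S => (s : E)) (b.sum_repr ⟨e, he⟩)
      simp only [Submodule.coe_sum, Submodule.coe_smul] at this
      exact this.symm
    cases g with
    | x e =>
      obtain ⟨r, hr⟩ := hrep e hg
      rw [gen_x, ws_x, if_pos (show e ∈ S from hg), hr, map_sum]
      refine Submodule.sum_mem _ fun j _ => ?_
      rw [map_smul]
      exact Submodule.smul_mem _ _ (gen_mem_Fil (g := .x (b j : E)) (Or.inl ⟨j, rfl⟩)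
        (by simp [ws_x]))
    | d e =>
      obtain ⟨r, hr⟩ := hrep e hg
      rw [gen_d, ws_d, if_pos (show e ∈ S from hg), hr, map_sum]
      refine Submodule.sum_mem _ fun j _ => ?_
      rw [map_smul]
      exact Submodule.smul_mem _ _
        (gen_mem_Fil (g := .d (b j : E)) (Or.inr (Or.inl ⟨j, rfl⟩)) (by simp [ws_d]))
    | k i => exact gen_mem_Fil (Or.inr (Or.inr ⟨i, hg, rfl⟩)) le_rfl
  have h2 := cp_Sp (G := gS S σ v (c + Pi.single y 1)) (w := ws S v (c + Pi.single y 1))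
    (fun l hl g hg => hgens_Hom h _ g (hlg' (hlg (hl.1 g hg)))) (mass S v c) h1
  rw [cp_self hz.1] at h2
  have h3 := PP_Sp p hK u σ (w := w3 1 1 0)
    (fun l hl g hg => EE_left p h u _ g (hlg (hl.1.1 g hg))) h2
  rw [PP_of_EE p u σ hE] at h3
  have h4 := cp_Sp (G := tau K E ι p kw bw) (w := wT p kw bw) (fun _ _ g _ => gen_tau p kw bw g) j h3
  rw [cp_self hzj] at h4
  refine Sp_ext LinearMap.id 0 (fun l hl => ?_) h4
  by_contra hne
  obtain ⟨⟨⟨⟨hl, hl1⟩, hl2⟩, q, hl3⟩, hl4⟩ := hl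
  have e1 : wt (wT p kw bw) l = (kw + bw) * wt (w3 1 1 0) l + p * bw * wt (w3 0 1 0) l
      + p * kw * wt (w3 0 0 1) l := by
    rw [← wt_mul, ← wt_mul, ← wt_mul, ← wt_add, ← wt_add]
    refine wt_congr fun g _ => ?_
    cases g <;> simp [wT, w3]
  have e2 : wt (ws S v c) l = wt (w3 1 1 0) l + wt (w3 0 0 c) l := by
    rw [← wt_add]
    refine wt_congr fun g hg => ?_
    rcases hl g hg with ⟨j, rfl⟩ | ⟨j, rfl⟩ | ⟨i, hi, rfl⟩
    · simp [ws_x, w3]
    · simp [ws_d, w3]
    · simp [ws_k, w3, hi.2]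
  have e3 : wt (ws S v (c + Pi.single y 1)) l
      = wt (ws S v c) l + wt (w3 0 0 (Pi.single y 1)) l := by
    rw [← wt_add]
    refine wt_congr fun g hg => ?_
    rcases hl g hg with ⟨j, rfl⟩ | ⟨j, rfl⟩ | ⟨i, hi, rfl⟩
    · simp [ws_x, w3]
    · simp [ws_d, w3]
    · simp [ws_k, w3, hi.2]
  have e4 : wt (w3 0 0 (fun i => g0 * kw - c i)) l + wt (w3 0 0 c) l
      = g0 * kw * wt (w3 0 0 1) l := by
    rw [← wt_add, ← wt_mul]
    refine wt_congr fun g hg => ?_
    rcases hl g hg with ⟨j, rfl⟩ | ⟨j, rfl⟩ | ⟨i, hi, rfl⟩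
    · simp [w3]
    · simp [w3]
    · have := hc i hi.1; simp [w3]; omega
  have e0 : wt (w3 1 1 0) l = wt (w3 1 0 0) l + wt (w3 0 1 0) l := by
    rw [← wt_add]
    refine wt_congr fun g _ => ?_
    cases g <;> simp [w3]
  have e5 : Gen.k y ∉ l := fun hm => by
    have := le_wt (w3 0 0 (Pi.single y 1)) hm
    simp only [w3, Pi.single_eq_same] at this
    omega
  have e6 := wt_le_sum (K := K) (fun j => (.d (b j) : Gen E ι)) (fun _ => trivial) (fun _ => 1)
    (w := w3 0 1 0) (l := l) hne (fun g hg => by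
      rcases hl g hg with ⟨j, rfl⟩ | ⟨j, rfl⟩ | ⟨i, hi, rfl⟩
      · exact Or.inl rfl
      · exact Or.inr ⟨j, rfl, le_rfl⟩
      · exact Or.inl rfl)
  have e7 := wt_le_sum (K := K) (fun i => (.k i : Gen E ι)) (fun _ => trivial)
    (fun i => if i ∈ X ∧ v i ∈ S ∧ i ≠ y then g0 * kw - c i else 0)
    (w := w3 0 0 (fun i => g0 * kw - c i)) (l := l) hne (fun g hg => by
      rcases hl g hg with ⟨j, rfl⟩ | ⟨j, rfl⟩ | ⟨i, hi, rfl⟩
      · exact Or.inl rfl
      · exact Or.inl rfl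
      · have : i ≠ y := fun h => e5 (h ▸ hg)
        exact Or.inr ⟨i, rfl, by simp [w3, hi.1, hi.2, this]⟩)
  simp only [Finset.sum_const, Finset.card_univ, Fintype.card_fin, smul_eq_mul, mul_one] at e6
  have e8 : p * q + g0 * kw * wt (w3 0 0 1) l + 1 ≤ g0 * n0 := by omega
  have e9 := hp.key hs e6 (fun hq => by rw [hq, mul_zero] at hl3; omega) e8
  have e10 := Nat.mul_le_mul_left p e9
  rw [← hl4, e1, hl3] at hj
  nlinarith

open Classical in
theorem graded_exact (hK : ∀ r : K, r ^ p = r) {g0 : ℕ} (hp : Num p kw bw g0) (h : Spl T S σ)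
    (hs0 : 1 ≤ Module.finrank K S)
    (hv : ∀ i ∈ X, v i ∈ T) {c : ι → ℕ} (hc : ∀ i ∈ X, c i ≤ g0 * kw) {y : ι} {n0 : ℕ}
    (hm : mass S v c + (∑ i, if i ∈ X ∧ v i ∈ S ∧ i ≠ y then g0 * kw - c i else 0) + 1
      ≤ g0 * n0)
    {N' t0 : ℕ} (ht0 : p * N' + p * (bw * Module.finrank K S + n0) < t0 + p * bw)
    (habs : ∀ t, p * N' < t → ∀ a ∈ WW T S σ X v c, a ∈ Hom (tau K E ι p kw bw) t →
      DD p (fun i => (LinearMap.id - σ : E →ₗ[K] E) (v i)) a = 0 →
      ∃ b ∈ WW T S σ X v c, DD p (fun i => (LinearMap.id - σ : E →ₗ[K] E) (v i)) b = a)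
    {a : Om K E ι} (ha : a ∈ (TS (YY S σ X v c y) (WW T S σ X v c)).map mu)
    (hat : a ∈ Hom (tau K E ι p kw bw) t0)
    (hD : DD p (fun i => (LinearMap.id - σ : E →ₗ[K] E) (v i)) a = 0) :
    ∃ b ∈ (TS (YY S σ X v c y) (WW T S σ X v c)).map mu,
      DD p (fun i => (LinearMap.id - σ : E →ₗ[K] E) (v i)) b = a := by
  set u : ι → E := fun i => (LinearMap.id - σ : E →ₗ[K] E) (v i) with hu
  set Y := YY S σ X v c y with hY
  set W := WW T S σ X v c with hW
  set U := (TS Y W).map mu with hU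
  have hp0 := (Fact.out : p.Prime).pos
  let AL := gens (ι := ι) S {i ∈ X | v i ∈ S}
  let AR := gens (ι := ι) (T.map (LinearMap.id - σ)) {i ∈ X | v i ∉ S}
  have hYL : Y ≤ Fil K AL 0 0 := fun z hz => KK_le_zero (mem_FF.1 hz.2).1
  have hWR : W ≤ Fil K AR 0 0 := KK_le_zero
  have hAL : AL ⊆ hgens T S σ X := by
    intro g hg
    cases g with
    | x e => exact Or.inl hg
    | d e => exact Or.inl hg
    | k i => exact hg.1
  have hσ0 : ∀ e ∈ T.map (LinearMap.id - σ), σ e = 0 := by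
    rintro _ ⟨e, _, rfl⟩
    simp [h.fix _ (h.mem e)]
  have hL : ∀ g ∈ AL, gR σ {i | v i ∈ S} g = 0 := by
    intro g hg
    cases g with
    | x e => simp [gR, h.fix e hg]
    | d e => simp [gR, h.fix e hg]
    | k i => simp [gR, hg.2]
  have hR : ∀ g ∈ AR, gL σ {i | v i ∈ S} g = 0 := by
    intro g hg
    cases g with
    | x e => simp [gL, hσ0 e hg]
    | d e => simp [gL, hσ0 e hg]
    | k i => simp [gL, hg.2]
  have hHom : ∀ {δ : Om K E ι →ₗ[K] Om K E ι}, IsOdd δ →
      (∀ g ∈ AL, δ (gen K g) ∈ Hom (gS S σ v (c + Pi.single y 1))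
        (ws S v (c + Pi.single y 1) g)) →
      ∀ z ∈ Y, δ z ∈ Hom (gS S σ v (c + Pi.single y 1)) (mass S v c) := by
    intro δ hδ hg z hz
    have h1 := cp_Sp (G := gS S σ v (c + Pi.single y 1)) (w := ws S v (c + Pi.single y 1))
      (fun l hl g hg => hgens_Hom h _ g (hAL (hl.1 g hg))) (mass S v c) (hYL hz)
    rw [cp_self hz.1] at h1
    refine Sp_map δ (fun l hl => ?_) h1
    rw [← hl.2]
    exact der_pr_Hom hδ.der 0 l fun g hg' => ⟨hgens_Hom h _ g (hAL (hl.1.1 g hg')),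
      par_Hom_gen (hgens_Hom h _ g (hAL (hl.1.1 g hg'))), hg g (hl.1.1 g hg')⟩
  have hu0 : ∀ i, v i ∈ S → xx (K := K) ι (u i) ^ p = 0 := fun i hi => by
    simp [hu, h.fix _ hi, hp0.ne']
  have hDY : ∀ z ∈ Y, DD p u z ∈ Y := fun z hz => ⟨hHom (DD_isOdd p u) (fun g hg => by
      cases g with
      | x e => rw [gen_x, DD_xx]; exact hgens_Hom (X := X) h _ (.d e) (Or.inl hg)
      | d e => simp
      | k i => simp [hu0 i hg.2]) z hz,
    FF_stable (fun S' c0 _ k a ha => DD_Fil p (fun i hi => by simp [hu0 i hi.2]) ha) hz.2⟩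
  have hhY : ∀ z ∈ Y, hh ι σ z ∈ Y := fun z hz => ⟨hHom (hh_isOdd σ) (fun g hg => by
      cases g with
      | x e => simp
      | d e => rw [gen_d, hh_dd, h.fix e hg]; exact hgens_Hom (X := X) h _ (.x e) (Or.inl hg)
      | k i => simp) z hz,
    FF_stable (fun S' c0 _ k a ha => Fil_odd (hh_isOdd σ) 0 0 (fun g hg => by
      cases g with
      | x e => simp
      | d e => rw [gen_d, hh_dd, h.fix e hg]; exact gen_mem_Fil (g := .x e) hg le_rfl
      | k i => simp) ha) hz.2⟩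
  have hEY : ∀ z ∈ Y, EE p u σ z ∈ Y := fun z hz =>
    Submodule.add_mem _ (hDY _ (hhY z hz)) (hhY _ (hDY z hz))
  have hSpY : ∀ Φ : Om K E ι →ₗ[K] Om K E ι,
      (∀ Q, ∀ a ∈ Sp K Q, Φ a ∈ Sp K Q) → ∀ z ∈ Y, Φ z ∈ Y := by
    intro Φ hΦ z hz
    refine ⟨?_, FF_stable (fun S' c0 _ k a ha => hΦ _ a ha) hz.2⟩
    have h1 := cp_Sp (G := gS S σ v (c + Pi.single y 1)) (w := ws S v (c + Pi.single y 1))
      (fun l hl g hg => hgens_Hom h _ g (hAL (hl.1 g hg))) (mass S v c) (hYL hz)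
    rw [cp_self hz.1] at h1
    exact Sp_le_Hom (fun l hl => ⟨fun g hg => hgens_Hom h _ g (hAL (hl.1.1 g hg)), hl.2⟩)
      (hΦ _ z h1)
  have hparY : ∀ z ∈ Y, par z ∈ Y := hSpY par.toLinearMap (fun _ _ ha => Sp_par ha)
  have hcpY : ∀ k, ∀ z ∈ Y, cp (tau K E ι p kw bw) k z ∈ Y := fun k =>
    hSpY _ (fun _ _ ha => cp_tau_Sp p kw bw k ha)
  have hcpW : ∀ k, ∀ z ∈ W, cp (tau K E ι p kw bw) k z ∈ W := fun k z hz =>
    KK_stable (fun _ _ _ _ ha => cp_tau_Sp p kw bw k ha) hz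
  have hDW : ∀ z ∈ W, DD p u z ∈ W := fun z hz =>
    KK_stable (fun _ _ _ _ ha => DD_Fil_self p
      (fun i hi => Submodule.mem_map_of_mem (hv i hi.1))
      (fun i hi => by
        have := hc i hi.1; have := hp.le; simp only [cOut]; split_ifs <;> omega) ha) hz
  have hhR : ∀ b ∈ W, hh ι σ b = 0 := fun b hb =>
    Fil_der_zero (hh_isOdd σ).der (fun g hg => by
      cases g with
      | x e => simp
      | d e => simp [hσ0 e hg]
      | k i => simp) (hWR hb)
  have hER : ∀ b ∈ W, EE p u σ b = 0 := fun b hb => by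
    rw [EE_apply, hhR b hb, hhR _ (hDW b hb)]; simp
  have hEn : ∀ n z, ∀ b ∈ W, (EE p u σ ^ n) (z * b) = (EE p u σ ^ n) z * b := by
    intro n z b hb
    induction n with
    | zero => simp
    | succ n ih =>
      rw [pow_succ', Module.End.mul_apply, Module.End.mul_apply, ih, EE_isDer, hER b hb]; simp
  have hcpU : ∀ k, ∀ a ∈ U, cp (tau K E ι p kw bw) k a ∈ U := by
    rintro k _ ⟨t, ht, rfl⟩
    refine TS_map ((cp (tau K E ι p kw bw) k).comp mu) (fun z hz b hb => ?_) ht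
    rw [LinearMap.comp_apply, mu_tmul, cp_mul]
    exact Submodule.sum_mem _ fun x _ =>
      ⟨_, tmul_mem_TS (hcpY _ z hz) (hcpW _ b hb), mu_tmul _ _⟩
  obtain ⟨t, ht, rfl⟩ := ha
  let Y0 := Y ⊓ LinearMap.ker (EE p u σ)
  let t1 := TensorProduct.map (PP p u σ) LinearMap.id t
  have ht1 : t1 ∈ TS Y0 W := TS_map _ (fun z hz b hb => tmul_mem_TS (U := Y0)
    ⟨Submodule.sub_mem _ hz (pow_apply_mem _ hEY _ hz), EE_PP p hK u σ (w := w3 1 1 0)
      (fun l hl g hg => EE_left p h u _ g (hl.1 g hg)) (hYL hz)⟩ hb) ht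
  have hmu1 : mu t1 = PP p u σ (mu t) :=
    TS_ext (mu.comp (TensorProduct.map (PP p u σ) LinearMap.id)) ((PP p u σ).comp mu)
      (fun z _ b hb => by simp [PP_apply, hEn _ z b hb, sub_mul]) ht
  have hs1 : hh ι σ ((EE p u σ ^ (p - 2)) (mu t)) ∈ U :=
    TS_map ((hh ι σ).comp ((EE p u σ ^ (p - 2)).comp mu)) (N := U) (fun z hz b hb =>
      ⟨_, tmul_mem_TS (hhY _ (pow_apply_mem _ hEY (p - 2) hz)) hb, by
        simp [hEn _ z b hb, (hh_isOdd σ).der _ b, hhR b hb]⟩) ht
  have he := euler_exact p u σ hD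
  obtain ⟨b1, hb1, hb1', -⟩ := exists_cp_DD p kw bw u U hcpU t0 hs1
  let Φ : Om K E ι ⊗[K] Om K E ι →ₗ[K] Om K E ι ⊗[K] Om K E ι :=
    ∑ x ∈ Finset.HasAntidiagonal.antidiagonal t0,
      TensorProduct.map (cp (tau K E ι p kw bw) x.1) (cp (tau K E ι p kw bw) x.2)
  have hΦ : ∀ s, mu (Φ s) = cp (tau K E ι p kw bw) t0 (mu s) := by
    intro s
    induction s with
    | zero => simp
    | tmul a b => simp [Φ, LinearMap.sum_apply, map_sum, cp_mul]
    | add a b ha hb => simp [ha, hb]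
  have hEcp : ∀ k z, EE p u σ (cp (tau K E ι p kw bw) k z) = cp (tau K E ι p kw bw) k (EE p u σ z) :=
    fun k z => (cp_lin (w := wT p kw bw) (EE p u σ) 0 (fun l _ => ⟨pr_tau p kw bw l,
      der_pr_Hom (EE_isDer p u σ) 0 l fun g _ => ⟨gen_tau p kw bw g, gen_tau p kw bw g, by
        cases g with
        | x e => rw [gen_x, EE_xx]; exact xx_tau p kw bw _
        | d e => rw [gen_d, EE_dd]; exact dd_tau p kw bw _
        | k i => simp⟩⟩) k (mem_Sp_true z)).symm
  have ht2 : Φ t1 ∈ TG (fun j => Y0 ⊓ Hom (tau K E ι p kw bw) j) (fun j => W ⊓ Hom (tau K E ι p kw bw) j)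
      t0 0 := by
    refine TS_map Φ (fun z hz b hb => ?_) ht1
    simp only [Φ, LinearMap.sum_apply, TensorProduct.map_tmul]
    refine Submodule.sum_mem _ fun x hx => tmul_mem_TG (Nat.zero_le _)
      (Finset.HasAntidiagonal.mem_antidiagonal.1 hx) ⟨⟨hcpY _ z hz.1, ?_⟩, cp_tau_Hom _ _ _ _ _⟩
      ⟨hcpW _ b hb, cp_tau_Hom _ _ _ _ _⟩
    have := hz.2
    simp only [SetLike.mem_coe, LinearMap.mem_ker] at this ⊢
    rw [hEcp, this, map_zero]
  have hD1 : DD p u (mu t1) = 0 := by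
    have := congrArg (DD p u) he
    rw [DD_DD, map_sub, hD, zero_sub, neg_eq_zero] at this
    rw [hmu1, this]
  have hD2 : tdiff (DD p u) par.toLinearMap (Φ t1) = 0 := by
    refine eq_zero_of_mu σ _ hL hR (w := 0) (w' := 0) (k := 0) (k' := 0) ?_ ?_
    · refine TG_map _ (fun i k _ _ z hz b hb => ?_) ht2
      rw [tdiff_tmul]
      exact Submodule.add_mem _ (tmul_mem_TS (hYL (hDY z hz.1.1)) (hWR hb.1))
        (tmul_mem_TS (hYL (hparY z hz.1.1)) (hWR (hDW b hb.1)))
    · rw [mu_tdiff (DD_isOdd p u), hΦ, ← cp_tau_DD, hD1, map_zero]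
  have hn0 : p * bw ≤ p * (bw * Module.finrank K S + n0) :=
    Nat.mul_le_mul_left _ ((Nat.le_mul_of_pos_right _ hs0).trans (Nat.le_add_right _ _))
  obtain ⟨s, hs, hs'⟩ := tensor_step (DD p u) par.toLinearMap (DD_DD p u) (DD_isOdd p u).anti
    par_par (fun j => Y0 ⊓ Hom (tau K E ι p kw bw) j) (fun j => W ⊓ Hom (tau K E ι p kw bw) j)
    Y W (fun i z hz => hz.1.1) (fun i z hz => hz.1) (cp (tau K E ι p kw bw))
    (fun i j z hz => cp_of_Hom hz.2 j) (p * bw) (Nat.mul_pos hp0 hp.pos)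
    (fun i z hz => ⟨⟨hDY z hz.1.1, by
      have := hz.1.2
      simp only [SetLike.mem_coe, LinearMap.mem_ker] at this ⊢
      rw [EE_DD, this, map_zero]⟩, DD_tau p kw bw u hz.2⟩)
    (fun i z hz => ⟨⟨hparY z hz.1.1, by
      have := hz.1.2
      simp only [SetLike.mem_coe, LinearMap.mem_ker, AlgHom.toLinearMap_apply] at this ⊢
      rw [EE_apply, (hh_isOdd σ).anti, (DD_isOdd p u).anti, map_neg, map_neg, (hh_isOdd σ).anti,
        (DD_isOdd p u).anti, neg_neg, neg_neg, ← map_add, ← EE_apply, this, map_zero]⟩,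
      par_tau p kw bw hz.2⟩)
    (p * (bw * Module.finrank K S + n0) - p * bw)
    (fun i hi z hz => YY_bound p kw bw hK hp h hs0 hc hm u hz.1.1 hz.1.2 (by omega) hz.2) t0
    (fun k hk w hw hDw => by
      obtain ⟨b, hb, hb'⟩ := habs k (by omega) w hw.1 hw.2 hDw
      obtain ⟨b', hb1, hb2, hb3⟩ := exists_cp_DD p kw bw u W hcpW k hb
      rw [hb', cp_self hw.2] at hb2
      rcases hb3 with h0 | ⟨k0, hk0, h0⟩
      · exact Or.inl (by rw [hb2, h0, map_zero])
      · exact Or.inr ⟨k0, hk0, b', ⟨hb1, h0⟩, hb2.symm⟩) ht2 hD2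
  refine ⟨mu s + b1, Submodule.add_mem _ ⟨s, hs, rfl⟩ hb1, ?_⟩
  rw [map_add, ← mu_tdiff (DD_isOdd p u), hs', hΦ, ← hb1', ← he, hmu1, ← map_add, add_sub_cancel,
    cp_self hat]

end

section
variable {K E ι : Type} [Field K] [AddCommGroup E] [Module K E]
  [Fintype ι] [DecidableEq ι] [FiniteDimensional K E]
  (p kw bw : ℕ) [Fact p.Prime] [CharP K p] [NeZero (2 : K)]

omit [FiniteDimensional K E] [Fact p.Prime] [CharP K p] [NeZero (2 : K)] in
theorem DD_FF {T : Submodule K E} {X : Set ι} {v : ι → E} (hv : ∀ i ∈ X, v i ∈ T)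
    {c : ι → ℕ} {y : ι} (hc : ∀ i, (c + Pi.single y 1 : ι → ℕ) i < p)
    {C : Set (Submodule K E)} {a : Om K E ι}
    (ha : a ∈ FF T X v c y C) : DD p v a ∈ FF T X v c y C := by
  refine FF_stable (fun S c0 hc0 k a ha => DD_Fil_self p hv (fun i _ => ?_) ha) ha
  have := hc i
  rcases hc0 with rfl | rfl
  · simp only [Pi.add_apply] at this; omega
  · exact this.le

open Classical in
theorem step (hK : ∀ r : K, r ^ p = r) {g0 : ℕ} (hp : Num p kw bw g0) {T S : Submodule K E}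
    {σ : E →ₗ[K] E} {X : Set ι} {v : ι → E} (h : Spl T S σ) (hs0 : 1 ≤ Module.finrank K S)
    (hv : ∀ i ∈ X, v i ∈ T) {c : ι → ℕ} (hc : ∀ i ∈ X, c i ≤ g0 * kw)
    (hcT : ∀ i, c i ≠ 0 → v i ∈ T)
    {y : ι} (hc1p : ∀ i, (c + Pi.single y 1 : ι → ℕ) i < p) (hy : v y ∈ S) {n0 : ℕ}
    (hm : mass S v c + (∑ i, if i ∈ X ∧ v i ∈ S ∧ i ≠ y then g0 * kw - c i else 0) + 1
      ≤ g0 * n0)
    {N' t0 : ℕ} (ht0 : p * N' + p * (bw * Module.finrank K S + n0) < t0 + p * bw)
    (habs : ∀ t, p * N' < t → ∀ a ∈ WW T S σ X v c, a ∈ Hom (tau K E ι p kw bw) t →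
      DD p (fun i => (LinearMap.id - σ : E →ₗ[K] E) (v i)) a = 0 →
      ∃ b ∈ WW T S σ X v c, DD p (fun i => (LinearMap.id - σ : E →ₗ[K] E) (v i)) b = a)
    {C : Set (Submodule K E)} (hC : ∀ S' < S, v y ∈ S' → S' ∈ C)
    (hC' : ∀ S' ∈ C, S' ≤ T ∧ v y ∈ S' ∧ ¬ S ≤ S')
    {a : Om K E ι} (ha : a ∈ FF T X v c y C) (hat : a ∈ Hom (tau K E ι p kw bw) t0)
    (hD : DD p v a ∈ KK T X v (c + Pi.single y 1)) :
    ∃ b ∈ FF T X v c y C, a - DD p v b ∈ FF T X v c y (insert S C) := by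
  have hFF := fun b hb => DD_FF p hv hc1p (C := C) (a := b) hb
  set c1 := c + Pi.single y 1 with hc1
  have hm1 : mass S v c1 = mass S v c + 1 := by rw [hc1, mass_add_single, if_pos hy]
  have hF : ∀ b ∈ FF T X v c y C, b ∈ Fil K (gens T X) (ws S v c1) (mass S v c) := fun b hb =>
    Fil_mono subset_rfl (fun g _ => by
      cases g with
      | x e => exact le_rfl
      | d e => exact le_rfl
      | k i => simp only [ws_k, hc1, Pi.add_apply]; split_ifs <;> omega) le_rfl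
      (mem_KK.1 (mem_FF.1 hb).1 S h.le)
  have hre : ∀ k, Fil K (gens T X) (ws S v c1) k ≤ Fil K (hgens T S σ X) (ws S v c1) k :=
    Fil_le_hgens h (fun e _ _ => h.mem e) c1
  have hLt : cp (gS S σ v c1) (mass S v c) a ∈ Hom (tau K E ι p kw bw) t0 := by
    rw [← cp_self hat, ← cp_lin (G := tau K E ι p kw bw) (w := wT p kw bw) (cp (gS S σ v c1) (mass S v c)) 0
      (fun l hl => ⟨pr_tau p kw bw l, ?_⟩) t0 (hre _ (hF a ha))]
    · exact cp_tau_Hom _ _ _ _ _
    · rw [cp_of_Hom (pr_Hom l fun g hg => hgens_Hom h c1 g (hl.1 g hg))]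
      split_ifs
      exacts [pr_tau p kw bw l, Submodule.zero_mem _]
  have hLD : cp (gS S σ v c1) (mass S v c) (DD p v a) = 0 :=
    cp_Fil_succ (hgens_Hom h c1) (hre _ (hm1 ▸ mem_KK.1 hD S h.le))
  rw [cp_DD p h hc1p (hF a ha)] at hLD
  obtain ⟨_, ⟨s, hs, rfl⟩, hs'⟩ := graded_exact p kw bw hK hp h hs0 hv hc hm ht0 habs
    ⟨_, nu_mem_TS h hcT hC ha, mu_nu _ _ _⟩ hLt hLD
  obtain ⟨b, hb, hb'⟩ := mu_mem_map h hcT hy hC' hs
  have h1 : a - DD p v b ∈ FF T X v c y C := Submodule.sub_mem _ ha (hFF b hb)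
  refine ⟨b, hb, mem_FF.2 ⟨(mem_FF.1 h1).1, fun S' hS' => ?_⟩⟩
  rcases hS' with rfl | hS'
  · have h2 := sub_cp_mem_Fil (hgens_Hom h c1) (hre _ (hF _ h1))
    rw [map_sub, cp_DD p h hc1p (hF b hb), hb', hs', sub_self, sub_zero] at h2
    rw [hm1]
    exact Fil_mono (hgens_subset h) (fun _ _ => le_rfl) le_rfl h2
  · exact (mem_FF.1 h1).2 S' hS'

/-- Absolute vanishing. -/
def AbsV (cb : ι → ℕ) (T : Submodule K E) (X P : Finset ι) (v : ι → E) (N : ℕ) : Prop :=
  ∀ c : ι → ℕ, (∀ i, c i ≤ cb i) → (∀ i, c i ≠ 0 → i ∈ X ∨ i ∈ P) → ∀ t, p * N < t →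
    ∀ a ∈ KK T (X : Set ι) v c, a ∈ Hom (tau K E ι p kw bw) t → DD p v a = 0 →
      ∃ b ∈ KK T (X : Set ι) v c, DD p v b = a

/-- Relative vanishing. -/
def RelV (cb : ι → ℕ) (T : Submodule K E) (X P : Finset ι) (v : ι → E) (N : ℕ) : Prop :=
  ∀ (c : ι → ℕ) (y : ι), (∀ i, c i ≤ cb i) → (∀ i, c i ≠ 0 → i ∈ X ∨ i ∈ P) → (y ∈ X ∨ y ∈ P) →
    c y + 1 ≤ cb y → ∀ t, p * N < t + p * bw →
    ∀ a ∈ KK T (X : Set ι) v c, a ∈ Hom (tau K E ι p kw bw) t →
      DD p v a ∈ KK T (X : Set ι) v (c + Pi.single y 1) →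
      ∃ b ∈ KK T (X : Set ι) v c, a - DD p v b ∈ KK T (X : Set ι) v (c + Pi.single y 1)

open Classical in
/-- Admissible configurations. -/
structure Adm (γ : ι → ℕ) (T : Submodule K E) (X P : Finset ι) (v : ι → E) (N : ℕ) : Prop where
  span : Submodule.span K (v '' X) = T
  mem : ∀ j ∈ P, v j ∈ T
  nz : ∀ j, j ∈ X ∨ j ∈ P → v j ≠ 0
  gx : ∀ j ∈ X, γ j ≤ kw
  bound : ∀ S ≤ T, 2 * bw * Module.finrank K T + kw * X.card
    + ∑ j ∈ P.filter fun j => v j ∈ S, γ j ≤ N + bw * Module.finrank K S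

omit [Fintype ι] [DecidableEq ι] [FiniteDimensional K E] [NeZero (2 : K)] in
theorem Adm.memX {kw bw : ℕ} {γ : ι → ℕ} {T : Submodule K E} {X P : Finset ι} {v : ι → E} {N : ℕ}
    (h : Adm kw bw γ T X P v N) : ∀ j ∈ X, v j ∈ T := fun j hj => h.span ▸ Submodule.subset_span ⟨j, hj, rfl⟩

omit [Fintype ι] [FiniteDimensional K E] [NeZero (2 : K)] in
theorem single_props {X P : Finset ι} {c cb : ι → ℕ} {y : ι}
    (h1 : ∀ i, (c + Pi.single y 1 : ι → ℕ) i ≤ cb i)
    (h2 : ∀ i, (c + Pi.single y 1 : ι → ℕ) i ≠ 0 → i ∈ X ∨ i ∈ P) :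
    (∀ i, c i ≤ cb i) ∧ (∀ i, c i ≠ 0 → i ∈ X ∨ i ∈ P) ∧ (y ∈ X ∨ y ∈ P) ∧ c y + 1 ≤ cb y := by
  refine ⟨fun i => ?_, fun i hi => h2 i ?_, h2 y (by simp), ?_⟩
  · have := h1 i; simp only [Pi.add_apply] at this; omega
  · simp only [Pi.add_apply]; omega
  · have := h1 y; simp only [Pi.add_apply, Pi.single_eq_same] at this; omega

theorem abs_of_rel (hK : ∀ r : K, r ^ p = r) {γ cb : ι → ℕ} {T : Submodule K E} {X P : Finset ι}
    {v : ι → E} {N : ℕ} (h : Adm kw bw γ T X P v N) (hrel : RelV p kw bw cb T X P v N) :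
    AbsV p kw bw cb T X P v N := by
  intro c
  induction hm : ∑ i, c i generalizing c with
  | zero =>
    have hc0 : c = 0 := by
      ext i; exact (Finset.sum_eq_zero_iff.1 hm) i (Finset.mem_univ i)
    subst hc0
    intro _ _ t ht a ha hat hD
    have h1 := h.bound ⊥ bot_le
    rw [finrank_bot] at h1
    obtain ⟨b, hb, hb'⟩ := base_case p kw bw hK _ X rfl T v h.span t
      (lt_of_le_of_lt (Nat.mul_le_mul_left _ (by omega)) ht) a (KK_le_zero ha) hat hD
    exact ⟨b, mem_KK.2 fun S _ => by rw [mass_zero]; exact Fil_le_zero subset_rfl hb, hb'⟩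
  | succ m ih =>
    obtain ⟨y, c', rfl, hc'⟩ := exists_single hm
    intro h1 h2 t ht a ha hat hD
    obtain ⟨h3, h4, h5, h6⟩ := single_props h1 h2
    obtain ⟨b, hb, hb'⟩ := ih c' hc' h3 h4 t ht a (KK_succ_le ha) hat hD
    obtain ⟨b1, hb1, hb2, hb3⟩ := exists_cp_DD p kw bw v _
      (fun k z hz => KK_stable (fun _ _ _ _ ha => cp_tau_Sp p kw bw k ha) hz) t hb
    rw [hb', cp_self hat] at hb2
    rcases hb3 with h0 | ⟨k, hk, h0⟩
    · exact ⟨0, Submodule.zero_mem _, by rw [hb2, h0]⟩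
    · obtain ⟨e, _, he⟩ := hrel c' y h3 h4 h5 h6 k (by omega) b1 hb1 h0 (hb2 ▸ ha)
      exact ⟨_, he, by rw [map_sub, DD_DD, sub_zero, hb2]⟩

omit [Fintype ι] [NeZero (2 : K)] in
open Classical in
theorem adm_quot {kw bw : ℕ} {γ : ι → ℕ} {T S : Submodule K E} {σ : E →ₗ[K] E} (h : Spl T S σ)
    {X P : Finset ι} {v : ι → E} {N : ℕ} (hA : Adm kw bw γ T X P v N) :
    ∃ N', N' + (bw * Module.finrank K S + (kw * (X.filter fun j => v j ∈ S).card
        + ∑ j ∈ P.filter fun j => v j ∈ S, γ j)) = N ∧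
      Adm kw bw γ (T.map (LinearMap.id - σ)) (X.filter fun j => v j ∉ S)
        (P.filter fun j => v j ∉ S)
        (fun i => (LinearMap.id - σ : E →ₗ[K] E) (v i)) N' := by
  set π : E →ₗ[K] E := LinearMap.id - σ with hπ
  have hπ0 : ∀ e ∈ S, π e = 0 := fun e he => by simp [hπ, h.fix e he]
  have hT'T : T.map π ≤ T := by
    rintro _ ⟨e, he, rfl⟩
    exact T.sub_mem he (h.le (h.mem e))
  have hdis : S ⊓ T.map π = ⊥ := by
    rw [eq_bot_iff]
    rintro _ ⟨h1, e, _, rfl⟩
    have h2 := h.fix _ h1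
    simp only [hπ, LinearMap.sub_apply, LinearMap.id_apply, map_sub, h.fix _ (h.mem e),
      sub_self] at h2 ⊢
    simp [← h2]
  have hdim : Module.finrank K S + Module.finrank K (T.map π) ≤ Module.finrank K T := by
    rw [← Submodule.finrank_sup_add_finrank_inf_eq, hdis, finrank_bot, add_zero]
    exact Submodule.finrank_mono (sup_le h.le hT'T)
  have hX := Finset.card_filter_add_card_filter_not (s := X) (fun j => v j ∈ S)
  have key : ∀ S'' ≤ T.map π, 2 * bw * Module.finrank K (T.map π)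
      + kw * (X.filter fun j => v j ∉ S).card
      + ∑ j ∈ (P.filter fun j => v j ∉ S).filter fun j => π (v j) ∈ S'', γ j
      + (bw * Module.finrank K S + (kw * (X.filter fun j => v j ∈ S).card
        + ∑ j ∈ P.filter fun j => v j ∈ S, γ j)) ≤ N + bw * Module.finrank K S'' := by
    intro S'' hS''
    have h1 := hA.bound (S ⊔ S'') (sup_le h.le (hS''.trans hT'T))
    have h2 := Submodule.finrank_add_le_finrank_add_finrank S S''
    have h3 : ∑ j ∈ P.filter fun j => v j ∈ S, γ j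
        + ∑ j ∈ (P.filter fun j => v j ∉ S).filter fun j => π (v j) ∈ S'', γ j
        ≤ ∑ j ∈ P.filter fun j => v j ∈ S ⊔ S'', γ j := by
      rw [← Finset.sum_union]
      · refine Finset.sum_le_sum_of_subset fun j hj => ?_
        simp only [Finset.mem_union, Finset.mem_filter] at hj ⊢
        rcases hj with hj | hj
        · exact ⟨hj.1, Submodule.mem_sup_left hj.2⟩
        · refine ⟨hj.1.1, Submodule.mem_sup.2 ⟨_, h.mem (v j), _, hj.2, by simp [hπ]⟩⟩
      · rw [Finset.disjoint_left]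
        intro j h1 h2
        simp only [Finset.mem_filter] at h1 h2
        exact h2.1.2 h1.2
    have h4 := Nat.mul_le_mul_left bw h2
    have h5 := Nat.mul_le_mul_left bw hdim
    have h6 := congrArg (fun z => kw * z) hX
    simp only [mul_add] at h4 h5 h6
    simp only [mul_assoc] at h1 ⊢
    omega
  have h0 := key ⊥ bot_le
  rw [finrank_bot] at h0
  have hnz : ∀ j, v j ∉ S → π (v j) ≠ 0 := fun j hj h0 => hj (by
    have : v j = σ (v j) := by simpa [hπ, sub_eq_zero] using h0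
    rw [this]; exact h.mem _)
  refine ⟨N - (bw * Module.finrank K S + (kw * (X.filter fun j => v j ∈ S).card
    + ∑ j ∈ P.filter fun j => v j ∈ S, γ j)), by omega, ?_, fun j hj => ?_, fun j hj => ?_,
    fun j hj => hA.gx j (Finset.mem_filter.1 hj).1, fun S'' hS'' => ?_⟩
  · apply le_antisymm
    · rw [Submodule.span_le]
      rintro _ ⟨j, hj, rfl⟩
      exact Submodule.mem_map_of_mem (hA.memX j (Finset.mem_filter.1 hj).1)
    · rw [← hA.span, Submodule.map_span, Submodule.span_le]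
      rintro _ ⟨_, ⟨j, hj, rfl⟩, rfl⟩
      by_cases hjS : v j ∈ S
      · simp [hπ0 _ hjS]
      · exact Submodule.subset_span ⟨j, by simpa [hjS] using hj, rfl⟩
  · exact Submodule.mem_map_of_mem (hA.mem j (Finset.mem_filter.1 hj).1)
  · exact hnz j (hj.elim (fun h => (Finset.mem_filter.1 h).2) fun h => (Finset.mem_filter.1 h).2)
  · have := key S'' hS''
    omega

theorem rel_of_abs [Finite K] (hK : ∀ r : K, r ^ p = r) {g0 : ℕ} (hp : Num p kw bw g0)
    {γ : ι → ℕ} (hγ : ∀ i, g0 * γ i < p) {T : Submodule K E}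
    {X P : Finset ι} {v : ι → E} {N : ℕ} (hA : Adm kw bw γ T X P v N)
    (ih : ∀ (T' : Submodule K E) (X' P' : Finset ι) (v' : ι → E) (N' : ℕ),
      X'.card + P'.card < X.card + P.card → Adm kw bw γ T' X' P' v' N' →
        AbsV p kw bw (fun i => g0 * γ i) T' X' P' v' N') :
    RelV p kw bw (fun i => g0 * γ i) T X P v N := by
  classical
  intro c y hc hcs hy hcy t ht a ha hat hD
  simp only at hc hcy
  have hcX : ∀ i ∈ X, c i ≤ g0 * kw := fun i hi =>
    (hc i).trans (Nat.mul_le_mul_left _ (hA.gx i hi))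
  have hc1p : ∀ i, (c + Pi.single y 1 : ι → ℕ) i < p := fun i => by
    have := hc i
    have := hγ i
    by_cases h : i = y
    · subst h; simp; omega
    · simp [h]; omega
  have hcT : ∀ i, c i ≠ 0 → v i ∈ T := fun i hi => (hcs i hi).elim (hA.memX i) (hA.mem i)
  have : Finite E := Module.finite_of_finite K
  have : Fintype (Submodule K E) := Fintype.ofFinite _
  have key : ∀ C : Finset (Submodule K E), (∀ S ∈ C, S ≤ T ∧ v y ∈ S) →
      (∀ S ∈ C, ∀ S' < S, v y ∈ S' → S' ∈ C) →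
      ∃ b ∈ KK T (X : Set ι) v c, a - DD p v b ∈ FF T (X : Set ι) v c y (C : Set _) := by
    intro C
    induction C using Finset.induction_on_max_value (fun S : Submodule K E => Module.finrank K S)
      with
    | empty => intro _ _; exact ⟨0, Submodule.zero_mem _, mem_FF.2 ⟨by simpa using ha, by simp⟩⟩
    | insert S C hSC hmax ihC =>
      intro h1 h2
      obtain ⟨hST, hyS⟩ := h1 S (Finset.mem_insert_self _ _)
      obtain ⟨b0, hb0, hb0'⟩ := ihC (fun S' hS' => h1 S' (Finset.mem_insert_of_mem hS'))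
        (fun S' hS' S'' hlt hy' => by
          refine (Finset.mem_insert.1 (h2 S' (Finset.mem_insert_of_mem hS') S'' hlt
            hy')).resolve_left ?_
          rintro rfl
          exact absurd (hmax S' hS') (not_le.2 (Submodule.finrank_lt_finrank_of_lt hlt)))
      obtain ⟨b1, hb1, hb1', -⟩ := exists_cp_DD p kw bw v _
        (fun k z hz => KK_stable (fun _ _ _ _ ha => cp_tau_Sp p kw bw k ha) hz) t hb0
      have ha1 : a - DD p v b1 = cp (tau K E ι p kw bw) t (a - DD p v b0) := by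
        rw [map_sub, hb1', cp_self hat]
      obtain ⟨σ, hσ1, hσ2⟩ := exists_proj S
      have hspl : Spl T S σ := ⟨hST, hσ1, hσ2⟩
      obtain ⟨N', hN', hA'⟩ := adm_quot hspl hA
      have hlt : (X.filter fun j => v j ∉ S).card + (P.filter fun j => v j ∉ S).card
          < X.card + P.card := by
        have h3 := Finset.card_filter_le X (fun j => v j ∉ S)
        have h4 := Finset.card_filter_le P (fun j => v j ∉ S)
        rcases hy with hy | hy
        · have := Finset.card_lt_card (Finset.filter_ssubset (p := fun j => v j ∉ S).2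
            ⟨y, hy, by simpa using hyS⟩)
          omega
        · have := Finset.card_lt_card (Finset.filter_ssubset (p := fun j => v j ∉ S).2
            ⟨y, hy, by simpa using hyS⟩)
          omega
      have habs := ih _ _ _ _ _ hlt hA' (cOut S v c)
        (fun i => by have := hc i; simp only [cOut]; split_ifs <;> omega)
        (fun i hi => by
          simp only [cOut] at hi
          split_ifs at hi with h3
          · exact (hi rfl).elim
          · simpa [h3] using hcs i hi)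
      rw [Finset.coe_filter] at habs
      have hm : mass S v c
          + (∑ i, if i ∈ (X : Set ι) ∧ v i ∈ S ∧ i ≠ y then g0 * kw - c i else 0) + 1
          ≤ g0 * (kw * (X.filter fun j => v j ∈ S).card
            + ∑ j ∈ P.filter fun j => v j ∈ S, γ j) := by
        have e1 : ∀ (Z : Finset ι) (f : ι → ℕ), ∑ j ∈ Z.filter fun j => v j ∈ S, f j
            = ∑ i, if i ∈ Z ∧ v i ∈ S then f i else 0 := by
          intro Z f
          rw [← Finset.sum_filter]
          congr 1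
          ext i; simp
        have e0 : kw * (X.filter fun j => v j ∈ S).card
            = ∑ j ∈ X.filter fun j => v j ∈ S, kw := by simp [mul_comm]
        have e2 : 1 = ∑ i, if i = y then 1 else 0 := by simp
        rw [e0, e1, e1, mass, ← Finset.sum_add_distrib, ← Finset.sum_add_distrib, Finset.mul_sum]
        conv_lhs => rw [e2]
        rw [← Finset.sum_add_distrib]
        refine Finset.sum_le_sum fun i _ => ?_
        have h3 := hc i
        have h4 := hcs i
        by_cases hiy : i = y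
        · subst hiy
          rcases hy with hy | hy
          · have := Nat.mul_le_mul_left g0 (hA.gx i hy)
            simp [hy, hyS, mul_add]; omega
          · simp [hy, hyS, mul_add]; omega
        · by_cases h5 : v i ∈ S
          · by_cases h6 : i ∈ X
            · have := hcX i h6
              simp [hiy, h5, h6, mul_add]; omega
            · by_cases h7 : i ∈ P
              · simp [hiy, h5, h6, h7]; omega
              · simp only [h6, h7, or_self, imp_false, not_not] at h4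
                simp [hiy, h4, h6]
          · simp [hiy, h5]
      have hs0 : 1 ≤ Module.finrank K S := by
        rw [Nat.one_le_iff_ne_zero, Ne, Submodule.finrank_eq_zero]
        rintro rfl
        exact hA.nz y hy (by simpa using hyS)
      obtain ⟨b2, hb2, hb2'⟩ := step p kw bw hK hp hspl hs0 (fun i hi => hA.memX i hi) hcX hcT
        hc1p hyS
        (n0 := kw * (X.filter fun j => v j ∈ S).card + ∑ j ∈ P.filter fun j => v j ∈ S, γ j)
        (N' := N') (t0 := t) (C := (C : Set _)) (a := a - DD p v b1) (by simpa using hm)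
        (by rw [← mul_add, hN']; exact ht)
        habs
        (fun S' hlt hy' => (Finset.mem_insert.1 (h2 S (Finset.mem_insert_self _ _) S' hlt
          hy')).resolve_left hlt.ne)
        (fun S' hS' => ⟨(h1 S' (Finset.mem_insert_of_mem hS')).1,
          (h1 S' (Finset.mem_insert_of_mem hS')).2, fun hle => hSC (by
            rw [Submodule.eq_of_le_of_finrank_le hle (hmax S' hS')]; exact hS')⟩)
        (ha1 ▸ FF_stable (fun _ _ _ _ _ ha => cp_tau_Sp p kw bw t ha) hb0')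
        (ha1 ▸ cp_tau_Hom _ _ _ _ _) (by rw [map_sub, DD_DD, sub_zero]; exact hD)
      refine ⟨b1 + b2, Submodule.add_mem _ hb1 (mem_FF.1 hb2).1, ?_⟩
      rw [map_add, ← sub_sub, Finset.coe_insert]
      exact hb2'
  obtain ⟨b, hb, hb'⟩ := key (Finset.univ.filter fun S => S ≤ T ∧ v y ∈ S)
    (fun S hS => (Finset.mem_filter.1 hS).2)
    (fun S hS S' hlt hy' => Finset.mem_filter.2
      ⟨Finset.mem_univ _, hlt.le.trans (Finset.mem_filter.1 hS).2.1, hy'⟩)
  refine ⟨b, hb, mem_KK.2 fun S hS => ?_⟩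
  by_cases hyS : v y ∈ S
  · exact (mem_FF.1 hb').2 S (by simp [hS, hyS])
  · rw [mass_add_single, if_neg hyS, add_zero]
    refine Fil_mono subset_rfl (fun g _ => ?_) le_rfl (mem_KK.1 (mem_FF.1 hb').1 S hS)
    cases g with
    | x e => exact le_rfl
    | d e => exact le_rfl
    | k i => simp only [ws_k, Pi.add_apply]; split_ifs <;> omega

theorem vanishing [Finite K] (hK : ∀ r : K, r ^ p = r) {g0 : ℕ} (hp : Num p kw bw g0)
    {γ : ι → ℕ} (hγ : ∀ i, g0 * γ i < p) (n : ℕ) :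
    ∀ (T : Submodule K E) (X P : Finset ι) (v : ι → E) (N : ℕ), X.card + P.card = n →
      Adm kw bw γ T X P v N → RelV p kw bw (fun i => g0 * γ i) T X P v N := by
  induction n using Nat.strong_induction_on with
  | _ n ih =>
  intro T X P v N hn hA
  exact rel_of_abs p kw bw hK hp hγ hA fun T' X' P' v' N' hlt hA' =>
    abs_of_rel p kw bw hK hA' (ih _ (hn ▸ hlt) T' X' P' v' N' rfl hA')

theorem lift_class [Finite K] (hK : ∀ r : K, r ^ p = r) {g0 : ℕ} (hp : Num p kw bw g0)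
    {γ : ι → ℕ} (hγ : ∀ i, g0 * γ i < p) {T : Submodule K E}
    {X P : Finset ι} {v : ι → E} {N : ℕ} (hA : Adm kw bw γ T X P v N) {t : ℕ}
    (ht : p * N < t + p * bw)
    {a : Om K E ι} (ha : a ∈ Fil K (gens T (X : Set ι)) 0 0) (hat : a ∈ Hom (tau K E ι p kw bw) t)
    (hD : DD p v a = 0) (c : ι → ℕ) :
    (∀ i, c i ≤ g0 * γ i) → (∀ i, c i ≠ 0 → i ∈ X ∨ i ∈ P) →
      ∃ b, a - DD p v b ∈ KK T (X : Set ι) v c := by
  induction hm : ∑ i, c i generalizing c with
  | zero =>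
    have hc0 : c = 0 := by
      ext i; exact (Finset.sum_eq_zero_iff.1 hm) i (Finset.mem_univ i)
    subst hc0
    intro _ _
    exact ⟨0, mem_KK.2 fun S _ => by
      rw [mass_zero, map_zero, sub_zero]; exact Fil_le_zero subset_rfl ha⟩
  | succ m ih =>
    obtain ⟨y, c', rfl, hc'⟩ := exists_single hm
    intro h1 h2
    obtain ⟨h3, h4, h5, h6⟩ := single_props h1 h2
    obtain ⟨b, hb⟩ := ih c' hc' h3 h4
    obtain ⟨b1, -, hb1', -⟩ := exists_cp_DD p kw bw v ⊤ (fun _ _ _ => trivial) t (a := b) trivial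
    have ha1 : a - DD p v b1 = cp (tau K E ι p kw bw) t (a - DD p v b) := by
      rw [map_sub, hb1', cp_self hat]
    obtain ⟨e, -, he⟩ := vanishing p kw bw hK hp hγ _ T X P v N rfl hA c' y h3 h4 h5 h6 t ht
      (a - DD p v b1) (ha1 ▸ KK_stable (fun _ _ _ _ ha => cp_tau_Sp p kw bw t ha) hb)
      (ha1 ▸ cp_tau_Hom _ _ _ _ _) (by rw [map_sub, DD_DD, hD]; simp)
    exact ⟨b1 + e, by rw [map_add, ← sub_sub]; exact he⟩

end

section
open MvPolynomial
variable {K ι : Type} [Field K] {n : ℕ}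

theorem om0_tau (p kw bw : ℕ) [Fact p.Prime] (l : List (Fin n)) :
    om0 K ι p l ∈ Hom (tau K _ ι p kw bw) (l.length * (p * (kw + 2 * bw))) := by
  induction l with
  | nil => simpa [om0] using one_mem_Hom
  | cons i l ih =>
    rw [om0_cons]
    have := Hom_mul (top_tau p kw bw (Pi.single i 1)) ih
    rwa [List.length_cons, Nat.succ_mul, add_comm]

theorem top_div [NeZero (2 : K)] [Fintype ι] [DecidableEq ι] {v : ι → Fin n → K}
    (hv : ∀ i, v i ≠ 0) (l : List (Fin n)) (t : ι → ℕ) :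
    ∀ c : ι → ℕ, (∀ j, t j = 0 ∨ t j + 1 ≤ c j) → ∀ a ∈ KK ⊤ ∅ v c,
      ∃ g, zz ι (iot K ι l a) = (∏ j, lin (v j) ^ t j) * g := by
  induction hm : ∑ i, t i generalizing t with
  | zero =>
    have ht0 : t = 0 := by
      ext i; exact (Finset.sum_eq_zero_iff.1 hm) i (Finset.mem_univ i)
    subst ht0
    intro c _ a _
    exact ⟨zz ι (iot K ι l a), by simp⟩
  | succ m ih =>
    obtain ⟨y, t', rfl, ht'⟩ := exists_single hm
    intro c hc a ha
    have hy := hc y
    simp only [Pi.add_apply, Pi.single_eq_same] at hy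
    let c0 : ι → ℕ := Function.update c y (c y - 2)
    have e2 : c = c0 + Pi.single y 2 := by
      ext j
      by_cases h : j = y
      · subst h; simp [c0]; omega
      · simp [c0, h]
    have e1 : c = (c0 + Pi.single y 1) + Pi.single y 1 := by
      ext j
      by_cases h : j = y
      · subst h; simp [c0]; omega
      · simp [c0, h]
    obtain ⟨b, -, rfl⟩ := KK_div (hv y) Submodule.mem_top (e2 ▸ ha)
    have hb := KK_of_xx_mul (hv y) Submodule.mem_top (e1 ▸ ha)
    obtain ⟨g, hg⟩ := ih t' ht' (c0 + Pi.single y 1) (fun j => by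
      by_cases h : j = y
      · subst h; simp [c0]; omega
      · simpa [c0, h] using hc j) b hb
    refine ⟨g, ?_⟩
    have h1 := iot_xx_pow (v y) 1 l b
    rw [pow_one] at h1
    have h2 : ∏ j, lin (v j) ^ (t' + Pi.single y 1 : ι → ℕ) j
        = lin (v y) * ∏ j, lin (v j) ^ t' j := by
      simp only [Pi.add_apply, pow_add, Finset.prod_mul_distrib]
      rw [mul_comm, Finset.prod_eq_single y (fun j _ h => by simp [h]) (by simp)]
      simp
    rw [h1, map_mul, hg, zz_xx, h2, mul_assoc]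

theorem top_div' [NeZero (2 : K)] [Fintype ι] [DecidableEq ι] {v : ι → Fin n → K}
    (hv : ∀ i, v i ≠ 0) (l : List (Fin n)) (X0 : Set ι) {t c : ι → ℕ}
    (hc : ∀ j, t j = 0 ∨ t j + 1 ≤ c j) {a : Om K (Fin n → K) ι}
    (ha : a ∈ KK ⊤ X0 v c) : ∃ g, zz ι (iot K ι l a) = (∏ j, lin (v j) ^ t j) * g := by
  let z : Om K (Fin n → K) ι →ₐ[K] Om K (Fin n → K) ι :=
    endo LinearMap.id LinearMap.id 0 (fun _ => Submodule.zero_mem _)
  have h1 : ∀ k a, cn K ι k (z a) = z (cn K ι k a) := fun k a => by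
    have := der_zero_all ((cn K ι k).comp z.toLinearMap - z.toLinearMap.comp (cn K ι k))
      (fun a => par (z a)) z (fun a b => by
        simp only [LinearMap.sub_apply, LinearMap.comp_apply, AlgHom.toLinearMap_apply, map_mul,
          (cn_isOdd k).der _ _, map_add, z, endo_par]
        noncomm_ring)
      (by simp [(cn_isOdd (K := K) (ι := ι) k).der.one])
      (fun g => by cases g <;> simp [z]) a
    simpa [sub_eq_zero] using this
  have h2 : ∀ a, zz ι (z a) = zz ι a :=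
    alg_ext ((zz ι).comp z) (zz ι) (fun g => by cases g <;> simp [z])
  have h3 : z a ∈ KK ⊤ ∅ v c := by
    refine mem_KK.2 fun S hS => Fil_map z (fun g _ => ?_) (mem_KK.1 ha S hS)
    cases g with
    | x e => simpa [z] using gen_mem_Fil (K := K) (g := .x e) (A := gens ⊤ ∅) trivial le_rfl
    | d e => simpa [z] using gen_mem_Fil (K := K) (g := .d e) (A := gens ⊤ ∅) trivial le_rfl
    | k i => simp [z]
  obtain ⟨g, hg⟩ := top_div hv l t c hc _ h3
  exact ⟨g, by rw [← hg, iot_comm z h1, h2]⟩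

theorem exists_coeff (p kw bw : ℕ) [Fact p.Prime] [CharP K p] [Finite K] [NeZero (2 : K)]
    [Fintype ι] [DecidableEq ι] (hK : ∀ r : K, r ^ p = r) {g0 : ℕ} (hp : Num p kw bw g0)
    {γ : ι → ℕ} (hγ : ∀ i, g0 * γ i < p) {v : ι → Fin n → K} {X0 P0 : Finset ι}
    (hXP : ∀ i, i ∈ X0 ∨ i ∈ P0)
    (hA : Adm kw bw γ (⊤ : Submodule K (Fin n → K)) X0 P0 v (n * (kw + 2 * bw))) {t : ι → ℕ}
    (ht : ∀ j, t j = 0 ∨ t j + 1 ≤ g0 * γ j) :
    ∃ g : MvPolynomial (Fin n) K, coeff (m0 n (p - 1)) ((∏ j, lin (v j) ^ t j) * g) = 1 := by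
  obtain ⟨h1, -, h3⟩ := om0_props (K := K) p v (X0 : Set _) (List.finRange n)
  have h2 := om0_tau (K := K) (ι := ι) p kw bw (List.finRange n)
  have hp0 := Nat.mul_pos (Fact.out : p.Prime).pos hp.pos
  obtain ⟨b, hb⟩ := lift_class p kw bw hK hp hγ hA (by
      rw [List.length_finRange, mul_left_comm]; omega) h1 h2 h3
    (fun i => g0 * γ i) (fun _ => le_rfl) (fun i _ => hXP i)
  obtain ⟨g, hg⟩ := top_div' (fun i => hA.nz i (hXP i)) (List.finRange n) _ ht hb
  refine ⟨g, ?_⟩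
  rw [← hg, map_sub, map_sub, coeff_sub, coeff_zz_iot_DD, sub_zero,
    zz_iot_om0 p (List.nodup_finRange n), ← Fin.prod_univ_def, prod_X_pow_m0]
  simp

theorem avoid (p kw bw : ℕ) [Fact p.Prime] [CharP K p] [Finite K] [NeZero (2 : K)]
    [Fintype ι] [DecidableEq ι] (hK : ∀ r : K, r ^ p = r) (hcard : p ≤ Nat.card K)
    {g0 : ℕ} (hp : Num p kw bw g0)
    {γ : ι → ℕ} (hγ : ∀ i, g0 * γ i < p) {v : ι → Fin n → K} {X0 P0 : Finset ι}
    (hXP : ∀ i, i ∈ X0 ∨ i ∈ P0)
    (hA : Adm kw bw γ (⊤ : Submodule K (Fin n → K)) X0 P0 v (n * (kw + 2 * bw)))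
    (F : ι → Finset K) (hF : ∀ j, (F j).card = 0 ∨ (F j).card + 1 ≤ g0 * γ j) :
    ∃ x : Fin n → K, ∀ j, ∑ i, v j i * x i ∉ F j := by
  classical
  have := Fintype.ofFinite K
  obtain ⟨g, hg⟩ := exists_coeff p kw bw hK hp hγ hXP hA hF
  rw [coeff_mul] at hg
  obtain ⟨x, hx, hx'⟩ := Finset.exists_ne_zero_of_sum_ne_zero (hg ▸ one_ne_zero)
  let Z : Finset (Σ _ : ι, K) := Finset.univ.sigma F
  have e : ∏ j, lin (v j) ^ (F j).card = ∏ z ∈ Z, lin (v z.1) := by
    rw [Finset.prod_sigma]; simp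
  have h3 : coeff x.1 (∏ z ∈ Z, lin (v z.1)) ≠ 0 := e ▸ left_ne_zero_of_mul hx'
  obtain ⟨h4, h7, h8⟩ := Pool.Agent.MP_79429d_co.LD.prod_sub (fun z : Σ _ : ι, K => v z.1)
    (fun z => z.2) Z
  have h5 : x.1.degree = Z.card := by
    by_contra h; exact h3 (h4.coeff_eq_zero h)
  have h9 : coeff x.1 (∏ z ∈ Z, (lin (v z.1) - C z.2)) ≠ 0 := by
    have h6 : coeff x.1 ((∏ z ∈ Z, (lin (v z.1) - C z.2)) - ∏ z ∈ Z, lin (v z.1)) = 0 := by
      by_contra hne
      exact absurd (h8 _ (mem_support_iff.2 hne)) (by omega)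
    rw [coeff_sub, sub_eq_zero] at h6
    rwa [h6]
  obtain ⟨s, -, hs'⟩ := combinatorial_nullstellensatz_exists_eval_nonzero _ x.1 h9
    (le_antisymm (h7.trans h5.ge) (le_totalDegree (mem_support_iff.2 h9)))
    (fun _ => Finset.univ) (fun i => by
      have h6 := congrArg (fun m => m i) (Finset.HasAntidiagonal.mem_antidiagonal.1 hx)
      simp only [Finsupp.add_apply, m0, Finsupp.equivFunOnFinite_symm_apply_apply] at h6
      have := (Fact.out : p.Prime).pos
      rw [Finset.card_univ, ← Nat.card_eq_fintype_card]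
      omega)
  refine ⟨s, fun j hj => hs' ?_⟩
  rw [map_prod]
  refine Finset.prod_eq_zero (i := ⟨j, ∑ i, v j i * s i⟩) (by simp [Z, hj]) ?_
  simp [lin_apply]

open Classical in
theorem card_rows_le {A : Fin n → Fin n → K} (hA : LinearIndependent K A)
    (S : Submodule K (Fin n → K)) :
    (Finset.univ.filter fun i => A i ∈ S).card ≤ Module.finrank K S := by
  have h3 : LinearIndependent K (fun i : {i // A i ∈ S} => (⟨A i, i.2⟩ : S)) :=
    LinearIndependent.of_comp S.subtype (hA.comp _ Subtype.val_injective)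
  have := h3.fintype_card_le_finrank
  rwa [Fintype.card_subtype] at this

theorem avoid_matrices (p : ℕ) [Fact p.Prime] [CharP K p] [Finite K] [NeZero (2 : K)]
    (hK : ∀ r : K, r ^ p = r) (hcard : p ≤ Nat.card K) {k g a : ℕ} {b : Fin k → ℕ} (ha : 0 < a)
    (hb : 0 < ∑ j, b j) (hg : 0 < g) (hp : g * (a + 2 * ∑ j, b j) ≤ p + g)
    (A : Fin k → Fin n → Fin n → K) (hA : ∀ j, LinearIndependent K (A j))
    (F : Fin n → Finset K) (hF : ∀ i, (F i).card < g * a)
    (G : Fin k → Fin n → Finset K) (hG : ∀ j i, (G j i).card < g * b j) :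
    ∃ x : Fin n → K, (∀ i, x i ∉ F i) ∧ ∀ j i, ∑ l, A j i l * x l ∉ G j i := by
  classical
  let v : Fin n ⊕ Fin k × Fin n → Fin n → K :=
    Sum.elim (fun i => Pi.single i 1) fun z => A z.1 z.2
  let γ : Fin n ⊕ Fin k × Fin n → ℕ := Sum.elim (fun _ => a) fun z => b z.1
  let X0 : Finset (Fin n ⊕ Fin k × Fin n) := Finset.univ.map Function.Embedding.inl
  let P0 : Finset (Fin n ⊕ Fin k × Fin n) := Finset.univ.map Function.Embedding.inr
  have hN : Num p a (∑ j, b j) g := ⟨hb, hp⟩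
  have hle := hN.le'
  have hAdm : Adm a (∑ j, b j) γ (⊤ : Submodule K (Fin n → K)) X0 P0 v
      (n * (a + 2 * ∑ j, b j)) := by
    refine ⟨?_, fun _ _ => trivial, fun i _ => ?_, fun i hi => ?_, fun S _ => ?_⟩
    · rw [eq_top_iff, ← (Pi.basisFun K (Fin n)).span_eq]
      refine Submodule.span_mono ?_
      rintro _ ⟨i, rfl⟩
      exact ⟨Sum.inl i, by simp [X0], by simp [v]⟩
    · cases i with
      | inl i => simp [v]
      | inr z => exact (hA z.1).ne_zero z.2
    · obtain ⟨i, -, rfl⟩ := Finset.mem_map.1 hi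
      exact le_rfl
    · have h1 : ∑ j ∈ P0.filter fun j => v j ∈ S, γ j
          = ∑ j, b j * (Finset.univ.filter fun i => A j i ∈ S).card := by
        rw [Finset.filter_map, Finset.sum_map, Finset.sum_filter, Fintype.sum_prod_type]
        refine Finset.sum_congr rfl fun j _ => ?_
        rw [Finset.card_filter, Finset.mul_sum]
        refine Finset.sum_congr rfl fun i _ => ?_
        simp [v, γ]
      have h2 : ∑ j, b j * (Finset.univ.filter fun i => A j i ∈ S).card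
          ≤ (∑ j, b j) * Module.finrank K S := by
        rw [Finset.sum_mul]
        exact Finset.sum_le_sum fun j _ => Nat.mul_le_mul_left _ (card_rows_le (hA j) S)
      have h4 : X0.card = n := by simp [X0]
      rw [h1, h4, finrank_top, Module.finrank_fin_fun]
      nlinarith
  obtain ⟨x, hx⟩ := avoid p a (∑ j, b j) hK hcard hN (γ := γ) (fun i => by
      have h1 := Nat.mul_pos hg ha
      have h2 := Nat.mul_pos hg hb
      rw [mul_add] at hle
      cases i with
      | inl i => exact show g * a < p by omega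
      | inr z =>
        have := Nat.mul_le_mul_left g
          (Finset.single_le_sum (f := b) (fun _ _ => Nat.zero_le _) (Finset.mem_univ z.1))
        exact show g * b z.1 < p by omega)
    (fun i => by cases i <;> simp [X0, P0]) hAdm (Sum.elim F fun z => G z.1 z.2)
    (fun i => by
      cases i with
      | inl i => exact Or.inr (hF i)
      | inr z => exact Or.inr (hG z.1 z.2))
  refine ⟨x, fun i => ?_, fun j i => hx (Sum.inr (j, i))⟩
  simpa [v, Pi.single_apply] using hx (Sum.inl i)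

end

end Pool.Agent.AJT.G
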