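import Mathlib

/-! The free super-commutative algebra on even `x e`, odd `d e` (linear in `e`) and odd `k i`. -/

set_option autoImplicit false

namespace Pool.Agent.AJT

/-- Generators. -/
inductive Gen (E ι : Type) : Type
  | x (e : E) : Gen E ι
  | d (e : E) : Gen E ι
  | k (i : ι) : Gen E ι

/-- Odd generators. -/
def Gen.odd {E ι : Type} : Gen E ι → Prop
  | .x _ => False
  | .d _ => True
  | .k _ => True

/-- Defining relations. -/
inductive Rel (K E ι : Type) [Field K] [AddCommGroup E] [Module K E] :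
    FreeAlgebra K (Gen E ι) → FreeAlgebra K (Gen E ι) → Prop
  | xadd (a b : E) : Rel K E ι (FreeAlgebra.ι K (.x (a + b)))
      (FreeAlgebra.ι K (.x a) + FreeAlgebra.ι K (.x b))
  | xsmul (r : K) (a : E) : Rel K E ι (FreeAlgebra.ι K (.x (r • a))) (r • FreeAlgebra.ι K (.x a))
  | dadd (a b : E) : Rel K E ι (FreeAlgebra.ι K (.d (a + b)))
      (FreeAlgebra.ι K (.d a) + FreeAlgebra.ι K (.d b))
  | dsmul (r : K) (a : E) : Rel K E ι (FreeAlgebra.ι K (.d (r • a))) (r • FreeAlgebra.ι K (.d a))
  | comm (e : E) (g : Gen E ι) : Rel K E ι (FreeAlgebra.ι K (.x e) * FreeAlgebra.ι K g)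
      (FreeAlgebra.ι K g * FreeAlgebra.ι K (.x e))
  | anti (g g' : Gen E ι) (hg : g.odd) (hg' : g'.odd) :
      Rel K E ι (FreeAlgebra.ι K g * FreeAlgebra.ι K g') (-(FreeAlgebra.ι K g' * FreeAlgebra.ι K g))

/-- The algebra. -/
def Om (K E ι : Type) [Field K] [AddCommGroup E] [Module K E] : Type := RingQuot (Rel K E ι)

variable {K E ι : Type} [Field K] [AddCommGroup E] [Module K E]

noncomputable instance instRingOm : Ring (Om K E ι) := inferInstanceAs (Ring (RingQuot (Rel K E ι)))
noncomputable instance instAlgebraOm : Algebra K (Om K E ι) :=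
  inferInstanceAs (Algebra K (RingQuot (Rel K E ι)))

/-- The quotient map. -/
noncomputable def mkOm : FreeAlgebra K (Gen E ι) →ₐ[K] Om K E ι := RingQuot.mkAlgHom K (Rel K E ι)

theorem mkOm_rel {a b : FreeAlgebra K (Gen E ι)} (h : Rel K E ι a b) : mkOm a = mkOm b :=
  RingQuot.mkAlgHom_rel K h

theorem mkOm_surj : Function.Surjective (mkOm (K := K) (E := E) (ι := ι)) :=
  RingQuot.mkAlgHom_surjective K (Rel K E ι)

/-- Image of a generator. -/
noncomputable def gen (K : Type) [Field K] [Module K E] (g : Gen E ι) : Om K E ι :=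
  mkOm (FreeAlgebra.ι K g)

/-- Compatibility of an assignment on generators with the relations. -/
structure Compat (K : Type) [Field K] [Module K E] {B : Type} [Ring B] [Algebra K B]
    (f : Gen E ι → B) : Prop where
  xadd : ∀ a b, f (.x (a + b)) = f (.x a) + f (.x b)
  xsmul : ∀ (r : K) a, f (.x (r • a)) = r • f (.x a)
  dadd : ∀ a b, f (.d (a + b)) = f (.d a) + f (.d b)
  dsmul : ∀ (r : K) a, f (.d (r • a)) = r • f (.d a)
  comm : ∀ e g, f (.x e) * f g = f g * f (.x e)
  anti : ∀ g g', g.odd → g'.odd → f g * f g' = -(f g' * f g)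

theorem compat_gen : Compat K (gen K : Gen E ι → Om K E ι) where
  xadd a b := by
    simpa [gen] using mkOm_rel (Rel.xadd (K := K) (ι := ι) a b)
  xsmul r a := by
    simpa [gen] using mkOm_rel (Rel.xsmul (K := K) (ι := ι) r a)
  dadd a b := by
    simpa [gen] using mkOm_rel (Rel.dadd (K := K) (ι := ι) a b)
  dsmul r a := by
    simpa [gen] using mkOm_rel (Rel.dsmul (K := K) (ι := ι) r a)
  comm e g := by
    simpa [gen] using mkOm_rel (Rel.comm (K := K) e g)
  anti g g' hg hg' := by
    simpa [gen] using mkOm_rel (Rel.anti (K := K) g g' hg hg')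

/-- Universal property. -/
noncomputable def lift {B : Type} [Ring B] [Algebra K B] (f : Gen E ι → B) (h : Compat K f) :
    Om K E ι →ₐ[K] B :=
  RingQuot.liftAlgHom K ⟨FreeAlgebra.lift K f, by
    intro a b r
    induction r with
    | xadd a b => simp [h.xadd]
    | xsmul r a => simp [h.xsmul]
    | dadd a b => simp [h.dadd]
    | dsmul r a => simp [h.dsmul]
    | comm e g => simp [h.comm]
    | anti g g' hg hg' => simp [h.anti g g' hg hg']⟩

@[simp] theorem lift_gen {B : Type} [Ring B] [Algebra K B] (f : Gen E ι → B) (h : Compat K f)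
    (g : Gen E ι) : lift f h (gen K g) = f g := by
  refine (RingQuot.liftAlgHom_mkAlgHom_apply K (FreeAlgebra.lift K f) _
    (FreeAlgebra.ι K g)).trans ?_
  simp

/-- Product of a list of generators. -/
noncomputable def pr (K : Type) [Field K] [Module K E] (l : List (Gen E ι)) : Om K E ι :=
  (l.map (gen K)).prod

@[simp] theorem pr_nil : pr K ([] : List (Gen E ι)) = 1 := by simp [pr]

@[simp] theorem pr_cons (g : Gen E ι) (l : List (Gen E ι)) :
    pr K (g :: l) = gen K g * pr K l := by simp [pr]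

theorem pr_append (l l' : List (Gen E ι)) : pr K (l ++ l') = pr K l * pr K l' := by simp [pr]

/-- Span of the products of lists with a property. -/
noncomputable def Sp (K : Type) [Field K] [Module K E] (Q : List (Gen E ι) → Prop) : Submodule K (Om K E ι) :=
  Submodule.span K {a | ∃ l, Q l ∧ pr K l = a}

theorem pr_mem_Sp {Q : List (Gen E ι) → Prop} {l : List (Gen E ι)} (h : Q l) :
    pr K l ∈ Sp K Q := Submodule.subset_span ⟨l, h, rfl⟩

theorem Sp_le {Q : List (Gen E ι) → Prop} {U : Submodule K (Om K E ι)}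
    (h : ∀ l, Q l → pr K l ∈ U) : Sp K Q ≤ U := by
  refine Submodule.span_le.2 ?_
  rintro a ⟨l, hl, rfl⟩
  exact h l hl

theorem Sp_mono {Q Q' : List (Gen E ι) → Prop} (h : ∀ l, Q l → Q' l) : Sp K Q ≤ Sp K Q' :=
  Sp_le fun l hl => pr_mem_Sp (h l hl)

theorem Sp_map {V : Type} [AddCommGroup V] [Module K V] {Q : List (Gen E ι) → Prop}
    (Φ : Om K E ι →ₗ[K] V) {U : Submodule K V} (h : ∀ l, Q l → Φ (pr K l) ∈ U)
    {a : Om K E ι} (ha : a ∈ Sp K Q) : Φ a ∈ U :=
  (Sp_le (U := U.comap Φ) h) ha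

theorem Sp_ext {V : Type} [AddCommGroup V] [Module K V] {Q : List (Gen E ι) → Prop}
    (Φ Ψ : Om K E ι →ₗ[K] V) (h : ∀ l, Q l → Φ (pr K l) = Ψ (pr K l))
    {a : Om K E ι} (ha : a ∈ Sp K Q) : Φ a = Ψ a := by
  have := Sp_map (Φ - Ψ) (U := ⊥) (Q := Q) (fun l hl => by simp [h l hl]) ha
  simpa [sub_eq_zero] using this

theorem Sp_mul {Q Q' Q'' : List (Gen E ι) → Prop} (h : ∀ l l', Q l → Q' l' → Q'' (l ++ l'))
    {a b : Om K E ι} (ha : a ∈ Sp K Q) (hb : b ∈ Sp K Q') : a * b ∈ Sp K Q'' := by
  refine Sp_map (LinearMap.mulRight K b) (fun l hl => ?_) ha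
  refine Sp_map (LinearMap.mulLeft K (pr K l)) (fun l' hl' => ?_) hb
  simpa [← pr_append] using pr_mem_Sp (h l l' hl hl')

theorem mem_Sp_true (a : Om K E ι) : a ∈ Sp K (fun _ => True) := by
  obtain ⟨b, rfl⟩ := mkOm_surj a
  induction b using FreeAlgebra.induction with
  | grade0 r =>
    rw [AlgHom.commutes, Algebra.algebraMap_eq_smul_one]
    exact Submodule.smul_mem _ _ (by simpa using pr_mem_Sp (K := K) (l := []) trivial)
  | grade1 g => simpa [gen] using pr_mem_Sp (K := K) (l := [g]) trivial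
  | mul a b ha hb => rw [map_mul]; exact Sp_mul (fun _ _ _ _ => trivial) ha hb
  | add a b ha hb => rw [map_add]; exact Submodule.add_mem _ ha hb

theorem lin_ext {V : Type} [AddCommGroup V] [Module K V]
    (Φ Ψ : Om K E ι →ₗ[K] V) (h : ∀ l, Φ (pr K l) = Ψ (pr K l)) (a : Om K E ι) : Φ a = Ψ a :=
  Sp_ext Φ Ψ (fun l _ => h l) (mem_Sp_true a)

theorem map_pr_eq {B : Type} [Ring B] [Algebra K B] (φ ψ : Om K E ι →ₐ[K] B)
    (l : List (Gen E ι)) (h : ∀ g ∈ l, φ (gen K g) = ψ (gen K g)) : φ (pr K l) = ψ (pr K l) := by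
  induction l with
  | nil => simp
  | cons g l ih =>
    simp only [pr_cons, map_mul]
    rw [h g (by simp), ih (fun g' hg' => h g' (by simp [hg']))]

theorem alg_ext {B : Type} [Ring B] [Algebra K B] (φ ψ : Om K E ι →ₐ[K] B)
    (h : ∀ g, φ (gen K g) = ψ (gen K g)) (a : Om K E ι) : φ a = ψ a :=
  lin_ext φ.toLinearMap ψ.toLinearMap (fun l => map_pr_eq φ ψ l (fun g _ => h g)) a

/-- The even generators as a linear map. -/
noncomputable def xx (ι : Type) : E →ₗ[K] Om K E ι where
  toFun e := gen K (.x e)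
  map_add' := compat_gen.xadd
  map_smul' := compat_gen.xsmul

/-- The odd generators `d e` as a linear map. -/
noncomputable def dd (ι : Type) : E →ₗ[K] Om K E ι where
  toFun e := gen K (.d e)
  map_add' := compat_gen.dadd
  map_smul' := compat_gen.dsmul

/-- The Koszul generators. -/
noncomputable def kk (K E : Type) [Field K] [AddCommGroup E] [Module K E] (i : ι) : Om K E ι :=
  gen K (.k i)

@[simp] theorem gen_x (e : E) : gen K (.x e : Gen E ι) = xx (K := K) ι e := rfl
@[simp] theorem gen_d (e : E) : gen K (.d e : Gen E ι) = dd (K := K) ι e := rfl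
@[simp] theorem gen_k (i : ι) : gen K (.k i : Gen E ι) = kk K E i := rfl

theorem xx_comm (e : E) (a : Om K E ι) : xx (K := K) ι e * a = a * xx (K := K) ι e := by
  refine lin_ext (LinearMap.mulLeft K (xx (K := K) ι e)) (LinearMap.mulRight K (xx (K := K) ι e))
    (fun l => ?_) a
  simp only [LinearMap.mulLeft_apply, LinearMap.mulRight_apply]
  induction l with
  | nil => simp
  | cons g l ih =>
    have := compat_gen.comm (K := K) e g
    simp only [gen_x] at this
    rw [pr_cons, ← mul_assoc, this, mul_assoc, ih, mul_assoc]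

theorem xx_pow_comm (e : E) (n : ℕ) (a : Om K E ι) :
    xx (K := K) ι e ^ n * a = a * xx (K := K) ι e ^ n :=
  (Commute.pow_left (xx_comm e a) n)

/-- Span of the odd generators. -/
noncomputable def O1 (K E ι : Type) [Field K] [AddCommGroup E] [Module K E] : Submodule K (Om K E ι) :=
  Submodule.span K {a | ∃ g : Gen E ι, g.odd ∧ gen K g = a}

theorem gen_mem_O1 {g : Gen E ι} (h : g.odd) : gen K g ∈ O1 K E ι :=
  Submodule.subset_span ⟨g, h, rfl⟩

theorem dd_mem_O1 (e : E) : dd (K := K) ι e ∈ O1 K E ι := gen_mem_O1 (g := .d e) trivial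
theorem kk_mem_O1 (i : ι) : kk K E i ∈ O1 K E ι := gen_mem_O1 (g := .k i) trivial

theorem O1_anti {a b : Om K E ι} (ha : a ∈ O1 K E ι) (hb : b ∈ O1 K E ι) : a * b = -(b * a) := by
  induction ha using Submodule.span_induction with
  | mem a ha =>
    obtain ⟨g, hg, rfl⟩ := ha
    induction hb using Submodule.span_induction with
    | mem b hb =>
      obtain ⟨g', hg', rfl⟩ := hb
      exact compat_gen.anti g g' hg hg'
    | zero => simp
    | add b c _ _ h1 h2 => rw [mul_add, add_mul, h1, h2, neg_add]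
    | smul r b _ h1 => rw [mul_smul_comm, smul_mul_assoc, h1, smul_neg]
  | zero => simp
  | add a c _ _ h1 h2 => rw [mul_add, add_mul, h1, h2, neg_add]
  | smul r a _ h1 => rw [mul_smul_comm, smul_mul_assoc, h1, smul_neg]

theorem O1_sq [NeZero (2 : K)] {a : Om K E ι} (ha : a ∈ O1 K E ι) : a * a = 0 := by
  have h := O1_anti ha ha
  have h2 : (2 : K) • (a * a) = 0 := by
    rw [two_smul]; nth_rewrite 1 [h]; simp
  exact (smul_eq_zero.1 h2).resolve_left (NeZero.ne 2)

/-- Values of an endomorphism on generators. -/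
noncomputable def endoGen (F G : E →ₗ[K] E) (u : ι → Om K E ι) : Gen E ι → Om K E ι
  | .x e => xx (K := K) ι (F e)
  | .d e => dd (K := K) ι (G e)
  | .k i => u i

theorem endoGen_odd (F G : E →ₗ[K] E) (u : ι → Om K E ι) (hu : ∀ i, u i ∈ O1 K E ι)
    {g : Gen E ι} (hg : g.odd) : endoGen F G u g ∈ O1 K E ι := by
  cases g with
  | x e => exact hg.elim
  | d e => exact dd_mem_O1 _
  | k i => exact hu i

/-- Endomorphisms given on generators. -/
noncomputable def endo (F G : E →ₗ[K] E) (u : ι → Om K E ι) (hu : ∀ i, u i ∈ O1 K E ι) :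
    Om K E ι →ₐ[K] Om K E ι :=
  lift (endoGen F G u)
    { xadd := fun a b => by simp [endoGen]
      xsmul := fun r a => by simp [endoGen]
      dadd := fun a b => by simp [endoGen]
      dsmul := fun r a => by simp [endoGen]
      comm := fun e g => xx_comm _ _
      anti := fun g g' hg hg' => O1_anti (endoGen_odd F G u hu hg) (endoGen_odd F G u hu hg') }

@[simp] theorem endo_xx (F G : E →ₗ[K] E) (u : ι → Om K E ι) (hu : ∀ i, u i ∈ O1 K E ι) (e : E) :
    endo F G u hu (xx (K := K) ι e) = xx (K := K) ι (F e) := lift_gen _ _ (.x e)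
@[simp] theorem endo_dd (F G : E →ₗ[K] E) (u : ι → Om K E ι) (hu : ∀ i, u i ∈ O1 K E ι) (e : E) :
    endo F G u hu (dd (K := K) ι e) = dd (K := K) ι (G e) := lift_gen _ _ (.d e)
@[simp] theorem endo_kk (F G : E →ₗ[K] E) (u : ι → Om K E ι) (hu : ∀ i, u i ∈ O1 K E ι) (i : ι) :
    endo F G u hu (kk K E i) = u i := lift_gen _ _ (.k i)

/-- The parity automorphism. -/
noncomputable def par : Om K E ι →ₐ[K] Om K E ι :=
  endo LinearMap.id (-LinearMap.id) (fun i => -kk K E i)
    (fun i => Submodule.neg_mem _ (kk_mem_O1 i))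

@[simp] theorem par_xx (e : E) : par (xx (K := K) ι e) = xx (K := K) ι e := by simp [par]
@[simp] theorem par_dd (e : E) : par (dd (K := K) ι e) = -dd (K := K) ι e := by simp [par]
@[simp] theorem par_kk (i : ι) : par (kk K E i) = -kk K E i := by simp [par]

@[simp] theorem par_par (a : Om K E ι) : par (par a) = a :=
  alg_ext (par.comp par) (AlgHom.id K _) (fun g => by cases g <;> simp) a

theorem par_O1 {a : Om K E ι} (ha : a ∈ O1 K E ι) : par a = -a := by
  induction ha using Submodule.span_induction with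
  | mem a ha =>
    obtain ⟨g, hg, rfl⟩ := ha
    cases g with
    | x e => exact hg.elim
    | d e => simp
    | k i => simp
  | zero => simp
  | add a c _ _ h1 h2 => rw [map_add, h1, h2, neg_add]
  | smul r a _ h1 => rw [map_smul, h1, smul_neg]

theorem par_gen (g : Gen E ι) : par (gen K g) = gen K g ∨ par (gen K g) = -gen K g := by
  cases g <;> simp

theorem par_pr (l : List (Gen E ι)) : par (pr K l) = pr K l ∨ par (pr K l) = -pr K l := by
  induction l with
  | nil => simp
  | cons g l ih =>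
    rw [pr_cons, map_mul]
    rcases par_gen (K := K) g with h | h <;> rcases ih with h' | h' <;> simp [h, h']

theorem O1_mul {θ : Om K E ι} (hθ : θ ∈ O1 K E ι) (a : Om K E ι) : θ * a = par a * θ := by
  refine lin_ext (LinearMap.mulLeft K θ) ((LinearMap.mulRight K θ).comp par.toLinearMap)
    (fun l => ?_) a
  simp only [LinearMap.mulLeft_apply, LinearMap.comp_apply, LinearMap.mulRight_apply,
    AlgHom.toLinearMap_apply]
  induction l with
  | nil => simp
  | cons g l ih =>
    rw [pr_cons, map_mul, mul_assoc, ← ih, ← mul_assoc, ← mul_assoc]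
    congr 1
    cases g with
    | x e => simp [xx_comm]
    | d e => simpa using O1_anti hθ (dd_mem_O1 e)
    | k i => simpa using O1_anti hθ (kk_mem_O1 i)

theorem mul_O1 {θ : Om K E ι} (hθ : θ ∈ O1 K E ι) (a : Om K E ι) : a * θ = θ * par a := by
  rw [O1_mul hθ, par_par]

theorem Sp_par {Q : List (Gen E ι) → Prop} {a : Om K E ι} (ha : a ∈ Sp K Q) : par a ∈ Sp K Q := by
  refine Sp_map par.toLinearMap (fun l hl => ?_) ha
  rcases par_pr (K := K) l with h | h
  · simpa [h] using pr_mem_Sp hl
  · simpa [h] using pr_mem_Sp hl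

/-- A product with a repeated odd generator vanishes. -/
theorem pr_eq_zero_of_mem [NeZero (2 : K)] {g : Gen E ι} (hg : g.odd) {l : List (Gen E ι)}
    (h : g ∈ l) : gen K g * pr K l = 0 := by
  obtain ⟨s, t, rfl⟩ := List.append_of_mem h
  rw [pr_append, pr_cons, ← mul_assoc, O1_mul (gen_mem_O1 hg), mul_assoc, ← mul_assoc (gen K g),
    O1_sq (gen_mem_O1 hg)]
  simp

end Pool.Agent.AJT
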