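import Pool.Agent.MP_79429d_co.J9

/-! Exactness of the graded piece. -/

set_option autoImplicit false

namespace Pool.Agent.AJT

open TensorProduct

variable {K E ι : Type} [Field K] [AddCommGroup E] [Module K E]

omit [AddCommGroup E] in
theorem wt_add (w w' : Gen E ι → ℕ) (l : List (Gen E ι)) :
    wt (fun g => w g + w' g) l = wt w l + wt w' l := by
  simp only [wt]; exact List.sum_map_add

omit [AddCommGroup E] in
theorem wt_mul (n : ℕ) (w : Gen E ι → ℕ) (l : List (Gen E ι)) :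
    wt (fun g => n * w g) l = n * wt w l := by
  induction l with
  | nil => simp
  | cons g l ih => simp [ih, mul_add]

omit [AddCommGroup E] in
theorem le_wt (w : Gen E ι → ℕ) {l : List (Gen E ι)} {g : Gen E ι} (hg : g ∈ l) : w g ≤ wt w l := by
  obtain ⟨s, t, rfl⟩ := List.append_of_mem hg
  rw [wt_append, wt_cons]; omega

/-- A weight given by its three kinds of values. -/
def w3 (a b : ℕ) (c : ι → ℕ) : Gen E ι → ℕ
  | .x _ => a
  | .d _ => b
  | .k i => c i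

variable [Fintype ι] [DecidableEq ι] [FiniteDimensional K E]
  (p : ℕ) [Fact p.Prime] [CharP K p] [NeZero (2 : K)]

section
variable {T S : Submodule K E} {σ : E →ₗ[K] E} {X : Set ι} {v : ι → E}

omit [Fintype ι] [DecidableEq ι] [FiniteDimensional K E] [Fact p.Prime] [CharP K p]
  [NeZero (2 : K)] in
theorem EE_left (h : Spl T S σ) (u : ι → E) (X' : Set ι) :
    ∀ g ∈ gens S X', EE p u σ (gen K g) = (w3 1 1 0 g : K) • gen K g := by
  intro g hg
  cases g with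
  | x e => simp [w3, h.fix e hg]
  | d e => simp [w3, h.fix e hg]
  | k i => simp [w3]

open Classical in
theorem YY_bound (hK : ∀ r : K, r ^ p = r) (hp : 4 ≤ p) (h : Spl T S σ) {c : ι → ℕ}
    (hc : ∀ i, c i ≤ 2) {y : ι} {n0 : ℕ}
    (hm : mass S v c + (∑ i, if i ∈ X ∧ v i ∈ S ∧ i ≠ y then 2 - c i else 0) + 1 ≤ 2 * n0)
    (u : ι → E) {z : Om K E ι} (hz : z ∈ YY S σ X v c y) (hE : EE p u σ z = 0) {j : ℕ}
    (hj : p * (Module.finrank K S + n0) < j + p) (hzj : z ∈ Hom (tau K E ι p) j) : z = 0 := by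
  let b := Module.finBasis K S
  let lg : Set (Gen E ι) := {g | (∃ j, g = .x (b j)) ∨ (∃ j, g = .d (b j)) ∨
    ∃ i, (i ∈ X ∧ v i ∈ S) ∧ g = .k i}
  have hlg : lg ⊆ gens S {i ∈ X | v i ∈ S} := by
    rintro g (⟨j, rfl⟩ | ⟨j, rfl⟩ | ⟨i, hi, rfl⟩)
    exacts [(b j).2, (b j).2, hi]
  have hlg' : gens S {i ∈ X | v i ∈ S} ⊆ hgens T S σ X := by
    intro g hg
    cases g with
    | x e => exact Or.inl hg
    | d e => exact Or.inl hg
    | k i => exact hg.1
  have h1 : z ∈ Fil K lg (ws S v c) (mass S v c) := by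
    refine Fil_le (fun g hg => ?_) _ (mem_KK.1 (mem_FF.1 hz.2).1 S le_rfl)
    have hrep : ∀ e ∈ S, ∃ r : Fin (Module.finrank K S) → K, e = ∑ j, r j • (b j : E) := by
      intro e he
      refine ⟨fun j => b.repr ⟨e, he⟩ j, ?_⟩
      have := congrArg (fun s : S => (s : E)) (b.sum_repr ⟨e, he⟩)
      simp only [Submodule.coe_sum, Submodule.coe_smul] at this
      exact this.symm
    cases g with
    | x e =>
      obtain ⟨r, hr⟩ := hrep e hg
      rw [gen_x, ws_x, if_pos (show e ∈ S from hg), hr, map_sum]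
      refine Submodule.sum_mem _ fun j _ => ?_
      rw [map_smul]
      exact Submodule.smul_mem _ _ (gen_mem_Fil (g := .x (b j : E)) (Or.inl ⟨j, rfl⟩)
        (by simp [ws_x]))
    | d e =>
      obtain ⟨r, hr⟩ := hrep e hg
      rw [gen_d, ws_d, if_pos (show e ∈ S from hg), hr, map_sum]
      refine Submodule.sum_mem _ fun j _ => ?_
      rw [map_smul]
      exact Submodule.smul_mem _ _
        (gen_mem_Fil (g := .d (b j : E)) (Or.inr (Or.inl ⟨j, rfl⟩)) (by simp [ws_d]))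
    | k i => exact gen_mem_Fil (Or.inr (Or.inr ⟨i, hg, rfl⟩)) le_rfl
  have h2 := cp_Sp (G := gS S σ v (c + Pi.single y 1)) (w := ws S v (c + Pi.single y 1))
    (fun l hl g hg => hgens_Hom h _ g (hlg' (hlg (hl.1 g hg)))) (mass S v c) h1
  rw [cp_self hz.1] at h2
  have h3 := PP_Sp p hK u σ (w := w3 1 1 0)
    (fun l hl g hg => EE_left p h u _ g (hlg (hl.1.1 g hg))) h2
  rw [PP_of_EE p u σ hE] at h3
  have h4 := cp_Sp (G := tau K E ι p) (w := wT p) (fun _ _ g _ => gen_tau p g) j h3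
  rw [cp_self hzj] at h4
  refine Sp_ext LinearMap.id 0 (fun l hl => ?_) h4
  by_contra hne
  obtain ⟨⟨⟨⟨hl, hl1⟩, hl2⟩, q, hl3⟩, hl4⟩ := hl
  have e1 : wt (wT p) l = 2 * wt (w3 1 1 0) l + p * wt (w3 0 1 0) l + p * wt (w3 0 0 1) l := by
    rw [← wt_mul, ← wt_mul, ← wt_mul, ← wt_add, ← wt_add]
    refine wt_congr fun g _ => ?_
    cases g <;> simp [wT, w3, add_comm]
  have e2 : wt (ws S v c) l = wt (w3 1 1 0) l + wt (w3 0 0 c) l := by
    rw [← wt_add]
    refine wt_congr fun g hg => ?_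
    rcases hl g hg with ⟨j, rfl⟩ | ⟨j, rfl⟩ | ⟨i, hi, rfl⟩
    · simp [ws_x, w3]
    · simp [ws_d, w3]
    · simp [ws_k, w3, hi.2]
  have e3 : wt (ws S v (c + Pi.single y 1)) l
      = wt (ws S v c) l + wt (w3 0 0 (Pi.single y 1)) l := by
    rw [← wt_add]
    refine wt_congr fun g hg => ?_
    rcases hl g hg with ⟨j, rfl⟩ | ⟨j, rfl⟩ | ⟨i, hi, rfl⟩
    · simp [ws_x, w3]
    · simp [ws_d, w3]
    · simp [ws_k, w3, hi.2]
  have e4 : wt (w3 0 0 (fun i => 2 - c i)) l + wt (w3 0 0 c) l = 2 * wt (w3 0 0 1) l := by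
    rw [← wt_add, ← wt_mul]
    refine wt_congr fun g _ => ?_
    cases g with
    | x e => simp [w3]
    | d e => simp [w3]
    | k i => have := hc i; simp [w3]; omega
  have e5 : Gen.k y ∉ l := fun hm => by
    have := le_wt (w3 0 0 (Pi.single y 1)) hm
    simp only [w3, Pi.single_eq_same] at this
    omega
  have e6 := wt_le_sum (K := K) (fun j => (.d (b j) : Gen E ι)) (fun _ => trivial) (fun _ => 1)
    (w := w3 0 1 0) (l := l) hne (fun g hg => by
      rcases hl g hg with ⟨j, rfl⟩ | ⟨j, rfl⟩ | ⟨i, hi, rfl⟩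
      · exact Or.inl rfl
      · exact Or.inr ⟨j, rfl, le_rfl⟩
      · exact Or.inl rfl)
  have e7 := wt_le_sum (K := K) (fun i => (.k i : Gen E ι)) (fun _ => trivial)
    (fun i => if i ∈ X ∧ v i ∈ S ∧ i ≠ y then 2 - c i else 0)
    (w := w3 0 0 (fun i => 2 - c i)) (l := l) hne (fun g hg => by
      rcases hl g hg with ⟨j, rfl⟩ | ⟨j, rfl⟩ | ⟨i, hi, rfl⟩
      · exact Or.inl rfl
      · exact Or.inl rfl
      · have : i ≠ y := fun h => e5 (h ▸ hg)
        exact Or.inr ⟨i, rfl, by simp [w3, hi.1, hi.2, this]⟩)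
  simp only [Finset.sum_const, Finset.card_univ, Fintype.card_fin, smul_eq_mul, mul_one] at e6
  have e8 : 4 * q ≤ p * q := Nat.mul_le_mul_right _ hp
  have e9 : 2 * q + wt (w3 0 1 0) l + wt (w3 0 0 1) l + 1 ≤ Module.finrank K S + n0 := by omega
  have e10 := Nat.mul_le_mul_left p e9
  rw [← hl4, e1, hl3] at hj
  nlinarith

open Classical in
theorem graded_exact (hK : ∀ r : K, r ^ p = r) (hp : 4 ≤ p) (h : Spl T S σ)
    (hv : ∀ i ∈ X, v i ∈ T) {c : ι → ℕ} (hc : ∀ i, c i ≤ 2) {y : ι} {n0 : ℕ}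
    (hm : mass S v c + (∑ i, if i ∈ X ∧ v i ∈ S ∧ i ≠ y then 2 - c i else 0) + 1 ≤ 2 * n0)
    {N' t0 : ℕ} (ht0 : p * N' + p * (Module.finrank K S + n0) < t0 + p)
    (habs : ∀ t, p * N' < t → ∀ a ∈ WW T S σ X v c, a ∈ Hom (tau K E ι p) t →
      DD p (fun i => (LinearMap.id - σ : E →ₗ[K] E) (v i)) a = 0 →
      ∃ b ∈ WW T S σ X v c, DD p (fun i => (LinearMap.id - σ : E →ₗ[K] E) (v i)) b = a)
    {a : Om K E ι} (ha : a ∈ (TS (YY S σ X v c y) (WW T S σ X v c)).map mu)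
    (hat : a ∈ Hom (tau K E ι p) t0)
    (hD : DD p (fun i => (LinearMap.id - σ : E →ₗ[K] E) (v i)) a = 0) :
    ∃ b ∈ (TS (YY S σ X v c y) (WW T S σ X v c)).map mu,
      DD p (fun i => (LinearMap.id - σ : E →ₗ[K] E) (v i)) b = a := by
  set u : ι → E := fun i => (LinearMap.id - σ : E →ₗ[K] E) (v i) with hu
  set Y := YY S σ X v c y with hY
  set W := WW T S σ X v c with hW
  set U := (TS Y W).map mu with hU
  have hp0 := (Fact.out : p.Prime).pos
  let AL := gens (ι := ι) S {i ∈ X | v i ∈ S}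
  let AR := gens (ι := ι) (T.map (LinearMap.id - σ)) {i ∈ X | v i ∉ S}
  have hYL : Y ≤ Fil K AL 0 0 := fun z hz => KK_le_zero (mem_FF.1 hz.2).1
  have hWR : W ≤ Fil K AR 0 0 := KK_le_zero
  have hAL : AL ⊆ hgens T S σ X := by
    intro g hg
    cases g with
    | x e => exact Or.inl hg
    | d e => exact Or.inl hg
    | k i => exact hg.1
  have hσ0 : ∀ e ∈ T.map (LinearMap.id - σ), σ e = 0 := by
    rintro _ ⟨e, _, rfl⟩
    simp [h.fix _ (h.mem e)]
  have hL : ∀ g ∈ AL, gR σ {i | v i ∈ S} g = 0 := by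
    intro g hg
    cases g with
    | x e => simp [gR, h.fix e hg]
    | d e => simp [gR, h.fix e hg]
    | k i => simp [gR, hg.2]
  have hR : ∀ g ∈ AR, gL σ {i | v i ∈ S} g = 0 := by
    intro g hg
    cases g with
    | x e => simp [gL, hσ0 e hg]
    | d e => simp [gL, hσ0 e hg]
    | k i => simp [gL, hg.2]
  have hHom : ∀ {δ : Om K E ι →ₗ[K] Om K E ι}, IsOdd δ →
      (∀ g ∈ AL, δ (gen K g) ∈ Hom (gS S σ v (c + Pi.single y 1))
        (ws S v (c + Pi.single y 1) g)) →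
      ∀ z ∈ Y, δ z ∈ Hom (gS S σ v (c + Pi.single y 1)) (mass S v c) := by
    intro δ hδ hg z hz
    have h1 := cp_Sp (G := gS S σ v (c + Pi.single y 1)) (w := ws S v (c + Pi.single y 1))
      (fun l hl g hg => hgens_Hom h _ g (hAL (hl.1 g hg))) (mass S v c) (hYL hz)
    rw [cp_self hz.1] at h1
    refine Sp_map δ (fun l hl => ?_) h1
    rw [← hl.2]
    exact der_pr_Hom hδ.der 0 l fun g hg' => ⟨hgens_Hom h _ g (hAL (hl.1.1 g hg')),
      par_Hom_gen (hgens_Hom h _ g (hAL (hl.1.1 g hg'))), hg g (hl.1.1 g hg')⟩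
  have hu0 : ∀ i, v i ∈ S → xx (K := K) ι (u i) ^ p = 0 := fun i hi => by
    simp [hu, h.fix _ hi, hp0.ne']
  have hDY : ∀ z ∈ Y, DD p u z ∈ Y := fun z hz => ⟨hHom (DD_isOdd p u) (fun g hg => by
      cases g with
      | x e => rw [gen_x, DD_xx]; exact hgens_Hom (X := X) h _ (.d e) (Or.inl hg)
      | d e => simp
      | k i => simp [hu0 i hg.2]) z hz,
    FF_stable (fun S' c0 _ k a ha => DD_Fil p (fun i hi => by simp [hu0 i hi.2]) ha) hz.2⟩
  have hhY : ∀ z ∈ Y, hh ι σ z ∈ Y := fun z hz => ⟨hHom (hh_isOdd σ) (fun g hg => by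
      cases g with
      | x e => simp
      | d e => rw [gen_d, hh_dd, h.fix e hg]; exact hgens_Hom (X := X) h _ (.x e) (Or.inl hg)
      | k i => simp) z hz,
    FF_stable (fun S' c0 _ k a ha => Fil_odd (hh_isOdd σ) 0 0 (fun g hg => by
      cases g with
      | x e => simp
      | d e => rw [gen_d, hh_dd, h.fix e hg]; exact gen_mem_Fil (g := .x e) hg le_rfl
      | k i => simp) ha) hz.2⟩
  have hEY : ∀ z ∈ Y, EE p u σ z ∈ Y := fun z hz =>
    Submodule.add_mem _ (hDY _ (hhY z hz)) (hhY _ (hDY z hz))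
  have hSpY : ∀ Φ : Om K E ι →ₗ[K] Om K E ι,
      (∀ Q, ∀ a ∈ Sp K Q, Φ a ∈ Sp K Q) → ∀ z ∈ Y, Φ z ∈ Y := by
    intro Φ hΦ z hz
    refine ⟨?_, FF_stable (fun S' c0 _ k a ha => hΦ _ a ha) hz.2⟩
    have h1 := cp_Sp (G := gS S σ v (c + Pi.single y 1)) (w := ws S v (c + Pi.single y 1))
      (fun l hl g hg => hgens_Hom h _ g (hAL (hl.1 g hg))) (mass S v c) (hYL hz)
    rw [cp_self hz.1] at h1
    exact Sp_le_Hom (fun l hl => ⟨fun g hg => hgens_Hom h _ g (hAL (hl.1.1 g hg)), hl.2⟩)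
      (hΦ _ z h1)
  have hparY : ∀ z ∈ Y, par z ∈ Y := hSpY par.toLinearMap (fun _ _ ha => Sp_par ha)
  have hcpY : ∀ k, ∀ z ∈ Y, cp (tau K E ι p) k z ∈ Y := fun k =>
    hSpY _ (fun _ _ ha => cp_tau_Sp p k ha)
  have hcpW : ∀ k, ∀ z ∈ W, cp (tau K E ι p) k z ∈ W := fun k z hz =>
    KK_stable (fun _ _ _ _ ha => cp_tau_Sp p k ha) hz
  have hDW : ∀ z ∈ W, DD p u z ∈ W := fun z hz =>
    KK_stable (fun _ _ _ _ ha => DD_Fil_self p
      (fun i hi => Submodule.mem_map_of_mem (hv i hi.1))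
      (fun i _ => by have := hc i; simp only [cOut]; split_ifs <;> omega) ha) hz
  have hhR : ∀ b ∈ W, hh ι σ b = 0 := fun b hb =>
    Fil_der_zero (hh_isOdd σ).der (fun g hg => by
      cases g with
      | x e => simp
      | d e => simp [hσ0 e hg]
      | k i => simp) (hWR hb)
  have hER : ∀ b ∈ W, EE p u σ b = 0 := fun b hb => by
    rw [EE_apply, hhR b hb, hhR _ (hDW b hb)]; simp
  have hEn : ∀ n z, ∀ b ∈ W, (EE p u σ ^ n) (z * b) = (EE p u σ ^ n) z * b := by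
    intro n z b hb
    induction n with
    | zero => simp
    | succ n ih =>
      rw [pow_succ', Module.End.mul_apply, Module.End.mul_apply, ih, EE_isDer, hER b hb]; simp
  have hcpU : ∀ k, ∀ a ∈ U, cp (tau K E ι p) k a ∈ U := by
    rintro k _ ⟨t, ht, rfl⟩
    refine TS_map ((cp (tau K E ι p) k).comp mu) (fun z hz b hb => ?_) ht
    rw [LinearMap.comp_apply, mu_tmul, cp_mul]
    exact Submodule.sum_mem _ fun x _ =>
      ⟨_, tmul_mem_TS (hcpY _ z hz) (hcpW _ b hb), mu_tmul _ _⟩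
  obtain ⟨t, ht, rfl⟩ := ha
  let Y0 := Y ⊓ LinearMap.ker (EE p u σ)
  let t1 := TensorProduct.map (PP p u σ) LinearMap.id t
  have ht1 : t1 ∈ TS Y0 W := TS_map _ (fun z hz b hb => tmul_mem_TS (U := Y0)
    ⟨Submodule.sub_mem _ hz (pow_apply_mem _ hEY _ hz), EE_PP p hK u σ (w := w3 1 1 0)
      (fun l hl g hg => EE_left p h u _ g (hl.1 g hg)) (hYL hz)⟩ hb) ht
  have hmu1 : mu t1 = PP p u σ (mu t) :=
    TS_ext (mu.comp (TensorProduct.map (PP p u σ) LinearMap.id)) ((PP p u σ).comp mu)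
      (fun z _ b hb => by simp [PP_apply, hEn _ z b hb, sub_mul]) ht
  have hs1 : hh ι σ ((EE p u σ ^ (p - 2)) (mu t)) ∈ U :=
    TS_map ((hh ι σ).comp ((EE p u σ ^ (p - 2)).comp mu)) (N := U) (fun z hz b hb =>
      ⟨_, tmul_mem_TS (hhY _ (pow_apply_mem _ hEY (p - 2) hz)) hb, by
        simp [hEn _ z b hb, (hh_isOdd σ).der _ b, hhR b hb]⟩) ht
  have he := euler_exact p u σ hD
  obtain ⟨b1, hb1, hb1', -⟩ := exists_cp_DD p u U hcpU t0 hs1
  let Φ : Om K E ι ⊗[K] Om K E ι →ₗ[K] Om K E ι ⊗[K] Om K E ι :=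
    ∑ x ∈ Finset.HasAntidiagonal.antidiagonal t0,
      TensorProduct.map (cp (tau K E ι p) x.1) (cp (tau K E ι p) x.2)
  have hΦ : ∀ s, mu (Φ s) = cp (tau K E ι p) t0 (mu s) := by
    intro s
    induction s with
    | zero => simp
    | tmul a b => simp [Φ, LinearMap.sum_apply, map_sum, cp_mul]
    | add a b ha hb => simp [ha, hb]
  have hEcp : ∀ k z, EE p u σ (cp (tau K E ι p) k z) = cp (tau K E ι p) k (EE p u σ z) :=
    fun k z => (cp_lin (w := wT p) (EE p u σ) 0 (fun l _ => ⟨pr_tau p l,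
      der_pr_Hom (EE_isDer p u σ) 0 l fun g _ => ⟨gen_tau p g, gen_tau p g, by
        cases g with
        | x e => rw [gen_x, EE_xx]; exact xx_tau p _
        | d e => rw [gen_d, EE_dd]; exact dd_tau p _
        | k i => simp⟩⟩) k (mem_Sp_true z)).symm
  have ht2 : Φ t1 ∈ TG (fun j => Y0 ⊓ Hom (tau K E ι p) j) (fun j => W ⊓ Hom (tau K E ι p) j)
      t0 0 := by
    refine TS_map Φ (fun z hz b hb => ?_) ht1
    simp only [Φ, LinearMap.sum_apply, TensorProduct.map_tmul]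
    refine Submodule.sum_mem _ fun x hx => tmul_mem_TG (Nat.zero_le _)
      (Finset.HasAntidiagonal.mem_antidiagonal.1 hx) ⟨⟨hcpY _ z hz.1, ?_⟩, cp_tau_Hom _ _ _⟩
      ⟨hcpW _ b hb, cp_tau_Hom _ _ _⟩
    have := hz.2
    simp only [SetLike.mem_coe, LinearMap.mem_ker] at this ⊢
    rw [hEcp, this, map_zero]
  have hD1 : DD p u (mu t1) = 0 := by
    have := congrArg (DD p u) he
    rw [DD_DD, map_sub, hD, zero_sub, neg_eq_zero] at this
    rw [hmu1, this]
  have hD2 : tdiff (DD p u) par.toLinearMap (Φ t1) = 0 := by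
    refine eq_zero_of_mu σ _ hL hR (w := 0) (w' := 0) (k := 0) (k' := 0) ?_ ?_
    · refine TG_map _ (fun i k _ _ z hz b hb => ?_) ht2
      rw [tdiff_tmul]
      exact Submodule.add_mem _ (tmul_mem_TS (hYL (hDY z hz.1.1)) (hWR hb.1))
        (tmul_mem_TS (hYL (hparY z hz.1.1)) (hWR (hDW b hb.1)))
    · rw [mu_tdiff (DD_isOdd p u), hΦ, ← cp_tau_DD, hD1, map_zero]
  have hn0 : p ≤ p * (Module.finrank K S + n0) := Nat.le_mul_of_pos_right _ (by omega)
  obtain ⟨s, hs, hs'⟩ := tensor_step (DD p u) par.toLinearMap (DD_DD p u) (DD_isOdd p u).anti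
    par_par (fun j => Y0 ⊓ Hom (tau K E ι p) j) (fun j => W ⊓ Hom (tau K E ι p) j)
    Y W (fun i z hz => hz.1.1) (fun i z hz => hz.1) (cp (tau K E ι p))
    (fun i j z hz => cp_of_Hom hz.2 j) p hp0
    (fun i z hz => ⟨⟨hDY z hz.1.1, by
      have := hz.1.2
      simp only [SetLike.mem_coe, LinearMap.mem_ker] at this ⊢
      rw [EE_DD, this, map_zero]⟩, DD_tau p u hz.2⟩)
    (fun i z hz => ⟨⟨hparY z hz.1.1, by
      have := hz.1.2
      simp only [SetLike.mem_coe, LinearMap.mem_ker, AlgHom.toLinearMap_apply] at this ⊢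
      rw [EE_apply, (hh_isOdd σ).anti, (DD_isOdd p u).anti, map_neg, map_neg, (hh_isOdd σ).anti,
        (DD_isOdd p u).anti, neg_neg, neg_neg, ← map_add, ← EE_apply, this, map_zero]⟩,
      par_tau p hz.2⟩)
    (p * (Module.finrank K S + n0) - p)
    (fun i hi z hz => YY_bound p hK hp h hc hm u hz.1.1 hz.1.2 (by omega) hz.2) t0
    (fun k hk w hw hDw => by
      obtain ⟨b, hb, hb'⟩ := habs k (by omega) w hw.1 hw.2 hDw
      obtain ⟨b', hb1, hb2, hb3⟩ := exists_cp_DD p u W hcpW k hb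
      rw [hb', cp_self hw.2] at hb2
      rcases hb3 with h0 | ⟨k0, hk0, h0⟩
      · exact Or.inl (by rw [hb2, h0, map_zero])
      · exact Or.inr ⟨k0, hk0, b', ⟨hb1, h0⟩, hb2.symm⟩) ht2 hD2
  refine ⟨mu s + b1, Submodule.add_mem _ ⟨s, hs, rfl⟩ hb1, ?_⟩
  rw [map_add, ← mu_tdiff (DD_isOdd p u), hs', hΦ, ← hb1', ← he, hmu1, ← map_add, add_sub_cancel,
    cp_self hat]

end

end Pool.Agent.AJT
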