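import Pool.Agent.MP_79429d_co.J10

/-! The vanishing theorem. -/

set_option autoImplicit false

namespace Pool.Agent.AJT

variable {K E ι : Type} [Field K] [AddCommGroup E] [Module K E]
  [Fintype ι] [DecidableEq ι] [FiniteDimensional K E]
  (p : ℕ) [Fact p.Prime] [CharP K p] [NeZero (2 : K)]

omit [FiniteDimensional K E] [Fact p.Prime] [CharP K p] [NeZero (2 : K)] in
theorem DD_FF (hp : 4 ≤ p) {T : Submodule K E} {X : Set ι} {v : ι → E} (hv : ∀ i ∈ X, v i ∈ T)
    {c : ι → ℕ} (hc : ∀ i, c i ≤ 2) {y : ι} {C : Set (Submodule K E)} {a : Om K E ι}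
    (ha : a ∈ FF T X v c y C) : DD p v a ∈ FF T X v c y C := by
  refine FF_stable (fun S c0 hc0 k a ha => DD_Fil_self p hv (fun i _ => ?_) ha) ha
  have := hc i
  rcases hc0 with rfl | rfl
  · omega
  · by_cases h : i = y
    · subst h; simp; omega
    · simp [h]; omega

open Classical in
theorem step (hK : ∀ r : K, r ^ p = r) (hp : 4 ≤ p) {T S : Submodule K E} {σ : E →ₗ[K] E}
    {X : Set ι} {v : ι → E} (h : Spl T S σ)
    (hv : ∀ i ∈ X, v i ∈ T) {c : ι → ℕ} (hc : ∀ i, c i ≤ 2) (hcT : ∀ i, c i ≠ 0 → v i ∈ T)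
    {y : ι} (hy : v y ∈ S) {n0 : ℕ}
    (hm : mass S v c + (∑ i, if i ∈ X ∧ v i ∈ S ∧ i ≠ y then 2 - c i else 0) + 1 ≤ 2 * n0)
    {N' t0 : ℕ} (ht0 : p * N' + p * (Module.finrank K S + n0) < t0 + p)
    (habs : ∀ t, p * N' < t → ∀ a ∈ WW T S σ X v c, a ∈ Hom (tau K E ι p) t →
      DD p (fun i => (LinearMap.id - σ : E →ₗ[K] E) (v i)) a = 0 →
      ∃ b ∈ WW T S σ X v c, DD p (fun i => (LinearMap.id - σ : E →ₗ[K] E) (v i)) b = a)
    {C : Set (Submodule K E)} (hC : ∀ S' < S, v y ∈ S' → S' ∈ C)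
    (hC' : ∀ S' ∈ C, S' ≤ T ∧ v y ∈ S' ∧ ¬ S ≤ S')
    {a : Om K E ι} (ha : a ∈ FF T X v c y C) (hat : a ∈ Hom (tau K E ι p) t0)
    (hD : DD p v a ∈ KK T X v (c + Pi.single y 1)) :
    ∃ b ∈ FF T X v c y C, a - DD p v b ∈ FF T X v c y (insert S C) := by
  set c1 := c + Pi.single y 1 with hc1
  have hc1p : ∀ i, c1 i < p := fun i => by
    have := hc i
    by_cases h : i = y
    · subst h; simp [hc1]; omega
    · simp [hc1, h]; omega
  have hm1 : mass S v c1 = mass S v c + 1 := by rw [hc1, mass_add_single, if_pos hy]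
  have hF : ∀ b ∈ FF T X v c y C, b ∈ Fil K (gens T X) (ws S v c1) (mass S v c) := fun b hb =>
    Fil_mono subset_rfl (fun g _ => by
      cases g with
      | x e => exact le_rfl
      | d e => exact le_rfl
      | k i => simp only [ws_k, hc1, Pi.add_apply]; split_ifs <;> omega) le_rfl
      (mem_KK.1 (mem_FF.1 hb).1 S h.le)
  have hre : ∀ k, Fil K (gens T X) (ws S v c1) k ≤ Fil K (hgens T S σ X) (ws S v c1) k :=
    Fil_le_hgens h (fun e _ _ => h.mem e) c1
  have hLt : cp (gS S σ v c1) (mass S v c) a ∈ Hom (tau K E ι p) t0 := by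
    rw [← cp_self hat, ← cp_lin (G := tau K E ι p) (w := wT p) (cp (gS S σ v c1) (mass S v c)) 0
      (fun l hl => ⟨pr_tau p l, ?_⟩) t0 (hre _ (hF a ha))]
    · exact cp_tau_Hom _ _ _
    · rw [cp_of_Hom (pr_Hom l fun g hg => hgens_Hom h c1 g (hl.1 g hg))]
      split_ifs
      exacts [pr_tau p l, Submodule.zero_mem _]
  have hLD : cp (gS S σ v c1) (mass S v c) (DD p v a) = 0 :=
    cp_Fil_succ (hgens_Hom h c1) (hre _ (hm1 ▸ mem_KK.1 hD S h.le))
  rw [cp_DD p h hc1p (hF a ha)] at hLD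
  obtain ⟨_, ⟨s, hs, rfl⟩, hs'⟩ := graded_exact p hK hp h hv hc hm ht0 habs
    ⟨_, nu_mem_TS h hcT hC ha, mu_nu _ _ _⟩ hLt hLD
  obtain ⟨b, hb, hb'⟩ := mu_mem_map h hcT hy hC' hs
  have h1 : a - DD p v b ∈ FF T X v c y C := Submodule.sub_mem _ ha (DD_FF p hp hv hc hb)
  refine ⟨b, hb, mem_FF.2 ⟨(mem_FF.1 h1).1, fun S' hS' => ?_⟩⟩
  rcases hS' with rfl | hS'
  · have h2 := sub_cp_mem_Fil (hgens_Hom h c1) (hre _ (hF _ h1))
    rw [map_sub, cp_DD p h hc1p (hF b hb), hb', hs', sub_self, sub_zero] at h2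
    rw [hm1]
    exact Fil_mono (hgens_subset h) (fun _ _ => le_rfl) le_rfl h2
  · exact (mem_FF.1 h1).2 S' hS'

/-- Absolute vanishing. -/
def AbsV (T : Submodule K E) (X P : Finset ι) (v : ι → E) (N : ℕ) : Prop :=
  ∀ c : ι → ℕ, (∀ i, c i ≤ 2) → (∀ i, c i ≠ 0 → i ∈ X ∨ i ∈ P) → ∀ t, p * N < t →
    ∀ a ∈ KK T (X : Set ι) v c, a ∈ Hom (tau K E ι p) t → DD p v a = 0 →
      ∃ b ∈ KK T (X : Set ι) v c, DD p v b = a

/-- Relative vanishing. -/
def RelV (T : Submodule K E) (X P : Finset ι) (v : ι → E) (N : ℕ) : Prop :=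
  ∀ (c : ι → ℕ) (y : ι), (∀ i, c i ≤ 2) → (∀ i, c i ≠ 0 → i ∈ X ∨ i ∈ P) → (y ∈ X ∨ y ∈ P) →
    c y ≤ 1 → ∀ t, p * N < t + p →
    ∀ a ∈ KK T (X : Set ι) v c, a ∈ Hom (tau K E ι p) t →
      DD p v a ∈ KK T (X : Set ι) v (c + Pi.single y 1) →
      ∃ b ∈ KK T (X : Set ι) v c, a - DD p v b ∈ KK T (X : Set ι) v (c + Pi.single y 1)

open Classical in
/-- Admissible configurations. -/
structure Adm (T : Submodule K E) (X P : Finset ι) (v : ι → E) (N : ℕ) : Prop where
  span : Submodule.span K (v '' X) = T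
  mem : ∀ j ∈ P, v j ∈ T
  bound : ∀ S ≤ T, 2 * Module.finrank K T + X.card + (P.filter fun j => v j ∈ S).card
    ≤ N + Module.finrank K S

omit [Fintype ι] [DecidableEq ι] [FiniteDimensional K E] [NeZero (2 : K)] in
theorem Adm.memX {T : Submodule K E} {X P : Finset ι} {v : ι → E} {N : ℕ} (h : Adm T X P v N) :
    ∀ j ∈ X, v j ∈ T := fun j hj => h.span ▸ Submodule.subset_span ⟨j, hj, rfl⟩

omit [Fintype ι] [FiniteDimensional K E] [NeZero (2 : K)] in
theorem single_props {X P : Finset ι} {c : ι → ℕ} {y : ι}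
    (h1 : ∀ i, (c + Pi.single y 1 : ι → ℕ) i ≤ 2)
    (h2 : ∀ i, (c + Pi.single y 1 : ι → ℕ) i ≠ 0 → i ∈ X ∨ i ∈ P) :
    (∀ i, c i ≤ 2) ∧ (∀ i, c i ≠ 0 → i ∈ X ∨ i ∈ P) ∧ (y ∈ X ∨ y ∈ P) ∧ c y ≤ 1 := by
  refine ⟨fun i => ?_, fun i hi => h2 i ?_, h2 y (by simp), ?_⟩
  · have := h1 i; simp only [Pi.add_apply] at this; omega
  · simp only [Pi.add_apply]; omega
  · have := h1 y; simp only [Pi.add_apply, Pi.single_eq_same] at this; omega

omit [FiniteDimensional K E] in
theorem KK_succ_le {T : Submodule K E} {X : Set ι} {v : ι → E} {c : ι → ℕ} {y : ι} :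
    KK T X v (c + Pi.single y 1) ≤ KK T X v c := by
  classical
  intro a ha
  rw [mem_KK] at *
  intro S hS
  refine Sp_le (fun l hl => ?_) (ha S hS)
  by_cases hne : pr K l = 0
  · rw [hne]; exact Submodule.zero_mem _
  refine pr_mem_Sp ⟨hl.1, ?_⟩
  have h1 := hl.2
  rw [mass_add_single] at h1
  have e3 : wt (ws S v (c + Pi.single y 1)) l
      = wt (ws S v c) l + wt (w3 0 0 (Pi.single y (if v y ∈ S then 1 else 0))) l := by
    rw [← wt_add]
    refine wt_congr fun g _ => ?_
    cases g with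
    | x e => simp [ws_x, w3]
    | d e => simp [ws_d, w3]
    | k i =>
      by_cases h : i = y
      · subst h; simp only [ws_k, w3, Pi.add_apply, Pi.single_eq_same]; split_ifs <;> rfl
      · simp [ws_k, w3, h]
  have e4 := wt_le_sum (K := K) (fun _ : Unit => (.k y : Gen E ι)) (fun _ => trivial)
    (fun _ => if v y ∈ S then 1 else 0)
    (w := w3 0 0 (Pi.single y (if v y ∈ S then 1 else 0))) (l := l) hne (fun g _ => by
      cases g with
      | x e => exact Or.inl rfl
      | d e => exact Or.inl rfl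
      | k i =>
        by_cases h : i = y
        · subst h; exact Or.inr ⟨(), rfl, by simp [w3]⟩
        · exact Or.inl (by simp [w3, h]))
  simp only [Finset.univ_unique, Finset.sum_singleton] at e4
  omega

theorem abs_of_rel (hK : ∀ r : K, r ^ p = r) {T : Submodule K E} {X P : Finset ι} {v : ι → E}
    {N : ℕ} (h : Adm T X P v N) (hrel : RelV p T X P v N) : AbsV p T X P v N := by
  intro c
  induction hm : ∑ i, c i generalizing c with
  | zero =>
    have hc0 : c = 0 := by
      ext i; exact (Finset.sum_eq_zero_iff.1 hm) i (Finset.mem_univ i)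
    subst hc0
    intro _ _ t ht a ha hat hD
    have h1 := h.bound ⊥ bot_le
    rw [finrank_bot] at h1
    obtain ⟨b, hb, hb'⟩ := base_case p hK _ X rfl T v h.span t
      (lt_of_le_of_lt (Nat.mul_le_mul_left _ (by omega)) ht) a (KK_le_zero ha) hat hD
    exact ⟨b, mem_KK.2 fun S _ => by rw [mass_zero]; exact Fil_le_zero subset_rfl hb, hb'⟩
  | succ m ih =>
    obtain ⟨y, c', rfl, hc'⟩ := exists_single hm
    intro h1 h2 t ht a ha hat hD
    obtain ⟨h3, h4, h5, h6⟩ := single_props h1 h2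
    obtain ⟨b, hb, hb'⟩ := ih c' hc' h3 h4 t ht a (KK_succ_le ha) hat hD
    obtain ⟨b1, hb1, hb2, hb3⟩ := exists_cp_DD p v _
      (fun k z hz => KK_stable (fun _ _ _ _ ha => cp_tau_Sp p k ha) hz) t hb
    rw [hb', cp_self hat] at hb2
    rcases hb3 with h0 | ⟨k, hk, h0⟩
    · exact ⟨0, Submodule.zero_mem _, by rw [hb2, h0]⟩
    · obtain ⟨e, _, he⟩ := hrel c' y h3 h4 h5 h6 k (by omega) b1 hb1 h0 (hb2 ▸ ha)
      exact ⟨_, he, by rw [map_sub, DD_DD, sub_zero, hb2]⟩

omit [Fintype ι] [NeZero (2 : K)] in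
open Classical in
theorem adm_quot {T S : Submodule K E} {σ : E →ₗ[K] E} (h : Spl T S σ) {X P : Finset ι}
    {v : ι → E} {N : ℕ} (hA : Adm T X P v N) :
    ∃ N', N' + (Module.finrank K S + ((X.filter fun j => v j ∈ S).card
        + (P.filter fun j => v j ∈ S).card)) = N ∧
      Adm (T.map (LinearMap.id - σ)) (X.filter fun j => v j ∉ S) (P.filter fun j => v j ∉ S)
        (fun i => (LinearMap.id - σ : E →ₗ[K] E) (v i)) N' := by
  set π : E →ₗ[K] E := LinearMap.id - σ with hπ
  have hπ0 : ∀ e ∈ S, π e = 0 := fun e he => by simp [hπ, h.fix e he]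
  have hT'T : T.map π ≤ T := by
    rintro _ ⟨e, he, rfl⟩
    exact T.sub_mem he (h.le (h.mem e))
  have hdis : S ⊓ T.map π = ⊥ := by
    rw [eq_bot_iff]
    rintro _ ⟨h1, e, _, rfl⟩
    have h2 := h.fix _ h1
    simp only [hπ, LinearMap.sub_apply, LinearMap.id_apply, map_sub, h.fix _ (h.mem e),
      sub_self] at h2 ⊢
    simp [← h2]
  have hdim : Module.finrank K S + Module.finrank K (T.map π) ≤ Module.finrank K T := by
    rw [← Submodule.finrank_sup_add_finrank_inf_eq, hdis, finrank_bot, add_zero]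
    exact Submodule.finrank_mono (sup_le h.le hT'T)
  have hX := Finset.card_filter_add_card_filter_not (s := X) (fun j => v j ∈ S)
  have key : ∀ S'' ≤ T.map π, 2 * Module.finrank K (T.map π) + (X.filter fun j => v j ∉ S).card
      + ((P.filter fun j => v j ∉ S).filter fun j => π (v j) ∈ S'').card
      + (Module.finrank K S + ((X.filter fun j => v j ∈ S).card
        + (P.filter fun j => v j ∈ S).card)) ≤ N + Module.finrank K S'' := by
    intro S'' hS''
    have h1 := hA.bound (S ⊔ S'') (sup_le h.le (hS''.trans hT'T))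
    have h2 := Submodule.finrank_add_le_finrank_add_finrank S S''
    have h3 : (P.filter fun j => v j ∈ S).card
        + ((P.filter fun j => v j ∉ S).filter fun j => π (v j) ∈ S'').card
        ≤ (P.filter fun j => v j ∈ S ⊔ S'').card := by
      rw [← Finset.card_union_of_disjoint]
      · refine Finset.card_le_card fun j hj => ?_
        simp only [Finset.mem_union, Finset.mem_filter] at hj ⊢
        rcases hj with hj | hj
        · exact ⟨hj.1, Submodule.mem_sup_left hj.2⟩
        · refine ⟨hj.1.1, Submodule.mem_sup.2 ⟨_, h.mem (v j), _, hj.2, by simp [hπ]⟩⟩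
      · rw [Finset.disjoint_left]
        intro j h1 h2
        simp only [Finset.mem_filter] at h1 h2
        exact h2.1.2 h1.2
    omega
  have h0 := key ⊥ bot_le
  rw [finrank_bot] at h0
  refine ⟨N - (Module.finrank K S + ((X.filter fun j => v j ∈ S).card
    + (P.filter fun j => v j ∈ S).card)), by omega, ?_, fun j hj => ?_, fun S'' hS'' => ?_⟩
  · apply le_antisymm
    · rw [Submodule.span_le]
      rintro _ ⟨j, hj, rfl⟩
      exact Submodule.mem_map_of_mem (hA.memX j (Finset.mem_filter.1 hj).1)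
    · rw [← hA.span, Submodule.map_span, Submodule.span_le]
      rintro _ ⟨_, ⟨j, hj, rfl⟩, rfl⟩
      by_cases hjS : v j ∈ S
      · simp [hπ0 _ hjS]
      · exact Submodule.subset_span ⟨j, by simpa [hjS] using hj, rfl⟩
  · exact Submodule.mem_map_of_mem (hA.mem j (Finset.mem_filter.1 hj).1)
  · have := key S'' hS''
    omega

theorem rel_of_abs [Finite K] (hK : ∀ r : K, r ^ p = r) (hp : 4 ≤ p) {T : Submodule K E}
    {X P : Finset ι} {v : ι → E} {N : ℕ} (hA : Adm T X P v N)
    (ih : ∀ (T' : Submodule K E) (X' P' : Finset ι) (v' : ι → E) (N' : ℕ),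
      X'.card + P'.card < X.card + P.card → Adm T' X' P' v' N' → AbsV p T' X' P' v' N') :
    RelV p T X P v N := by
  classical
  intro c y hc hcs hy hcy t ht a ha hat hD
  have hcT : ∀ i, c i ≠ 0 → v i ∈ T := fun i hi => (hcs i hi).elim (hA.memX i) (hA.mem i)
  have : Finite E := Module.finite_of_finite K
  have : Fintype (Submodule K E) := Fintype.ofFinite _
  have key : ∀ C : Finset (Submodule K E), (∀ S ∈ C, S ≤ T ∧ v y ∈ S) →
      (∀ S ∈ C, ∀ S' < S, v y ∈ S' → S' ∈ C) →
      ∃ b ∈ KK T (X : Set ι) v c, a - DD p v b ∈ FF T (X : Set ι) v c y (C : Set _) := by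
    intro C
    induction C using Finset.induction_on_max_value (fun S : Submodule K E => Module.finrank K S)
      with
    | empty => intro _ _; exact ⟨0, Submodule.zero_mem _, mem_FF.2 ⟨by simpa using ha, by simp⟩⟩
    | insert S C hSC hmax ihC =>
      intro h1 h2
      obtain ⟨hST, hyS⟩ := h1 S (Finset.mem_insert_self _ _)
      obtain ⟨b0, hb0, hb0'⟩ := ihC (fun S' hS' => h1 S' (Finset.mem_insert_of_mem hS'))
        (fun S' hS' S'' hlt hy' => by
          refine (Finset.mem_insert.1 (h2 S' (Finset.mem_insert_of_mem hS') S'' hlt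
            hy')).resolve_left ?_
          rintro rfl
          exact absurd (hmax S' hS') (not_le.2 (Submodule.finrank_lt_finrank_of_lt hlt)))
      obtain ⟨b1, hb1, hb1', -⟩ := exists_cp_DD p v _
        (fun k z hz => KK_stable (fun _ _ _ _ ha => cp_tau_Sp p k ha) hz) t hb0
      have ha1 : a - DD p v b1 = cp (tau K E ι p) t (a - DD p v b0) := by
        rw [map_sub, hb1', cp_self hat]
      obtain ⟨σ, hσ1, hσ2⟩ := exists_proj S
      have hspl : Spl T S σ := ⟨hST, hσ1, hσ2⟩
      obtain ⟨N', hN', hA'⟩ := adm_quot hspl hA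
      have hlt : (X.filter fun j => v j ∉ S).card + (P.filter fun j => v j ∉ S).card
          < X.card + P.card := by
        have h3 := Finset.card_filter_le X (fun j => v j ∉ S)
        have h4 := Finset.card_filter_le P (fun j => v j ∉ S)
        rcases hy with hy | hy
        · have := Finset.card_lt_card (Finset.filter_ssubset (p := fun j => v j ∉ S).2
            ⟨y, hy, by simpa using hyS⟩)
          omega
        · have := Finset.card_lt_card (Finset.filter_ssubset (p := fun j => v j ∉ S).2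
            ⟨y, hy, by simpa using hyS⟩)
          omega
      have habs := ih _ _ _ _ _ hlt hA' (cOut S v c)
        (fun i => by have := hc i; simp only [cOut]; split_ifs <;> omega)
        (fun i hi => by
          simp only [cOut] at hi
          split_ifs at hi with h3
          · exact (hi rfl).elim
          · simpa [h3] using hcs i hi)
      rw [Finset.coe_filter] at habs
      have hm : mass S v c + (∑ i, if i ∈ (X : Set ι) ∧ v i ∈ S ∧ i ≠ y then 2 - c i else 0) + 1
          ≤ 2 * ((X.filter fun j => v j ∈ S).card + (P.filter fun j => v j ∈ S).card) := by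
        have e1 : ∀ Z : Finset ι, (Z.filter fun j => v j ∈ S).card
            = ∑ i, if i ∈ Z ∧ v i ∈ S then 1 else 0 := by
          intro Z
          rw [← Finset.card_filter]
          congr 1
          ext i; simp
        have e2 : 1 = ∑ i, if i = y then 1 else 0 := by simp
        rw [e1, e1, mass, ← Finset.sum_add_distrib, ← Finset.sum_add_distrib, Finset.mul_sum]
        conv_lhs => rw [e2]
        rw [← Finset.sum_add_distrib]
        refine Finset.sum_le_sum fun i _ => ?_
        have h3 := hc i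
        have h4 := hcs i
        by_cases hiy : i = y
        · subst hiy
          rcases hy with hy | hy
          · simp [hy, hyS]; omega
          · simp [hy, hyS]; omega
        · by_cases h5 : v i ∈ S
          · by_cases h6 : i ∈ X
            · simp [hiy, h5, h6]; omega
            · by_cases h7 : i ∈ P
              · simp [hiy, h5, h6, h7]; omega
              · simp only [h6, h7, or_self, imp_false, not_not] at h4
                simp [hiy, h4, h6]
          · simp [hiy, h5]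
      obtain ⟨b2, hb2, hb2'⟩ := step p hK hp hspl (fun i hi => hA.memX i hi) hc hcT hyS
        (n0 := (X.filter fun j => v j ∈ S).card + (P.filter fun j => v j ∈ S).card) (N' := N')
        (t0 := t) (C := (C : Set _)) (a := a - DD p v b1) (by convert hm) (by rw [← mul_add, hN']; exact ht)
        habs
        (fun S' hlt hy' => (Finset.mem_insert.1 (h2 S (Finset.mem_insert_self _ _) S' hlt
          hy')).resolve_left hlt.ne)
        (fun S' hS' => ⟨(h1 S' (Finset.mem_insert_of_mem hS')).1,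
          (h1 S' (Finset.mem_insert_of_mem hS')).2, fun hle => hSC (by
            rw [Submodule.eq_of_le_of_finrank_le hle (hmax S' hS')]; exact hS')⟩)
        (ha1 ▸ FF_stable (fun _ _ _ _ _ ha => cp_tau_Sp p t ha) hb0')
        (ha1 ▸ cp_tau_Hom _ _ _) (by rw [map_sub, DD_DD, sub_zero]; exact hD)
      refine ⟨b1 + b2, Submodule.add_mem _ hb1 (mem_FF.1 hb2).1, ?_⟩
      rw [map_add, ← sub_sub, Finset.coe_insert]
      exact hb2'
  obtain ⟨b, hb, hb'⟩ := key (Finset.univ.filter fun S => S ≤ T ∧ v y ∈ S)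
    (fun S hS => (Finset.mem_filter.1 hS).2)
    (fun S hS S' hlt hy' => Finset.mem_filter.2
      ⟨Finset.mem_univ _, hlt.le.trans (Finset.mem_filter.1 hS).2.1, hy'⟩)
  refine ⟨b, hb, mem_KK.2 fun S hS => ?_⟩
  by_cases hyS : v y ∈ S
  · exact (mem_FF.1 hb').2 S (by simp [hS, hyS])
  · rw [mass_add_single, if_neg hyS, add_zero]
    refine Fil_mono subset_rfl (fun g _ => ?_) le_rfl (mem_KK.1 (mem_FF.1 hb').1 S hS)
    cases g with
    | x e => exact le_rfl
    | d e => exact le_rfl
    | k i => simp only [ws_k, Pi.add_apply]; split_ifs <;> omega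

theorem vanishing [Finite K] (hK : ∀ r : K, r ^ p = r) (hp : 4 ≤ p) (n : ℕ) :
    ∀ (T : Submodule K E) (X P : Finset ι) (v : ι → E) (N : ℕ), X.card + P.card = n →
      Adm T X P v N → RelV p T X P v N := by
  induction n using Nat.strong_induction_on with
  | _ n ih =>
  intro T X P v N hn hA
  exact rel_of_abs p hK hp hA fun T' X' P' v' N' hlt hA' =>
    abs_of_rel p hK hA' (ih _ (hn ▸ hlt) T' X' P' v' N' rfl hA')

theorem lift_class [Finite K] (hK : ∀ r : K, r ^ p = r) (hp : 4 ≤ p) {T : Submodule K E}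
    {X P : Finset ι} {v : ι → E} {N : ℕ} (hA : Adm T X P v N) {t : ℕ} (ht : p * N < t + p)
    {a : Om K E ι} (ha : a ∈ Fil K (gens T (X : Set ι)) 0 0) (hat : a ∈ Hom (tau K E ι p) t)
    (hD : DD p v a = 0) (c : ι → ℕ) : (∀ i, c i ≤ 2) → (∀ i, c i ≠ 0 → i ∈ X ∨ i ∈ P) →
      ∃ b, a - DD p v b ∈ KK T (X : Set ι) v c := by
  induction hm : ∑ i, c i generalizing c with
  | zero =>
    have hc0 : c = 0 := by
      ext i; exact (Finset.sum_eq_zero_iff.1 hm) i (Finset.mem_univ i)
    subst hc0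
    intro _ _
    exact ⟨0, mem_KK.2 fun S _ => by
      rw [mass_zero, map_zero, sub_zero]; exact Fil_le_zero subset_rfl ha⟩
  | succ m ih =>
    obtain ⟨y, c', rfl, hc'⟩ := exists_single hm
    intro h1 h2
    obtain ⟨h3, h4, h5, h6⟩ := single_props h1 h2
    obtain ⟨b, hb⟩ := ih c' hc' h3 h4
    obtain ⟨b1, -, hb1', -⟩ := exists_cp_DD p v ⊤ (fun _ _ _ => trivial) t (a := b) trivial
    have ha1 : a - DD p v b1 = cp (tau K E ι p) t (a - DD p v b) := by
      rw [map_sub, hb1', cp_self hat]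
    obtain ⟨e, -, he⟩ := vanishing p hK hp _ T X P v N rfl hA c' y h3 h4 h5 h6 t ht
      (a - DD p v b1) (ha1 ▸ KK_stable (fun _ _ _ _ ha => cp_tau_Sp p t ha) hb)
      (ha1 ▸ cp_tau_Hom _ _ _) (by rw [map_sub, DD_DD, hD]; simp)
    exact ⟨b1 + e, by rw [map_add, ← sub_sub]; exact he⟩

end Pool.Agent.AJT
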