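import Pool.Agent.MP_79429d_co.J11

/-! The top coefficient functional and the conclusion. -/

set_option autoImplicit false

namespace Pool.Agent.AJT

open MvPolynomial

variable {K ι : Type} [Field K] {n : ℕ}

/-- The linear form with given coefficients. -/
noncomputable def lin : (Fin n → K) →ₗ[K] MvPolynomial (Fin n) K :=
  ∑ j, (LinearMap.proj j : (Fin n → K) →ₗ[K] K).smulRight (X j)

theorem lin_apply (e : Fin n → K) : lin e = ∑ j, e j • (X j : MvPolynomial (Fin n) K) := by
  simp [lin, LinearMap.sum_apply]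

/-- Values of the augmentation on generators. -/
noncomputable def zGen (ι : Type) : Gen (Fin n → K) ι → MvPolynomial (Fin n) K
  | .x e => lin e
  | .d _ => 0
  | .k _ => 0

/-- Killing all odd generators. -/
noncomputable def zz (ι : Type) : Om K (Fin n → K) ι →ₐ[K] MvPolynomial (Fin n) K :=
  lift (zGen ι)
    { xadd := fun a b => by simp [zGen]
      xsmul := fun r a => by simp [zGen]
      dadd := fun a b => by simp [zGen]
      dsmul := fun r a => by simp [zGen]
      comm := fun e g => mul_comm _ _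
      anti := fun g g' hg _ => by
        cases g with
        | x e => exact hg.elim
        | d e => simp [zGen]
        | k i => simp [zGen] }

@[simp] theorem zz_xx (e : Fin n → K) : zz ι (xx (K := K) ι e) = lin e := lift_gen _ _ (.x e)
@[simp] theorem zz_dd (e : Fin n → K) : zz ι (dd (K := K) ι e) = 0 := lift_gen _ _ (.d e)
@[simp] theorem zz_kk (i : ι) : zz ι (kk K (Fin n → K) i) = 0 := lift_gen _ _ (.k i)

theorem zz_par (a : Om K (Fin n → K) ι) : zz ι (par a) = zz ι a :=
  alg_ext ((zz ι).comp par) (zz ι) (fun g => by cases g <;> simp) a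

/-- Contraction with a coordinate. -/
noncomputable def cn (K ι : Type) [Field K] (i : Fin n) :
    Om K (Fin n → K) ι →ₗ[K] Om K (Fin n → K) ι := con ι (LinearMap.proj i)

theorem cn_isOdd (i : Fin n) : IsOdd (cn K ι i) := con_isOdd _
@[simp] theorem cn_xx (i : Fin n) (e : Fin n → K) : cn K ι i (xx (K := K) ι e) = 0 := con_xx _ _
@[simp] theorem cn_dd (i : Fin n) (e : Fin n → K) : cn K ι i (dd (K := K) ι e) = e i • 1 :=
  con_dd _ _
@[simp] theorem cn_kk (i : Fin n) (j : ι) : cn K ι i (kk K (Fin n → K) j) = 0 := con_kk _ _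

/-- Iterated contraction. -/
noncomputable def iot (K ι : Type) [Field K] :
    List (Fin n) → (Om K (Fin n → K) ι →ₗ[K] Om K (Fin n → K) ι)
  | [] => LinearMap.id
  | i :: l => (iot K ι l).comp (cn K ι i)

@[simp] theorem iot_nil (a : Om K (Fin n → K) ι) : iot K ι [] a = a := rfl
@[simp] theorem iot_cons (i : Fin n) (l : List (Fin n)) (a : Om K (Fin n → K) ι) :
    iot K ι (i :: l) a = iot K ι l (cn K ι i a) := rfl

theorem iot_comm (Φ : Om K (Fin n → K) ι → Om K (Fin n → K) ι)
    (h : ∀ i a, cn K ι i (Φ a) = Φ (cn K ι i a)) (l : List (Fin n)) (a : Om K (Fin n → K) ι) :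
    iot K ι l (Φ a) = Φ (iot K ι l a) := by
  induction l generalizing a with
  | nil => rfl
  | cons i l ih => rw [iot_cons, h, ih, iot_cons]

theorem iot_xx_pow (e : Fin n → K) (m : ℕ) (l : List (Fin n)) (a : Om K (Fin n → K) ι) :
    iot K ι l (xx (K := K) ι e ^ m * a) = xx (K := K) ι e ^ m * iot K ι l a :=
  iot_comm (fun a => xx (K := K) ι e ^ m * a) (fun i a => by
    rw [(cn_isOdd i).der, (cn_isOdd i).xx_pow_zero e (cn_xx i e)]; simp) l a

/-- The top class. -/
noncomputable def om0 (K ι : Type) [Field K] (p : ℕ) (l : List (Fin n)) : Om K (Fin n → K) ι :=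
  (l.map fun i => xx (K := K) ι (Pi.single i 1) ^ (p - 1) * dd (K := K) ι (Pi.single i 1)).prod

theorem om0_cons (p : ℕ) (i : Fin n) (l : List (Fin n)) : om0 K ι p (i :: l)
    = xx (K := K) ι (Pi.single i 1) ^ (p - 1) * dd (K := K) ι (Pi.single i 1) * om0 K ι p l := by
  simp [om0]

theorem cn_om0 (p : ℕ) {i : Fin n} {l : List (Fin n)} (h : i ∉ l) :
    cn K ι i (om0 K ι p l) = 0 := by
  induction l with
  | nil => simpa [om0] using (cn_isOdd (K := K) (ι := ι) i).der.one
  | cons j l ih =>
    have hij : i ≠ j := fun h' => h (by simp [h'])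
    rw [om0_cons, (cn_isOdd i).der, ih fun h' => h (by simp [h']), (cn_isOdd i).der,
      (cn_isOdd i).xx_pow_zero _ (cn_xx i _)]
    simp [hij]

theorem lin_single (i : Fin n) : lin (Pi.single i (1 : K)) = X i := by
  rw [lin_apply, Finset.sum_eq_single i] <;> simp +contextual

theorem zz_iot_om0 (p : ℕ) {l : List (Fin n)} (hl : l.Nodup) :
    zz ι (iot K ι l (om0 K ι p l)) = (l.map fun i => (X i : MvPolynomial (Fin n) K) ^ (p - 1)).prod := by
  induction l with
  | nil => simp [om0]
  | cons i l ih =>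
    rw [List.nodup_cons] at hl
    rw [iot_cons, om0_cons, mul_assoc, (cn_isOdd i).der, (cn_isOdd i).xx_pow_zero _ (cn_xx i _),
      (cn_isOdd i).der, cn_om0 p hl.1]
    simp [iot_xx_pow, ih hl.2, lin_single]

section
variable (p : ℕ) [Fact p.Prime] [CharP K p] [NeZero (2 : K)]

omit [CharP K p] in
theorem om0_props (u : ι → Fin n → K) (X0 : Set ι) (l : List (Fin n)) :
    om0 K ι p l ∈ Fil K (gens (⊤ : Submodule K (Fin n → K)) X0) 0 0 ∧
      om0 K ι p l ∈ Hom (tau K _ ι p) (l.length * (3 * p)) ∧
      DD p u (om0 K ι p l) = 0 := by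
  induction l with
  | nil =>
    exact ⟨one_mem_Fil, by simpa [om0] using one_mem_Hom, (DD_isOdd (K := K) p u).der.one⟩
  | cons i l ih =>
    rw [om0_cons]
    refine ⟨Fil_mul (Fil_mul (pow_mem_Fil (gen_mem_Fil (g := .x (Pi.single i 1))
      (x_mem_gens.2 Submodule.mem_top) le_rfl) _) (gen_mem_Fil (g := .d (Pi.single i 1))
      (d_mem_gens.2 Submodule.mem_top) le_rfl) (Nat.zero_le _)) ih.1 le_rfl, ?_, ?_⟩
    · have := Hom_mul (top_tau p (Pi.single i 1)) ih.2.1
      rwa [List.length_cons, Nat.succ_mul, add_comm]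
    · rw [(DD_isOdd p u).der, DD_top, ih.2.2]; simp

/-- The exponent vector of the top monomial. -/
noncomputable def m0 (n q : ℕ) : Fin n →₀ ℕ := Finsupp.equivFunOnFinite.symm fun _ => q

omit [Fact p.Prime] [CharP K p] [NeZero (2 : K)] in
theorem prod_X_pow_m0 (q : ℕ) : ∏ i, (X i : MvPolynomial (Fin n) K) ^ q = monomial (m0 n q) 1 := by
  rw [monomial_eq, Finsupp.prod_fintype _ _ (by simp)]
  simp [m0]

omit [NeZero (2 : K)] in
theorem coeff_lin_pow_mul (e : Fin n → K) (g : MvPolynomial (Fin n) K) :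
    coeff (m0 n (p - 1)) (lin e ^ p * g) = 0 := by
  classical
  have hp := (Fact.out : p.Prime).pos
  rw [lin_apply, sum_pow_char, Finset.sum_mul, coeff_sum]
  refine Finset.sum_eq_zero fun j _ => ?_
  rw [smul_pow, smul_mul_assoc, coeff_smul, X_pow_eq_monomial, coeff_monomial_mul', if_neg,
    smul_zero]
  intro h
  have := h j
  simp [m0] at this
  omega

omit [NeZero (2 : K)] in
theorem coeff_zz_iot_DD (u : ι → Fin n → K) (l : List (Fin n)) (a : Om K (Fin n → K) ι) :
    coeff (m0 n (p - 1)) (zz ι (iot K ι l (DD p u a))) = 0 := by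
  have hp := (Fact.out : p.Prime).pos
  induction l generalizing a with
  | nil =>
    have key : ∀ l : List (Gen (Fin n → K) ι), ∀ g,
        coeff (m0 n (p - 1)) (zz ι (DD p u (pr K l)) * g) = 0 := by
      intro l
      induction l with
      | nil => simp [(DD_isOdd (K := K) p u).der.one]
      | cons g l ih =>
        intro h
        rw [pr_cons, (DD_isOdd p u).der, map_add, map_mul, map_mul, add_mul, coeff_add,
          mul_comm (zz ι (par _)), mul_assoc, mul_assoc, ih, add_zero]
        cases g with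
        | x e => simp
        | d e => simp
        | k i => simp [coeff_lin_pow_mul]
    exact lin_ext ((lcoeff K (m0 n (p - 1))).comp ((zz ι).toLinearMap.comp (DD p u))) 0
      (fun l => by simpa using key l 1) a
  | cons i l ih =>
    let L := (cn K ι i).comp (DD p u) + (DD p u).comp (cn K ι i)
    have hL : IsDer (AlgHom.id K _) L := (cn_isOdd i).bracket (DD_isOdd p u)
    have hLa : ∀ a, L a = cn K ι i (DD p u a) + DD p u (cn K ι i a) := fun a => rfl
    have hLx : ∀ e, L (xx (K := K) ι e) = e i • 1 := fun e => by simp [hLa]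
    have hLd : ∀ e, L (dd (K := K) ι e) = 0 := fun e => by
      simp [hLa, (DD_isOdd (K := K) p u).der.one]
    have hLk : ∀ j, L (kk K _ j) = 0 := fun j => by
      simp [hLa, (cn_isOdd i).xx_pow_zero _ (cn_xx i _)]
    have hLp : ∀ a, L (par a) = par (L a) := fun a => by
      simp [hLa, (cn_isOdd i).anti, (DD_isOdd p u).anti]
    have h1 : ∀ k a, cn K ι k (L a) = L (cn K ι k a) := fun k a => by
      have := der_zero_all ((cn K ι k).comp L - L.comp (cn K ι k)) par id (fun a b => by
          simp only [LinearMap.sub_apply, LinearMap.comp_apply, hL _ _, (cn_isOdd k).der _ _,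
            map_add, AlgHom.id_apply, hLp, id]
          noncomm_ring)
        (by simp [hL.one, (cn_isOdd (K := K) (ι := ι) k).der.one])
        (fun g => by
          cases g <;> simp [hLx, hLd, hLk, hL.one, (cn_isOdd (K := K) (ι := ι) k).der.one]) a
      simpa [sub_eq_zero] using this
    have h2 : ∀ a, zz ι (L a) = pderiv i (zz ι a) := fun a => by
      have := der_zero_all ((zz ι).toLinearMap.comp L
          - ((pderiv i : Derivation K _ _) : _ →ₗ[K] _).comp (zz ι).toLinearMap) (zz ι) (zz ι)
        (fun a b => by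
          simp only [LinearMap.sub_apply, LinearMap.comp_apply, hL _ _, AlgHom.toLinearMap_apply,
            map_add, map_mul, AlgHom.id_apply, Derivation.coeFn_coe, pderiv_mul]
          ring)
        (by simp [hL.one])
        (fun g => by
          cases g with
          | x e =>
            simp [hLx, lin_apply, pderiv_X, Pi.single_apply]
          | d e => simp [hLd]
          | k j => simp [hLk]) a
      simpa [sub_eq_zero] using this
    have h3 : cn K ι i (DD p u a) = L a - DD p u (cn K ι i a) := by rw [hLa]; abel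
    rw [iot_cons, h3, map_sub, map_sub, coeff_sub, ih, sub_zero, iot_comm L h1, h2, coeff_pderiv]
    have : ((m0 n (p - 1) i : ℕ) : K) + 1 = 0 := by
      have h4 : ((p - 1 + 1 : ℕ) : K) = 0 := by
        rw [Nat.sub_add_cancel hp]; exact CharP.cast_eq_zero K p
      simpa [m0] using h4
    rw [this, mul_zero]

end

theorem top_div [NeZero (2 : K)] [Fintype ι] [DecidableEq ι] {v : ι → Fin n → K}
    (hv : ∀ i, v i ≠ 0) (l : List (Fin n)) (F : Finset ι) :
    ∀ a ∈ KK ⊤ ∅ v (fun j => if j ∈ F then 2 else 0),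
      ∃ g, zz ι (iot K ι l a) = (∏ j ∈ F, lin (v j)) * g := by
  induction F using Finset.induction_on with
  | empty => intro a _; exact ⟨_, by rw [Finset.prod_empty, one_mul]⟩
  | insert y F hy ih =>
    intro a ha
    have : (fun j => if j ∈ insert y F then 2 else 0)
        = (fun j => if j ∈ F then 2 else 0) + Pi.single y 2 := by
      ext j
      by_cases h : j = y
      · subst h; simp [hy]
      · simp [h]
    rw [this] at ha
    obtain ⟨b, hb, rfl⟩ := KK_div (hv y) Submodule.mem_top ha
    obtain ⟨g, hg⟩ := ih b hb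
    refine ⟨g, ?_⟩
    have := iot_xx_pow (v y) 1 l b
    rw [pow_one] at this
    rw [this, map_mul, hg, Finset.prod_insert hy, zz_xx, mul_assoc]

theorem top_div' [NeZero (2 : K)] [Fintype ι] [DecidableEq ι] {v : ι → Fin n → K}
    (hv : ∀ i, v i ≠ 0) (l : List (Fin n)) (X0 : Set ι) {a : Om K (Fin n → K) ι}
    (ha : a ∈ KK ⊤ X0 v (fun _ => 2)) : ∃ g, zz ι (iot K ι l a) = (∏ j, lin (v j)) * g := by
  let z : Om K (Fin n → K) ι →ₐ[K] Om K (Fin n → K) ι :=
    endo LinearMap.id LinearMap.id 0 (fun _ => Submodule.zero_mem _)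
  have h1 : ∀ k a, cn K ι k (z a) = z (cn K ι k a) := fun k a => by
    have := der_zero_all ((cn K ι k).comp z.toLinearMap - z.toLinearMap.comp (cn K ι k))
      (fun a => par (z a)) z (fun a b => by
        simp only [LinearMap.sub_apply, LinearMap.comp_apply, AlgHom.toLinearMap_apply, map_mul,
          (cn_isOdd k).der _ _, map_add, z, endo_par]
        noncomm_ring)
      (by simp [(cn_isOdd (K := K) (ι := ι) k).der.one])
      (fun g => by cases g <;> simp [z]) a
    simpa [sub_eq_zero] using this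
  have h2 : ∀ a, zz ι (z a) = zz ι a :=
    alg_ext ((zz ι).comp z) (zz ι) (fun g => by cases g <;> simp [z])
  have h3 : z a ∈ KK ⊤ ∅ v (fun j => if j ∈ Finset.univ then 2 else 0) := by
    simp only [Finset.mem_univ, if_true]
    refine mem_KK.2 fun S hS => Fil_map z (fun g _ => ?_) (mem_KK.1 ha S hS)
    cases g with
    | x e => simpa [z] using gen_mem_Fil (K := K) (g := .x e) (A := gens ⊤ ∅) trivial le_rfl
    | d e => simpa [z] using gen_mem_Fil (K := K) (g := .d e) (A := gens ⊤ ∅) trivial le_rfl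
    | k i => simp [z]
  obtain ⟨g, hg⟩ := top_div hv l Finset.univ _ h3
  exact ⟨g, by rw [← hg, iot_comm z h1, h2]⟩

theorem exists_coeff (p : ℕ) [Fact p.Prime] [CharP K p] [Finite K] (hK : ∀ r : K, r ^ p = r)
    (hp : 4 ≤ p) (A : Fin n → Fin n → K) (hA : LinearIndependent K A) :
    ∃ g : MvPolynomial (Fin n) K,
      coeff (m0 n (p - 1)) ((∏ i, X i) * (∏ i, lin (A i)) * g) = 1 := by
  classical
  have : NeZero (2 : K) := ⟨fun h => by
    have h1 : ((2 : ℕ) : K) = 0 := by simpa using h
    have := Nat.le_of_dvd (by norm_num) ((CharP.cast_eq_zero_iff K p 2).1 h1)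
    omega⟩
  let v : Fin n ⊕ Fin n → Fin n → K := Sum.elim (fun i => Pi.single i 1) A
  let X0 : Finset (Fin n ⊕ Fin n) := Finset.univ.map Function.Embedding.inl
  let P0 : Finset (Fin n ⊕ Fin n) := Finset.univ.map Function.Embedding.inr
  have hAdm : Adm (⊤ : Submodule K (Fin n → K)) X0 P0 v (3 * n) := by
    refine ⟨?_, fun _ _ => trivial, fun S _ => ?_⟩
    · rw [eq_top_iff, ← (Pi.basisFun K (Fin n)).span_eq]
      refine Submodule.span_mono ?_
      rintro _ ⟨i, rfl⟩
      exact ⟨Sum.inl i, by simp [X0], by simp [v]⟩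
    · have h1 : (P0.filter fun j => v j ∈ S).card = (Finset.univ.filter fun i => A i ∈ S).card := by
        rw [Finset.filter_map, Finset.card_map]; rfl
      have h2 : (Finset.univ.filter fun i => A i ∈ S).card ≤ Module.finrank K S := by
        have h3 : LinearIndependent K (fun i : {i // A i ∈ S} => (⟨A i, i.2⟩ : S)) :=
          LinearIndependent.of_comp S.subtype (hA.comp _ Subtype.val_injective)
        have := h3.fintype_card_le_finrank
        rwa [Fintype.card_subtype] at this
      have h4 : X0.card = n := by simp [X0]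
      rw [h1, h4, finrank_top, Module.finrank_fin_fun]
      omega
  obtain ⟨h1, h2, h3⟩ := om0_props (K := K) p v (X0 : Set _) (List.finRange n)
  obtain ⟨b, hb⟩ := lift_class p hK hp hAdm (by rw [List.length_finRange]; nlinarith) h1 h2 h3
    (fun _ => 2) (fun _ => le_rfl) (fun i _ => by cases i <;> simp [X0, P0])
  obtain ⟨g, hg⟩ := top_div' (fun i => by
    cases i with
    | inl i => simp [v]
    | inr i => exact hA.ne_zero i) (List.finRange n) _ hb
  refine ⟨g, ?_⟩
  have h4 : ∏ j, lin (v j) = (∏ i, X i) * ∏ i, lin (A i) := by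
    rw [Fintype.prod_sum_type]; simp [v, lin_single]
  rw [← h4, ← hg, map_sub, map_sub, coeff_sub, coeff_zz_iot_DD, sub_zero,
    zz_iot_om0 p (List.nodup_finRange n), ← Fin.prod_univ_def, prod_X_pow_m0]
  simp

theorem exists_nowhere_zero (p : ℕ) [Fact p.Prime] [CharP K p] [Finite K]
    (hK : ∀ r : K, r ^ p = r) (hp : 4 ≤ p) (hcard : p ≤ Nat.card K) (A : Fin n → Fin n → K)
    (hA : LinearIndependent K A) :
    ∃ x : Fin n → K, (∀ i, x i ≠ 0) ∧ ∀ i, ∑ j, A i j * x j ≠ 0 := by
  classical
  have := Fintype.ofFinite K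
  obtain ⟨g, hg⟩ := exists_coeff p hK hp A hA
  have h1 : ∏ i, (X i : MvPolynomial (Fin n) K) = monomial (m0 n 1) 1 := by
    rw [← prod_X_pow_m0]; simp
  have h2 : m0 n (p - 1) = m0 n 1 + m0 n (p - 2) := by
    ext i; simp [m0]; omega
  rw [mul_assoc, h1, h2, coeff_monomial_mul, one_mul, coeff_mul] at hg
  obtain ⟨x, hx, hx'⟩ := Finset.exists_ne_zero_of_sum_ne_zero (hg ▸ one_ne_zero)
  have h3 : coeff x.1 (∏ i, lin (A i)) ≠ 0 := left_ne_zero_of_mul hx'
  have h4 : (∏ i, lin (A i)).IsHomogeneous (∑ _i : Fin n, 1) :=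
    IsHomogeneous.prod _ _ _ fun i _ => by
      rw [lin_apply]
      exact IsHomogeneous.sum _ _ _ fun j _ => by
        rw [smul_eq_C_mul]; exact isHomogeneous_C_mul_X _ _
  have h5 : x.1.degree = ∑ _i : Fin n, 1 := by
    by_contra h; exact h3 (h4.coeff_eq_zero h)
  obtain ⟨s, hs, hs'⟩ := combinatorial_nullstellensatz_exists_eval_nonzero _ x.1 h3
    (by rw [h5]; exact h4.totalDegree (fun h => h3 (by rw [h]; simp)))
    (fun _ => Finset.univ.erase 0) (fun i => by
      have h6 := congrArg (fun m => m i) (Finset.HasAntidiagonal.mem_antidiagonal.1 hx)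
      simp only [Finsupp.add_apply, m0, Finsupp.equivFunOnFinite_symm_apply_apply] at h6
      rw [Finset.card_erase_of_mem (Finset.mem_univ _), Finset.card_univ,
        ← Nat.card_eq_fintype_card]
      omega)
  refine ⟨s, fun i => (Finset.mem_erase.1 (hs i)).1, fun i hi => hs' ?_⟩
  rw [map_prod]
  refine Finset.prod_eq_zero (Finset.mem_univ i) ?_
  simpa [lin_apply] using hi

end Pool.Agent.AJT
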