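import Pool.Agent.MP_79429d_co.J1

/-! Twisted derivations of the super algebra. -/

set_option autoImplicit false

namespace Pool.Agent.AJT

variable {K E ι : Type} [Field K] [AddCommGroup E] [Module K E]

/-- Twisted Leibniz rule. -/
def IsDer (φ : Om K E ι →ₐ[K] Om K E ι) (δ : Om K E ι →ₗ[K] Om K E ι) : Prop :=
  ∀ a b, δ (a * b) = δ a * b + φ a * δ b

theorem IsDer.one {φ : Om K E ι →ₐ[K] Om K E ι} {δ : Om K E ι →ₗ[K] Om K E ι} (h : IsDer φ δ) :
    δ 1 = 0 := by
  have := h 1 1
  simpa using this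

theorem der_zero {B : Type} [Ring B] [Algebra K B] (δ : Om K E ι →ₗ[K] B) (φ ψ : Om K E ι → B)
    (h : ∀ a b, δ (a * b) = δ a * ψ b + φ a * δ b) (h1 : δ 1 = 0) (l : List (Gen E ι))
    (hg : ∀ g ∈ l, δ (gen K g) = 0) : δ (pr K l) = 0 := by
  induction l with
  | nil => simpa using h1
  | cons g l ih =>
    rw [pr_cons, h, hg g (by simp), ih (fun g' hg' => hg g' (by simp [hg']))]
    simp

theorem der_zero_all {B : Type} [Ring B] [Algebra K B] (δ : Om K E ι →ₗ[K] B)
    (φ ψ : Om K E ι → B)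
    (h : ∀ a b, δ (a * b) = δ a * ψ b + φ a * δ b) (h1 : δ 1 = 0)
    (hg : ∀ g, δ (gen K g) = 0) (a : Om K E ι) : δ a = 0 :=
  lin_ext δ 0 (fun l => der_zero δ φ ψ h h1 l (fun g _ => hg g)) a

theorem IsDer.pr_zero {φ : Om K E ι →ₐ[K] Om K E ι} {δ : Om K E ι →ₗ[K] Om K E ι}
    (h : IsDer φ δ) (l : List (Gen E ι)) (hg : ∀ g ∈ l, δ (gen K g) = 0) : δ (pr K l) = 0 :=
  der_zero δ φ id h h.one l hg

/-- Compatibility of values of a derivation on generators. -/
structure DerCompat (φ : Om K E ι →ₐ[K] Om K E ι) (f : Gen E ι → Om K E ι) : Prop where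
  xadd : ∀ a b, f (.x (a + b)) = f (.x a) + f (.x b)
  xsmul : ∀ (r : K) a, f (.x (r • a)) = r • f (.x a)
  dadd : ∀ a b, f (.d (a + b)) = f (.d a) + f (.d b)
  dsmul : ∀ (r : K) a, f (.d (r • a)) = r • f (.d a)
  comm : ∀ e g, f (.x e) * gen K g + φ (gen K (.x e)) * f g
    = f g * gen K (.x e) + φ (gen K g) * f (.x e)
  anti : ∀ g g', g.odd → g'.odd →
    f g * gen K g' + φ (gen K g) * f g' = -(f g' * gen K g + φ (gen K g') * f g)

/-- The triangular matrix attached to a generator. -/
noncomputable def derMat (φ : Om K E ι →ₐ[K] Om K E ι) (f : Gen E ι → Om K E ι) (g : Gen E ι) :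
    Matrix (Fin 2) (Fin 2) (Om K E ι) := !![φ (gen K g), f g; 0, gen K g]

theorem derMat_compat {φ : Om K E ι →ₐ[K] Om K E ι} {f : Gen E ι → Om K E ι}
    (h : DerCompat φ f) : Compat K (derMat φ f) where
  xadd a b := by
    ext i j; fin_cases i <;> fin_cases j <;> simp [derMat, h.xadd]
  xsmul r a := by
    ext i j; fin_cases i <;> fin_cases j <;> simp [derMat, h.xsmul]
  dadd a b := by
    ext i j; fin_cases i <;> fin_cases j <;> simp [derMat, h.dadd]
  dsmul r a := by
    ext i j; fin_cases i <;> fin_cases j <;> simp [derMat, h.dsmul]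
  comm e g := by
    have h1 := h.comm e g
    have h2 : φ (gen K (.x e)) * φ (gen K g) = φ (gen K g) * φ (gen K (.x e)) := by
      rw [← map_mul, ← map_mul, compat_gen.comm]
    have h3 := compat_gen.comm (K := K) e g
    simp only [derMat, Matrix.mul_fin_two, mul_zero, add_zero, zero_mul, zero_add]
    rw [h2, h3, add_comm (φ (gen K (.x e)) * f g), h1, add_comm]
  anti g g' hg hg' := by
    have h1 := h.anti g g' hg hg'
    have h2 : φ (gen K g) * φ (gen K g') = -(φ (gen K g') * φ (gen K g)) := by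
      rw [← map_mul, ← map_mul, compat_gen.anti g g' hg hg', map_neg]
    have h3 := compat_gen.anti (K := K) g g' hg hg'
    simp only [derMat, Matrix.mul_fin_two, mul_zero, add_zero, zero_mul, zero_add]
    rw [h2, h3, add_comm (φ (gen K g) * f g'), h1]
    ext i j; fin_cases i <;> fin_cases j <;> simp [add_comm]

theorem exists_der {φ : Om K E ι →ₐ[K] Om K E ι} {f : Gen E ι → Om K E ι}
    (h : DerCompat φ f) :
    ∃ δ : Om K E ι →ₗ[K] Om K E ι, IsDer φ δ ∧ ∀ g, δ (gen K g) = f g := by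
  let M := lift (derMat φ f) (derMat_compat h)
  let ent : Fin 2 → Fin 2 → (Om K E ι →ₗ[K] Om K E ι) := fun i j =>
    (Matrix.entryLinearMap K (Om K E ι) i j).comp M.toLinearMap
  have hent : ∀ i j a, ent i j a = M a i j := fun i j a => rfl
  have key : ∀ l, M (pr K l) 0 0 = φ (pr K l) ∧ M (pr K l) 1 0 = 0 ∧ M (pr K l) 1 1 = pr K l := by
    intro l
    induction l with
    | nil => simp
    | cons g l ih =>
      obtain ⟨h1, h2, h3⟩ := ih
      simp only [pr_cons, map_mul, Matrix.mul_apply, Fin.sum_univ_two, h1, h2, h3]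
      simp [M, derMat]
  have k0 : ∀ a, M a 0 0 = φ a := fun a =>
    lin_ext (ent 0 0) φ.toLinearMap (fun l => (key l).1) a
  have k2 : ∀ a, M a 1 1 = a := fun a =>
    lin_ext (ent 1 1) LinearMap.id (fun l => (key l).2.2) a
  refine ⟨ent 0 1, fun a b => ?_, fun g => ?_⟩
  · simp only [hent, map_mul, Matrix.mul_apply, Fin.sum_univ_two, k0, k2]
    rw [add_comm]
  · simp [hent, M, derMat]

/-- Values of an odd derivation on generators. -/
noncomputable def oddGen (F G : E →ₗ[K] Om K E ι) (H : ι → Om K E ι) : Gen E ι → Om K E ι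
  | .x e => F e
  | .d e => G e
  | .k i => H i

theorem oddGen_compat (F G : E →ₗ[K] Om K E ι) (H : ι → Om K E ι)
    (hF : ∀ e, F e ∈ O1 K E ι) (hG : ∀ e a, G e * a = a * G e) (hH : ∀ i a, H i * a = a * H i) :
    DerCompat par (oddGen F G H) := by
  have hc : ∀ g : Gen E ι, g.odd → ∀ a, oddGen F G H g * a = a * oddGen F G H g := by
    intro g hg a
    cases g with
    | x e => exact hg.elim
    | d e => exact hG e a
    | k i => exact hH i a
  refine ⟨fun a b => by simp [oddGen], fun r a => by simp [oddGen], fun a b => by simp [oddGen],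
    fun r a => by simp [oddGen], fun e g => ?_, fun g g' hg hg' => ?_⟩
  · change F e * gen K g + par (xx (K := K) ι e) * oddGen F G H g
      = oddGen F G H g * xx (K := K) ι e + par (gen K g) * F e
    rw [par_xx, xx_comm, O1_mul (hF e), add_comm]
  · rw [par_O1 (gen_mem_O1 hg), par_O1 (gen_mem_O1 hg'), hc g hg, hc g' hg']
    simp

/-- Odd derivations. -/
noncomputable def oddDer (F G : E →ₗ[K] Om K E ι) (H : ι → Om K E ι)
    (hF : ∀ e, F e ∈ O1 K E ι) (hG : ∀ e a, G e * a = a * G e) (hH : ∀ i a, H i * a = a * H i) :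
    Om K E ι →ₗ[K] Om K E ι := (exists_der (oddGen_compat F G H hF hG hH)).choose

section
variable (F G : E →ₗ[K] Om K E ι) (H : ι → Om K E ι)
    (hF : ∀ e, F e ∈ O1 K E ι) (hG : ∀ e a, G e * a = a * G e) (hH : ∀ i a, H i * a = a * H i)

theorem oddDer_isDer : IsDer par (oddDer F G H hF hG hH) :=
  (exists_der (oddGen_compat F G H hF hG hH)).choose_spec.1
theorem oddDer_xx (e : E) : oddDer F G H hF hG hH (xx (K := K) ι e) = F e :=
  (exists_der (oddGen_compat F G H hF hG hH)).choose_spec.2 (.x e)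
theorem oddDer_dd (e : E) : oddDer F G H hF hG hH (dd (K := K) ι e) = G e :=
  (exists_der (oddGen_compat F G H hF hG hH)).choose_spec.2 (.d e)
theorem oddDer_kk (i : ι) : oddDer F G H hF hG hH (kk K E i) = H i :=
  (exists_der (oddGen_compat F G H hF hG hH)).choose_spec.2 (.k i)
end

/-- An odd derivation: twisted by parity and anticommuting with parity. -/
structure IsOdd (δ : Om K E ι →ₗ[K] Om K E ι) : Prop where
  der : IsDer par δ
  anti : ∀ a, δ (par a) = -par (δ a)

theorem isOdd_of_gen {δ : Om K E ι →ₗ[K] Om K E ι} (h : IsDer par δ)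
    (hg : ∀ g, δ (par (gen K g)) = -par (δ (gen K g))) : IsOdd δ := by
  refine ⟨h, fun a => ?_⟩
  have := der_zero_all (δ.comp par.toLinearMap + par.toLinearMap.comp δ) id par
    (fun a b => by
      simp only [LinearMap.add_apply, LinearMap.comp_apply, AlgHom.toLinearMap_apply, map_mul, h _ _,
        map_add, par_par, id]
      noncomm_ring)
    (by simp [h.one]) (fun g => by simp [hg g]) a
  simp only [LinearMap.add_apply, LinearMap.comp_apply, AlgHom.toLinearMap_apply] at this
  exact eq_neg_of_add_eq_zero_left this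

theorem IsOdd.xx_pow {δ : Om K E ι →ₗ[K] Om K E ι} (h : IsOdd δ) (e : E) (n : ℕ) :
    δ (xx (K := K) ι e ^ (n + 1)) = (n + 1) • (xx (K := K) ι e ^ n * δ (xx (K := K) ι e)) := by
  induction n with
  | zero => simp
  | succ n ih =>
    rw [pow_succ', h.der, ih, par_xx, ← xx_pow_comm, mul_smul_comm, ← mul_assoc, ← pow_succ',
      succ_nsmul _ (n + 1), add_comm]

theorem IsOdd.xx_pow_char {δ : Om K E ι →ₗ[K] Om K E ι} (h : IsOdd δ) (p : ℕ) [Fact p.Prime]
    [CharP K p] (e : E) : δ (xx (K := K) ι e ^ p) = 0 := by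
  obtain ⟨n, hn⟩ : ∃ n, p = n + 1 := ⟨p - 1, by have := (Fact.out : p.Prime).pos; omega⟩
  have hp : ((n + 1 : ℕ) : K) = 0 := by rw [← hn]; exact CharP.cast_eq_zero K p
  rw [hn, h.xx_pow, ← Nat.cast_smul_eq_nsmul K, hp, zero_smul]

theorem IsOdd.xx_pow_zero {δ : Om K E ι →ₗ[K] Om K E ι} (h : IsOdd δ) (e : E)
    (he : δ (xx (K := K) ι e) = 0) (n : ℕ) : δ (xx (K := K) ι e ^ n) = 0 := by
  cases n with
  | zero => simpa using h.der.one
  | succ n => rw [h.xx_pow, he]; simp

/-- The super commutator of two odd derivations is an even derivation. -/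
theorem IsOdd.bracket {δ δ' : Om K E ι →ₗ[K] Om K E ι} (h : IsOdd δ) (h' : IsOdd δ') :
    IsDer (AlgHom.id K _) (δ.comp δ' + δ'.comp δ) := by
  intro a b
  simp only [LinearMap.add_apply, LinearMap.comp_apply, h.der _ _, h'.der _ _, map_add, h.anti,
    h'.anti, par_par, AlgHom.id_apply]
  noncomm_ring

theorem IsOdd.anticomm {δ δ' : Om K E ι →ₗ[K] Om K E ι} (h : IsOdd δ) (h' : IsOdd δ')
    (hg : ∀ g, δ (δ' (gen K g)) + δ' (δ (gen K g)) = 0) (a : Om K E ι) :
    δ (δ' a) = -δ' (δ a) := by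
  have := der_zero_all (δ.comp δ' + δ'.comp δ) (AlgHom.id K _) id (h.bracket h')
    (h.bracket h').one hg a
  exact eq_neg_of_add_eq_zero_left this

/-- The differential. -/
noncomputable def DD (p : ℕ) (u : ι → E) : Om K E ι →ₗ[K] Om K E ι :=
  oddDer (dd (K := K) ι) 0 (fun i => xx (K := K) ι (u i) ^ p) dd_mem_O1 (by simp)
    (fun i a => xx_pow_comm _ _ a)

@[simp] theorem DD_xx (p : ℕ) (u : ι → E) (e : E) :
    DD p u (xx (K := K) ι e) = dd (K := K) ι e := by simp [DD, oddDer_xx]
@[simp] theorem DD_dd (p : ℕ) (u : ι → E) (e : E) :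
    DD p u (dd (K := K) ι e) = 0 := by simp [DD, oddDer_dd]
@[simp] theorem DD_kk (p : ℕ) (u : ι → E) (i : ι) :
    DD p u (kk K E i) = xx (K := K) ι (u i) ^ p := by simp [DD, oddDer_kk]

theorem DD_isOdd (p : ℕ) (u : ι → E) : IsOdd (DD (K := K) p u) :=
  isOdd_of_gen (oddDer_isDer _ _ _ _ _ _) (fun g => by cases g <;> simp)

theorem DD_DD [NeZero (2 : K)] (p : ℕ) [Fact p.Prime] [CharP K p] (u : ι → E) (a : Om K E ι) :
    DD p u (DD p u a) = 0 := by
  have h := (DD_isOdd (K := K) p u).anticomm (DD_isOdd p u)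
    (fun g => by cases g <;> simp [(DD_isOdd (K := K) p u).xx_pow_char p]) a
  have h2 : (2 : K) • (DD p u (DD p u a)) = 0 := by
    rw [two_smul]; nth_rewrite 1 [h]; simp
  exact (smul_eq_zero.1 h2).resolve_left (NeZero.ne 2)

/-- The Euler homotopy. -/
noncomputable def hh (ι : Type) (σ : E →ₗ[K] E) : Om K E ι →ₗ[K] Om K E ι :=
  oddDer 0 ((xx (K := K) ι).comp σ) 0 (by simp) (fun e a => xx_comm _ a) (by simp)

@[simp] theorem hh_xx (σ : E →ₗ[K] E) (e : E) : hh ι σ (xx (K := K) ι e) = 0 := by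
  simp [hh, oddDer_xx]
@[simp] theorem hh_dd (σ : E →ₗ[K] E) (e : E) :
    hh ι σ (dd (K := K) ι e) = xx (K := K) ι (σ e) := by simp [hh, oddDer_dd]
@[simp] theorem hh_kk (σ : E →ₗ[K] E) (i : ι) : hh ι σ (kk K E i) = 0 := by
  simp [hh, oddDer_kk]

theorem hh_isOdd (σ : E →ₗ[K] E) : IsOdd (hh ι σ) :=
  isOdd_of_gen (oddDer_isDer _ _ _ _ _ _) (fun g => by cases g <;> simp)

/-- Contraction with a linear functional. -/
noncomputable def con (ι : Type) (f : E →ₗ[K] K) : Om K E ι →ₗ[K] Om K E ι :=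
  oddDer 0 (f.smulRight 1) 0 (by simp) (fun e a => by simp) (by simp)

@[simp] theorem con_xx (f : E →ₗ[K] K) (e : E) : con ι f (xx (K := K) ι e) = 0 := by
  simp [con, oddDer_xx]
@[simp] theorem con_dd (f : E →ₗ[K] K) (e : E) :
    con ι f (dd (K := K) ι e) = f e • 1 := by simp [con, oddDer_dd]
@[simp] theorem con_kk (f : E →ₗ[K] K) (i : ι) : con ι f (kk K E i) = 0 := by
  simp [con, oddDer_kk]

theorem con_isOdd (f : E →ₗ[K] K) : IsOdd (con ι f) :=
  isOdd_of_gen (oddDer_isDer _ _ _ _ _ _) (fun g => by cases g <;> simp)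

open Classical in
/-- Derivative along a Koszul generator. -/
noncomputable def dk (K E : Type) [Field K] [AddCommGroup E] [Module K E] (i : ι) :
    Om K E ι →ₗ[K] Om K E ι :=
  oddDer 0 0 (fun j => if j = i then 1 else 0) (by simp) (by simp)
    (fun j a => by split_ifs <;> simp)

@[simp] theorem dk_xx (i : ι) (e : E) : dk K E i (xx (K := K) ι e) = 0 := by
  simp [dk, oddDer_xx]
@[simp] theorem dk_dd (i : ι) (e : E) : dk K E i (dd (K := K) ι e) = 0 := by
  simp [dk, oddDer_dd]
open Classical in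
theorem dk_kk (i j : ι) : dk K E i (kk K E j) = if j = i then 1 else 0 := by
  simp [dk, oddDer_kk]

theorem dk_isOdd (i : ι) : IsOdd (dk K E i) :=
  isOdd_of_gen (oddDer_isDer _ _ _ _ _ _) (fun g => by
    cases g with
    | x e => simp
    | d e => simp
    | k j => simp only [gen_k, par_kk, map_neg, dk_kk]; split_ifs <;> simp)

/-- Projection along `y`. -/
noncomputable def prj (f : E →ₗ[K] K) (y : E) : E →ₗ[K] E := LinearMap.id - f.smulRight y

theorem prj_apply (f : E →ₗ[K] K) (y e : E) : prj f y e = e - f e • y := by simp [prj]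

theorem prj_self {f : E →ₗ[K] K} {y : E} (h : f y = 1) : prj f y y = 0 := by simp [prj, h]

/-- Functoriality in `E`. -/
noncomputable def push (ι : Type) (π : E →ₗ[K] E) : Om K E ι →ₐ[K] Om K E ι :=
  endo π π (kk K E) kk_mem_O1

/-- Substitution in the even generators only. -/
noncomputable def zx (ι : Type) (π : E →ₗ[K] E) : Om K E ι →ₐ[K] Om K E ι :=
  endo π LinearMap.id (kk K E) kk_mem_O1

@[simp] theorem push_xx (π : E →ₗ[K] E) (e : E) :
    push ι π (xx (K := K) ι e) = xx (K := K) ι (π e) := by simp [push]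
@[simp] theorem push_dd (π : E →ₗ[K] E) (e : E) :
    push ι π (dd (K := K) ι e) = dd (K := K) ι (π e) := by simp [push]
@[simp] theorem push_kk (π : E →ₗ[K] E) (i : ι) : push ι π (kk K E i) = kk K E i := by simp [push]
@[simp] theorem zx_xx (π : E →ₗ[K] E) (e : E) :
    zx ι π (xx (K := K) ι e) = xx (K := K) ι (π e) := by simp [zx]
@[simp] theorem zx_dd (π : E →ₗ[K] E) (e : E) :
    zx ι π (dd (K := K) ι e) = dd (K := K) ι e := by simp [zx]
@[simp] theorem zx_kk (π : E →ₗ[K] E) (i : ι) : zx ι π (kk K E i) = kk K E i := by simp [zx]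

theorem push_push (π π' : E →ₗ[K] E) (a : Om K E ι) :
    push ι π' (push ι π a) = push ι (π'.comp π) a :=
  alg_ext ((push ι π').comp (push ι π)) _ (fun g => by cases g <;> simp) a

/-- Values of the division operator on generators. -/
noncomputable def divGen (ι : Type) (f : E →ₗ[K] K) : Gen E ι → Om K E ι
  | .x e => f e • 1
  | .d _ => 0
  | .k _ => 0

theorem divGen_compat (f : E →ₗ[K] K) (y : E) : DerCompat (zx ι (prj f y)) (divGen ι f) := by
  refine ⟨fun a b => by simp [divGen, add_smul], fun r a => by simp [divGen, mul_smul],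
    fun a b => by simp [divGen], fun r a => by simp [divGen], fun e g => ?_,
    fun g g' hg hg' => ?_⟩
  · cases g with
    | x e' =>
      simp only [divGen, gen_x, zx_xx, prj_apply, map_sub, map_smul, smul_mul_assoc, one_mul,
        mul_smul_comm, mul_one, smul_sub, smul_smul, mul_comm (f e) (f e')]
      abel
    | d e' => simp [divGen]
    | k i => simp [divGen]
  · cases g with
    | x e => exact hg.elim
    | d e =>
      cases g' with
      | x e => exact hg'.elim
      | d e' => simp [divGen]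
      | k i => simp [divGen]
    | k j =>
      cases g' with
      | x e => exact hg'.elim
      | d e' => simp [divGen]
      | k i => simp [divGen]

/-- Division by `x y`, dropping the remainder. -/
noncomputable def dv (ι : Type) (f : E →ₗ[K] K) (y : E) : Om K E ι →ₗ[K] Om K E ι :=
  (exists_der (divGen_compat (ι := ι) f y)).choose

theorem dv_isDer (f : E →ₗ[K] K) (y : E) : IsDer (zx ι (prj f y)) (dv ι f y) :=
  (exists_der (divGen_compat (ι := ι) f y)).choose_spec.1

@[simp] theorem dv_xx (f : E →ₗ[K] K) (y e : E) : dv ι f y (xx (K := K) ι e) = f e • 1 :=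
  (exists_der (divGen_compat (ι := ι) f y)).choose_spec.2 (.x e)
@[simp] theorem dv_dd (f : E →ₗ[K] K) (y e : E) : dv ι f y (dd (K := K) ι e) = 0 :=
  (exists_der (divGen_compat (ι := ι) f y)).choose_spec.2 (.d e)
@[simp] theorem dv_kk (f : E →ₗ[K] K) (y : E) (i : ι) : dv ι f y (kk K E i) = 0 :=
  (exists_der (divGen_compat (ι := ι) f y)).choose_spec.2 (.k i)

theorem dv_xx_mul {f : E →ₗ[K] K} {y : E} (h : f y = 1) (a : Om K E ι) :
    dv ι f y (xx (K := K) ι y * a) = a := by
  rw [dv_isDer f y, dv_xx, zx_xx, prj_self h, h]; simp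

theorem xx_mul_dv (f : E →ₗ[K] K) (y : E) (a : Om K E ι) :
    xx (K := K) ι y * dv ι f y a = a - zx ι (prj f y) a := by
  have := der_zero_all ((LinearMap.mulLeft K (xx (K := K) ι y)).comp (dv ι f y)
      - (LinearMap.id - (zx ι (prj f y)).toLinearMap)) (zx ι (prj f y)) id
    (fun a b => by
      simp only [LinearMap.sub_apply, LinearMap.comp_apply, LinearMap.mulLeft_apply,
        LinearMap.id_apply, AlgHom.toLinearMap_apply, dv_isDer f y _ _, map_mul, id, mul_add,
        ← mul_assoc, xx_comm y (zx ι (prj f y) a)]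
      noncomm_ring)
    (by simp [(dv_isDer (ι := ι) f y).one])
    (fun g => by cases g <;> simp [prj_apply]) a
  simpa [sub_eq_zero] using this

theorem xx_mul_eq_zero {f : E →ₗ[K] K} {y : E} (h : f y = 1) {a : Om K E ι}
    (ha : xx (K := K) ι y * a = 0) : a = 0 := by
  rw [← dv_xx_mul h a, ha, map_zero]

theorem xx_pow_mul_eq_zero {f : E →ₗ[K] K} {y : E} (h : f y = 1) (n : ℕ) {a : Om K E ι}
    (ha : xx (K := K) ι y ^ n * a = 0) : a = 0 := by
  induction n with
  | zero => simpa using ha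
  | succ n ih => rw [pow_succ', mul_assoc] at ha; exact ih (xx_mul_eq_zero h ha)

/-- Expansion along an odd element. -/
theorem odd_expand [NeZero (2 : K)] {θ : Om K E ι} (hθ : θ ∈ O1 K E ι)
    (z : Om K E ι →ₐ[K] Om K E ι) (hz : ∀ a, z (par a) = par (z a))
    {δ : Om K E ι →ₗ[K] Om K E ι} (hδ : IsDer par δ)
    (hg : ∀ g, gen K g = z (gen K g) + θ * z (δ (gen K g))) (a : Om K E ι) :
    a = z a + θ * z (δ a) := by
  refine lin_ext LinearMap.id (z.toLinearMap + (LinearMap.mulLeft K θ).comp (z.toLinearMap.comp δ))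
    (fun l => ?_) a
  simp only [LinearMap.id_apply, LinearMap.add_apply, AlgHom.toLinearMap_apply,
    LinearMap.comp_apply, LinearMap.mulLeft_apply]
  induction l with
  | nil => simp [hδ.one]
  | cons g l ih =>
    rw [pr_cons, hδ, map_add, map_mul, map_mul, map_mul, hz]
    have h1 := hg g
    generalize gen K g = b at *
    generalize pr K l = c at *
    have h2 : θ * z (δ b) * θ = 0 := by
      rw [mul_assoc, mul_O1 hθ, ← mul_assoc, O1_sq hθ, zero_mul]
    have h3 : z b * θ = θ * par (z b) := mul_O1 hθ _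
    calc b * c = (z b + θ * z (δ b)) * (z c + θ * z (δ c)) := by rw [← h1, ← ih]
      _ = z b * z c + (z b * θ) * z (δ c) + θ * z (δ b) * z c + (θ * z (δ b) * θ) * z (δ c) := by
        noncomm_ring
      _ = _ := by rw [h2, h3]; noncomm_ring

theorem endo_par (F G : E →ₗ[K] E) (u : ι → Om K E ι) (hu : ∀ i, u i ∈ O1 K E ι) (a : Om K E ι) :
    endo F G u hu (par a) = par (endo F G u hu a) :=
  alg_ext ((endo F G u hu).comp par) (par.comp (endo F G u hu))
    (fun g => by cases g <;> simp [par_O1 (hu _)]) a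

open Classical in
/-- Kill one Koszul generator. -/
noncomputable def zk (K E : Type) [Field K] [AddCommGroup E] [Module K E] (i : ι) :
    Om K E ι →ₐ[K] Om K E ι :=
  endo LinearMap.id LinearMap.id (fun j => if j = i then 0 else kk K E j)
    (fun j => by split_ifs; exacts [Submodule.zero_mem _, kk_mem_O1 j])

@[simp] theorem zk_xx (i : ι) (e : E) : zk K E i (xx (K := K) ι e) = xx (K := K) ι e := by
  simp [zk]
@[simp] theorem zk_dd (i : ι) (e : E) : zk K E i (dd (K := K) ι e) = dd (K := K) ι e := by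
  simp [zk]
open Classical in
theorem zk_kk (i j : ι) : zk K E i (kk K E j) = if j = i then 0 else kk K E j := by
  simp [zk]

theorem zk_expand [NeZero (2 : K)] (i : ι) (a : Om K E ι) :
    a = zk K E i a + kk K E i * zk K E i (dk K E i a) := by
  refine odd_expand (kk_mem_O1 i) (zk K E i) (endo_par _ _ _ _) (dk_isOdd i).der (fun g => ?_) a
  cases g with
  | x e => simp
  | d e => simp
  | k j =>
    simp only [gen_k, zk_kk, dk_kk]
    split_ifs with h
    · simp [h]
    · simp

theorem zx_expand [NeZero (2 : K)] (f : E →ₗ[K] K) (y : E) (a : Om K E ι) :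
    zx ι (prj f y) a = push ι (prj f y) a + dd (K := K) ι y * push ι (prj f y) (con ι f a) := by
  let zd : Om K E ι →ₐ[K] Om K E ι := endo LinearMap.id (prj f y) (kk K E) kk_mem_O1
  have h1 := odd_expand (dd_mem_O1 y) zd (endo_par _ _ _ _) (con_isOdd f).der
    (fun g => by cases g <;> simp [zd, prj_apply]) a
  have h2 : ∀ b, zx ι (prj f y) (zd b) = push ι (prj f y) b :=
    alg_ext ((zx ι (prj f y)).comp zd) _ (fun g => by cases g <;> simp [zd])
  conv_lhs => rw [h1]
  rw [map_add, map_mul, h2, h2, zx_dd]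

end Pool.Agent.AJT
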