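import Pool.Agent.MP_79429d_co.J2

/-! Filtrations and gradings. -/

set_option autoImplicit false

namespace Pool.Agent.AJT

open Polynomial

variable {K E ι : Type} [Field K] [AddCommGroup E] [Module K E]

/-- Weight of a list. -/
def wt (w : Gen E ι → ℕ) (l : List (Gen E ι)) : ℕ := (l.map w).sum

omit [AddCommGroup E] in
@[simp] theorem wt_nil (w : Gen E ι → ℕ) : wt w [] = 0 := rfl
omit [AddCommGroup E] in
@[simp] theorem wt_cons (w : Gen E ι → ℕ) (g : Gen E ι) (l : List (Gen E ι)) :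
    wt w (g :: l) = w g + wt w l := by simp [wt]
omit [AddCommGroup E] in
theorem wt_append (w : Gen E ι → ℕ) (l l' : List (Gen E ι)) :
    wt w (l ++ l') = wt w l + wt w l' := by simp [wt]
omit [AddCommGroup E] in
theorem wt_le {w w' : Gen E ι → ℕ} {l : List (Gen E ι)} (h : ∀ g ∈ l, w g ≤ w' g) :
    wt w l ≤ wt w' l := by
  induction l with
  | nil => simp
  | cons g l ih =>
    simp only [wt_cons]
    exact add_le_add (h g (by simp)) (ih fun g' hg' => h g' (by simp [hg']))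
omit [AddCommGroup E] in
theorem wt_congr {w w' : Gen E ι → ℕ} {l : List (Gen E ι)} (h : ∀ g ∈ l, w g = w' g) :
    wt w l = wt w' l :=
  le_antisymm (wt_le fun g hg => (h g hg).le) (wt_le fun g hg => (h g hg).ge)
omit [AddCommGroup E] in
theorem wt_filter (w : Gen E ι → ℕ) (q : Gen E ι → Bool) (l : List (Gen E ι)) :
    wt w l = wt w (l.filter q) + wt w (l.filter fun g => !q g) := by
  induction l with
  | nil => simp
  | cons g l ih =>
    cases h : q g <;> simp [h, ih] <;> omega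
omit [AddCommGroup E] in
theorem wt_eq_zero {w : Gen E ι → ℕ} {l : List (Gen E ι)} (h : ∀ g ∈ l, w g = 0) : wt w l = 0 := by
  induction l with
  | nil => simp
  | cons g l ih => simp [h g (by simp), ih fun g' hg' => h g' (by simp [hg'])]

/-- Span of products of allowed generators of weight at least `k`. -/
noncomputable def Fil (K : Type) [Field K] [Module K E] (A : Set (Gen E ι)) (w : Gen E ι → ℕ)
    (k : ℕ) : Submodule K (Om K E ι) := Sp K (fun l => (∀ g ∈ l, g ∈ A) ∧ k ≤ wt w l)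

theorem Fil_mul {A : Set (Gen E ι)} {w : Gen E ι → ℕ} {k k' n : ℕ} {a b : Om K E ι}
    (ha : a ∈ Fil K A w k) (hb : b ∈ Fil K A w k') (hn : n ≤ k + k') : a * b ∈ Fil K A w n := by
  refine Sp_mul (fun l l' hl hl' => ⟨fun g hg => ?_, ?_⟩) ha hb
  · rcases List.mem_append.1 hg with h | h
    exacts [hl.1 g h, hl'.1 g h]
  · rw [wt_append]; have := hl.2; have := hl'.2; omega

theorem Fil_mono {A A' : Set (Gen E ι)} {w w' : Gen E ι → ℕ} {k k' : ℕ} (hA : A ⊆ A')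
    (hw : ∀ g ∈ A, w g ≤ w' g) (hk : k' ≤ k) : Fil K A w k ≤ Fil K A' w' k' :=
  Sp_mono fun _ hl => ⟨fun g hg => hA (hl.1 g hg),
    hk.trans (hl.2.trans (wt_le fun g hg => hw g (hl.1 g hg)))⟩

theorem Fil_anti {A : Set (Gen E ι)} {w : Gen E ι → ℕ} {k k' : ℕ} (hk : k' ≤ k) :
    Fil K A w k ≤ Fil K A w k' := Fil_mono subset_rfl (fun _ _ => le_rfl) hk

theorem Fil_le_zero {A A' : Set (Gen E ι)} {w w' : Gen E ι → ℕ} {k : ℕ} (hA : A ⊆ A') :
    Fil K A w k ≤ Fil K A' w' 0 :=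
  Sp_mono fun _ hl => ⟨fun g hg => hA (hl.1 g hg), Nat.zero_le _⟩

theorem one_mem_Fil {A : Set (Gen E ι)} {w : Gen E ι → ℕ} : (1 : Om K E ι) ∈ Fil K A w 0 := by
  have : pr K [] ∈ Fil K A w 0 := pr_mem_Sp (by simp)
  simpa using this

theorem gen_mem_Fil {A : Set (Gen E ι)} {w : Gen E ι → ℕ} {k : ℕ} {g : Gen E ι} (hg : g ∈ A)
    (hk : k ≤ w g) : gen K g ∈ Fil K A w k := by
  have : pr K [g] ∈ Fil K A w k := pr_mem_Sp (by simp [hg, hk])
  simpa using this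

theorem pow_mem_Fil {A : Set (Gen E ι)} {w : Gen E ι → ℕ} {k : ℕ} {a : Om K E ι}
    (ha : a ∈ Fil K A w k) (n : ℕ) : a ^ n ∈ Fil K A w (n * k) := by
  induction n with
  | zero => simpa using one_mem_Fil
  | succ n ih => rw [pow_succ]; exact Fil_mul ih ha (by rw [Nat.succ_mul])

theorem map_pr_mem_Fil {A' : Set (Gen E ι)} {w w' : Gen E ι → ℕ} (φ : Om K E ι →ₐ[K] Om K E ι)
    (l : List (Gen E ι)) (h : ∀ g ∈ l, φ (gen K g) ∈ Fil K A' w' (w g)) :
    φ (pr K l) ∈ Fil K A' w' (wt w l) := by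
  induction l with
  | nil => simpa using one_mem_Fil
  | cons g l ih =>
    rw [pr_cons, map_mul, wt_cons]
    exact Fil_mul (h g (by simp)) (ih fun g' hg' => h g' (by simp [hg'])) le_rfl

theorem Fil_map {A A' : Set (Gen E ι)} {w w' : Gen E ι → ℕ} (φ : Om K E ι →ₐ[K] Om K E ι)
    (h : ∀ g ∈ A, φ (gen K g) ∈ Fil K A' w' (w g)) {k : ℕ} {a : Om K E ι}
    (ha : a ∈ Fil K A w k) : φ a ∈ Fil K A' w' k :=
  Sp_map φ.toLinearMap
    (fun l hl => Fil_anti hl.2 (map_pr_mem_Fil φ l fun g hg => h g (hl.1 g hg))) ha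

theorem Fil_le {A A' : Set (Gen E ι)} {w w' : Gen E ι → ℕ}
    (h : ∀ g ∈ A, gen K g ∈ Fil K A' w' (w g)) (k : ℕ) : Fil K A w k ≤ Fil K A' w' k :=
  fun _ ha => Fil_map (AlgHom.id K _) h ha

theorem Fil_der {A : Set (Gen E ι)} {w : Gen E ι → ℕ} {φ : Om K E ι →ₐ[K] Om K E ι}
    {δ : Om K E ι →ₗ[K] Om K E ι} (hδ : IsDer φ δ) (n m : ℕ)
    (h : ∀ g ∈ A, φ (gen K g) ∈ Fil K A w (w g))
    (h' : ∀ g ∈ A, δ (gen K g) ∈ Fil K A w (w g + n - m)) {k : ℕ} {a : Om K E ι}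
    (ha : a ∈ Fil K A w k) : δ a ∈ Fil K A w (k + n - m) := by
  refine Sp_map δ (fun l hl => ?_) ha
  have key : ∀ l : List (Gen E ι), (∀ g ∈ l, g ∈ A) → δ (pr K l) ∈ Fil K A w (wt w l + n - m) := by
    intro l hl
    induction l with
    | nil => simp [hδ.one]
    | cons g l ih =>
      have hg := hl g (by simp)
      have hl' : ∀ g' ∈ l, g' ∈ A := fun g' hg' => hl g' (by simp [hg'])
      rw [pr_cons, hδ, wt_cons]
      refine Submodule.add_mem _ ?_ ?_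
      · exact Fil_mul (k' := wt w l) (h' g hg) (pr_mem_Sp ⟨hl', le_rfl⟩) (by omega)
      · exact Fil_mul (h g hg) (ih hl') (by omega)
  exact Fil_anti (by have := hl.2; omega) (key l hl.1)

theorem Fil_par {A : Set (Gen E ι)} {w : Gen E ι → ℕ} {k : ℕ} {a : Om K E ι}
    (ha : a ∈ Fil K A w k) : par a ∈ Fil K A w k := Sp_par ha

theorem Fil_odd {A : Set (Gen E ι)} {w : Gen E ι → ℕ}
    {δ : Om K E ι →ₗ[K] Om K E ι} (hδ : IsOdd δ) (n m : ℕ)
    (h' : ∀ g ∈ A, δ (gen K g) ∈ Fil K A w (w g + n - m)) {k : ℕ} {a : Om K E ι}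
    (ha : a ∈ Fil K A w k) : δ a ∈ Fil K A w (k + n - m) :=
  Fil_der hδ.der n m (fun _ hg => Fil_par (gen_mem_Fil hg le_rfl)) h' ha

theorem Fil_der_zero {A : Set (Gen E ι)} {w : Gen E ι → ℕ} {φ : Om K E ι →ₐ[K] Om K E ι}
    {δ : Om K E ι →ₗ[K] Om K E ι} (hδ : IsDer φ δ) (h : ∀ g ∈ A, δ (gen K g) = 0)
    {k : ℕ} {a : Om K E ι} (ha : a ∈ Fil K A w k) : δ a = 0 :=
  Sp_ext δ 0 (fun l hl => hδ.pr_zero l fun g hg => h g (hl.1 g hg)) ha

theorem Fil_alg_ext {B : Type} [Ring B] [Algebra K B] {A : Set (Gen E ι)} {w : Gen E ι → ℕ}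
    (φ ψ : Om K E ι →ₐ[K] B) (h : ∀ g ∈ A, φ (gen K g) = ψ (gen K g))
    {k : ℕ} {a : Om K E ι} (ha : a ∈ Fil K A w k) : φ a = ψ a :=
  Sp_ext φ.toLinearMap ψ.toLinearMap
    (fun l hl => map_pr_eq φ ψ l fun g hg => h g (hl.1 g hg)) ha

theorem Fil_eq_zero {A : Set (Gen E ι)} {w : Gen E ι → ℕ} (h : ∀ g ∈ A, w g ≠ 0 → gen K g = 0)
    {k : ℕ} (hk : 0 < k) {a : Om K E ι} (ha : a ∈ Fil K A w k) : a = 0 := by
  refine Sp_ext LinearMap.id 0 (fun l hl => ?_) ha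
  simp only [LinearMap.id_apply, LinearMap.zero_apply]
  by_contra hne
  have : wt w l = 0 := by
    refine wt_eq_zero fun g hg => ?_
    by_contra hw
    obtain ⟨s, t, rfl⟩ := List.append_of_mem hg
    exact hne (by rw [pr_append, pr_cons, h g (hl.1 g hg) hw]; simp)
  have := hl.2
  omega

/-- Homogeneous components. -/
noncomputable def cp (G : Om K E ι →ₐ[K] (Om K E ι)[X]) (k : ℕ) : Om K E ι →ₗ[K] Om K E ι where
  toFun a := (G a).coeff k
  map_add' a b := by simp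
  map_smul' r a := by simp

theorem cp_apply (G : Om K E ι →ₐ[K] (Om K E ι)[X]) (k : ℕ) (a : Om K E ι) :
    cp G k a = (G a).coeff k := rfl

/-- Homogeneous elements. -/
noncomputable def Hom (G : Om K E ι →ₐ[K] (Om K E ι)[X]) (k : ℕ) : Submodule K (Om K E ι) where
  carrier := {a | G a = monomial k a}
  add_mem' := fun {a b} ha hb => by
    simp only [Set.mem_ofPred_eq] at *
    rw [map_add, ha, hb, map_add]
  zero_mem' := by simp
  smul_mem' := fun r a ha => by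
    simp only [Set.mem_ofPred_eq] at *
    rw [map_smul, ha, smul_monomial]

theorem mem_Hom {G : Om K E ι →ₐ[K] (Om K E ι)[X]} {k : ℕ} {a : Om K E ι} :
    a ∈ Hom G k ↔ G a = monomial k a := Iff.rfl

section
variable {G : Om K E ι →ₐ[K] (Om K E ι)[X]}

theorem Hom_mul {k k' : ℕ} {a b : Om K E ι} (ha : a ∈ Hom G k) (hb : b ∈ Hom G k') :
    a * b ∈ Hom G (k + k') := by
  rw [mem_Hom] at *
  rw [map_mul, ha, hb, monomial_mul_monomial]

theorem one_mem_Hom : (1 : Om K E ι) ∈ Hom G 0 := by simp [mem_Hom]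

theorem Hom_pow {k : ℕ} {a : Om K E ι} (ha : a ∈ Hom G k) (n : ℕ) : a ^ n ∈ Hom G (n * k) := by
  induction n with
  | zero => simpa using one_mem_Hom
  | succ n ih => rw [pow_succ, Nat.succ_mul]; exact Hom_mul ih ha

theorem cp_of_Hom {j : ℕ} {a : Om K E ι} (ha : a ∈ Hom G j) (k : ℕ) :
    cp G k a = if j = k then a else 0 := by
  rw [cp_apply, mem_Hom.1 ha, coeff_monomial]

theorem cp_self {j : ℕ} {a : Om K E ι} (ha : a ∈ Hom G j) : cp G j a = a := by
  simp [cp_of_Hom ha]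

theorem cp_mul (n : ℕ) (a b : Om K E ι) :
    cp G n (a * b) = ∑ x ∈ Finset.HasAntidiagonal.antidiagonal n, cp G x.1 a * cp G x.2 b := by
  simp only [cp_apply, map_mul, coeff_mul]

theorem cp_Hom_mul {j : ℕ} {a : Om K E ι} (ha : a ∈ Hom G j) (k : ℕ) (b : Om K E ι) :
    cp G (k + j) (a * b) = a * cp G k b := by
  simp only [cp_apply, map_mul, mem_Hom.1 ha, coeff_monomial_mul]

theorem map_pr_Hom {w : Gen E ι → ℕ} (φ : Om K E ι →ₐ[K] Om K E ι) (l : List (Gen E ι))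
    (h : ∀ g ∈ l, φ (gen K g) ∈ Hom G (w g)) : φ (pr K l) ∈ Hom G (wt w l) := by
  induction l with
  | nil => simpa using one_mem_Hom
  | cons g l ih =>
    rw [pr_cons, map_mul, wt_cons]
    exact Hom_mul (h g (by simp)) (ih fun g' hg' => h g' (by simp [hg']))

theorem pr_Hom {w : Gen E ι → ℕ} (l : List (Gen E ι))
    (h : ∀ g ∈ l, gen K g ∈ Hom G (w g)) : pr K l ∈ Hom G (wt w l) :=
  map_pr_Hom (AlgHom.id K _) l h

theorem cp_Sp {Q : List (Gen E ι) → Prop} {w : Gen E ι → ℕ}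
    (h : ∀ l, Q l → ∀ g ∈ l, gen K g ∈ Hom G (w g)) (k : ℕ) {a : Om K E ι} (ha : a ∈ Sp K Q) :
    cp G k a ∈ Sp K (fun l => Q l ∧ wt w l = k) := by
  refine Sp_map _ (fun l hl => ?_) ha
  rw [cp_of_Hom (pr_Hom l (h l hl))]
  split_ifs with h'
  · exact pr_mem_Sp ⟨hl, h'⟩
  · exact Submodule.zero_mem _

theorem Sp_le_Hom {Q : List (Gen E ι) → Prop} {w : Gen E ι → ℕ} {k : ℕ}
    (h : ∀ l, Q l → (∀ g ∈ l, gen K g ∈ Hom G (w g)) ∧ wt w l = k) : Sp K Q ≤ Hom G k :=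
  Sp_le fun l hl => (h l hl).2 ▸ pr_Hom l (h l hl).1

theorem sub_cp_mem_Fil {A : Set (Gen E ι)} {w : Gen E ι → ℕ}
    (h : ∀ g ∈ A, gen K g ∈ Hom G (w g)) {k : ℕ} {a : Om K E ι} (ha : a ∈ Fil K A w k) :
    a - cp G k a ∈ Fil K A w (k + 1) := by
  refine Sp_map (LinearMap.id - cp G k) (fun l hl => ?_) ha
  simp only [LinearMap.sub_apply, LinearMap.id_apply]
  rw [cp_of_Hom (pr_Hom l fun g hg => h g (hl.1 g hg))]
  split_ifs with h'
  · simp
  · rw [sub_zero]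
    exact pr_mem_Sp ⟨hl.1, by have := hl.2; omega⟩

theorem cp_Fil_succ {A : Set (Gen E ι)} {w : Gen E ι → ℕ}
    (h : ∀ g ∈ A, gen K g ∈ Hom G (w g)) {k : ℕ} {a : Om K E ι} (ha : a ∈ Fil K A w (k + 1)) :
    cp G k a = 0 := by
  refine Sp_ext (cp G k) 0 (fun l hl => ?_) ha
  rw [cp_of_Hom (pr_Hom l fun g hg => h g (hl.1 g hg)), if_neg (by have := hl.2; omega)]
  simp

theorem der_pr_Hom {w : Gen E ι → ℕ} {φ : Om K E ι →ₐ[K] Om K E ι}
    {δ : Om K E ι →ₗ[K] Om K E ι} (hδ : IsDer φ δ) (n : ℕ) (l : List (Gen E ι))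
    (h : ∀ g ∈ l, gen K g ∈ Hom G (w g) ∧ φ (gen K g) ∈ Hom G (w g) ∧
      δ (gen K g) ∈ Hom G (w g + n)) : δ (pr K l) ∈ Hom G (wt w l + n) := by
  induction l with
  | nil => simp [hδ.one]
  | cons g l ih =>
    have hg := h g (by simp)
    have hl' := fun g' (hg' : g' ∈ l) => h g' (by simp [hg'])
    rw [pr_cons, hδ, wt_cons]
    refine Submodule.add_mem _ ?_ ?_
    · have := Hom_mul hg.2.2 (pr_Hom l fun g' hg' => (hl' g' hg').1)
      rwa [show w g + n + wt w l = w g + wt w l + n by omega] at this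
    · have := Hom_mul hg.2.1 (ih hl')
      rwa [← add_assoc] at this

theorem cp_lin {Q : List (Gen E ι) → Prop} {w : Gen E ι → ℕ} (δ : Om K E ι →ₗ[K] Om K E ι)
    (n : ℕ) (h : ∀ l, Q l → pr K l ∈ Hom G (wt w l) ∧ δ (pr K l) ∈ Hom G (wt w l + n))
    (k : ℕ) {a : Om K E ι} (ha : a ∈ Sp K Q) : cp G (k + n) (δ a) = δ (cp G k a) := by
  refine Sp_ext ((cp G (k + n)).comp δ) (δ.comp (cp G k)) (fun l hl => ?_) ha
  simp only [LinearMap.comp_apply]
  rw [cp_of_Hom (h l hl).1, cp_of_Hom (h l hl).2]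
  by_cases h' : wt w l = k
  · simp [h']
  · rw [if_neg h', if_neg (by omega), map_zero]

theorem cp_lin_lt {Q : List (Gen E ι) → Prop} {w : Gen E ι → ℕ} (δ : Om K E ι →ₗ[K] Om K E ι)
    (n : ℕ) (h : ∀ l, Q l → δ (pr K l) ∈ Hom G (wt w l + n))
    {k : ℕ} (hk : k < n) {a : Om K E ι} (ha : a ∈ Sp K Q) : cp G k (δ a) = 0 := by
  refine Sp_ext ((cp G k).comp δ) 0 (fun l hl => ?_) ha
  simp only [LinearMap.comp_apply]
  rw [cp_of_Hom (h l hl), if_neg (by omega)]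
  simp

end

/-- Values of a grading on generators. -/
noncomputable def gradGen (σ : E →ₗ[K] E) (a b : ℕ) (c : ι → ℕ) : Gen E ι → (Om K E ι)[X]
  | .x e => monomial a (xx (K := K) ι (σ e)) + monomial 0 (xx (K := K) ι (e - σ e))
  | .d e => monomial b (dd (K := K) ι (σ e)) + monomial 0 (dd (K := K) ι (e - σ e))
  | .k i => monomial (c i) (kk K E i)

theorem monomial_xx_comm (n : ℕ) (e : E) (f : (Om K E ι)[X]) :
    monomial n (xx (K := K) ι e) * f = f * monomial n (xx (K := K) ι e) := by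
  induction f using Polynomial.induction_on' with
  | add f g hf hg => rw [mul_add, add_mul, hf, hg]
  | monomial m a => rw [monomial_mul_monomial, monomial_mul_monomial, xx_comm, add_comm]

theorem monomial_anti (n m : ℕ) {a b : Om K E ι} (ha : a ∈ O1 K E ι) (hb : b ∈ O1 K E ι) :
    monomial n a * monomial m b = -(monomial m b * monomial n a) := by
  rw [monomial_mul_monomial, monomial_mul_monomial, O1_anti ha hb, map_neg, add_comm]

theorem gradGen_compat (σ : E →ₗ[K] E) (a b : ℕ) (c : ι → ℕ) :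
    Compat K (gradGen (ι := ι) σ a b c) where
  xadd e e' := by
    simp only [gradGen, map_add, map_sub]; abel
  xsmul r e := by
    simp only [gradGen, map_smul, ← smul_sub, smul_add, smul_monomial]
  dadd e e' := by
    simp only [gradGen, map_add, map_sub]; abel
  dsmul r e := by
    simp only [gradGen, map_smul, ← smul_sub, smul_add, smul_monomial]
  comm e g := by
    simp only [gradGen, add_mul, mul_add, monomial_xx_comm]
  anti g g' hg hg' := by
    cases g with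
    | x e => exact hg.elim
    | d e =>
      cases g' with
      | x e => exact hg'.elim
      | d e' =>
        simp only [gradGen, add_mul, mul_add]
        rw [monomial_anti b b (dd_mem_O1 _) (dd_mem_O1 (σ e')),
          monomial_anti b 0 (dd_mem_O1 _) (dd_mem_O1 (e' - σ e')),
          monomial_anti 0 b (dd_mem_O1 _) (dd_mem_O1 (σ e')),
          monomial_anti 0 0 (dd_mem_O1 _) (dd_mem_O1 (e' - σ e'))]
        abel
      | k i =>
        simp only [gradGen, add_mul, mul_add]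
        rw [monomial_anti b _ (dd_mem_O1 _) (kk_mem_O1 i),
          monomial_anti 0 _ (dd_mem_O1 _) (kk_mem_O1 i)]
        abel
    | k j =>
      cases g' with
      | x e => exact hg'.elim
      | d e' =>
        simp only [gradGen, add_mul, mul_add]
        rw [monomial_anti _ b (kk_mem_O1 j) (dd_mem_O1 _),
          monomial_anti _ 0 (kk_mem_O1 j) (dd_mem_O1 _)]
        abel
      | k i => exact monomial_anti _ _ (kk_mem_O1 j) (kk_mem_O1 i)

/-- A grading. -/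
noncomputable def grad (σ : E →ₗ[K] E) (a b : ℕ) (c : ι → ℕ) : Om K E ι →ₐ[K] (Om K E ι)[X] :=
  lift _ (gradGen_compat σ a b c)

section
variable (σ : E →ₗ[K] E) (a b : ℕ) (c : ι → ℕ)

theorem grad_xx (e : E) : grad σ a b c (xx (K := K) ι e)
    = monomial a (xx (K := K) ι (σ e)) + monomial 0 (xx (K := K) ι (e - σ e)) :=
  lift_gen _ _ (.x e)
theorem grad_dd (e : E) : grad σ a b c (dd (K := K) ι e)
    = monomial b (dd (K := K) ι (σ e)) + monomial 0 (dd (K := K) ι (e - σ e)) :=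
  lift_gen _ _ (.d e)
theorem grad_kk (i : ι) : grad σ a b c (kk K E i) = monomial (c i) (kk K E i) :=
  lift_gen _ _ (.k i)

theorem xx_Hom_left {e : E} (he : σ e = e) : xx (K := K) ι e ∈ Hom (grad σ a b c) a := by
  simp [mem_Hom, grad_xx, he]
theorem dd_Hom_left {e : E} (he : σ e = e) : dd (K := K) ι e ∈ Hom (grad σ a b c) b := by
  simp [mem_Hom, grad_dd, he]
theorem xx_Hom_right {e : E} (he : σ e = 0) : xx (K := K) ι e ∈ Hom (grad σ a b c) 0 := by
  simp [mem_Hom, grad_xx, he]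
theorem dd_Hom_right {e : E} (he : σ e = 0) : dd (K := K) ι e ∈ Hom (grad σ a b c) 0 := by
  simp [mem_Hom, grad_dd, he]
theorem kk_Hom (i : ι) : kk K E i ∈ Hom (grad σ a b c) (c i) := by
  simp [mem_Hom, grad_kk]
end

/-- The weights of the main grading. -/
def wT (p : ℕ) : Gen E ι → ℕ
  | .x _ => 2
  | .d _ => p + 2
  | .k _ => p

/-- The main grading. -/
noncomputable def tau (K E ι : Type) [Field K] [AddCommGroup E] [Module K E] (p : ℕ) :
    Om K E ι →ₐ[K] (Om K E ι)[X] := grad LinearMap.id 2 (p + 2) (fun _ => p)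

theorem xx_tau (p : ℕ) (e : E) : xx (K := K) ι e ∈ Hom (tau K E ι p) 2 := xx_Hom_left _ _ _ _ rfl
theorem dd_tau (p : ℕ) (e : E) : dd (K := K) ι e ∈ Hom (tau K E ι p) (p + 2) :=
  dd_Hom_left _ _ _ _ rfl
theorem kk_tau (p : ℕ) (i : ι) : kk K E i ∈ Hom (tau K E ι p) p := kk_Hom _ _ _ (fun _ => p) i

theorem gen_tau (p : ℕ) (g : Gen E ι) : gen K g ∈ Hom (tau K E ι p) (wT p g) := by
  cases g with
  | x e => exact xx_tau p e
  | d e => exact dd_tau p e
  | k i => exact kk_tau p i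

theorem pr_tau (p : ℕ) (l : List (Gen E ι)) : pr K l ∈ Hom (tau K E ι p) (wt (wT p) l) :=
  pr_Hom l fun g _ => gen_tau p g

theorem cp_tau_Sp (p k : ℕ) {Q : List (Gen E ι) → Prop} {a : Om K E ι} (ha : a ∈ Sp K Q) :
    cp (tau K E ι p) k a ∈ Sp K Q :=
  Sp_mono (fun _ hl => hl.1) (cp_Sp (w := wT p) (fun _ _ g _ => gen_tau p g) k ha)

theorem cp_tau_Hom (p k : ℕ) (a : Om K E ι) : cp (tau K E ι p) k a ∈ Hom (tau K E ι p) k :=
  Sp_le_Hom (w := wT p) (fun _ hl => ⟨fun g _ => gen_tau p g, hl.2⟩)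
    (cp_Sp (w := wT p) (fun _ _ g _ => gen_tau p g) k (mem_Sp_true a))

theorem par_Hom_gen {G : Om K E ι →ₐ[K] (Om K E ι)[X]} {g : Gen E ι} {k : ℕ}
    (h : gen K g ∈ Hom G k) : par (gen K g) ∈ Hom G k := by
  rcases par_gen (K := K) g with h' | h' <;> rw [h']
  exacts [h, Submodule.neg_mem _ h]

theorem DD_pr_tau (p : ℕ) (u : ι → E) (l : List (Gen E ι)) :
    DD p u (pr K l) ∈ Hom (tau K E ι p) (wt (wT p) l + p) := by
  refine der_pr_Hom (DD_isOdd p u).der p l fun g _ =>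
    ⟨gen_tau p g, par_Hom_gen (gen_tau p g), ?_⟩
  cases g with
  | x e => simpa [wT, add_comm] using dd_tau (K := K) (ι := ι) p e
  | d e => simp
  | k i => simpa [wT, mul_two] using Hom_pow (xx_tau (K := K) (ι := ι) p (u i)) p

theorem cp_tau_DD (p : ℕ) (u : ι → E) (k : ℕ) (a : Om K E ι) :
    cp (tau K E ι p) (k + p) (DD p u a) = DD p u (cp (tau K E ι p) k a) :=
  cp_lin (w := wT p) _ p (fun l _ => ⟨pr_tau p l, DD_pr_tau p u l⟩) k (mem_Sp_true a)

theorem cp_tau_DD_lt (p : ℕ) (u : ι → E) {k : ℕ} (hk : k < p) (a : Om K E ι) :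
    cp (tau K E ι p) k (DD p u a) = 0 :=
  cp_lin_lt (w := wT p) _ p (fun l _ => DD_pr_tau p u l) hk (mem_Sp_true a)

theorem DD_tau (p : ℕ) (u : ι → E) {k : ℕ} {a : Om K E ι} (ha : a ∈ Hom (tau K E ι p) k) :
    DD p u a ∈ Hom (tau K E ι p) (k + p) := by
  rw [← cp_self ha, ← cp_tau_DD]; exact cp_tau_Hom _ _ _

theorem cp_tau_alg (p : ℕ) (φ : Om K E ι →ₐ[K] Om K E ι)
    (h : ∀ g, φ (gen K g) ∈ Hom (tau K E ι p) (wT p g)) (k : ℕ) (a : Om K E ι) :
    cp (tau K E ι p) k (φ a) = φ (cp (tau K E ι p) k a) :=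
  cp_lin (w := wT p) φ.toLinearMap 0
    (fun l _ => ⟨pr_tau p l, map_pr_Hom φ l fun g _ => h g⟩) k (mem_Sp_true a)

theorem alg_tau (p : ℕ) (φ : Om K E ι →ₐ[K] Om K E ι)
    (h : ∀ g, φ (gen K g) ∈ Hom (tau K E ι p) (wT p g)) {k : ℕ} {a : Om K E ι}
    (ha : a ∈ Hom (tau K E ι p) k) : φ a ∈ Hom (tau K E ι p) k := by
  rw [← cp_self ha, ← cp_tau_alg p φ h]; exact cp_tau_Hom _ _ _

theorem par_tau (p : ℕ) {k : ℕ} {a : Om K E ι}
    (ha : a ∈ Hom (tau K E ι p) k) : par a ∈ Hom (tau K E ι p) k :=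
  alg_tau p par (fun g => par_Hom_gen (gen_tau p g)) ha

/-- Making a primitive homogeneous. -/
theorem exists_cp_DD (p : ℕ) (u : ι → E) (U : Submodule K (Om K E ι))
    (hU : ∀ k, ∀ a ∈ U, cp (tau K E ι p) k a ∈ U) (t : ℕ) {a : Om K E ι} (ha : a ∈ U) :
    ∃ b ∈ U, cp (tau K E ι p) t (DD p u a) = DD p u b ∧
      (b = 0 ∨ ∃ k, k + p = t ∧ b ∈ Hom (tau K E ι p) k) := by
  by_cases h : t < p
  · exact ⟨0, U.zero_mem, by rw [cp_tau_DD_lt p u h, map_zero], Or.inl rfl⟩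
  · obtain ⟨k, rfl⟩ : ∃ k, t = k + p := ⟨t - p, by omega⟩
    exact ⟨_, hU k a ha, cp_tau_DD p u k a, Or.inr ⟨k, rfl, cp_tau_Hom _ _ _⟩⟩

end Pool.Agent.AJT
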