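import Mathlib

/-! Linear algebra in a tensor square. -/

set_option autoImplicit false

namespace Pool.Agent.AJT

open TensorProduct

variable {K V : Type} [Field K] [AddCommGroup V] [Module K V]

theorem exists_proj (U : Submodule K V) :
    ∃ P : V →ₗ[K] V, (∀ v, P v ∈ U) ∧ ∀ v ∈ U, P v = v := by
  obtain ⟨g, hg⟩ := LinearMap.exists_extend (LinearMap.id : U →ₗ[K] U)
  refine ⟨U.subtype.comp g, fun v => (g v).2, fun v hv => ?_⟩
  have := congr($hg ⟨v, hv⟩)
  simp only [LinearMap.comp_apply, Submodule.subtype_apply, LinearMap.id_apply] at this ⊢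
  rw [this]

theorem exists_functional {S : Submodule K V} {y : V} (hy : y ∉ S) :
    ∃ f : V →ₗ[K] K, f y = 1 ∧ ∀ e ∈ S, f e = 0 := by
  obtain ⟨g, hg, hg'⟩ := LinearMap.exists_extend_of_notMem (0 : S →ₗ[K] K) hy 1
  exact ⟨g, hg', fun e he => congr($hg ⟨e, he⟩)⟩

/-- Span of pure tensors. -/
def TS (U W : Submodule K V) : Submodule K (V ⊗[K] V) :=
  Submodule.span K {t | ∃ u ∈ U, ∃ w ∈ W, u ⊗ₜ[K] w = t}

theorem tmul_mem_TS {U W : Submodule K V} {u w : V} (hu : u ∈ U) (hw : w ∈ W) :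
    u ⊗ₜ[K] w ∈ TS U W := Submodule.subset_span ⟨u, hu, w, hw, rfl⟩

theorem TS_map {V' : Type} [AddCommGroup V'] [Module K V'] {U W : Submodule K V}
    (Φ : V ⊗[K] V →ₗ[K] V') {N : Submodule K V'} (h : ∀ u ∈ U, ∀ w ∈ W, Φ (u ⊗ₜ[K] w) ∈ N)
    {t : V ⊗[K] V} (ht : t ∈ TS U W) : Φ t ∈ N := by
  refine (Submodule.span_le (p := N.comap Φ)).2 ?_ ht
  rintro _ ⟨u, hu, w, hw, rfl⟩
  exact h u hu w hw

theorem TS_ext {V' : Type} [AddCommGroup V'] [Module K V'] {U W : Submodule K V}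
    (Φ Ψ : V ⊗[K] V →ₗ[K] V') (h : ∀ u ∈ U, ∀ w ∈ W, Φ (u ⊗ₜ[K] w) = Ψ (u ⊗ₜ[K] w))
    {t : V ⊗[K] V} (ht : t ∈ TS U W) : Φ t = Ψ t := by
  have := TS_map (Φ - Ψ) (N := ⊥) (fun u hu w hw => by simp [h u hu w hw]) ht
  simpa [sub_eq_zero] using this

theorem TS_mono {U W U' W' : Submodule K V} (hU : U ≤ U') (hW : W ≤ W') : TS U W ≤ TS U' W' :=
  fun _ ht => TS_map LinearMap.id (fun _ hu _ hw => tmul_mem_TS (hU hu) (hW hw)) ht

/-- Left slice. -/
noncomputable def lsl (f : V →ₗ[K] K) : V ⊗[K] V →ₗ[K] V :=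
  (TensorProduct.lid K V).toLinearMap.comp (f.rTensor V)

/-- Right slice. -/
noncomputable def rsl (f : V →ₗ[K] K) : V ⊗[K] V →ₗ[K] V :=
  (TensorProduct.rid K V).toLinearMap.comp (f.lTensor V)

@[simp] theorem lsl_tmul (f : V →ₗ[K] K) (a b : V) : lsl f (a ⊗ₜ[K] b) = f a • b := by simp [lsl]
@[simp] theorem rsl_tmul (f : V →ₗ[K] K) (a b : V) : rsl f (a ⊗ₜ[K] b) = f b • a := by simp [rsl]

theorem lsl_map (f : V →ₗ[K] K) (g : V →ₗ[K] V) (t : V ⊗[K] V) :
    lsl f (TensorProduct.map LinearMap.id g t) = g (lsl f t) := by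
  induction t with
  | zero => simp
  | tmul a b => simp
  | add a b ha hb => simp [ha, hb]

theorem rsl_map (f : V →ₗ[K] K) (g : V →ₗ[K] V) (t : V ⊗[K] V) :
    rsl f (TensorProduct.map g LinearMap.id t) = g (rsl f t) := by
  induction t with
  | zero => simp
  | tmul a b => simp
  | add a b ha hb => simp [ha, hb]

theorem exists_left_expand (t : V ⊗[K] V) :
    ∃ (F : Finset V) (f : V → V →ₗ[K] K), t = ∑ i ∈ F, i ⊗ₜ[K] lsl (f i) t := by
  classical
  let b := Module.Basis.ofVectorSpace K V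
  let e := TensorProduct.equivFinsuppOfBasisLeft (N := V) b
  refine ⟨(e t).support.map (Function.Embedding.subtype _),
    fun i => if h : i ∈ Module.Basis.ofVectorSpaceIndex K V then b.coord ⟨i, h⟩ else 0, ?_⟩
  rw [Finset.sum_map]
  conv_lhs => rw [← e.symm_apply_apply t]
  rw [TensorProduct.equivFinsuppOfBasisLeft_symm_apply, Finsupp.sum]
  refine Finset.sum_congr rfl fun i _ => ?_
  simp only [Function.Embedding.coe_subtype, i.2, dif_pos]
  rw [TensorProduct.equivFinsuppOfBasisLeft_apply]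
  simp [b, lsl]

theorem eq_zero_of_lsl {t : V ⊗[K] V} (h : ∀ f, lsl f t = 0) : t = 0 := by
  obtain ⟨F, f, hf⟩ := exists_left_expand t
  rw [hf]; simp [h]

theorem eq_zero_of_rsl {t : V ⊗[K] V} (h : ∀ f, rsl f t = 0) : t = 0 := by
  have h1 : ∀ f s, lsl f (TensorProduct.comm K V V s) = rsl f s := by
    intro f s
    induction s with
    | zero => simp
    | tmul a b => simp
    | add a b ha hb => simp [ha, hb]
  have := eq_zero_of_lsl (t := TensorProduct.comm K V V t) (fun f => by rw [h1, h])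
  simpa using this

theorem map_proj_left {U : Submodule K V} {P : V →ₗ[K] V} (hP : ∀ v ∈ U, P v = v)
    {t : V ⊗[K] V} (h : ∀ f, rsl f t ∈ U) : TensorProduct.map P LinearMap.id t = t := by
  rw [← sub_eq_zero]
  refine eq_zero_of_rsl fun f => ?_
  rw [map_sub, rsl_map, hP _ (h f), sub_self]

theorem mem_TS_of_slices {U W : Submodule K V} {t : V ⊗[K] V} (hU : ∀ f, rsl f t ∈ U)
    (hW : ∀ f, lsl f t ∈ W) : t ∈ TS U W := by
  obtain ⟨P, hP, hP'⟩ := exists_proj U
  obtain ⟨F, f, hf⟩ := exists_left_expand t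
  rw [← map_proj_left hP' hU, hf, map_sum]
  exact Submodule.sum_mem _ fun i _ => tmul_mem_TS (hP i) (hW _)

theorem rsl_mem {U W : Submodule K V} {t : V ⊗[K] V} (ht : t ∈ TS U W) (f : V →ₗ[K] K) :
    rsl f t ∈ U := TS_map _ (fun _ hu _ _ => by simpa using U.smul_mem _ hu) ht

theorem lsl_mem {U W : Submodule K V} {t : V ⊗[K] V} (ht : t ∈ TS U W) (f : V →ₗ[K] K) :
    lsl f t ∈ W := TS_map _ (fun _ _ _ hw => by simpa using W.smul_mem _ hw) ht

theorem TS_exact {U W W0 : Submodule K V} (D : V →ₗ[K] V)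
    (hex : ∀ w ∈ W, D w = 0 → ∃ w0 ∈ W0, D w0 = w) {t : V ⊗[K] V} (ht : t ∈ TS U W)
    (h0 : TensorProduct.map LinearMap.id D t = 0) :
    ∃ s ∈ TS U W0, TensorProduct.map LinearMap.id D s = t := by
  obtain ⟨P, hP, hP'⟩ := exists_proj U
  obtain ⟨F, f, hf⟩ := exists_left_expand t
  have h1 : ∀ i, ∃ w0 ∈ W0, D w0 = lsl (f i) t := fun i =>
    hex _ (lsl_mem ht _) (by rw [← lsl_map, h0, map_zero])
  choose w0 hw0 hw0' using h1
  refine ⟨∑ i ∈ F, P i ⊗ₜ[K] w0 i, Submodule.sum_mem _ fun i _ => tmul_mem_TS (hP i) (hw0 i), ?_⟩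
  conv_rhs => rw [← map_proj_left hP' (rsl_mem ht), hf]
  simp [map_sum, hw0']

/-- The differential on the tensor square. -/
noncomputable def tdiff (D ε : V →ₗ[K] V) : V ⊗[K] V →ₗ[K] V ⊗[K] V :=
  TensorProduct.map D LinearMap.id + TensorProduct.map ε D

theorem tdiff_tmul (D ε : V →ₗ[K] V) (a b : V) :
    tdiff D ε (a ⊗ₜ[K] b) = D a ⊗ₜ[K] b + ε a ⊗ₜ[K] D b := by simp [tdiff]

theorem tdiff_tdiff (D ε : V →ₗ[K] V) (hDD : ∀ v, D (D v) = 0) (hε : ∀ v, D (ε v) = -ε (D v))
    (t : V ⊗[K] V) : tdiff D ε (tdiff D ε t) = 0 := by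
  induction t with
  | zero => simp
  | tmul a b => simp [tdiff_tmul, hDD, hε, neg_tmul]
  | add a b ha hb => simp [ha, hb]

/-- Graded part of the tensor product with a lower bound on the left degree. -/
def TG (Y W : ℕ → Submodule K V) (t0 j : ℕ) : Submodule K (V ⊗[K] V) :=
  Submodule.span K {t | ∃ i k, j ≤ i ∧ i + k = t0 ∧ ∃ u ∈ Y i, ∃ w ∈ W k, u ⊗ₜ[K] w = t}

theorem TG_map {V' : Type} [AddCommGroup V'] [Module K V'] {Y W : ℕ → Submodule K V} {t0 j : ℕ}
    (Φ : V ⊗[K] V →ₗ[K] V') {N : Submodule K V'}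
    (h : ∀ i k, j ≤ i → i + k = t0 → ∀ u ∈ Y i, ∀ w ∈ W k, Φ (u ⊗ₜ[K] w) ∈ N)
    {t : V ⊗[K] V} (ht : t ∈ TG Y W t0 j) : Φ t ∈ N := by
  refine (Submodule.span_le (p := N.comap Φ)).2 ?_ ht
  rintro _ ⟨i, k, h1, h2, u, hu, w, hw, rfl⟩
  exact h i k h1 h2 u hu w hw

theorem tmul_mem_TG {Y W : ℕ → Submodule K V} {t0 j i k : ℕ} (h1 : j ≤ i) (h2 : i + k = t0)
    {u w : V} (hu : u ∈ Y i) (hw : w ∈ W k) : u ⊗ₜ[K] w ∈ TG Y W t0 j :=
  Submodule.subset_span ⟨i, k, h1, h2, u, hu, w, hw, rfl⟩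

theorem tensor_step (D ε : V →ₗ[K] V) (hDD : ∀ v, D (D v) = 0) (hε : ∀ v, D (ε v) = -ε (D v))
    (hεε : ∀ v, ε (ε v) = v) (Y W : ℕ → Submodule K V) (Ya Wa : Submodule K V)
    (hYa : ∀ i, Y i ≤ Ya) (hWa : ∀ i, W i ≤ Wa) (π : ℕ → V →ₗ[K] V)
    (hπ : ∀ i j, ∀ y ∈ Y i, π j y = if i = j then y else 0) (p : ℕ) (hp : 0 < p)
    (hDY : ∀ i, ∀ y ∈ Y i, D y ∈ Y (i + p)) (hεY : ∀ i, ∀ y ∈ Y i, ε y ∈ Y i)
    (B : ℕ) (hB : ∀ i, B < i → ∀ y ∈ Y i, y = 0) (t0 : ℕ)
    (hex : ∀ k, t0 ≤ k + B → ∀ w ∈ W k, D w = 0 →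
      w = 0 ∨ ∃ k0, k0 + p = k ∧ ∃ w0 ∈ W k0, D w0 = w)
    {t : V ⊗[K] V} (ht : t ∈ TG Y W t0 0) (h0 : tdiff D ε t = 0) :
    ∃ s ∈ TS Ya Wa, tdiff D ε s = t := by
  have key : ∀ n j, B + 1 ≤ j + n → ∀ t ∈ TG Y W t0 j, tdiff D ε t = 0 →
      ∃ s ∈ TS Ya Wa, tdiff D ε s = t := by
    intro n
    induction n with
    | zero =>
      intro j hj t ht _
      have : t = 0 := by
        have := TG_map LinearMap.id (N := ⊥) (fun i k h1 _ u hu w _ => by
          simp [hB i (by omega) u hu]) ht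
        simpa using this
      exact ⟨0, Submodule.zero_mem _, by simp [this]⟩
    | succ n ih =>
      intro j hj t ht h0
      by_cases hjB : B + 1 ≤ j + n
      · exact ih j hjB t ht h0
      let W0 : Submodule K V := if p ≤ t0 - j then W (t0 - j - p) else ⊥
      let Pj := TensorProduct.map (π j) (LinearMap.id : V →ₗ[K] V)
      have h1 : Pj t ∈ TS (Y j) (W (t0 - j)) := by
        refine TG_map Pj (fun i k h1 h2 u hu w hw => ?_) ht
        simp only [Pj, TensorProduct.map_tmul, hπ i j u hu, LinearMap.id_apply]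
        split_ifs with h
        · subst h
          exact tmul_mem_TS hu (by rwa [show t0 - i = k by omega])
        · simp
      have h2 : t - Pj t ∈ TG Y W t0 (j + 1) := by
        refine TG_map (LinearMap.id - Pj) (fun i k h1 h2 u hu w hw => ?_) ht
        simp only [Pj, LinearMap.sub_apply, TensorProduct.map_tmul, hπ i j u hu,
          LinearMap.id_apply]
        split_ifs with h
        · simp
        · simpa using tmul_mem_TG (by omega) h2 hu hw
      have h3 : TensorProduct.map LinearMap.id D (Pj t) = 0 := by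
        have := TG_map ((TensorProduct.map LinearMap.id D).comp Pj
          - (TensorProduct.map ε LinearMap.id).comp (Pj.comp (tdiff D ε))) (N := ⊥)
          (fun i k h1 h2 u hu w hw => by
            simp only [Pj, LinearMap.sub_apply, LinearMap.comp_apply, tdiff_tmul, map_add,
              TensorProduct.map_tmul, hπ i j u hu, hπ _ j _ (hDY i u hu), hπ _ j _ (hεY i u hu),
              LinearMap.id_apply]
            rw [if_neg (by omega : ¬ i + p = j)]
            split_ifs with h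
            · simp [hεε]
            · simp) ht
        simpa [h0] using this
      obtain ⟨s0, hs0, hs0'⟩ := TS_exact (W0 := W0) D (fun w hw hDw => by
        rcases hex (t0 - j) (by omega) w hw hDw with h | ⟨k0, hk0, w0, hw0, h⟩
        · exact ⟨0, W0.zero_mem, by simp [h]⟩
        · refine ⟨w0, ?_, h⟩
          simp only [W0]
          rw [if_pos (by omega), show t0 - j - p = k0 by omega]
          exact hw0) h1 h3
      let s := TensorProduct.map ε (LinearMap.id : V →ₗ[K] V) s0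
      have hs : s ∈ TS (Y j) W0 :=
        TS_map _ (fun u hu w hw => by simpa using tmul_mem_TS (hεY j u hu) hw) hs0
      have h4 : tdiff D ε s = TensorProduct.map D LinearMap.id s + Pj t := by
        rw [← hs0']
        simp only [tdiff, LinearMap.add_apply, add_right_inj, s]
        generalize s0 = r
        induction r with
        | zero => simp
        | tmul a b => simp [hεε]
        | add a b ha hb => simp [ha, hb]
      have h5 : TensorProduct.map D LinearMap.id s ∈ TG Y W t0 (j + 1) := by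
        refine TS_map _ (fun u hu w hw => ?_) hs
        simp only [TensorProduct.map_tmul, LinearMap.id_apply]
        simp only [W0] at hw
        split_ifs at hw with h
        · exact tmul_mem_TG (i := j + p) (by omega) (by omega) (hDY j u hu) hw
        · simp [(Submodule.mem_bot K).1 hw]
      have h6 : t - tdiff D ε s ∈ TG Y W t0 (j + 1) := by
        rw [h4, show t - (TensorProduct.map D LinearMap.id s + Pj t)
          = (t - Pj t) - TensorProduct.map D LinearMap.id s by abel]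
        exact Submodule.sub_mem _ h2 h5
      obtain ⟨s', hs', hs''⟩ := ih (j + 1) (by omega) _ h6
        (by rw [map_sub, h0, tdiff_tdiff D ε hDD hε, sub_zero])
      refine ⟨s + s', Submodule.add_mem _ (TS_mono (hYa j) ?_ hs) hs', by rw [map_add, hs'']; abel⟩
      simp only [W0]
      split_ifs
      · exact hWa _
      · exact bot_le
  exact key (B + 1) 0 (by omega) t ht h0

end Pool.Agent.AJT
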