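import Pool.Agent.MP_79429d_co.J3
import Pool.Agent.MP_79429d_co.J4

/-! The splitting map into the tensor square. -/

set_option autoImplicit false

namespace Pool.Agent.AJT

open TensorProduct

variable {K E ι : Type} [Field K] [AddCommGroup E] [Module K E]

open Classical in
/-- Left part of a generator. -/
noncomputable def gL (σ : E →ₗ[K] E) (XL : Set ι) : Gen E ι → Om K E ι
  | .x e => xx (K := K) ι (σ e)
  | .d e => dd (K := K) ι (σ e)
  | .k i => if i ∈ XL then kk K E i else 0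

open Classical in
/-- Right part of a generator. -/
noncomputable def gR (σ : E →ₗ[K] E) (XL : Set ι) : Gen E ι → Om K E ι
  | .x e => xx (K := K) ι (e - σ e)
  | .d e => dd (K := K) ι (e - σ e)
  | .k i => if i ∈ XL then 0 else kk K E i

/-- Sign twist of a generator. -/
noncomputable def gE (K : Type) [Field K] [Module K E] : Gen E ι → (Om K E ι →ₐ[K] Om K E ι)
  | .x _ => AlgHom.id K _
  | .d _ => par
  | .k _ => par

theorem gL_add_gR (σ : E →ₗ[K] E) (XL : Set ι) (g : Gen E ι) :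
    gL σ XL g + gR σ XL g = gen K g := by
  cases g with
  | x e => simp [gL, gR]
  | d e => simp [gL, gR]
  | k i => simp only [gL, gR]; split_ifs <;> simp

theorem gL_odd (σ : E →ₗ[K] E) (XL : Set ι) {g : Gen E ι} (hg : g.odd) :
    gL σ XL g ∈ O1 K E ι := by
  cases g with
  | x e => exact hg.elim
  | d e => exact dd_mem_O1 _
  | k i => simp only [gL]; split_ifs; exacts [kk_mem_O1 i, Submodule.zero_mem _]

theorem gR_odd (σ : E →ₗ[K] E) (XL : Set ι) {g : Gen E ι} (hg : g.odd) :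
    gR σ XL g ∈ O1 K E ι := by
  cases g with
  | x e => exact hg.elim
  | d e => exact dd_mem_O1 _
  | k i => simp only [gR]; split_ifs; exacts [Submodule.zero_mem _, kk_mem_O1 i]

theorem gE_odd {g : Gen E ι} (hg : g.odd) : gE K g = par := by
  cases g with
  | x e => exact hg.elim
  | d e => rfl
  | k i => rfl

theorem gE_xx (g : Gen E ι) (e : E) : gE K g (xx (K := K) ι e) = xx (K := K) ι e := by
  cases g <;> simp [gE]

theorem gE_mul_gR (σ : E →ₗ[K] E) (XL : Set ι) (g : Gen E ι) (a : Om K E ι) :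
    gE K g a * gR σ XL g = gR σ XL g * a := by
  cases g with
  | x e => exact (xx_comm _ a).symm
  | d e => exact (O1_mul (gR_odd σ XL (g := .d e) trivial) a).symm
  | k i => exact (O1_mul (gR_odd σ XL (g := .k i) trivial) a).symm

/-- Action of a generator on the tensor square. -/
noncomputable def gA (σ : E →ₗ[K] E) (XL : Set ι) (g : Gen E ι) :
    Module.End K (Om K E ι ⊗[K] Om K E ι) :=
  TensorProduct.map (LinearMap.mulLeft K (gL σ XL g)) LinearMap.id
    + TensorProduct.map (gE K g).toLinearMap (LinearMap.mulLeft K (gR σ XL g))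

theorem gA_tmul (σ : E →ₗ[K] E) (XL : Set ι) (g : Gen E ι) (a b : Om K E ι) :
    gA σ XL g (a ⊗ₜ[K] b) = (gL σ XL g * a) ⊗ₜ[K] b + gE K g a ⊗ₜ[K] (gR σ XL g * b) := by
  simp [gA]

theorem gA_compat (σ : E →ₗ[K] E) (XL : Set ι) : Compat K (gA σ XL) where
  xadd e e' := by
    refine TensorProduct.ext' fun a b => ?_
    simp only [LinearMap.add_apply, gA_tmul, gL, gR, gE, map_add, map_sub, add_mul, sub_mul,
      add_tmul, tmul_add, tmul_sub]
    abel
  xsmul r e := by
    refine TensorProduct.ext' fun a b => ?_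
    simp only [LinearMap.smul_apply, gA_tmul, gL, gR, gE, map_smul, ← smul_sub, smul_mul_assoc,
      smul_add, ← smul_tmul', tmul_smul]
  dadd e e' := by
    refine TensorProduct.ext' fun a b => ?_
    simp only [LinearMap.add_apply, gA_tmul, gL, gR, gE, map_add, map_sub, add_mul, sub_mul,
      add_tmul, tmul_add, tmul_sub]
    abel
  dsmul r e := by
    refine TensorProduct.ext' fun a b => ?_
    simp only [LinearMap.smul_apply, gA_tmul, gL, gR, gE, map_smul, ← smul_sub, smul_mul_assoc,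
      smul_add, ← smul_tmul', tmul_smul]
  comm e g := by
    refine TensorProduct.ext' fun a b => ?_
    have h1 : gL σ XL (.x e) = xx (K := K) ι (σ e) := rfl
    have h2 : gR σ XL (.x e) = xx (K := K) ι (e - σ e) := rfl
    have h3 : ∀ c, gE K (.x e : Gen E ι) c = c := fun c => rfl
    simp only [Module.End.mul_apply, gA_tmul, map_add, h1, h2, h3, map_mul, gE_xx]
    rw [← mul_assoc, ← mul_assoc, ← mul_assoc, ← mul_assoc, xx_comm (σ e) (gL σ XL g),
      xx_comm (e - σ e) (gR σ XL g)]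
    abel
  anti g g' hg hg' := by
    refine TensorProduct.ext' fun a b => ?_
    simp only [Module.End.mul_apply, LinearMap.neg_apply, gA_tmul, map_add, gE_odd hg, gE_odd hg',
      map_mul, par_par, par_O1 (gL_odd σ XL hg), par_O1 (gL_odd σ XL hg'), ← mul_assoc,
      O1_anti (gL_odd σ XL hg) (gL_odd σ XL hg'), O1_anti (gR_odd σ XL hg) (gR_odd σ XL hg'),
      neg_mul, neg_tmul, tmul_neg]
    abel

/-- The splitting map. -/
noncomputable def nu (σ : E →ₗ[K] E) (XL : Set ι) : Om K E ι →ₗ[K] Om K E ι ⊗[K] Om K E ι :=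
  (LinearMap.applyₗ ((1 : Om K E ι) ⊗ₜ[K] (1 : Om K E ι))).comp
    (lift _ (gA_compat σ XL)).toLinearMap

theorem nu_one (σ : E →ₗ[K] E) (XL : Set ι) : nu σ XL 1 = (1 : Om K E ι) ⊗ₜ[K] 1 := by
  simp [nu]

theorem nu_gen_mul (σ : E →ₗ[K] E) (XL : Set ι) (g : Gen E ι) (a : Om K E ι) :
    nu σ XL (gen K g * a) = gA σ XL g (nu σ XL a) := by
  simp [nu]

/-- Multiplication. -/
noncomputable def mu : Om K E ι ⊗[K] Om K E ι →ₗ[K] Om K E ι := LinearMap.mul' K (Om K E ι)

@[simp] theorem mu_tmul (a b : Om K E ι) : mu (a ⊗ₜ[K] b) = a * b := by simp [mu]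

theorem mu_gA (σ : E →ₗ[K] E) (XL : Set ι) (g : Gen E ι) (t : Om K E ι ⊗[K] Om K E ι) :
    mu (gA σ XL g t) = gen K g * mu t := by
  induction t with
  | zero => simp
  | tmul a b =>
    rw [gA_tmul, map_add, mu_tmul, mu_tmul, mu_tmul, ← mul_assoc, gE_mul_gR, ← gL_add_gR σ XL g]
    noncomm_ring
  | add a b ha hb => simp [ha, hb, mul_add]

theorem mu_nu (σ : E →ₗ[K] E) (XL : Set ι) (a : Om K E ι) : mu (nu σ XL a) = a := by
  refine lin_ext (mu.comp (nu σ XL)) LinearMap.id (fun l => ?_) a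
  simp only [LinearMap.comp_apply, LinearMap.id_apply]
  induction l with
  | nil => simp [nu_one]
  | cons g l ih => rw [pr_cons, nu_gen_mul, mu_gA, ih]

theorem gL_of_gR {σ : E →ₗ[K] E} {XL : Set ι} {g : Gen E ι} (h : gR σ XL g = 0) :
    gL σ XL g = gen K g := by rw [← gL_add_gR σ XL g, h, add_zero]

theorem gR_of_gL {σ : E →ₗ[K] E} {XL : Set ι} {g : Gen E ι} (h : gL σ XL g = 0) :
    gR σ XL g = gen K g := by rw [← gL_add_gR σ XL g, h, zero_add]

theorem gE_pr (g : Gen E ι) (l : List (Gen E ι)) : ∃ r : K, gE K g (pr K l) = r • pr K l := by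
  have : ∃ r : K, par (pr K l) = r • pr K l := by
    rcases par_pr (K := K) l with h | h
    · exact ⟨1, by simp [h]⟩
    · exact ⟨-1, by simp [h]⟩
  cases g with
  | x e => exact ⟨1, by simp [gE]⟩
  | d e => exact this
  | k i => exact this

theorem nu_pr (σ : E →ₗ[K] E) (XL : Set ι) (q : Gen E ι → Bool) (l : List (Gen E ι))
    (h : ∀ g ∈ l, (q g = true → gR σ XL g = 0) ∧ (q g = false → gL σ XL g = 0)) :
    ∃ r : K, nu σ XL (pr K l) = r • (pr K (l.filter q) ⊗ₜ[K] pr K (l.filter fun g => !q g)) := by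
  induction l with
  | nil => exact ⟨1, by simp [nu_one]⟩
  | cons g l ih =>
    obtain ⟨r, hr⟩ := ih fun g' hg' => h g' (by simp [hg'])
    have hg := h g (by simp)
    rw [pr_cons, nu_gen_mul, hr, map_smul, gA_tmul]
    cases hq : q g
    · obtain ⟨r', hr'⟩ := gE_pr (K := K) g (l.filter q)
      refine ⟨r * r', ?_⟩
      simp [hq, hg.2 hq, gR_of_gL (hg.2 hq), hr', mul_smul, smul_tmul']
    · exact ⟨r, by simp [hq, hg.1 hq, gL_of_gR (hg.1 hq)]⟩

theorem nu_mul (σ : E →ₗ[K] E) (XL : Set ι) {AL AR : Set (Gen E ι)}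
    (hL : ∀ g ∈ AL, gR σ XL g = 0) (hR : ∀ g ∈ AR, gL σ XL g = 0) {w w' : Gen E ι → ℕ}
    {k k' : ℕ} {a b : Om K E ι} (ha : a ∈ Fil K AL w k) (hb : b ∈ Fil K AR w' k') :
    nu σ XL (a * b) = a ⊗ₜ[K] b := by
  have h1 : nu σ XL b = 1 ⊗ₜ[K] b := by
    refine Sp_ext (nu σ XL) (TensorProduct.mk K _ _ 1) (fun l hl => ?_) hb
    have hl' := hl.1
    clear hl
    induction l with
    | nil => simp [nu_one]
    | cons g l ih =>
      have hg := hR g (hl' g (by simp))
      rw [pr_cons, nu_gen_mul, ih fun g' hg' => hl' g' (by simp [hg'])]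
      simp [gA_tmul, hg, gR_of_gL hg]
  refine Sp_ext ((nu σ XL).comp (LinearMap.mulRight K b)) ((TensorProduct.mk K _ _).flip b)
    (fun l hl => ?_) ha
  have hl' := hl.1
  clear hl
  simp only [LinearMap.comp_apply, LinearMap.mulRight_apply, LinearMap.flip_apply, mk_apply]
  induction l with
  | nil => simpa using h1
  | cons g l ih =>
    have hg := hL g (hl' g (by simp))
    rw [pr_cons, mul_assoc, nu_gen_mul, ih fun g' hg' => hl' g' (by simp [hg'])]
    simp [gA_tmul, hg, gL_of_gR hg]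

theorem eq_zero_of_mu (σ : E →ₗ[K] E) (XL : Set ι) {AL AR : Set (Gen E ι)}
    (hL : ∀ g ∈ AL, gR σ XL g = 0) (hR : ∀ g ∈ AR, gL σ XL g = 0) {w w' : Gen E ι → ℕ}
    {k k' : ℕ} {t : Om K E ι ⊗[K] Om K E ι} (ht : t ∈ TS (Fil K AL w k) (Fil K AR w' k'))
    (h : mu t = 0) : t = 0 := by
  have := TS_ext ((nu σ XL).comp mu) LinearMap.id
    (fun a ha b hb => by simpa using nu_mul σ XL hL hR ha hb) ht
  simpa [h] using this.symm

theorem mu_tdiff {δ : Om K E ι →ₗ[K] Om K E ι} (hδ : IsOdd δ) (t : Om K E ι ⊗[K] Om K E ι) :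
    mu (tdiff δ par.toLinearMap t) = δ (mu t) := by
  induction t with
  | zero => simp
  | tmul a b => simp [tdiff_tmul, hδ.der a b]
  | add a b ha hb => simp [ha, hb]

theorem rsl_nu_mem (σ : E →ₗ[K] E) (XL : Set ι) (q : Gen E ι → Bool) {Q : List (Gen E ι) → Prop}
    (h : ∀ l, Q l → ∀ g ∈ l, (q g = true → gR σ XL g = 0) ∧ (q g = false → gL σ XL g = 0))
    {U : Submodule K (Om K E ι)} (hU : ∀ l, Q l → pr K (l.filter q) ∈ U) {a : Om K E ι}
    (ha : a ∈ Sp K Q) (f : Om K E ι →ₗ[K] K) : rsl f (nu σ XL a) ∈ U := by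
  refine Sp_map ((rsl f).comp (nu σ XL)) (fun l hl => ?_) ha
  obtain ⟨r, hr⟩ := nu_pr σ XL q l (h l hl)
  simp only [LinearMap.comp_apply, hr, map_smul, rsl_tmul]
  exact U.smul_mem _ (U.smul_mem _ (hU l hl))

theorem lsl_nu_mem (σ : E →ₗ[K] E) (XL : Set ι) (q : Gen E ι → Bool) {Q : List (Gen E ι) → Prop}
    (h : ∀ l, Q l → ∀ g ∈ l, (q g = true → gR σ XL g = 0) ∧ (q g = false → gL σ XL g = 0))
    {U : Submodule K (Om K E ι)} (hU : ∀ l, Q l → pr K (l.filter fun g => !q g) ∈ U)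
    {a : Om K E ι} (ha : a ∈ Sp K Q) (f : Om K E ι →ₗ[K] K) : lsl f (nu σ XL a) ∈ U := by
  refine Sp_map ((lsl f).comp (nu σ XL)) (fun l hl => ?_) ha
  obtain ⟨r, hr⟩ := nu_pr σ XL q l (h l hl)
  simp only [LinearMap.comp_apply, hr, map_smul, lsl_tmul]
  exact U.smul_mem _ (U.smul_mem _ (hU l hl))

end Pool.Agent.AJT
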