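import Pool.Agent.MP_79429d_co.J5

/-! The complexes attached to weighted vector configurations, and the lifting lemma. -/

set_option autoImplicit false

namespace Pool.Agent.AJT

variable {K E ι : Type} [Field K] [AddCommGroup E] [Module K E]

/-- Allowed generators. -/
def gens (T : Submodule K E) (X : Set ι) : Set (Gen E ι) :=
  {g | match g with
    | .x e => e ∈ T
    | .d e => e ∈ T
    | .k i => i ∈ X}

@[simp] theorem x_mem_gens {T : Submodule K E} {X : Set ι} {e : E} :
    (.x e : Gen E ι) ∈ gens T X ↔ e ∈ T := Iff.rfl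
@[simp] theorem d_mem_gens {T : Submodule K E} {X : Set ι} {e : E} :
    (.d e : Gen E ι) ∈ gens T X ↔ e ∈ T := Iff.rfl
@[simp] theorem k_mem_gens {T : Submodule K E} {X : Set ι} {i : ι} :
    (.k i : Gen E ι) ∈ gens T X ↔ i ∈ X := Iff.rfl

theorem gens_mono {T T' : Submodule K E} {X X' : Set ι} (hT : T ≤ T') (hX : X ⊆ X') :
    gens T X ⊆ gens T' X' := by
  intro g hg
  cases g with
  | x e => exact hT hg
  | d e => exact hT hg
  | k i => exact hX hg

open Classical in
/-- Order of vanishing weights along a subspace. -/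
noncomputable def ws (S : Submodule K E) (v : ι → E) (c : ι → ℕ) : Gen E ι → ℕ
  | .x e => if e ∈ S then 1 else 0
  | .d e => if e ∈ S then 1 else 0
  | .k i => if v i ∈ S then c i else 0

open Classical in
theorem ws_x (S : Submodule K E) (v : ι → E) (c : ι → ℕ) (e : E) :
    ws S v c (.x e) = if e ∈ S then 1 else 0 := rfl
open Classical in
theorem ws_d (S : Submodule K E) (v : ι → E) (c : ι → ℕ) (e : E) :
    ws S v c (.d e) = if e ∈ S then 1 else 0 := rfl
open Classical in
theorem ws_k (S : Submodule K E) (v : ι → E) (c : ι → ℕ) (i : ι) :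
    ws S v c (.k i) = if v i ∈ S then c i else 0 := rfl

theorem xx_mem_Fil {T S : Submodule K E} {X : Set ι} {v : ι → E} {c : ι → ℕ} {e : E} (he : e ∈ T)
    {k : ℕ} (hk : k ≤ 1) (hS : k = 0 ∨ e ∈ S) :
    xx (K := K) ι e ∈ Fil K (gens T X) (ws S v c) k := by
  refine gen_mem_Fil (g := .x e) he ?_
  rw [ws_x]; split_ifs with h
  · exact hk
  · rcases hS with h' | h'
    · omega
    · exact (h h').elim

theorem dd_mem_Fil {T S : Submodule K E} {X : Set ι} {v : ι → E} {c : ι → ℕ} {e : E} (he : e ∈ T)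
    {k : ℕ} (hk : k ≤ 1) (hS : k = 0 ∨ e ∈ S) :
    dd (K := K) ι e ∈ Fil K (gens T X) (ws S v c) k := by
  refine gen_mem_Fil (g := .d e) he ?_
  rw [ws_d]; split_ifs with h
  · exact hk
  · rcases hS with h' | h'
    · omega
    · exact (h h').elim

open Classical in
/-- Total mass inside a subspace. -/
noncomputable def mass [Fintype ι] (S : Submodule K E) (v : ι → E) (c : ι → ℕ) : ℕ :=
  ∑ i, if v i ∈ S then c i else 0

/-- The complex attached to a weighted configuration. -/
noncomputable def KK [Fintype ι] (T : Submodule K E) (X : Set ι) (v : ι → E) (c : ι → ℕ) :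
    Submodule K (Om K E ι) :=
  ⨅ S : Submodule K E, ⨅ _ : S ≤ T, Fil K (gens T X) (ws S v c) (mass S v c)

variable [Fintype ι]

theorem mem_KK {T : Submodule K E} {X : Set ι} {v : ι → E} {c : ι → ℕ} {a : Om K E ι} :
    a ∈ KK T X v c ↔ ∀ S ≤ T, a ∈ Fil K (gens T X) (ws S v c) (mass S v c) := by
  simp [KK, Submodule.mem_iInf]

open Classical in
theorem mass_add_single [DecidableEq ι] (S : Submodule K E) (v : ι → E) (c : ι → ℕ) (y : ι)
    (n : ℕ) : mass S v (c + Pi.single y n) = mass S v c + if v y ∈ S then n else 0 := by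
  unfold mass
  have : ∀ i, (if v i ∈ S then (c + Pi.single y n : ι → ℕ) i else 0)
      = (if v i ∈ S then c i else 0) + if i = y then (if v y ∈ S then n else 0) else 0 := by
    intro i
    by_cases h : i = y
    · subst h; split_ifs <;> simp_all
    · simp [h]
  simp only [this, Finset.sum_add_distrib, Finset.sum_ite_eq', Finset.mem_univ, if_true]

theorem mass_le {S S' : Submodule K E} {v v' : ι → E} {c c' : ι → ℕ}
    (h : ∀ i, v i ∈ S → c i = 0 ∨ (v' i ∈ S' ∧ c i ≤ c' i)) : mass S v c ≤ mass S' v' c' := by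
  unfold mass
  refine Finset.sum_le_sum fun i _ => ?_
  split_ifs with h1 h2 h2
  · rcases h i h1 with h3 | h3
    · omega
    · exact h3.2
  · rcases h i h1 with h3 | h3
    · omega
    · exact (h2 h3.1).elim
  · omega
  · omega

@[simp] theorem mass_zero (S : Submodule K E) (v : ι → E) : mass S v 0 = 0 := by simp [mass]

omit [Fintype ι] in
theorem push_Fil (π : E →ₗ[K] E) {T T' S S' : Submodule K E} {X : Set ι} {v v' : ι → E}
    {c : ι → ℕ} (hT : ∀ e ∈ T, π e ∈ T') (hS : ∀ e ∈ T, e ∈ S → π e ∈ S')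
    (hX : ∀ i ∈ X, v i ∈ S → v' i ∈ S') {k : ℕ} {a : Om K E ι}
    (ha : a ∈ Fil K (gens T X) (ws S v c) k) :
    push ι π a ∈ Fil K (gens T' X) (ws S' v' c) k := by
  refine Fil_map _ (fun g hg => ?_) ha
  cases g with
  | x e =>
    rw [gen_x, push_xx, ws_x]
    split_ifs with h
    · exact xx_mem_Fil (hT e hg) le_rfl (Or.inr (hS e hg h))
    · exact xx_mem_Fil (hT e hg) (by omega) (Or.inl rfl)
  | d e =>
    rw [gen_d, push_dd, ws_d]
    split_ifs with h
    · exact dd_mem_Fil (hT e hg) le_rfl (Or.inr (hS e hg h))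
    · exact dd_mem_Fil (hT e hg) (by omega) (Or.inl rfl)
  | k i =>
    rw [gen_k, push_kk]
    refine gen_mem_Fil (g := .k i) hg ?_
    rw [ws_k, ws_k]
    split_ifs with h1 h2 h2
    · exact le_rfl
    · exact (h2 (hX i hg h1)).elim
    · omega
    · omega

theorem push_KK (π : E →ₗ[K] E) {T : Submodule K E} {X : Set ι} {v : ι → E} {c : ι → ℕ}
    (hc : ∀ i, c i ≠ 0 → v i ∈ T) {a : Om K E ι} (ha : a ∈ KK T X v c) :
    push ι π a ∈ KK (T.map π) X (fun i => π (v i)) c := by
  rw [mem_KK] at *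
  intro S' _
  refine Fil_anti ?_ (push_Fil π (S := S'.comap π ⊓ T) (fun e he => Submodule.mem_map_of_mem he)
    (fun e _ he => he.1) (fun i _ hi => hi.1) (ha _ inf_le_right))
  refine mass_le fun i hi => ?_
  by_cases h : c i = 0
  · exact Or.inl h
  · exact Or.inr ⟨⟨hi, hc i h⟩, le_rfl⟩

omit [Fintype ι] in
theorem Fil_bot_eq_zero {T : Submodule K E} {v : ι → E} {c : ι → ℕ} {k : ℕ} (hk : 0 < k)
    {a : Om K E ι} (ha : a ∈ Fil K (gens T ∅) (ws (⊥ : Submodule K E) v c) k) : a = 0 := by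
  refine Fil_eq_zero (fun g hg hw => ?_) hk ha
  cases g with
  | x e =>
    rw [ws_x] at hw
    split_ifs at hw with h
    · simp [(Submodule.mem_bot K).1 h]
    · exact (hw rfl).elim
  | d e =>
    rw [ws_d] at hw
    split_ifs at hw with h
    · simp [(Submodule.mem_bot K).1 h]
    · exact (hw rfl).elim
  | k i => exact hg.elim

omit [Fintype ι] in
theorem push_prj_eq_zero {f : E →ₗ[K] K} {y : E} (hf : f y = 1) {T : Submodule K E}
    {v : ι → E} {c : ι → ℕ} {k : ℕ} (hk : 0 < k) {a : Om K E ι}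
    (ha : a ∈ Fil K (gens T ∅) (ws (K ∙ y) v c) k) : push ι (prj f y) a = 0 := by
  refine Fil_bot_eq_zero (T := ⊤) (v := v) (c := c) hk
    (push_Fil _ (fun _ _ => Submodule.mem_top) (fun e _ he => ?_) (fun i hi => hi.elim) ha)
  obtain ⟨r, rfl⟩ := Submodule.mem_span_singleton.1 he
  simp [prj_self hf]

omit [Fintype ι] in
theorem con_Fil (f : E →ₗ[K] K) {T S : Submodule K E} {X : Set ι} {v : ι → E} {c : ι → ℕ} {k : ℕ}
    {a : Om K E ι} (ha : a ∈ Fil K (gens T X) (ws S v c) k) :
    con ι f a ∈ Fil K (gens T X) (ws S v c) (k - 1) := by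
  refine Fil_odd (con_isOdd f) 0 1 (fun g _ => ?_) ha
  cases g with
  | x e => simp
  | d e =>
    rw [gen_d, con_dd, show ws S v c (.d e) + 0 - 1 = 0 by rw [ws_d]; split_ifs <;> rfl]
    exact Submodule.smul_mem _ _ one_mem_Fil
  | k i => simp

omit [Fintype ι] in
open Classical in
theorem dv_Fil {f : E →ₗ[K] K} {y : E} {T S : Submodule K E} (hy : y ∈ T)
    (hf : y ∉ S → ∀ e ∈ S, f e = 0) {X : Set ι} {v : ι → E} {c : ι → ℕ} {k : ℕ}
    {a : Om K E ι} (ha : a ∈ Fil K (gens T X) (ws S v c) k) :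
    dv ι f y a ∈ Fil K (gens T X) (ws S v c) (k - if y ∈ S then 1 else 0) := by
  refine Fil_der (dv_isDer f y) 0 _ (fun g hg => ?_) (fun g hg => ?_) ha
  · cases g with
    | x e =>
      rw [gen_x, zx_xx, ws_x, prj_apply]
      have h1 : e - f e • y ∈ T := T.sub_mem hg (T.smul_mem _ hy)
      split_ifs with h
      · refine xx_mem_Fil h1 le_rfl (Or.inr ?_)
        by_cases h' : y ∈ S
        · exact S.sub_mem h (S.smul_mem _ h')
        · simpa [hf h' e h] using h
      · exact xx_mem_Fil h1 (by omega) (Or.inl rfl)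
    | d e => rw [gen_d, zx_dd]; exact gen_mem_Fil (g := .d e) hg le_rfl
    | k i => rw [gen_k, zx_kk]; exact gen_mem_Fil (g := .k i) hg le_rfl
  · cases g with
    | x e =>
      rw [gen_x, dv_xx, ws_x]
      by_cases h : e ∈ S
      · by_cases h' : y ∈ S
        · simp only [h, h', if_true]
          exact Submodule.smul_mem _ _ one_mem_Fil
        · simp [hf h' e h]
      · simp only [h, if_false, Nat.zero_add, Nat.zero_sub]
        exact Submodule.smul_mem _ _ one_mem_Fil
    | d e => simp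
    | k i => simp

omit [Fintype ι] in
open Classical in
theorem Fil_of_xx_mul {y : E} (hy0 : y ≠ 0) {T S : Submodule K E} (hy : y ∈ T)
    {X : Set ι} {v : ι → E} {c : ι → ℕ} {k : ℕ} {a : Om K E ι}
    (ha : xx (K := K) ι y * a ∈ Fil K (gens T X) (ws S v c) k) :
    a ∈ Fil K (gens T X) (ws S v c) (k - if y ∈ S then 1 else 0) := by
  obtain ⟨f, hf, hf'⟩ : ∃ f : E →ₗ[K] K, f y = 1 ∧ (y ∉ S → ∀ e ∈ S, f e = 0) := by
    by_cases h : y ∈ S
    · obtain ⟨f, hf, _⟩ := exists_functional (K := K) (S := ⊥) (y := y) (by simpa using hy0)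
      exact ⟨f, hf, fun h' => (h' h).elim⟩
    · obtain ⟨f, hf, hf'⟩ := exists_functional h
      exact ⟨f, hf, fun _ => hf'⟩
  have := dv_Fil hy hf' ha
  rwa [dv_xx_mul hf] at this

omit [Fintype ι] in
theorem ws_empty_le {T S : Submodule K E} {v v' : ι → E} {c c' : ι → ℕ} :
    ∀ g ∈ gens T (∅ : Set ι), ws S v c g ≤ ws S v' c' g := by
  intro g hg
  cases g with
  | x e => exact le_rfl
  | d e => exact le_rfl
  | k i => exact hg.elim

theorem KK_of_xx_mul [DecidableEq ι] {T : Submodule K E} {v : ι → E} {c : ι → ℕ} {y : ι}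
    (hy0 : v y ≠ 0) (hy : v y ∈ T) {a : Om K E ι}
    (ha : xx (K := K) ι (v y) * a ∈ KK T ∅ v (c + Pi.single y 1)) : a ∈ KK T ∅ v c := by
  rw [mem_KK] at *
  intro S hS
  refine Fil_mono subset_rfl ws_empty_le ?_ (Fil_of_xx_mul hy0 hy (ha S hS))
  rw [mass_add_single]; omega

theorem mul_mem_KK [DecidableEq ι] {T : Submodule K E} {v : ι → E} {c : ι → ℕ} {y : ι}
    {θ a : Om K E ι} (hθ : θ = xx (K := K) ι (v y) ∨ θ = dd (K := K) ι (v y)) (hy : v y ∈ T)
    (ha : a ∈ KK T ∅ v c) : θ * a ∈ KK T ∅ v (c + Pi.single y 1) := by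
  classical
  rw [mem_KK] at *
  intro S hS
  have h1 : θ ∈ Fil K (gens T ∅) (ws S v (c + Pi.single y 1)) (if v y ∈ S then 1 else 0) := by
    rcases hθ with rfl | rfl
    · exact gen_mem_Fil (g := .x (v y)) hy (by rw [ws_x])
    · exact gen_mem_Fil (g := .d (v y)) hy (by rw [ws_d])
  refine Fil_mul h1 (Fil_mono subset_rfl ws_empty_le le_rfl (ha S hS)) ?_
  rw [mass_add_single]; omega

theorem KK_mono_mass {T : Submodule K E} {v : ι → E} {c c' : ι → ℕ} (h : c ≤ c') :
    KK T ∅ v c' ≤ KK T ∅ v c := by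
  intro a ha
  rw [mem_KK] at *
  intro S hS
  exact Fil_mono subset_rfl ws_empty_le (mass_le fun i hi => Or.inr ⟨hi, h i⟩) (ha S hS)

theorem prj_map_lt {f : E →ₗ[K] K} {y : E} (hf : f y = 1) {T : Submodule K E} (hy : y ∈ T) :
    T.map (prj f y) < T := by
  refine lt_of_le_of_ne ?_ ?_
  · rintro _ ⟨e, he, rfl⟩
    rw [prj_apply]
    exact T.sub_mem he (T.smul_mem _ hy)
  · intro h
    rw [← h] at hy
    obtain ⟨e, _, he⟩ := hy
    have := congrArg f he
    simp [prj_apply, hf] at this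

theorem exists_single [DecidableEq ι] {c : ι → ℕ} {m : ℕ} (h : ∑ i, c i = m + 1) :
    ∃ (y : ι) (c' : ι → ℕ), c = c' + Pi.single y 1 ∧ ∑ i, c' i = m := by
  obtain ⟨y, _, hy⟩ := Finset.exists_ne_zero_of_sum_ne_zero (s := Finset.univ) (f := c)
    (by omega)
  have h1 : c = Function.update c y (c y - 1) + Pi.single y 1 := by
    ext i
    by_cases hi : i = y
    · subst hi; simp; omega
    · simp [hi]
  refine ⟨y, _, h1, ?_⟩
  have h2 := congrArg (fun d : ι → ℕ => ∑ i, d i) h1
  simp only [Pi.add_apply, Finset.sum_add_distrib, Finset.sum_pi_single', Finset.mem_univ,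
    if_true] at h2
  omega

theorem lift_KK_empty [NeZero (2 : K)] [FiniteDimensional K E] (T : Submodule K E) (v : ι → E)
    (n : ℕ) : ∀ π : E →ₗ[K] E, Module.finrank K (T.map π) = n → ∀ (m : ℕ) (c : ι → ℕ),
      ∑ i, c i = m → (∀ i, c i ≠ 0 → v i ∈ T) →
      ∀ a ∈ KK (T.map π) ∅ (fun i => π (v i)) c, ∃ b ∈ KK T ∅ v c, push ι π b = a := by
  classical
  induction n using Nat.strong_induction_on with
  | _ n ihn =>
  intro π hπ m
  induction m with
  | zero =>
    intro c hc _ a ha
    have hc0 : c = 0 := by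
      ext i; exact (Finset.sum_eq_zero_iff.1 hc) i (Finset.mem_univ i)
    subst hc0
    have h1 := mem_KK.1 ha ⊥ bot_le
    have h2 : a ∈ (Fil K (gens T ∅) 0 0).map (push ι π).toLinearMap := by
      refine Sp_le (fun l hl => ?_) h1
      have hl' := hl.1
      clear hl
      induction l with
      | nil => exact ⟨1, one_mem_Fil, by simp⟩
      | cons g l ih =>
        obtain ⟨b, hb, hb'⟩ := ih fun g' hg' => hl' g' (by simp [hg'])
        have hg := hl' g (by simp)
        obtain ⟨b0, hb0, hb0'⟩ : ∃ b0 ∈ Fil K (gens T ∅) 0 0, push ι π b0 = gen K g := by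
          cases g with
          | x e =>
            obtain ⟨e0, he0, rfl⟩ := hg
            exact ⟨_, gen_mem_Fil (g := .x e0) he0 le_rfl, by simp⟩
          | d e =>
            obtain ⟨e0, he0, rfl⟩ := hg
            exact ⟨_, gen_mem_Fil (g := .d e0) he0 le_rfl, by simp⟩
          | k i => exact hg.elim
        refine ⟨b0 * b, Fil_mul hb0 hb le_rfl, ?_⟩
        simp only [AlgHom.toLinearMap_apply] at hb' ⊢
        rw [map_mul, hb0', hb', pr_cons]
    obtain ⟨b, hb, hb'⟩ := h2
    refine ⟨b, mem_KK.2 fun S _ => ?_, hb'⟩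
    rw [mass_zero]
    exact Fil_le_zero subset_rfl hb
  | succ m ihm =>
    intro c hc hcv a ha
    obtain ⟨y, c', rfl, hc'⟩ := exists_single hc
    have hyT : v y ∈ T := hcv y (by simp)
    have hcv' : ∀ i, c' i ≠ 0 → v i ∈ T := fun i hi => hcv i (by simp; omega)
    by_cases hy0 : π (v y) = 0
    · have h1 := mem_KK.1 ha ⊥ bot_le
      rw [mass_add_single, if_pos (by simp [hy0])] at h1
      exact ⟨0, Submodule.zero_mem _, by rw [Fil_bot_eq_zero (by omega) h1, map_zero]⟩
    obtain ⟨f, hf, -⟩ := exists_functional (K := K) (S := ⊥) (y := π (v y)) (by simpa using hy0)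
    have hyT' : π (v y) ∈ T.map π := Submodule.mem_map_of_mem hyT
    set π' := prj f (π (v y)) with hπ'
    have hg : push ι π' (con ι f a) ∈ KK (T.map (π'.comp π)) ∅ (fun i => (π'.comp π) (v i)) c' := by
      rw [mem_KK]
      intro S'' _
      have h1 := con_Fil f (mem_KK.1 ha (S''.comap π' ⊓ T.map π) inf_le_right)
      rw [mass_add_single, if_pos ⟨by simp [hπ', prj_self hf], hyT'⟩, Nat.add_sub_cancel] at h1
      refine Fil_mono subset_rfl ws_empty_le ?_ (push_Fil π' (T' := T.map (π'.comp π)) (S' := S'')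
        (S := S''.comap π' ⊓ T.map π) (v' := v) (fun e he => by rw [Submodule.map_comp]; exact Submodule.mem_map_of_mem he)
        (fun e _ he => he.1) (fun i hi => hi.elim) h1)
      refine mass_le fun i hi => ?_
      by_cases h : c' i = 0
      · exact Or.inl h
      · exact Or.inr ⟨⟨hi, Submodule.mem_map_of_mem (hcv' i h)⟩, le_rfl⟩
    have hlt : Module.finrank K (T.map (π'.comp π)) < n := by
      rw [← hπ, Submodule.map_comp]
      exact Submodule.finrank_lt_finrank_of_lt (prj_map_lt hf hyT')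
    obtain ⟨g, hg1, hg2⟩ := ihn _ hlt _ rfl m c' hc' hcv' _ hg
    have hb0 : dd (K := K) ι (v y) * g ∈ KK T ∅ v (c' + Pi.single y 1) :=
      mul_mem_KK (Or.inr rfl) hyT hg1
    have hr : a - push ι π (dd (K := K) ι (v y) * g)
        ∈ KK (T.map π) ∅ (fun i => π (v i)) (c' + Pi.single y 1) :=
      Submodule.sub_mem _ ha (push_KK π hcv hb0)
    have hz : zx ι π' (a - push ι π (dd (K := K) ι (v y) * g)) = 0 := by
      have h1 := mem_KK.1 ha (K ∙ π (v y)) ((Submodule.span_singleton_le_iff_mem _ _).2 hyT')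
      rw [mass_add_single, if_pos (Submodule.mem_span_singleton_self _)] at h1
      rw [map_sub, map_mul, map_mul, push_dd, zx_dd, hπ', zx_expand, zx_expand, ← hπ',
        push_prj_eq_zero hf (by omega) h1, push_push, hg2, mul_add, ← mul_assoc,
        O1_sq (dd_mem_O1 _)]
      simp
    have hr2 := xx_mul_dv f (π (v y)) (a - push ι π (dd (K := K) ι (v y) * g))
    rw [← hπ', hz, sub_zero] at hr2
    rw [← hr2] at hr
    obtain ⟨b, hb1, hb2⟩ := ihm c' hc' hcv' _
      (KK_of_xx_mul (v := fun i => π (v i)) hy0 hyT' hr)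
    refine ⟨dd (K := K) ι (v y) * g + xx (K := K) ι (v y) * b,
      Submodule.add_mem _ hb0 (mul_mem_KK (Or.inl rfl) hyT hb1), ?_⟩
    rw [map_add, map_mul _ _ b, push_xx, hb2, hr2]
    abel

omit [Fintype ι] in
theorem zk_Fil (i : ι) {T : Submodule K E} {X : Set ι} {w : Gen E ι → ℕ} {k : ℕ} {a : Om K E ι}
    (ha : a ∈ Fil K (gens T (insert i X)) w k) : zk K E i a ∈ Fil K (gens T X) w k := by
  refine Fil_map _ (fun g hg => ?_) ha
  cases g with
  | x e => rw [gen_x, zk_xx]; exact gen_mem_Fil (g := .x e) hg le_rfl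
  | d e => rw [gen_d, zk_dd]; exact gen_mem_Fil (g := .d e) hg le_rfl
  | k j =>
    rw [gen_k, zk_kk]
    split_ifs with h
    · exact Submodule.zero_mem _
    · exact gen_mem_Fil (g := .k j) ((Set.mem_insert_iff.1 hg).resolve_left h) le_rfl

omit [Fintype ι] in
theorem dk_Fil (i : ι) {A : Set (Gen E ι)} {w : Gen E ι → ℕ} {k : ℕ} {a : Om K E ι}
    (ha : a ∈ Fil K A w k) : dk K E i a ∈ Fil K A w (k - w (.k i)) := by
  refine Fil_odd (dk_isOdd i) 0 _ (fun g _ => ?_) ha
  cases g with
  | x e => simp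
  | d e => simp
  | k j =>
    rw [gen_k, dk_kk]
    split_ifs with h
    · subst h; simpa using one_mem_Fil
    · exact Submodule.zero_mem _

theorem lift_KK [NeZero (2 : K)] [FiniteDimensional K E] (T : Submodule K E) (v : ι → E)
    (π : E →ₗ[K] E) (X : Set ι) : ∀ c : ι → ℕ, (∀ i, c i ≠ 0 → v i ∈ T) →
      ∀ a ∈ KK (T.map π) X (fun i => π (v i)) c, ∃ b ∈ KK T X v c, push ι π b = a := by
  classical
  induction X, Set.toFinite X using Set.Finite.induction_on with
  | empty => intro c hc; exact lift_KK_empty T v _ π rfl _ c rfl hc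
  | @insert i X hi _ ih =>
    intro c hc a ha
    let c1 : ι → ℕ := Function.update c i 0
    have hc1 : c = c1 + Pi.single i (c i) := by
      ext j
      by_cases h : j = i
      · subst h; simp [c1]
      · simp [c1, h]
    have hw : ∀ (S T0 : Submodule K E) (u : ι → E), ∀ g ∈ gens T0 X, ws S u c g = ws S u c1 g := by
      intro S T0 u g hg
      cases g with
      | x e => rfl
      | d e => rfl
      | k j =>
        have : j ≠ i := fun h => hi (h ▸ hg)
        simp [ws_k, c1, this]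
    have hm : ∀ (S : Submodule K E) (u : ι → E),
        mass S u c = mass S u c1 + ws S u c (.k i) := by
      intro S u
      conv_lhs => rw [hc1]
      rw [mass_add_single, ws_k]
    obtain ⟨b0, hb0, hb0'⟩ := ih c hc (zk K E i a)
      (mem_KK.2 fun S hS => zk_Fil i (mem_KK.1 ha S hS))
    obtain ⟨b1, hb1, hb1'⟩ := ih c1 (fun j hj => hc j (by
        intro h; apply hj; by_cases h' : j = i
        · simp [c1, h']
        · simp [c1, h', h])) (zk K E i (dk K E i a))
      (mem_KK.2 fun S hS => Fil_mono subset_rfl (fun g hg => (hw S _ _ g hg).le)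
        (by rw [hm]; omega) (zk_Fil i (dk_Fil i (mem_KK.1 ha S hS))))
    refine ⟨b0 + kk K E i * b1, mem_KK.2 fun S hS => Submodule.add_mem _ ?_ ?_, ?_⟩
    · exact Fil_mono (gens_mono le_rfl (Set.subset_insert _ _)) (fun _ _ => le_rfl) le_rfl
        (mem_KK.1 hb0 S hS)
    · refine Fil_mul (gen_mem_Fil (g := .k i) (Set.mem_insert _ _) le_rfl)
        (Fil_mono (gens_mono le_rfl (Set.subset_insert _ _)) (fun g hg => (hw S _ _ g hg).ge)
          le_rfl (mem_KK.1 hb1 S hS)) (by rw [hm]; omega)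
    · rw [map_add, map_mul, push_kk, hb0', hb1', ← zk_expand]

theorem KK_div [NeZero (2 : K)] [DecidableEq ι] {T : Submodule K E} {v : ι → E} {c : ι → ℕ}
    {y : ι} (hy0 : v y ≠ 0) (hy : v y ∈ T) {a : Om K E ι}
    (ha : a ∈ KK T ∅ v (c + Pi.single y 2)) :
    ∃ b ∈ KK T ∅ v c, a = xx (K := K) ι (v y) * b := by
  classical
  obtain ⟨f, hf, -⟩ := exists_functional (K := K) (S := ⊥) (y := v y) (by simpa using hy0)
  have h1 := mem_KK.1 ha (K ∙ v y) ((Submodule.span_singleton_le_iff_mem _ _).2 hy)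
  rw [mass_add_single, if_pos (Submodule.mem_span_singleton_self _)] at h1
  have h2 := xx_mul_dv f (v y) a
  rw [zx_expand, push_prj_eq_zero hf (by omega) h1,
    push_prj_eq_zero hf (by omega) (con_Fil f h1)] at h2
  simp only [mul_zero, add_zero, sub_zero] at h2
  refine ⟨dv ι f (v y) a, KK_of_xx_mul hy0 hy ?_, h2.symm⟩
  rw [h2]
  refine KK_mono_mass (fun j => ?_) ha
  by_cases h : j = y
  · subst h; simp
  · simp [h]

end Pool.Agent.AJT
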