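import Pool.Agent.MP_79429d_co.J6

/-! The Euler operator, counting odd generators, stability under the differential. -/

set_option autoImplicit false

namespace Pool.Agent.AJT

variable {K E ι : Type} [Field K] [AddCommGroup E] [Module K E]

/-- The Euler operator. -/
noncomputable def EE (p : ℕ) (u : ι → E) (σ : E →ₗ[K] E) : Module.End K (Om K E ι) :=
  (DD p u).comp (hh ι σ) + (hh ι σ).comp (DD p u)

theorem EE_apply (p : ℕ) (u : ι → E) (σ : E →ₗ[K] E) (a : Om K E ι) :
    EE p u σ a = DD p u (hh ι σ a) + hh ι σ (DD p u a) := rfl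

theorem EE_isDer (p : ℕ) (u : ι → E) (σ : E →ₗ[K] E) : IsDer (AlgHom.id K _) (EE p u σ) :=
  (DD_isOdd p u).bracket (hh_isOdd σ)

@[simp] theorem EE_xx (p : ℕ) (u : ι → E) (σ : E →ₗ[K] E) (e : E) :
    EE p u σ (xx (K := K) ι e) = xx (K := K) ι (σ e) := by simp [EE_apply]
@[simp] theorem EE_dd (p : ℕ) (u : ι → E) (σ : E →ₗ[K] E) (e : E) :
    EE p u σ (dd (K := K) ι e) = dd (K := K) ι (σ e) := by simp [EE_apply]
@[simp] theorem EE_kk (p : ℕ) (u : ι → E) (σ : E →ₗ[K] E) (i : ι) :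
    EE p u σ (kk K E i) = 0 := by
  simp [EE_apply, (hh_isOdd (ι := ι) σ).xx_pow_zero _ (hh_xx σ _)]

theorem der_pr_smul {δ : Om K E ι →ₗ[K] Om K E ι} (hδ : IsDer (AlgHom.id K _) δ)
    {w : Gen E ι → ℕ} (l : List (Gen E ι)) (h : ∀ g ∈ l, δ (gen K g) = (w g : K) • gen K g) :
    δ (pr K l) = (wt w l : K) • pr K l := by
  induction l with
  | nil => simp [hδ.one]
  | cons g l ih =>
    rw [pr_cons, hδ, h g (by simp), ih fun g' hg' => h g' (by simp [hg'])]
    simp [add_smul]

theorem pow_apply_of_smul {V : Type} [AddCommGroup V] [Module K V] (Φ : Module.End K V) {a : V}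
    {r : K} (h : Φ a = r • a) (n : ℕ) : (Φ ^ n) a = r ^ n • a := by
  induction n with
  | zero => simp
  | succ n ih => rw [pow_succ', Module.End.mul_apply, ih, map_smul, h, smul_smul, pow_succ]

theorem pow_apply_mem {V : Type} [AddCommGroup V] [Module K V] (Φ : Module.End K V)
    {U : Submodule K V} (h : ∀ a ∈ U, Φ a ∈ U) (n : ℕ) {a : V} (ha : a ∈ U) : (Φ ^ n) a ∈ U := by
  induction n with
  | zero => simpa using ha
  | succ n ih => rw [pow_succ', Module.End.mul_apply]; exact h _ ih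

/-- The projection onto the kernel of the Euler operator. -/
noncomputable def PP (p : ℕ) (u : ι → E) (σ : E →ₗ[K] E) : Module.End K (Om K E ι) :=
  1 - EE p u σ ^ (p - 1)

theorem PP_apply (p : ℕ) (u : ι → E) (σ : E →ₗ[K] E) (a : Om K E ι) :
    PP p u σ a = a - (EE p u σ ^ (p - 1)) a := rfl

section
variable (p : ℕ) [Fact p.Prime] [CharP K p]

theorem EE_DD [NeZero (2 : K)] (u : ι → E) (σ : E →ₗ[K] E) (a : Om K E ι) :
    EE p u σ (DD p u a) = DD p u (EE p u σ a) := by
  simp [EE_apply, DD_DD]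

theorem euler_exact [NeZero (2 : K)] (u : ι → E) (σ : E →ₗ[K] E) {a : Om K E ι}
    (ha : DD p u a = 0) : a - PP p u σ a = DD p u (hh ι σ ((EE p u σ ^ (p - 2)) a)) := by
  have h1 : DD p u ((EE p u σ ^ (p - 2)) a) = 0 :=
    pow_apply_mem (EE p u σ) (U := LinearMap.ker (DD p u))
      (fun b hb => by rw [LinearMap.mem_ker] at *; rw [← EE_DD, hb, map_zero]) _ ha
  have h2 : p - 1 = p - 2 + 1 := by have := (Fact.out : p.Prime).two_le; omega
  rw [PP_apply, sub_sub_cancel, h2, pow_succ', Module.End.mul_apply, EE_apply, h1, map_zero,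
    add_zero]

omit [CharP K p] in
theorem pow_pred_eq_one (hK : ∀ r : K, r ^ p = r) {r : K} (hr : r ≠ 0) : r ^ (p - 1) = 1 := by
  have h2 : p = p - 1 + 1 := by have := (Fact.out : p.Prime).two_le; omega
  have := hK r
  rw [h2, pow_succ] at this
  exact mul_right_cancel₀ hr (by simpa using this)

theorem PP_Sp (hK : ∀ r : K, r ^ p = r) (u : ι → E) (σ : E →ₗ[K] E) {Q : List (Gen E ι) → Prop}
    {w : Gen E ι → ℕ} (h : ∀ l, Q l → ∀ g ∈ l, EE p u σ (gen K g) = (w g : K) • gen K g)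
    {a : Om K E ι} (ha : a ∈ Sp K Q) : PP p u σ a ∈ Sp K (fun l => Q l ∧ p ∣ wt w l) := by
  refine Sp_map _ (fun l hl => ?_) ha
  rw [PP_apply, pow_apply_of_smul _ (der_pr_smul (EE_isDer p u σ) l (h l hl))]
  by_cases hd : p ∣ wt w l
  · exact Submodule.sub_mem _ (pr_mem_Sp ⟨hl, hd⟩) (Submodule.smul_mem _ _ (pr_mem_Sp ⟨hl, hd⟩))
  · rw [pow_pred_eq_one p hK (by rwa [Ne, CharP.cast_eq_zero_iff K p])]
    simp

theorem EE_PP (hK : ∀ r : K, r ^ p = r) (u : ι → E) (σ : E →ₗ[K] E) {Q : List (Gen E ι) → Prop}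
    {w : Gen E ι → ℕ} (h : ∀ l, Q l → ∀ g ∈ l, EE p u σ (gen K g) = (w g : K) • gen K g)
    {a : Om K E ι} (ha : a ∈ Sp K Q) : EE p u σ (PP p u σ a) = 0 := by
  refine Sp_ext (EE p u σ) 0 (fun l hl => ?_) (PP_Sp p hK u σ h ha)
  rw [der_pr_smul (EE_isDer p u σ) l (h l hl.1), (CharP.cast_eq_zero_iff K p _).2 hl.2]
  simp

omit [CharP K p] in
theorem PP_of_EE (u : ι → E) (σ : E →ₗ[K] E) {a : Om K E ι} (ha : EE p u σ a = 0) :
    PP p u σ a = a := by
  have h2 : p - 1 = p - 2 + 1 := by have := (Fact.out : p.Prime).two_le; omega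
  rw [PP_apply, h2, pow_succ, Module.End.mul_apply, ha, map_zero, sub_zero]

theorem xx_add_pow (e e' : E) :
    xx (K := K) ι (e + e') ^ p = xx (K := K) ι e ^ p + xx (K := K) ι e' ^ p := by
  rcases subsingleton_or_nontrivial (Om K E ι) with h | h
  · exact Subsingleton.elim _ _
  have : CharP (Om K E ι) p := charP_of_injective_algebraMap (algebraMap K _).injective p
  rw [map_add, add_pow_char_of_commute _ (xx_comm e _)]

end

theorem wt_le_sum [NeZero (2 : K)] {J : Type} [Fintype J] (e : J → Gen E ι) (he : ∀ j, (e j).odd)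
    (f : J → ℕ) {w : Gen E ι → ℕ} {l : List (Gen E ι)} (hl : pr K l ≠ 0)
    (h : ∀ g ∈ l, w g = 0 ∨ ∃ j, g = e j ∧ w g ≤ f j) : wt w l ≤ ∑ j, f j := by
  classical
  have key : wt w l ≤ ∑ j, if e j ∈ l then f j else 0 := by
    induction l with
    | nil => simp
    | cons g l ih =>
      have hl' : pr K l ≠ 0 := fun h0 => hl (by rw [pr_cons, h0, mul_zero])
      have ih' := ih hl' fun g' hg' => h g' (by simp [hg'])
      rw [wt_cons]
      rcases h g (by simp) with h0 | ⟨j, rfl, hj⟩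
      · rw [h0, zero_add]
        refine ih'.trans (Finset.sum_le_sum fun j _ => ?_)
        split_ifs with h1 h2 h2
        · exact le_rfl
        · exact (h2 (by simp [h1])).elim
        · omega
        · omega
      · have hj' : e j ∉ l := fun hm => hl (pr_eq_zero_of_mem (he j) hm)
        calc w (e j) + wt w l
            ≤ (∑ i, if i = j then f j else 0) + ∑ i, if e i ∈ l then f i else 0 := by
              simp only [Finset.sum_ite_eq', Finset.mem_univ, if_true]; omega
          _ ≤ _ := by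
              rw [← Finset.sum_add_distrib]
              refine Finset.sum_le_sum fun i _ => ?_
              by_cases hi : i = j
              · subst hi; simp [hj']
              · by_cases h1 : e i ∈ l
                · simp [hi, h1]
                · simp [hi, h1]
  exact key.trans (Finset.sum_le_sum fun j _ => by split_ifs <;> omega)

theorem DD_Fil (p : ℕ) {T S : Submodule K E} {X : Set ι} {u v : ι → E} {c : ι → ℕ}
    (h : ∀ i ∈ X, xx (K := K) ι (u i) ^ p ∈ Fil K (gens T X) (ws S v c) (ws S v c (.k i)))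
    {k : ℕ} {a : Om K E ι} (ha : a ∈ Fil K (gens T X) (ws S v c) k) :
    DD p u a ∈ Fil K (gens T X) (ws S v c) k := by
  refine Fil_odd (DD_isOdd p u) 0 0 (fun g hg => ?_) ha
  cases g with
  | x e => rw [gen_x, DD_xx]; exact gen_mem_Fil (g := .d e) hg le_rfl
  | d e => simp
  | k i => rw [gen_k, DD_kk]; exact h i hg

theorem DD_Fil_self (p : ℕ) {T S : Submodule K E} {X : Set ι} {v : ι → E} {c : ι → ℕ}
    (hv : ∀ i ∈ X, v i ∈ T) (hc : ∀ i ∈ X, c i ≤ p)
    {k : ℕ} {a : Om K E ι} (ha : a ∈ Fil K (gens T X) (ws S v c) k) :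
    DD p v a ∈ Fil K (gens T X) (ws S v c) k := by
  refine DD_Fil p (fun i hi => ?_) ha
  refine Fil_anti ?_ (pow_mem_Fil (gen_mem_Fil (g := .x (v i)) (hv i hi) le_rfl) p)
  rw [ws_k, ws_x]
  have := hc i hi
  split_ifs <;> omega

theorem DD_Fil_zero (p : ℕ) {T : Submodule K E} {X : Set ι} {v : ι → E}
    (hv : ∀ i ∈ X, v i ∈ T) {a : Om K E ι} (ha : a ∈ Fil K (gens T X) 0 0) :
    DD p v a ∈ Fil K (gens T X) 0 0 :=
  Fil_le_zero subset_rfl (DD_Fil_self p (S := ⊥) (c := 0) hv (fun _ _ => Nat.zero_le _)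
    (Fil_le_zero subset_rfl ha))

end Pool.Agent.AJT
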