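import Pool.Agent.MP_79429d_co.J7

/-! The base case: cohomology of the whole algebra vanishes in high degree. -/

set_option autoImplicit false

namespace Pool.Agent.AJT

variable {K E ι : Type} [Field K] [AddCommGroup E] [Module K E]

open Classical in
/-- Indicator weight of one generator. -/
noncomputable def ind (g0 : Gen E ι) : Gen E ι → ℕ := fun g => if g = g0 then 1 else 0

theorem par_monom (y : E) (i : ι) (u h m : ℕ) : ∃ r : K,
    par (xx (K := K) ι y ^ u * dd (K := K) ι y ^ h * kk K E i ^ m)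
      = r • (xx (K := K) ι y ^ u * dd (K := K) ι y ^ h * kk K E i ^ m) := by
  refine ⟨(-1) ^ h * (-1) ^ m, ?_⟩
  rw [map_mul, map_mul, map_pow, map_pow, map_pow, par_xx, par_dd, par_kk,
    ← neg_one_smul K (dd (K := K) ι y), ← neg_one_smul K (kk K E i), smul_pow, smul_pow]
  simp only [mul_smul_comm, smul_mul_assoc, smul_smul, mul_comm]

theorem normal_form {y : E} {i : ι} {A : Set (Gen E ι)} (hx : Gen.x y ∉ A) (hd : Gen.d y ∉ A)
    (hk : Gen.k i ∉ A) (l : List (Gen E ι))
    (hl : ∀ g ∈ l, g = .x y ∨ g = .d y ∨ g = .k i ∨ g ∈ A) :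
    ∃ a ∈ Fil K A 0 0, pr K l = xx (K := K) ι y ^ wt (ind (.x y)) l
      * dd (K := K) ι y ^ wt (ind (.d y)) l * kk K E i ^ wt (ind (.k i)) l * a := by
  induction l with
  | nil => exact ⟨1, one_mem_Fil, by simp⟩
  | cons g l ih =>
    obtain ⟨a, ha, ha'⟩ := ih fun g' hg' => hl g' (by simp [hg'])
    rw [pr_cons, ha']
    simp only [wt_cons]
    generalize wt (ind (Gen.x y)) l = u
    generalize wt (ind (Gen.d y)) l = h
    generalize wt (ind (Gen.k i)) l = m
    rcases hl g (by simp) with rfl | rfl | rfl | hg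
    · refine ⟨a, ha, ?_⟩
      simp only [ind, if_true, reduceCtorEq, if_false, zero_add, gen_x, add_comm 1 u, pow_succ',
        mul_assoc]
    · refine ⟨a, ha, ?_⟩
      simp only [ind, if_true, reduceCtorEq, if_false, zero_add, gen_d, add_comm 1 h, pow_succ',
        mul_assoc]
      rw [← mul_assoc, ← xx_pow_comm, mul_assoc]
    · obtain ⟨r, hr⟩ := par_monom (K := K) y i u h 0
      simp only [pow_zero, mul_one] at hr
      refine ⟨r • a, Submodule.smul_mem _ _ ha, ?_⟩
      simp only [ind, if_true, reduceCtorEq, if_false, zero_add, gen_k, add_comm 1 m, pow_succ']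
      rw [← mul_assoc, ← mul_assoc, O1_mul (kk_mem_O1 i), hr]
      simp only [mul_smul_comm, smul_mul_assoc, mul_assoc]
    · have h1 : ind (.x y) g = 0 := if_neg (fun h : g = .x y => hx (h ▸ hg))
      have h2 : ind (.d y) g = 0 := if_neg (fun h : g = .d y => hd (h ▸ hg))
      have h3 : ind (.k i) g = 0 := if_neg (fun h : g = .k i => hk (h ▸ hg))
      simp only [h1, h2, h3, zero_add]
      obtain ⟨r, hr⟩ : ∃ r : K, gen K g * (xx (K := K) ι y ^ u * dd (K := K) ι y ^ h * kk K E i ^ m)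
          = r • ((xx (K := K) ι y ^ u * dd (K := K) ι y ^ h * kk K E i ^ m) * gen K g) := by
        obtain ⟨r, hr⟩ := par_monom (K := K) y i u h m
        cases g with
        | x e => exact ⟨1, by rw [gen_x, xx_comm, one_smul]⟩
        | d e => exact ⟨r, by rw [gen_d, O1_mul (dd_mem_O1 e), hr, smul_mul_assoc]⟩
        | k j => exact ⟨r, by rw [gen_k, O1_mul (kk_mem_O1 j), hr, smul_mul_assoc]⟩
      refine ⟨r • (gen K g * a), Submodule.smul_mem _ _
        (Fil_mul (gen_mem_Fil hg le_rfl) ha le_rfl), ?_⟩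
      rw [← mul_assoc, hr]
      simp only [mul_smul_comm, smul_mul_assoc, mul_assoc]

section
variable (p : ℕ) [Fact p.Prime] [CharP K p] [NeZero (2 : K)]

omit [CharP K p] in
theorem DD_top (u : ι → E) (y : E) :
    DD p u (xx (K := K) ι y ^ (p - 1) * dd (K := K) ι y) = 0 := by
  obtain ⟨n, hn⟩ : ∃ n, p - 1 = n + 1 := ⟨p - 2, by have := (Fact.out : p.Prime).two_le; omega⟩
  rw [(DD_isOdd p u).der, hn, (DD_isOdd p u).xx_pow, DD_xx, DD_dd, smul_mul_assoc, mul_assoc,
    O1_sq (dd_mem_O1 y)]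
  simp

omit [CharP K p] [NeZero (2 : K)] in
theorem top_tau (y : E) :
    xx (K := K) ι y ^ (p - 1) * dd (K := K) ι y ∈ Hom (tau K E ι p) (3 * p) := by
  have := Hom_mul (Hom_pow (xx_tau (K := K) (ι := ι) p y) (p - 1)) (dd_tau p y)
  rwa [show (p - 1) * 2 + (p + 2) = 3 * p by have := (Fact.out : p.Prime).two_le; omega] at this

theorem base_step (hK : ∀ r : K, r ^ p = r) {T T' : Submodule K E} {X : Set ι} {i : ι}
    (hi : i ∉ X) {v : ι → E} {f : E →ₗ[K] K} (hf : f (v i) = 1) (hy : v i ∈ T) (hT' : T' ≤ T)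
    (hfT : ∀ e ∈ T', f e = 0) (hT : ∀ e ∈ T, prj f (v i) e ∈ T') (hv : ∀ j ∈ X, v j ∈ T')
    {a : Om K E ι} (ha : a ∈ Fil K (gens T (insert i X)) 0 0) (hD : DD p v a = 0) :
    ∃ b ∈ Fil K (gens T (insert i X)) 0 0, ∃ a0 ∈ Fil K (gens T' X) 0 0,
      ∃ a1 ∈ Fil K (gens T' X) 0 0, DD p v a0 = 0 ∧ DD p v a1 = 0 ∧
        a = DD p v b + a0 + xx (K := K) ι (v i) ^ (p - 1) * dd (K := K) ι (v i) * a1 := by
  classical
  have hp2 := (Fact.out : p.Prime).two_le
  set y := v i with hydef
  have hyT' : y ∉ T' := fun h => by simpa [hf] using hfT y h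
  set x := xx (K := K) ι y with hx
  set d := dd (K := K) ι y with hd
  set κ := kk K E i with hκ
  let R := Fil K (gens T' X) 0 0
  let Ω' := Fil K (gens T X) 0 0
  let Ω := Fil K (gens T (insert i X)) 0 0
  have hRΩ' : R ≤ Ω' := Fil_le_zero (gens_mono hT' subset_rfl)
  have hΩ'Ω : Ω' ≤ Ω := Fil_le_zero (gens_mono le_rfl (Set.subset_insert _ _))
  have hxΩ' : ∀ n, x ^ n ∈ Ω' := fun n => by
    simpa using pow_mem_Fil (gen_mem_Fil (K := K) (w := 0) (g := .x y) (A := gens T X) hy le_rfl) n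
  have hdΩ' : ∀ n, d ^ n ∈ Ω' := fun n => by
    simpa using pow_mem_Fil (gen_mem_Fil (K := K) (w := 0) (g := .d y) (A := gens T X) hy le_rfl) n
  have hκΩ : κ ∈ Ω := gen_mem_Fil (g := .k i) (Set.mem_insert _ _) le_rfl
  let σ : E →ₗ[K] E := f.smulRight y
  let ng : Set (Gen E ι) := {g | g = .x y ∨ g = .d y ∨ g = .k i ∨ g ∈ gens T' X}
  have ha1 : a ∈ Fil K ng 0 0 := by
    refine Fil_le (fun g hg => ?_) 0 ha
    cases g with
    | x e =>
      have : gen K (.x e : Gen E ι) = gen K (.x (prj f y e)) + f e • gen K (.x y) := by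
        simp [prj_apply]
      rw [this]
      exact Submodule.add_mem _ (gen_mem_Fil (by simp [ng, hT e hg]) le_rfl)
        (Submodule.smul_mem _ _ (gen_mem_Fil (by simp [ng]) le_rfl))
    | d e =>
      have : gen K (.d e : Gen E ι) = gen K (.d (prj f y e)) + f e • gen K (.d y) := by
        simp [prj_apply]
      rw [this]
      exact Submodule.add_mem _ (gen_mem_Fil (by simp [ng, hT e hg]) le_rfl)
        (Submodule.smul_mem _ _ (gen_mem_Fil (by simp [ng]) le_rfl))
    | k j =>
      refine gen_mem_Fil ?_ le_rfl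
      rcases hg with h | h
      · simp [ng, h]
      · simp [ng, h]
  let wM : Gen E ι → ℕ := fun g => ind (.x y) g + ind (.d y) g
  have hE : ∀ g ∈ ng, EE p v σ (gen K g) = (wM g : K) • gen K g := by
    intro g hg
    rcases hg with rfl | rfl | rfl | hg
    · simp [wM, ind, σ, hf]
    · simp [wM, ind, σ, hf]
    · simp [wM, ind]
    · cases g with
      | x e =>
        have : e ≠ y := fun h => hyT' (h ▸ hg)
        simp [wM, ind, σ, hfT e hg, this]
      | d e =>
        have : e ≠ y := fun h => hyT' (h ▸ hg)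
        simp [wM, ind, σ, hfT e hg, this]
      | k j => simp [wM, ind]
  have hvT : ∀ j ∈ insert i X, v j ∈ T := by
    intro j hj
    rcases hj with rfl | hj
    exacts [hy, hT' (hv j hj)]
  have hhΩ : ∀ b ∈ Ω, hh ι σ b ∈ Ω := by
    intro b hb
    refine Fil_odd (hh_isOdd σ) 0 0 (fun g hg => ?_) hb
    cases g with
    | x e => simp
    | d e =>
      rw [gen_d, hh_dd]
      exact gen_mem_Fil (g := .x (σ e)) (T.smul_mem _ hy) le_rfl
    | k j => simp
  have hEΩ : ∀ b ∈ Ω, EE p v σ b ∈ Ω := fun b hb =>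
    Submodule.add_mem _ (DD_Fil_zero p hvT (hhΩ b hb)) (hhΩ _ (DD_Fil_zero p hvT hb))
  have hb1 : hh ι σ ((EE p v σ ^ (p - 2)) a) ∈ Ω := hhΩ _ (pow_apply_mem _ hEΩ _ ha)
  have he := euler_exact p v σ hD
  have hP := PP_Sp p hK v σ (w := wM) (fun l hl g hg => hE g (hl.1 g hg)) ha1
  let N : Submodule K (Om K E ι) := R ⊔ R.map (LinearMap.mulLeft K (x ^ (p - 1) * d))
    ⊔ Ω'.map (LinearMap.mulLeft K (x ^ p)) ⊔ Ω'.map (LinearMap.mulLeft K κ)
  have hN : PP p v σ a ∈ N := by
    refine Sp_le (fun l hl => ?_) hP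
    obtain ⟨c, hc, hc'⟩ := normal_form (K := K) (y := y) (i := i) (A := gens T' X) hyT' hyT' hi l
      hl.1.1
    have hM : wt wM l = wt (ind (.x y)) l + wt (ind (.d y)) l := by
      simp only [wM, wt]; exact List.sum_map_add
    have hdv := hl.2
    rw [hM] at hdv
    rw [hc', ← hx, ← hd, ← hκ]
    generalize wt (ind (Gen.x y)) l = u at *
    generalize wt (ind (Gen.d y)) l = h at *
    generalize wt (ind (Gen.k i)) l = m at *
    have hdd : d * d = 0 := O1_sq (dd_mem_O1 y)
    have hκκ : κ * κ = 0 := O1_sq (kk_mem_O1 i)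
    rcases m with _ | _ | m
    · by_cases hu : p ≤ u
      · refine Submodule.mem_sup_left (Submodule.mem_sup_right ⟨x ^ (u - p) * d ^ h * c,
          Fil_mul (Fil_mul (hxΩ' _) (hdΩ' _) le_rfl) (hRΩ' hc) le_rfl, ?_⟩)
        simp only [LinearMap.mulLeft_apply, pow_zero, mul_one, ← mul_assoc, ← pow_add]
        rw [show p + (u - p) = u by omega]
      · rcases h with _ | _ | h
        · have : u = 0 := Nat.eq_zero_of_dvd_of_lt hdv (by omega)
          subst this
          exact Submodule.mem_sup_left (Submodule.mem_sup_left (Submodule.mem_sup_left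
            (by simpa using hc)))
        · have : u = p - 1 := by have := Nat.le_of_dvd (by omega) hdv; omega
          subst this
          exact Submodule.mem_sup_left (Submodule.mem_sup_left (Submodule.mem_sup_right
            ⟨c, hc, by simp [mul_assoc]⟩))
        · rw [pow_succ d, pow_succ d, mul_assoc (d ^ h), hdd]; simp
    · refine Submodule.mem_sup_right ⟨par (x ^ u * d ^ h) * c,
        Fil_mul (Fil_par (Fil_mul (hxΩ' _) (hdΩ' _) le_rfl)) (hRΩ' hc) le_rfl, ?_⟩
      simp only [LinearMap.mulLeft_apply, zero_add, pow_one]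
      rw [mul_O1 (kk_mem_O1 i) (x ^ u * d ^ h), mul_assoc]
    · rw [pow_succ κ, pow_succ κ, mul_assoc (κ ^ m), hκκ]; simp
  obtain ⟨n1, hn1, _, ⟨b2, hb2, rfl⟩, h1⟩ := Submodule.mem_sup.1 hN
  obtain ⟨n2, hn2, _, ⟨b, hb, rfl⟩, rfl⟩ := Submodule.mem_sup.1 hn1
  obtain ⟨a0, ha0, _, ⟨a1, ha1', rfl⟩, rfl⟩ := Submodule.mem_sup.1 hn2
  simp only [LinearMap.mulLeft_apply] at h1
  have hDκ : ∀ c, DD p v (κ * c) = x ^ p * c - κ * DD p v c := fun c => by
    rw [(DD_isOdd p v).der, hκ, DD_kk, par_kk, neg_mul, sub_eq_add_neg]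
  have hDt : ∀ c, DD p v (x ^ (p - 1) * d * c) = -(x ^ (p - 1) * d * DD p v c) := fun c => by
    rw [(DD_isOdd p v).der, hx, hd, DD_top, map_mul, map_pow, par_xx, par_dd]; simp
  have hDΩ' : ∀ c ∈ Ω', DD p v c ∈ Ω' := fun c hc => DD_Fil_zero p (fun j hj => hT' (hv j hj)) hc
  have hDR : ∀ c ∈ R, DD p v c ∈ R := fun c hc => DD_Fil_zero p hv hc
  set b'' := b2 + DD p v b with hb''
  have hb''Ω : b'' ∈ Ω' := Submodule.add_mem _ hb2 (hDΩ' b hb)
  have h2 : PP p v σ a = DD p v (κ * b) + a0 + x ^ (p - 1) * d * a1 + κ * b'' := by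
    rw [← h1, hDκ, hb'']; noncomm_ring
  have h3 : DD p v (PP p v σ a) = 0 := by
    have := congrArg (DD p v) he
    rw [DD_DD, map_sub, hD, zero_sub, neg_eq_zero] at this
    exact this
  rw [h2, map_add, map_add, map_add, DD_DD, hDt, hDκ, zero_add] at h3
  have hzk : ∀ c ∈ Ω', zk K E i c = c := fun c hc =>
    Fil_alg_ext (zk K E i) (AlgHom.id K _) (fun g hg => by
      cases g with
      | x e => simp
      | d e => simp
      | k j =>
        have : j ≠ i := fun h => hi (h ▸ hg)
        simp [zk_kk, this]) hc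
  have hzx : ∀ c ∈ R, zx ι (prj f y) c = c := fun c hc =>
    Fil_alg_ext (zx ι (prj f y)) (AlgHom.id K _) (fun g hg => by
      cases g with
      | x e => simp [prj_apply, hfT e hg]
      | d e => simp
      | k j => simp) hc
  have hcon : ∀ c ∈ R, con ι f c = 0 := fun c hc =>
    Fil_der_zero (con_isOdd f).der (fun g hg => by
      cases g with
      | x e => simp
      | d e => simp [hfT e hg]
      | k j => simp) hc
  have h4 : DD p v a0 - x ^ (p - 1) * d * DD p v a1 + x ^ p * b'' = 0 := by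
    have := congrArg (zk K E i) h3
    simp only [map_add, map_neg, map_sub, map_mul, map_pow, hx, hd, hκ, zk_xx, zk_dd, zk_kk,
      if_true, zero_mul, sub_zero, map_zero, hzk _ (hRΩ' (hDR _ ha0)), hzk _ (hRΩ' (hDR _ ha1')),
      hzk _ hb''Ω] at this
    rw [← this, sub_eq_add_neg]
  have hzx0 : zx ι (prj f y) x = 0 := by rw [hx, zx_xx, prj_self hf, map_zero]
  have h5 : DD p v a0 = 0 := by
    have := congrArg (zx ι (prj f y)) h4
    simp only [map_add, map_sub, map_mul, map_pow, hzx0, hzx _ (hDR _ ha0), map_zero,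
      zero_pow (show p - 1 ≠ 0 by omega), zero_pow (show p ≠ 0 by omega), zero_mul] at this
    simpa using this
  have h6 : x * b'' - d * DD p v a1 = 0 := by
    refine xx_pow_mul_eq_zero hf (p - 1) ?_
    rw [← h4, h5, ← hx, mul_sub, ← mul_assoc, ← pow_succ, show p - 1 + 1 = p by omega]
    noncomm_ring
  have h7 : DD p v a1 = 0 := by
    have := congrArg (zx ι (prj f y)) h6
    simp only [map_sub, map_mul, hzx0, hzx _ (hDR _ ha1'), map_zero, zero_mul, hd, zx_dd, zero_sub,
      neg_eq_zero] at this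
    have := congrArg (con ι f) this
    rw [(con_isOdd f).der, hcon _ (hDR _ ha1'), con_dd, hf] at this
    simpa using this
  have h8 : b'' = 0 := by
    rw [h7, mul_zero, sub_zero] at h6
    exact xx_mul_eq_zero hf h6
  refine ⟨hh ι σ ((EE p v σ ^ (p - 2)) a) + κ * b,
    Submodule.add_mem _ hb1 (Fil_mul hκΩ (hΩ'Ω hb) le_rfl), a0, ha0, a1, ha1', h5, h7, ?_⟩
  rw [map_add, ← he, h2, h8]
  noncomm_ring

theorem base_case [FiniteDimensional K E] [Fintype ι] [DecidableEq ι] (hK : ∀ r : K, r ^ p = r)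
    (n : ℕ) : ∀ (X : Finset ι), X.card = n → ∀ (T : Submodule K E) (v : ι → E),
      Submodule.span K (v '' X) = T → ∀ t, p * (2 * Module.finrank K T + n) < t →
      ∀ a ∈ Fil K (gens T (X : Set ι)) 0 0, a ∈ Hom (tau K E ι p) t → DD p v a = 0 →
        ∃ b ∈ Fil K (gens T (X : Set ι)) 0 0, DD p v b = a := by
  induction n using Nat.strong_induction_on with
  | _ n ih =>
  intro X hX T v hT t ht a ha hat hD
  by_cases h0 : ∀ i ∈ X, v i = 0
  · have hT0 : T = ⊥ := by
      rw [← hT, Submodule.span_eq_bot]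
      rintro _ ⟨i, hi, rfl⟩
      exact h0 i hi
    have h1 : a ∈ Fil K {g | ∃ i ∈ X, g = .k i} 0 0 := by
      refine Fil_le (fun g hg => ?_) 0 ha
      cases g with
      | x e =>
        have : e = 0 := by simpa [hT0] using hg
        simp [this]
      | d e =>
        have : e = 0 := by simpa [hT0] using hg
        simp [this]
      | k i => exact gen_mem_Fil ⟨i, hg, rfl⟩ le_rfl
    have h2 := cp_Sp (G := tau K E ι p) (w := wT p) (fun _ _ g _ => gen_tau p g) t h1
    rw [cp_self hat] at h2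
    refine ⟨0, Submodule.zero_mem _, ?_⟩
    rw [map_zero]
    refine Sp_ext 0 LinearMap.id (fun l hl => ?_) h2
    by_contra hne
    have h3 := wt_le_sum (K := K) (fun i => (.k i : Gen E ι)) (fun _ => trivial)
      (fun i => if i ∈ X then p else 0) (w := wT p) (l := l) (fun h => hne (by simp [h]))
      (fun g hg => by
        obtain ⟨i, hi, rfl⟩ := hl.1.1 g hg
        exact Or.inr ⟨i, rfl, by simp [hi, wT]⟩)
    simp only [Finset.sum_ite_mem, Finset.univ_inter, Finset.sum_const, smul_eq_mul, hX,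
      hl.2] at h3
    nlinarith
  push Not at h0
  obtain ⟨i, hi, hy0⟩ := h0
  obtain ⟨f, hf, -⟩ := exists_functional (K := K) (S := ⊥) (y := v i) (by simpa using hy0)
  have hvT : ∀ j ∈ X, v j ∈ T := fun j hj => hT ▸ Submodule.subset_span ⟨j, hj, rfl⟩
  let π := prj f (v i)
  let v' : ι → E := fun j => if j = i then v i else π (v j)
  have hv'i : v' i = v i := by simp [v']
  let T' := T.map π
  have hlt : T' < T := prj_map_lt hf (hvT i hi)
  have hXe : (X : Set ι) = insert i (X.erase i : Set ι) := by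
    rw [← Finset.coe_insert, Finset.insert_erase hi]
  have hT' : Submodule.span K (v' '' (X.erase i)) = T' := by
    apply le_antisymm
    · rw [Submodule.span_le]
      rintro _ ⟨j, hj, rfl⟩
      have hj' := Finset.mem_erase.1 (Finset.mem_coe.1 hj)
      simp only [v', if_neg hj'.1]
      exact Submodule.mem_map_of_mem (hvT j hj'.2)
    · simp only [T']
      rw [← hT, Submodule.map_span, Submodule.span_le]
      rintro _ ⟨_, ⟨j, hj, rfl⟩, rfl⟩
      by_cases hji : j = i
      · subst hji; simp [π, prj_self hf]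
      · exact Submodule.subset_span ⟨j, by simpa [hji] using hj, by simp [v', hji]⟩
  let α : Om K E ι →ₐ[K] Om K E ι := endo LinearMap.id LinearMap.id
    (fun j => if j = i then kk K E i else kk K E j - f (v j) • kk K E i) (fun j => by
      split_ifs
      exacts [kk_mem_O1 i, Submodule.sub_mem _ (kk_mem_O1 j) (Submodule.smul_mem _ _ (kk_mem_O1 i))])
  let β : Om K E ι →ₐ[K] Om K E ι := endo LinearMap.id LinearMap.id
    (fun j => if j = i then kk K E i else kk K E j + f (v j) • kk K E i) (fun j => by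
      split_ifs
      exacts [kk_mem_O1 i, Submodule.add_mem _ (kk_mem_O1 j) (Submodule.smul_mem _ _ (kk_mem_O1 i))])
  have hαβ : ∀ c, α (β c) = c := alg_ext (α.comp β) (AlgHom.id K _) (fun g => by
    cases g with
    | x e => simp [α, β]
    | d e => simp [α, β]
    | k j => by_cases h : j = i <;> simp [α, β, h])
  have hβα : ∀ c, β (α c) = c := alg_ext (β.comp α) (AlgHom.id K _) (fun g => by
    cases g with
    | x e => simp [α, β]
    | d e => simp [α, β]
    | k j => by_cases h : j = i <;> simp [α, β, h])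
  have hDα : ∀ c, DD p v (α c) = α (DD p v' c) := by
    intro c
    have := der_zero_all ((DD p v).comp α.toLinearMap - α.toLinearMap.comp (DD p v'))
      (fun c => par (α c)) α (fun a b => by
        simp only [LinearMap.sub_apply, LinearMap.comp_apply, AlgHom.toLinearMap_apply, map_mul,
          (DD_isOdd p v).der _ _, (DD_isOdd p v').der _ _, map_add, α, endo_par]
        noncomm_ring)
      (by simp [(DD_isOdd (K := K) p v).der.one, (DD_isOdd (K := K) p v').der.one])
      (fun g => by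
        cases g with
        | x e => simp [α]
        | d e => simp [α]
        | k j =>
          by_cases h : j = i
          · simp [α, h, v']
          · have h1 := xx_add_pow (K := K) (ι := ι) p (π (v j)) (f (v j) • v i)
            rw [show π (v j) + f (v j) • v i = v j by simp [π, prj_apply], map_smul, smul_pow,
              hK] at h1
            simp [α, h, v', h1]) c
    simpa [sub_eq_zero] using this
  have hFil : ∀ φ : Om K E ι →ₐ[K] Om K E ι, (φ = α ∨ φ = β) →
      (∀ c ∈ Fil K (gens T (X : Set ι)) 0 0, φ c ∈ Fil K (gens T (X : Set ι)) 0 0) ∧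
      ∀ g, φ (gen K g) ∈ Hom (tau K E ι p) (wT p g) := by
    intro φ hφ
    have h1 : ∀ U : Submodule K (Om K E ι), ∀ j, kk K E i ∈ U → kk K E j ∈ U →
        φ (kk K E j) ∈ U := by
      intro U j h1 h2
      rcases hφ with rfl | rfl
      · simp only [α, endo_kk]
        split_ifs
        exacts [h1, U.sub_mem h2 (U.smul_mem _ h1)]
      · simp only [β, endo_kk]
        split_ifs
        exacts [h1, U.add_mem h2 (U.smul_mem _ h1)]
    have h2 : ∀ e, φ (xx (K := K) ι e) = xx (K := K) ι e := by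
      intro e; rcases hφ with rfl | rfl <;> simp [α, β]
    have h3 : ∀ e, φ (dd (K := K) ι e) = dd (K := K) ι e := by
      intro e; rcases hφ with rfl | rfl <;> simp [α, β]
    refine ⟨fun c hc => Fil_map φ (fun g hg => ?_) hc, fun g => ?_⟩
    · cases g with
      | x e => rw [gen_x, h2]; exact gen_mem_Fil (g := .x e) hg le_rfl
      | d e => rw [gen_d, h3]; exact gen_mem_Fil (g := .d e) hg le_rfl
      | k j =>
        exact h1 _ j (gen_mem_Fil (g := .k i) hi le_rfl) (gen_mem_Fil (g := .k j) hg le_rfl)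
    · cases g with
      | x e => rw [gen_x, h2]; exact xx_tau p e
      | d e => rw [gen_d, h3]; exact dd_tau p e
      | k j => exact h1 _ j (kk_tau p i) (kk_tau p j)
  have ha' := (hFil β (Or.inr rfl)).1 a ha
  have hat' := alg_tau p β (hFil β (Or.inr rfl)).2 hat
  have hD' : DD p v' (β a) = 0 := by rw [← hβα (DD p v' (β a)), ← hDα, hαβ, hD, map_zero]
  have hv'T : ∀ j ∈ (X.erase i : Set ι), v' j ∈ T' := fun j hj =>
    hT' ▸ Submodule.subset_span ⟨j, hj, rfl⟩
  obtain ⟨b, hb, a0, ha0, a1, ha1, hD0, hD1, hab⟩ := base_step p hK (T := T) (T' := T')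
    (X := (X.erase i : Set ι)) (i := i) (by simp) (v := v') (f := f) (by rw [hv'i, hf])
    (by rw [hv'i]; exact hvT i hi) hlt.le
    (by rintro _ ⟨e, _, rfl⟩; simp [π, prj_apply, hf])
    (fun e he => by rw [hv'i]; exact Submodule.mem_map_of_mem he) hv'T (hXe ▸ ha') hD'
  rw [← hXe] at hb
  have hdim : Module.finrank K T' < Module.finrank K T := Submodule.finrank_lt_finrank_of_lt hlt
  have hn : 0 < n := hX ▸ Finset.card_pos.2 ⟨i, hi⟩
  have hcard : (X.erase i).card = n - 1 := by rw [Finset.card_erase_of_mem hi, hX]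
  have hineq : p * (2 * Module.finrank K T' + (n - 1)) + 3 * p
      ≤ p * (2 * Module.finrank K T + n) := by
    rw [mul_comm 3 p, ← mul_add]
    exact Nat.mul_le_mul_left _ (by omega)
  obtain ⟨t', rfl⟩ : ∃ t', t = t' + 3 * p := ⟨t - 3 * p, by omega⟩
  have hcl : ∀ k c, DD p v' c = 0 → DD p v' (cp (tau K E ι p) k c) = 0 := fun k c hc => by
    rw [← cp_tau_DD, hc, map_zero]
  obtain ⟨e0, he0, he0'⟩ := ih (n - 1) (by omega) _ hcard T' v' hT' (t' + 3 * p) (by omega) _
    (cp_tau_Sp p _ ha0) (cp_tau_Hom p _ _) (hcl _ _ hD0)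
  obtain ⟨e1, he1, he1'⟩ := ih (n - 1) (by omega) _ hcard T' v' hT' t' (by omega) _
    (cp_tau_Sp p _ ha1) (cp_tau_Hom p _ _) (hcl _ _ hD1)
  obtain ⟨b', hb', hb'', -⟩ := exists_cp_DD p v' _ (fun k c hc => cp_tau_Sp p k hc) (t' + 3 * p) hb
  have hsub : Fil K (gens T' (X.erase i : Set ι)) 0 0 ≤ Fil K (gens T (X : Set ι)) 0 0 :=
    Fil_le_zero (gens_mono hlt.le (by simp))
  have htop : xx (K := K) ι (v' i) ^ (p - 1) * dd (K := K) ι (v' i)
      ∈ Fil K (gens T (X : Set ι)) 0 0 := by
    have hy : v' i ∈ T := by rw [hv'i]; exact hvT i hi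
    exact Fil_mul (pow_mem_Fil (gen_mem_Fil (g := .x (v' i)) hy le_rfl) _)
      (gen_mem_Fil (g := .d (v' i)) hy le_rfl) (Nat.zero_le _)
  refine ⟨α (b' + e0 - xx (K := K) ι (v' i) ^ (p - 1) * dd (K := K) ι (v' i) * e1),
    (hFil α (Or.inl rfl)).1 _ (Submodule.sub_mem _ (Submodule.add_mem _ hb' (hsub he0))
      (Fil_mul htop (hsub he1) le_rfl)), ?_⟩
  rw [hDα, ← hαβ a]
  congr 1
  rw [← cp_self hat', hab, map_add, map_add, hb'', cp_Hom_mul (top_tau p _), ← he0', ← he1',
    map_sub, map_add, (DD_isOdd p v').der (_ * _), DD_top, map_mul, map_pow, par_xx, par_dd]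
  simp

end

end Pool.Agent.AJT
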