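import Pool.Agent.MP_79429d_co.J8

/-! The graded piece along a subspace: definitions, slices and lifting. -/

set_option autoImplicit false

namespace Pool.Agent.AJT

open TensorProduct

variable {K E ι : Type} [Field K] [AddCommGroup E] [Module K E] [Fintype ι] [DecidableEq ι]

/-- Intermediate complexes. -/
noncomputable def FF (T : Submodule K E) (X : Set ι) (v : ι → E) (c : ι → ℕ) (y : ι)
    (C : Set (Submodule K E)) : Submodule K (Om K E ι) :=
  KK T X v c ⊓ ⨅ S : Submodule K E, ⨅ _ : S ∈ C,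
    Fil K (gens T X) (ws S v (c + Pi.single y 1)) (mass S v (c + Pi.single y 1))

theorem mem_FF {T : Submodule K E} {X : Set ι} {v : ι → E} {c : ι → ℕ} {y : ι}
    {C : Set (Submodule K E)} {a : Om K E ι} : a ∈ FF T X v c y C ↔ a ∈ KK T X v c ∧
      ∀ S ∈ C, a ∈ Fil K (gens T X) (ws S v (c + Pi.single y 1))
        (mass S v (c + Pi.single y 1)) := by
  simp [FF, Submodule.mem_iInf]

omit [DecidableEq ι] in
theorem KK_stable {T : Submodule K E} {X : Set ι} {v : ι → E} {c : ι → ℕ}
    {Φ : Om K E ι → Om K E ι}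
    (h : ∀ S ≤ T, ∀ k, ∀ a ∈ Fil K (gens T X) (ws S v c) k, Φ a ∈ Fil K (gens T X) (ws S v c) k)
    {a : Om K E ι} (ha : a ∈ KK T X v c) : Φ a ∈ KK T X v c :=
  mem_KK.2 fun S hS => h S hS _ _ (mem_KK.1 ha S hS)

theorem FF_stable {T : Submodule K E} {X : Set ι} {v : ι → E} {c : ι → ℕ} {y : ι}
    {C : Set (Submodule K E)} {Φ : Om K E ι → Om K E ι}
    (h : ∀ S : Submodule K E, ∀ c0, (c0 = c ∨ c0 = c + Pi.single y 1) → ∀ k,
      ∀ a ∈ Fil K (gens T X) (ws S v c0) k, Φ a ∈ Fil K (gens T X) (ws S v c0) k)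
    {a : Om K E ι} (ha : a ∈ FF T X v c y C) : Φ a ∈ FF T X v c y C :=
  mem_FF.2 ⟨KK_stable (fun S _ => h S c (Or.inl rfl)) (mem_FF.1 ha).1,
    fun S hS => h S _ (Or.inr rfl) _ _ ((mem_FF.1 ha).2 S hS)⟩

omit [DecidableEq ι] in
theorem KK_le_zero {T : Submodule K E} {X : Set ι} {v : ι → E} {c : ι → ℕ} :
    KK T X v c ≤ Fil K (gens T X) 0 0 := fun _ ha => Fil_le_zero subset_rfl (mem_KK.1 ha ⊥ bot_le)

/-- Homogeneous generators for a splitting. -/
def hgens (T S : Submodule K E) (σ : E →ₗ[K] E) (X : Set ι) : Set (Gen E ι) :=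
  {g | match g with
    | .x e => e ∈ S ∨ (e ∈ T ∧ σ e = 0)
    | .d e => e ∈ S ∨ (e ∈ T ∧ σ e = 0)
    | .k i => i ∈ X}

open Classical in
/-- Left generators. -/
noncomputable def isL (S : Submodule K E) (v : ι → E) : Gen E ι → Bool
  | .x e => decide (e ∈ S)
  | .d e => decide (e ∈ S)
  | .k i => decide (v i ∈ S)

/-- A splitting of the space along `S`. -/
structure Spl (T S : Submodule K E) (σ : E →ₗ[K] E) : Prop where
  le : S ≤ T
  mem : ∀ e, σ e ∈ S
  fix : ∀ e ∈ S, σ e = e

/-- The grading along `S`. -/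
noncomputable def gS (S : Submodule K E) (σ : E →ₗ[K] E) (v : ι → E) (c : ι → ℕ) :
    Om K E ι →ₐ[K] Polynomial (Om K E ι) := grad σ 1 1 (fun i => ws S v c (.k i))

open Classical in
/-- Masses outside `S`. -/
noncomputable def cOut (S : Submodule K E) (v : ι → E) (c : ι → ℕ) : ι → ℕ :=
  fun i => if v i ∈ S then 0 else c i

/-- The left factor. -/
noncomputable def YY (S : Submodule K E) (σ : E →ₗ[K] E) (X : Set ι) (v : ι → E) (c : ι → ℕ)
    (y : ι) : Submodule K (Om K E ι) :=
  Hom (gS S σ v (c + Pi.single y 1)) (mass S v c) ⊓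
    FF S {i ∈ X | v i ∈ S} v c y {S' | S' < S ∧ v y ∈ S'}

/-- The right factor. -/
noncomputable def WW (T S : Submodule K E) (σ : E →ₗ[K] E) (X : Set ι) (v : ι → E) (c : ι → ℕ) :
    Submodule K (Om K E ι) :=
  KK (T.map (LinearMap.id - σ)) {i ∈ X | v i ∉ S} (fun i => (LinearMap.id - σ : E →ₗ[K] E) (v i))
    (cOut S v c)

section
variable {T S : Submodule K E} {σ : E →ₗ[K] E} {X : Set ι} {v : ι → E}

omit [Fintype ι] [DecidableEq ι] in
theorem hgens_subset (h : Spl T S σ) : hgens T S σ X ⊆ gens T X := by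
  intro g hg
  cases g with
  | x e => rcases hg with h' | h'; exacts [h.le h', h'.1]
  | d e => rcases hg with h' | h'; exacts [h.le h', h'.1]
  | k i => exact hg

omit [Fintype ι] [DecidableEq ι] in
theorem Fil_le_hgens (h : Spl T S σ) {S' : Submodule K E} (hS' : ∀ e ∈ T, e ∈ S' → σ e ∈ S')
    (c : ι → ℕ) (k : ℕ) :
    Fil K (gens T X) (ws S' v c) k ≤ Fil K (hgens T S σ X) (ws S' v c) k := by
  refine Fil_le (fun g hg => ?_) k
  have h1 : ∀ e ∈ T, e - σ e ∈ T ∧ σ (e - σ e) = 0 := fun e he =>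
    ⟨T.sub_mem he (h.le (h.mem e)), by rw [map_sub, h.fix _ (h.mem e), sub_self]⟩
  cases g with
  | x e =>
    have : gen K (.x e : Gen E ι) = gen K (.x (σ e)) + gen K (.x (e - σ e)) := by simp
    rw [this]
    refine Submodule.add_mem _ (gen_mem_Fil (Or.inl (h.mem e)) ?_)
      (gen_mem_Fil (Or.inr (h1 e hg)) ?_)
    · simp only [ws_x]
      by_cases h' : e ∈ S'
      · simp [h', hS' e hg h']
      · simp [h']
    · simp only [ws_x]
      by_cases h' : e ∈ S'
      · simp [h', S'.sub_mem h' (hS' e hg h')]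
      · simp [h']
  | d e =>
    have : gen K (.d e : Gen E ι) = gen K (.d (σ e)) + gen K (.d (e - σ e)) := by simp
    rw [this]
    refine Submodule.add_mem _ (gen_mem_Fil (Or.inl (h.mem e)) ?_)
      (gen_mem_Fil (Or.inr (h1 e hg)) ?_)
    · simp only [ws_d]
      by_cases h' : e ∈ S'
      · simp [h', hS' e hg h']
      · simp [h']
    · simp only [ws_d]
      by_cases h' : e ∈ S'
      · simp [h', S'.sub_mem h' (hS' e hg h')]
      · simp [h']
  | k i => exact gen_mem_Fil hg le_rfl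

omit [Fintype ι] [DecidableEq ι] in
theorem hgens_Hom (h : Spl T S σ) (c : ι → ℕ) :
    ∀ g ∈ hgens T S σ X, gen K g ∈ Hom (gS S σ v c) (ws S v c g) := by
  intro g hg
  cases g with
  | x e =>
    rw [ws_x]
    split_ifs with h'
    · exact xx_Hom_left _ _ _ _ (h.fix e h')
    · exact xx_Hom_right _ _ _ _ (hg.resolve_left h').2
  | d e =>
    rw [ws_d]
    split_ifs with h'
    · exact dd_Hom_left _ _ _ _ (h.fix e h')
    · exact dd_Hom_right _ _ _ _ (hg.resolve_left h').2
  | k i => exact kk_Hom _ _ _ (fun i => ws S v c (.k i)) i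

omit [Fintype ι] [DecidableEq ι] in
theorem hgens_split (h : Spl T S σ) : ∀ g ∈ hgens T S σ X,
    (isL S v g = true → gR σ {i | v i ∈ S} g = 0) ∧
      (isL S v g = false → gL σ {i | v i ∈ S} g = 0) := by
  intro g hg
  cases g with
  | x e =>
    simp only [isL, decide_eq_true_eq, decide_eq_false_iff_not, gR, gL]
    exact ⟨fun h' => by simp [h.fix e h'], fun h' => by simp [(hg.resolve_left h').2]⟩
  | d e =>
    simp only [isL, decide_eq_true_eq, decide_eq_false_iff_not, gR, gL]
    exact ⟨fun h' => by simp [h.fix e h'], fun h' => by simp [(hg.resolve_left h').2]⟩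
  | k i =>
    simp only [isL, decide_eq_true_eq, decide_eq_false_iff_not, gR, gL]
    exact ⟨fun h' => by simp [h'], fun h' => by simp [h']⟩

omit [Fintype ι] [DecidableEq ι] in
theorem left_mem {g : Gen E ι} (hg : g ∈ hgens T S σ X) (hq : isL S v g = true) :
    g ∈ gens S {i ∈ X | v i ∈ S} := by
  cases g with
  | x e => simpa [isL] using hq
  | d e => simpa [isL] using hq
  | k i => exact ⟨hg, by simpa [isL] using hq⟩

omit [Fintype ι] [DecidableEq ι] in
theorem right_mem {g : Gen E ι} (hg : g ∈ hgens T S σ X) (hq : isL S v g = false) :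
    g ∈ gens (T.map (LinearMap.id - σ)) {i ∈ X | v i ∉ S} := by
  cases g with
  | x e =>
    have := hg.resolve_left (by simpa [isL] using hq)
    exact ⟨e, this.1, by simp [this.2]⟩
  | d e =>
    have := hg.resolve_left (by simpa [isL] using hq)
    exact ⟨e, this.1, by simp [this.2]⟩
  | k i => exact ⟨hg, by simpa [isL] using hq⟩

omit [Fintype ι] [DecidableEq ι] in
theorem ws_right {S' : Submodule K E} (hS' : S' ≤ S) (c : ι → ℕ) {g : Gen E ι}
    (hq : isL S v g = false) : ws S' v c g = 0 := by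
  cases g with
  | x e => exact if_neg fun h => by simp [isL, hS' h] at hq
  | d e => exact if_neg fun h => by simp [isL, hS' h] at hq
  | k i => exact if_neg fun h => by simp [isL, hS' h] at hq

omit [Fintype ι] [DecidableEq ι] in
theorem wt_left {S' : Submodule K E} (hS' : S' ≤ S) (c : ι → ℕ) (l : List (Gen E ι)) :
    wt (ws S' v c) l = wt (ws S' v c) (l.filter (isL S v)) := by
  rw [wt_filter _ (isL S v), wt_eq_zero (l := l.filter fun g => !isL S v g), add_zero]
  intro g hg
  exact ws_right hS' c (by simpa using (List.mem_filter.1 hg).2)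

omit [Fintype ι] [DecidableEq ι] in
theorem rsl_Fil (h : Spl T S σ) {S' : Submodule K E} (hS' : S' ≤ S) (c0 c1 : ι → ℕ) (k m : ℕ)
    {a : Om K E ι} (ha : a ∈ Fil K (gens T X) (ws S' v c0) k) (f : Om K E ι →ₗ[K] K) :
    rsl f (nu σ {i | v i ∈ S} (cp (gS S σ v c1) m a))
      ∈ Hom (gS S σ v c1) m ⊓ Fil K (gens S {i ∈ X | v i ∈ S}) (ws S' v c0) k := by
  have h1 := cp_Sp (G := gS S σ v c1) (w := ws S v c1)
    (fun l hl g hg => hgens_Hom h c1 g (hl.1 g hg)) m
    (Fil_le_hgens h (fun e _ he => by rwa [h.fix e (hS' he)]) c0 k ha)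
  refine rsl_nu_mem σ _ (isL S v) (fun l hl g hg => hgens_split h g (hl.1.1 g hg))
    (fun l hl => Submodule.mem_inf.2 ⟨?_, pr_mem_Sp ⟨fun g hg => ?_, ?_⟩⟩) h1 f
  · rw [← hl.2, wt_left le_rfl]
    exact pr_Hom _ fun g hg => hgens_Hom h c1 g (hl.1.1 g (List.mem_filter.1 hg).1)
  · exact left_mem (hl.1.1 g (List.mem_filter.1 hg).1) (List.mem_filter.1 hg).2
  · rw [← wt_left hS']; exact hl.1.2

theorem nu_mem_TS (h : Spl T S σ) {c : ι → ℕ} (hc : ∀ i, c i ≠ 0 → v i ∈ T) {y : ι}
    {C : Set (Submodule K E)} (hC : ∀ S' < S, v y ∈ S' → S' ∈ C) {a : Om K E ι}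
    (ha : a ∈ FF T X v c y C) :
    nu σ {i | v i ∈ S} (cp (gS S σ v (c + Pi.single y 1)) (mass S v c) a)
      ∈ TS (YY S σ X v c y) (WW T S σ X v c) := by
  obtain ⟨ha1, ha2⟩ := mem_FF.1 ha
  rw [mem_KK] at ha1
  refine mem_TS_of_slices (fun f => ⟨(rsl_Fil h le_rfl _ _ _ _ (ha1 S h.le) f).1, mem_FF.2
    ⟨mem_KK.2 fun S' hS' => (rsl_Fil h hS' _ _ _ _ (ha1 S' (hS'.trans h.le)) f).2,
      fun S' hS' => (rsl_Fil h hS'.1.le _ _ _ _ (ha2 S' (hC S' hS'.1 hS'.2)) f).2⟩⟩)
    (fun f => mem_KK.2 fun S'' _ => ?_)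
  let π : E →ₗ[K] E := LinearMap.id - σ
  have hπ : ∀ e ∈ S, π e = 0 := fun e he => by simp [π, h.fix e he]
  let S' := S''.comap π ⊓ T
  have hSS' : S ≤ S' := fun e he => ⟨by simp [hπ e he], h.le he⟩
  have h1 := cp_Sp (G := gS S σ v (c + Pi.single y 1)) (w := ws S v (c + Pi.single y 1))
    (fun l hl g hg => hgens_Hom h _ g (hl.1 g hg)) (mass S v c)
    (Fil_le_hgens h (fun e _ _ => hSS' (h.mem e)) c _ (ha1 S' inf_le_right))
  refine lsl_nu_mem σ _ (isL S v) (fun l hl g hg => hgens_split h g (hl.1.1 g hg))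
    (fun l hl => pr_mem_Sp ⟨fun g hg => ?_, ?_⟩) h1 f
  · exact right_mem (hl.1.1 g (List.mem_filter.1 hg).1) (by simpa using (List.mem_filter.1 hg).2)
  · have h2 := hl.1.2
    have h3 := hl.2
    rw [wt_filter _ (isL S v)] at h2
    rw [wt_left le_rfl] at h3
    have h4 : wt (ws S' v c) (l.filter (isL S v))
        ≤ wt (ws S v (c + Pi.single y 1)) (l.filter (isL S v)) := by
      refine wt_le fun g hg => ?_
      have hq := (List.mem_filter.1 hg).2
      cases g with
      | x e =>
        have : e ∈ S := by simpa [isL] using hq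
        simp [ws_x, this, hSS' this]
      | d e =>
        have : e ∈ S := by simpa [isL] using hq
        simp [ws_d, this, hSS' this]
      | k i =>
        have : v i ∈ S := by simpa [isL] using hq
        simp [ws_k, this, hSS' this]
    have h5 : wt (ws S' v c) (l.filter fun g => !isL S v g)
        ≤ wt (ws S'' (fun i => π (v i)) (cOut S v c)) (l.filter fun g => !isL S v g) := by
      refine wt_le fun g hg => ?_
      have hq : isL S v g = false := by simpa using (List.mem_filter.1 hg).2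
      have hg' := hl.1.1 g (List.mem_filter.1 hg).1
      cases g with
      | x e =>
        have h6 := (hg'.resolve_left (by simpa [isL] using hq)).2
        simp only [ws_x]
        by_cases h' : e ∈ S'
        · have : e ∈ S'' := by simpa [π, h6] using h'.1
          simp [h', this]
        · simp [h']
      | d e =>
        have h6 := (hg'.resolve_left (by simpa [isL] using hq)).2
        simp only [ws_d]
        by_cases h' : e ∈ S'
        · have : e ∈ S'' := by simpa [π, h6] using h'.1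
          simp [h', this]
        · simp [h']
      | k i =>
        have h6 : v i ∉ S := by simpa [isL] using hq
        simp only [ws_k, cOut]
        by_cases h' : v i ∈ S'
        · have : π (v i) ∈ S'' := h'.1
          simp [h', this, h6]
        · simp [h']
    have h6 : mass S v c + mass S'' (fun i => π (v i)) (cOut S v c) ≤ mass S' v c := by
      unfold mass cOut
      rw [← Finset.sum_add_distrib]
      refine Finset.sum_le_sum fun i _ => ?_
      by_cases h7 : v i ∈ S
      · simp [h7, hSS' h7]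
      · by_cases h8 : π (v i) ∈ S''
        · by_cases h9 : c i = 0
          · simp [h9]
          · have : v i ∈ S' := ⟨h8, hc i h9⟩
            simp [h7, h8, this]
        · simp [h7, h8]
    change mass S'' (fun i => π (v i)) (cOut S v c) ≤ wt (ws S'' (fun i => π (v i)) (cOut S v c)) _
    omega

theorem mu_mem_map [NeZero (2 : K)] [FiniteDimensional K E] (h : Spl T S σ) {c : ι → ℕ}
    (hc : ∀ i, c i ≠ 0 → v i ∈ T) {y : ι} (hy : v y ∈ S)
    {C : Set (Submodule K E)} (hC : ∀ S' ∈ C, S' ≤ T ∧ v y ∈ S' ∧ ¬ S ≤ S')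
    {t : Om K E ι ⊗[K] Om K E ι} (ht : t ∈ TS (YY S σ X v c y) (WW T S σ X v c)) :
    mu t ∈ (FF T X v c y C).map (cp (gS S σ v (c + Pi.single y 1)) (mass S v c)) := by
  refine TS_map mu (fun z hz a ha => ?_) ht
  obtain ⟨b, hb, hb'⟩ := lift_KK T v (LinearMap.id - σ) _ (cOut S v c) (fun i hi => hc i (by
    intro h0; simp [cOut, h0] at hi)) a ha
  obtain ⟨hz0, hz1⟩ := hz
  obtain ⟨hz1, hz2⟩ := mem_FF.1 hz1
  rw [mem_KK] at hz1 hb
  have key : ∀ S' ≤ T, ∀ c0, c ≤ c0 → (∀ i, v i ∉ S → c0 i = c i) →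
      z ∈ Fil K (gens S {i ∈ X | v i ∈ S}) (ws (S' ⊓ S) v c0) (mass (S' ⊓ S) v c0) →
      z * b ∈ Fil K (gens T X) (ws S' v c0) (mass S' v c0) := by
    intro S' hS' c0 hc0 hc0' hz
    refine Fil_mul (Fil_mono (gens_mono h.le (fun i hi => hi.1)) (fun g _ => ?_) le_rfl hz)
      (Fil_mono (gens_mono le_rfl (fun i hi => hi.1)) (fun g _ => ?_) le_rfl (hb S' hS')) ?_
    · cases g with
      | x e => simp only [ws_x]; split_ifs with h1 h2 <;> simp_all
      | d e => simp only [ws_d]; split_ifs with h1 h2 <;> simp_all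
      | k i => simp only [ws_k]; split_ifs with h1 h2 <;> simp_all
    · cases g with
      | x e => exact le_rfl
      | d e => exact le_rfl
      | k i =>
        have := hc0 i
        simp only [ws_k, cOut]; split_ifs <;> omega
    · unfold mass cOut
      rw [← Finset.sum_add_distrib]
      refine Finset.sum_le_sum fun i _ => ?_
      by_cases h1 : v i ∈ S'
      · by_cases h2 : v i ∈ S
        · simp [h1, h2]
        · simp [h1, h2, hc0' i h2]
      · simp [h1]
  refine ⟨z * b, mem_FF.2 ⟨mem_KK.2 fun S' hS' =>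
    key S' hS' c le_rfl (fun _ _ => rfl) (hz1 _ inf_le_right), fun S' hS' => ?_⟩, ?_⟩
  · obtain ⟨h1, h2, h3⟩ := hC S' hS'
    refine key S' h1 _ (fun i => by simp) (fun i hi => ?_) (hz2 _ ⟨?_, h2, hy⟩)
    · have : i ≠ y := fun h => hi (h ▸ hy)
      simp [this]
    · exact lt_of_le_of_ne inf_le_right fun h => h3 (h ▸ inf_le_left)
  · have h1 := cp_Hom_mul hz0 0 b
    rw [zero_add] at h1
    rw [h1, mu_tmul, ← hb']
    congr 1
    refine Sp_ext _ (push ι (LinearMap.id - σ)).toLinearMap (fun l hl => ?_) (hb ⊥ bot_le)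
    have hl' := hl.1
    clear hl
    simp only [cp_apply, AlgHom.toLinearMap_apply]
    induction l with
    | nil => simp
    | cons g l ih =>
      rw [pr_cons, map_mul, map_mul, Polynomial.mul_coeff_zero,
        ih fun g' hg' => hl' g' (by simp [hg'])]
      congr 1
      have hg := hl' g (by simp)
      cases g with
      | x e => simp [gS, grad_xx, Polynomial.coeff_monomial]
      | d e => simp [gS, grad_dd, Polynomial.coeff_monomial]
      | k i => simp [gS, grad_kk, ws_k, hg.2]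

omit [Fintype ι] [DecidableEq ι] in
theorem cp_DD (p : ℕ) [Fact p.Prime] [CharP K p] (h : Spl T S σ)
    {c : ι → ℕ} (hc : ∀ i, c i < p) {m : ℕ} {a : Om K E ι}
    (ha : a ∈ Fil K (gens T X) (ws S v c) m) :
    cp (gS S σ v c) m (DD p v a)
      = DD p (fun i => (LinearMap.id - σ : E →ₗ[K] E) (v i)) (cp (gS S σ v c) m a) := by
  set u : ι → E := fun i => (LinearMap.id - σ : E →ₗ[K] E) (v i) with hu
  have hp := (Fact.out : p.Prime).pos
  have hodd : IsOdd (DD (K := K) p v - DD p u) :=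
    ⟨fun a b => by
      simp only [LinearMap.sub_apply, (DD_isOdd p v).der _ _, (DD_isOdd p u).der _ _]
      noncomm_ring,
    fun a => by
      simp only [LinearMap.sub_apply, (DD_isOdd p v).anti, (DD_isOdd p u).anti, map_sub]
      abel⟩
  have h1 : (DD (K := K) p v - DD p u : Om K E ι →ₗ[K] Om K E ι) a ∈ Fil K (gens T X) (ws S v c) (m + 1) := by
    refine Fil_odd hodd 1 0 (fun g hg => ?_) ha
    cases g with
    | x e => simp
    | d e => simp
    | k i =>
      have h2 := xx_add_pow (K := K) (ι := ι) p (σ (v i)) (u i)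
      rw [show σ (v i) + u i = v i by simp [hu]] at h2
      simp only [gen_k, LinearMap.sub_apply, DD_kk, h2, add_sub_cancel_right]
      refine Fil_anti ?_ (pow_mem_Fil (xx_mem_Fil (h.le (h.mem _)) le_rfl (Or.inr (h.mem _))) p)
      have := hc i
      rw [ws_k]; split_ifs <;> omega
  have h2 := cp_Fil_succ (hgens_Hom h c) (Fil_le_hgens h (fun e _ _ => h.mem e) c _ h1)
  rw [LinearMap.sub_apply, map_sub, sub_eq_zero] at h2
  rw [h2]
  refine cp_lin (w := ws S v c) (DD p u) 0 (fun l hl => ?_) m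
    (Fil_le_hgens h (fun e _ _ => h.mem e) c _ ha)
  refine ⟨pr_Hom l fun g hg => hgens_Hom h c g (hl.1 g hg), der_pr_Hom (DD_isOdd p u).der 0 l
    fun g hg => ⟨hgens_Hom h c g (hl.1 g hg), par_Hom_gen (hgens_Hom h c g (hl.1 g hg)), ?_⟩⟩
  have hg' := hl.1 g hg
  cases g with
  | x e => rw [gen_x, DD_xx]; exact hgens_Hom (X := X) h c (.d e) hg'
  | d e => simp
  | k i =>
    rw [gen_k, DD_kk, ws_k]
    split_ifs with h'
    · simp [hu, h.fix _ h', hp.ne']
    · simpa [gS] using Hom_pow (xx_Hom_right (ι := ι) σ 1 1 (fun i => ws S v c (.k i)) (e := u i)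
        (by simp [hu, h.fix _ (h.mem _)])) p

end

end Pool.Agent.AJT
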