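import Mathlib

/-!
The free super-commutative algebra on even generators `x e`, odd generators `d e`, `κ u`,
its universal property, parity, and odd derivations.
-/

set_option autoImplicit false

namespace Pool.Agent.MP_79429d_co.KD

open scoped TensorProduct

noncomputable section

variable (K : Type) [Field K] (E N : Type) [AddCommGroup E] [Module K E] [AddCommGroup N]
  [Module K N]

/-- polynomial forms with extra odd generators -/
def SA : Type := SymmetricAlgebra K E ⊗[K] ExteriorAlgebra K (E × N)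

instance instRingSA : Ring (SA K E N) :=
  inferInstanceAs (Ring (SymmetricAlgebra K E ⊗[K] ExteriorAlgebra K (E × N)))

instance instAlgebraSA : Algebra K (SA K E N) :=
  inferInstanceAs (Algebra K (SymmetricAlgebra K E ⊗[K] ExteriorAlgebra K (E × N)))

variable {K E N}

/-- the even part -/
def inl : SymmetricAlgebra K E →ₐ[K] SA K E N :=
  (Algebra.TensorProduct.includeLeft :
    SymmetricAlgebra K E →ₐ[K] SymmetricAlgebra K E ⊗[K] ExteriorAlgebra K (E × N))

/-- the exterior part -/
def inr : ExteriorAlgebra K (E × N) →ₐ[K] SA K E N :=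
  (Algebra.TensorProduct.includeRight :
    ExteriorAlgebra K (E × N) →ₐ[K] SymmetricAlgebra K E ⊗[K] ExteriorAlgebra K (E × N))

/-- identification with the tensor product -/
def toT : SA K E N ≃ₗ[K] SymmetricAlgebra K E ⊗[K] ExteriorAlgebra K (E × N) :=
  LinearEquiv.refl K (SymmetricAlgebra K E ⊗[K] ExteriorAlgebra K (E × N))

theorem toT_inl_mul_inr (g : SymmetricAlgebra K E) (l : ExteriorAlgebra K (E × N)) :
    toT (inl g * inr l : SA K E N) = g ⊗ₜ l := by
  change ((g ⊗ₜ[K] (1 : ExteriorAlgebra K (E × N))) * ((1 : SymmetricAlgebra K E) ⊗ₜ[K] l)) = _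
  rw [Algebra.TensorProduct.tmul_mul_tmul, mul_one, one_mul]

theorem inl_comm (g : SymmetricAlgebra K E) (a : SA K E N) : inl g * a = a * inl g := by
  change (g ⊗ₜ[K] (1 : ExteriorAlgebra K (E × N))) *
      (show SymmetricAlgebra K E ⊗[K] ExteriorAlgebra K (E × N) from a) =
    (show SymmetricAlgebra K E ⊗[K] ExteriorAlgebra K (E × N) from a) *
      (g ⊗ₜ[K] (1 : ExteriorAlgebra K (E × N)))
  generalize (show SymmetricAlgebra K E ⊗[K] ExteriorAlgebra K (E × N) from a) = t
  induction t using TensorProduct.induction_on with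
  | zero => simp
  | tmul a b => simp [Algebra.TensorProduct.tmul_mul_tmul, mul_comm]
  | add a b ha hb => rw [mul_add, add_mul, ha, hb]

theorem tens_ind {P : SA K E N → Prop} (zero : P 0) (tmul : ∀ g l, P (inl g * inr l))
    (add : ∀ a b, P a → P b → P (a + b)) (a : SA K E N) : P a := by
  have : ∀ t : SymmetricAlgebra K E ⊗[K] ExteriorAlgebra K (E × N), P (toT.symm t) := by
    intro t
    induction t using TensorProduct.induction_on with
    | zero => simpa using zero
    | tmul g l =>
      have := tmul g l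
      rwa [← toT_inl_mul_inr, LinearEquiv.symm_apply_apply]
    | add a b ha hb => rw [map_add]; exact add _ _ ha hb
  simpa using this (toT a)

theorem toT_inl_mul (g : SymmetricAlgebra K E) (a : SA K E N) :
    toT (inl g * a) = LinearMap.rTensor _ (LinearMap.mulLeft K g) (toT a) := by
  induction a using tens_ind with
  | zero => simp
  | tmul h l => rw [← mul_assoc, ← map_mul, toT_inl_mul_inr, toT_inl_mul_inr]; simp
  | add a b ha hb => rw [mul_add, map_add, map_add, map_add, ha, hb]

theorem inl_mul_eq_zero {g : SymmetricAlgebra K E} (hg : g ≠ 0) {a : SA K E N}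
    (h : inl g * a = 0) : a = 0 := by
  have hinj : Function.Injective (LinearMap.mulLeft K g) := by
    intro u v huv
    exact mul_left_cancel₀ hg huv
  have h2 := Module.Flat.rTensor_preserves_injective_linearMap
    (M := ExteriorAlgebra K (E × N)) _ hinj
  have h3 : LinearMap.rTensor _ (LinearMap.mulLeft K g) (toT a) = 0 := by
    rw [← toT_inl_mul, h, map_zero]
  have h4 : toT a = 0 := h2 (by rw [h3, map_zero])
  exact toT.injective (by rw [h4, map_zero])

/-- even generators -/
def gx : E →ₗ[K] SA K E N := inl.toLinearMap ∘ₗ SymmetricAlgebra.ι K E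

/-- odd generators -/
def go : E × N →ₗ[K] SA K E N := inr.toLinearMap ∘ₗ ExteriorAlgebra.ι K

/-- differentials -/
def gd : E →ₗ[K] SA K E N := go ∘ₗ LinearMap.inl K E N

/-- Koszul generators -/
def gk : N →ₗ[K] SA K E N := go ∘ₗ LinearMap.inr K E N

theorem gx_eq (e : E) : (gx e : SA K E N) = inl (SymmetricAlgebra.ι K E e) := rfl

theorem go_eq' (v : E × N) : (go v : SA K E N) = inr (ExteriorAlgebra.ι K v) := rfl

theorem gd_eq (e : E) : (gd e : SA K E N) = go (e, 0) := rfl

theorem gk_eq (u : N) : (gk u : SA K E N) = go (0, u) := rfl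

theorem go_eq (v : E × N) : (go v : SA K E N) = gd v.1 + gk v.2 := by
  rw [gd_eq, gk_eq, ← map_add]; simp

theorem gx_comm (e : E) (a : SA K E N) : gx e * a = a * gx e := inl_comm _ _

theorem go_sq (v : E × N) : (go v * go v : SA K E N) = 0 := by
  rw [go_eq', ← map_mul, ExteriorAlgebra.ι_sq_zero, map_zero]

theorem go_anti (v w : E × N) : (go v * go w : SA K E N) = - (go w * go v) := by
  rw [eq_neg_iff_add_eq_zero, go_eq', go_eq', ← map_mul inr, ← map_mul inr, ← map_add,
    ExteriorAlgebra.ι_add_mul_swap, map_zero]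

theorem gx_mul_eq_zero {e : E} (he : e ≠ 0) {a : SA K E N} (h : gx e * a = 0) : a = 0 := by
  refine inl_mul_eq_zero ?_ h
  intro h0
  apply he
  rw [← Module.forall_dual_apply_eq_zero_iff K]
  intro f
  simpa using congrArg (SymmetricAlgebra.lift (A := K) f) h0

theorem ind {P : SA K E N → Prop} (alg : ∀ r, P (algebraMap K _ r)) (x : ∀ e, P (gx e))
    (d : ∀ e, P (gd e)) (k : ∀ u, P (gk u)) (mul : ∀ a b, P a → P b → P (a * b))
    (add : ∀ a b, P a → P b → P (a + b)) (a : SA K E N) : P a := by
  induction a using tens_ind with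
  | zero => simpa using alg 0
  | tmul g l =>
    apply mul
    · induction g using SymmetricAlgebra.induction with
      | algebraMap r => rw [AlgHom.commutes]; exact alg r
      | ι e => exact x e
      | mul a b ha hb => rw [map_mul]; exact mul _ _ ha hb
      | add a b ha hb => rw [map_add]; exact add _ _ ha hb
    · induction l using ExteriorAlgebra.induction with
      | algebraMap r => rw [AlgHom.commutes]; exact alg r
      | ι v => rw [← go_eq', go_eq]; exact add _ _ (d _) (k _)
      | mul a b ha hb => rw [map_mul]; exact mul _ _ ha hb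
      | add a b ha hb => rw [map_add]; exact add _ _ ha hb
  | add a b ha hb => exact add _ _ ha hb

section lift

variable {B : Type} [Ring B] [Algebra K B]

open scoped IsMulCommutative in
theorem exists_symLift (X : E →ₗ[K] B) (hX : ∀ e e', X e * X e' = X e' * X e) :
    ∃ f : SymmetricAlgebra K E →ₐ[K] B, ∀ e, f (SymmetricAlgebra.ι K E e) = X e := by
  have : IsMulCommutative (Algebra.adjoin K (Set.range X)) :=
    Algebra.isMulCommutative_adjoin K (by rintro _ ⟨e, rfl⟩ _ ⟨e', rfl⟩; exact hX e e')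
  let X' : E →ₗ[K] Algebra.adjoin K (Set.range X) :=
    X.codRestrict (Algebra.adjoin K (Set.range X)).toSubmodule
      (fun e => Algebra.subset_adjoin ⟨e, rfl⟩)
  refine ⟨(Algebra.adjoin K (Set.range X)).val.comp (SymmetricAlgebra.lift X'), fun e => ?_⟩
  rw [AlgHom.comp_apply, SymmetricAlgebra.lift_ι_apply]
  rfl

theorem exists_lift (X : E →ₗ[K] B) (O : E × N →ₗ[K] B) (hX : ∀ e e', X e * X e' = X e' * X e)
    (hXO : ∀ e v, X e * O v = O v * X e) (hO : ∀ v, O v * O v = 0) :
    ∃ f : SA K E N →ₐ[K] B, (∀ e, f (gx e) = X e) ∧ ∀ v, f (go v) = O v := by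
  obtain ⟨f, hf⟩ := exists_symLift X hX
  let g : ExteriorAlgebra K (E × N) →ₐ[K] B := ExteriorAlgebra.lift K ⟨O, hO⟩
  have hg : ∀ v, g (ExteriorAlgebra.ι K v) = O v := fun v => ExteriorAlgebra.lift_ι_apply K O hO v
  have hc : ∀ a b, Commute (f a) (g b) := by
    intro a b
    induction a using SymmetricAlgebra.induction with
    | algebraMap r => rw [AlgHom.commutes]; exact Algebra.commute_algebraMap_left _ _
    | ι e =>
      induction b using ExteriorAlgebra.induction with
      | algebraMap r => rw [AlgHom.commutes]; exact Algebra.commute_algebraMap_right _ _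
      | ι v => rw [hf, hg]; exact hXO e v
      | mul a b ha hb => rw [map_mul]; exact ha.mul_right hb
      | add a b ha hb => rw [map_add]; exact ha.add_right hb
    | mul a a' ha ha' => rw [map_mul]; exact ha.mul_left ha'
    | add a a' ha ha' => rw [map_add]; exact ha.add_left ha'
  refine ⟨Algebra.TensorProduct.lift f g hc, fun e => ?_, fun v => ?_⟩
  · change Algebra.TensorProduct.lift f g hc (SymmetricAlgebra.ι K E e ⊗ₜ 1) = _
    rw [Algebra.TensorProduct.lift_tmul, map_one, mul_one, hf]
  · change Algebra.TensorProduct.lift f g hc (1 ⊗ₜ ExteriorAlgebra.ι K v) = _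
    rw [Algebra.TensorProduct.lift_tmul, map_one, one_mul, hg]

theorem hom_ext {f g : SA K E N →ₐ[K] B} (hx : ∀ e, f (gx e) = g (gx e))
    (hd : ∀ e, f (gd e) = g (gd e)) (hk : ∀ u, f (gk u) = g (gk u)) (a : SA K E N) :
    f a = g a := by
  induction a using ind with
  | alg r => rw [AlgHom.commutes, AlgHom.commutes]
  | x e => exact hx e
  | d e => exact hd e
  | k u => exact hk u
  | mul a b ha hb => rw [map_mul, map_mul, ha, hb]
  | add a b ha hb => rw [map_add, map_add, ha, hb]

end lift

section map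

variable {E' : Type} [AddCommGroup E'] [Module K E']

theorem exists_map (f : E' →ₗ[K] E) : ∃ F : SA K E' N →ₐ[K] SA K E N,
    (∀ e, F (gx e) = gx (f e)) ∧ ∀ v, F (go v) = go (f v.1, v.2) :=
  exists_lift (gx ∘ₗ f) (go ∘ₗ (f.prodMap LinearMap.id)) (fun _ _ => gx_comm _ _)
    (fun _ _ => gx_comm _ _) (fun _ => go_sq _)

/-- functoriality -/
def smap (f : E' →ₗ[K] E) : SA K E' N →ₐ[K] SA K E N := (exists_map f).choose

@[simp] theorem smap_gx (f : E' →ₗ[K] E) (e : E') :
    smap f (gx e : SA K E' N) = gx (f e) := (exists_map f).choose_spec.1 e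

@[simp] theorem smap_gd (f : E' →ₗ[K] E) (e : E') :
    smap f (gd e : SA K E' N) = gd (f e) := (exists_map f).choose_spec.2 _

@[simp] theorem smap_gk (f : E' →ₗ[K] E) (u : N) :
    smap f (gk u : SA K E' N) = gk u := by
  have := (exists_map (N := N) f).choose_spec.2 (0, u)
  simp only [map_zero] at this
  exact this

end map

theorem exists_par : ∃ F : SA K E N →ₐ[K] SA K E N,
    (∀ e, F (gx e) = gx e) ∧ ∀ v, F (go v) = - go v :=
  exists_lift gx (-go) (fun _ _ => gx_comm _ _)
    (fun _ _ => gx_comm _ _) (fun _ => by simp [go_sq])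

/-- the parity automorphism -/
def par : SA K E N →ₐ[K] SA K E N := exists_par.choose

@[simp] theorem par_gx (e : E) : par (gx e : SA K E N) = gx e := exists_par.choose_spec.1 e

@[simp] theorem par_go (v : E × N) : par (go v : SA K E N) = - go v := exists_par.choose_spec.2 v

@[simp] theorem par_gd (e : E) : par (gd e : SA K E N) = - gd e := par_go _

@[simp] theorem par_gk (u : N) : par (gk u : SA K E N) = - gk u := par_go _

@[simp] theorem par_par (a : SA K E N) : par (par a) = a :=
  hom_ext (f := par.comp par) (g := AlgHom.id K _) (by simp) (by simp) (by simp) a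

theorem par_smap {E' : Type} [AddCommGroup E'] [Module K E'] (f : E' →ₗ[K] E) (a : SA K E' N) :
    par (smap f a) = smap f (par a) :=
  hom_ext (f := par.comp (smap f)) (g := (smap f).comp par) (by simp) (by simp) (by simp) a

theorem go_mul (v : E × N) (a : SA K E N) : go v * a = par a * go v := by
  induction a using ind with
  | alg r => rw [AlgHom.commutes, Algebra.commutes]
  | x e => rw [par_gx, gx_comm]
  | d e => rw [par_gd, gd_eq, go_anti]; simp
  | k u => rw [par_gk, gk_eq, go_anti]; simp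
  | mul a b ha hb => rw [← mul_assoc, ha, mul_assoc, hb, map_mul, mul_assoc]
  | add a b ha hb => rw [mul_add, ha, hb, map_add, add_mul]

theorem mul_go (v : E × N) (a : SA K E N) : a * go v = go v * par a := by
  rw [go_mul, par_par]

theorem gd_mul (e : E) (a : SA K E N) : gd e * a = par a * gd e := go_mul _ _

theorem mul_gd (e : E) (a : SA K E N) : a * gd e = gd e * par a := mul_go _ _

theorem gk_mul (u : N) (a : SA K E N) : gk u * a = par a * gk u := go_mul _ _

/-- odd derivations -/
def IsOdd (δ : SA K E N →ₗ[K] SA K E N) : Prop := ∀ a b, δ (a * b) = δ a * b + par a * δ b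

theorem IsOdd.one {δ : SA K E N →ₗ[K] SA K E N} (h : IsOdd δ) : δ 1 = 0 := by
  have := h 1 1
  simpa using this

theorem IsOdd.alg {δ : SA K E N →ₗ[K] SA K E N} (h : IsOdd δ) (r : K) :
    δ (algebraMap K _ r) = 0 := by
  rw [Algebra.algebraMap_eq_smul_one, map_smul, h.one, smul_zero]

theorem IsOdd.sub {δ δ' : SA K E N →ₗ[K] SA K E N} (h : IsOdd δ) (h' : IsOdd δ') :
    IsOdd (δ - δ') := by
  intro a b
  simp only [LinearMap.sub_apply, h a b, h' a b]
  noncomm_ring

theorem exists_odd (δx : E →ₗ[K] E × N) (δo : E × N →ₗ[K] SymmetricAlgebra K E) :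
    ∃ δ : SA K E N →ₗ[K] SA K E N, IsOdd δ ∧ (∀ e, δ (gx e) = go (δx e)) ∧
      ∀ v, δ (go v) = inl (δo v) := by
  let X : E →ₗ[K] Matrix (Fin 2) (Fin 2) (SA K E N) :=
    { toFun := fun e => !![gx e, 0; go (δx e), gx e]
      map_add' := fun a b => by ext i j; fin_cases i <;> fin_cases j <;> simp
      map_smul' := fun a b => by ext i j; fin_cases i <;> fin_cases j <;> simp }
  let O : E × N →ₗ[K] Matrix (Fin 2) (Fin 2) (SA K E N) :=
    { toFun := fun v => !![go v, 0; inl (δo v), - go v]
      map_add' := fun a b => by ext i j; fin_cases i <;> fin_cases j <;> simp [add_comm]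
      map_smul' := fun a b => by ext i j; fin_cases i <;> fin_cases j <;> simp }
  obtain ⟨f, hfx, hfo⟩ := exists_lift X O
    (fun e e' => by
      simp only [X, LinearMap.coe_mk, AddHom.coe_mk, Matrix.mul_fin_two]
      rw [gx_comm e (gx e'), gx_comm e (go _), gx_comm e' (go _), add_comm (go _ * gx e')]
      simp)
    (fun e v => by
      simp only [X, O, LinearMap.coe_mk, AddHom.coe_mk, Matrix.mul_fin_two]
      rw [gx_comm e (go v), gx_comm e (inl _), go_anti (δx e) v]
      simp [gx_comm e (go v), add_comm])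
    (fun v => by
      simp only [O, LinearMap.coe_mk, AddHom.coe_mk, Matrix.mul_fin_two]
      rw [inl_comm (δo v) (go v)]
      ext i j; fin_cases i <;> fin_cases j <;> simp [go_sq])
  have key : ∀ a, f a 0 0 = a ∧ f a 0 1 = 0 ∧ f a 1 1 = par a := by
    intro a
    induction a using ind with
    | alg r =>
      rw [AlgHom.commutes, AlgHom.commutes]
      simp [Matrix.algebraMap_matrix_apply]
    | x e => rw [hfx]; simp [X]
    | d e => rw [gd_eq, hfo]; simp [O]
    | k u => rw [gk_eq, hfo]; simp [O]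
    | mul a b ha hb =>
      simp only [map_mul, Matrix.mul_apply, Fin.sum_univ_two, ha.1, ha.2.1, ha.2.2, hb.1, hb.2.1,
        hb.2.2]
      simp
    | add a b ha hb =>
      simp only [map_add, Matrix.add_apply, ha.1, ha.2.1, ha.2.2, hb.1, hb.2.1, hb.2.2]
      simp
  refine ⟨(Matrix.entryLinearMap K _ 1 0) ∘ₗ f.toLinearMap, fun a b => ?_, fun e => ?_, fun v => ?_⟩
  · simp [Matrix.mul_apply, Fin.sum_univ_two, (key _).1, (key _).2.2]
  · simp [hfx, X]
  · simp [hfo, O]

theorem IsOdd.ext_aux {E' : Type} [AddCommGroup E'] [Module K E']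
    {δ : SA K E N →ₗ[K] SA K E N} {δ' : SA K E' N →ₗ[K] SA K E' N} (h : IsOdd δ) (h' : IsOdd δ')
    (f : E' →ₗ[K] E) (hx : ∀ e, δ (gx (f e)) = smap f (δ' (gx e)))
    (hd : ∀ e, δ (gd (f e)) = smap f (δ' (gd e))) (hk : ∀ u, δ (gk u) = smap f (δ' (gk u)))
    (a : SA K E' N) : δ (smap f a) = smap f (δ' a) := by
  induction a using ind with
  | alg r => rw [AlgHom.commutes, h.alg, h'.alg, map_zero]
  | x e => simpa using hx e
  | d e => simpa using hd e
  | k u => simpa using hk u
  | mul a b ha hb => rw [map_mul, h, h', ha, hb, par_smap]; simp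
  | add a b ha hb => simp [ha, hb]

theorem IsOdd.par_comm {δ : SA K E N →ₗ[K] SA K E N} (h : IsOdd δ)
    (hx : ∀ e, par (δ (gx e)) = - δ (gx e)) (hd : ∀ e, par (δ (gd e)) = δ (gd e))
    (hk : ∀ u, par (δ (gk u)) = δ (gk u)) (a : SA K E N) : δ (par a) = - par (δ a) := by
  induction a using ind with
  | alg r => rw [AlgHom.commutes, h.alg]; simp
  | x e => simp [hx]
  | d e => simp [hd]
  | k u => simp [hk]
  | mul a b ha hb => rw [map_mul, h, h, ha, hb]; simp [add_comm]
  | add a b ha hb => simp [ha, hb, add_comm]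

theorem par_inl (g : SymmetricAlgebra K E) : par (inl g : SA K E N) = inl g := by
  induction g using SymmetricAlgebra.induction with
  | algebraMap r => rw [AlgHom.commutes, AlgHom.commutes]
  | ι e => exact par_gx e
  | mul a b ha hb => rw [map_mul, map_mul, ha, hb]
  | add a b ha hb => rw [map_add, map_add, ha, hb]

/-- contraction with the Euler field of a projection -/
theorem exists_con (π : E →ₗ[K] E) : ∃ δ : SA K E N →ₗ[K] SA K E N, IsOdd δ ∧
    (∀ e, δ (gx e) = 0) ∧ (∀ e, δ (gd e) = gx (π e)) ∧ ∀ u, δ (gk u) = 0 := by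
  obtain ⟨δ, h1, h2, h3⟩ := exists_odd (K := K) (E := E) (N := N) 0
    (SymmetricAlgebra.ι K E ∘ₗ π ∘ₗ LinearMap.fst K E N)
  refine ⟨δ, h1, fun e => by simp [h2], fun e => ?_, fun u => ?_⟩
  · rw [gd_eq, h3]; rfl
  · rw [gk_eq, h3]; simp

end

section frob

variable {p : ℕ} [Fact p.Prime] {E N : Type} [AddCommGroup E] [Module (ZMod p) E]
  [AddCommGroup N] [Module (ZMod p) N]

instance instCharP : CharP (SymmetricAlgebra (ZMod p) E) p :=
  charP_of_injective_algebraMap (SymmetricAlgebra.algebraMap_leftInverse (R := ZMod p) E).injective p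

/-- the linear map `e ↦ e ^ p` -/
noncomputable def frob : E →ₗ[ZMod p] SymmetricAlgebra (ZMod p) E where
  toFun e := SymmetricAlgebra.ι (ZMod p) E e ^ p
  map_add' a b := by rw [map_add, add_pow_char]
  map_smul' a b := by rw [map_smul, smul_pow, ZMod.pow_card]; rfl

theorem exists_D (θ : N →ₗ[ZMod p] E) : ∃ δ : SA (ZMod p) E N →ₗ[ZMod p] SA (ZMod p) E N,
    IsOdd δ ∧ (∀ e, δ (gx e) = gd e) ∧ (∀ e, δ (gd e) = 0) ∧ ∀ u, δ (gk u) = gx (θ u) ^ p := by
  obtain ⟨δ, h1, h2, h3⟩ := exists_odd (K := ZMod p) (E := E) (N := N) (LinearMap.inl _ _ _)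
    (frob ∘ₗ θ ∘ₗ LinearMap.snd _ E N)
  refine ⟨δ, h1, fun e => h2 e, fun e => ?_, fun u => ?_⟩
  · rw [gd_eq, h3]; simp
  · rw [gk_eq, h3, gx_eq, ← map_pow]; rfl

/-- the de Rham–Koszul differential -/
noncomputable def DD (θ : N →ₗ[ZMod p] E) : SA (ZMod p) E N →ₗ[ZMod p] SA (ZMod p) E N :=
  (exists_D θ).choose

theorem DD_odd (θ : N →ₗ[ZMod p] E) : IsOdd (DD θ) := (exists_D θ).choose_spec.1

@[simp] theorem DD_gx (θ : N →ₗ[ZMod p] E) (e : E) : DD θ (gx e) = gd e :=
  (exists_D θ).choose_spec.2.1 e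

@[simp] theorem DD_gd (θ : N →ₗ[ZMod p] E) (e : E) : DD θ (gd e) = 0 :=
  (exists_D θ).choose_spec.2.2.1 e

@[simp] theorem DD_gk (θ : N →ₗ[ZMod p] E) (u : N) : DD θ (gk u) = gx (θ u) ^ p :=
  (exists_D θ).choose_spec.2.2.2 u

theorem DD_par (θ : N →ₗ[ZMod p] E) (a : SA (ZMod p) E N) : DD θ (par a) = - par (DD θ a) :=
  (DD_odd θ).par_comm (by simp) (by simp) (by simp) a

theorem DD_gx_pow (θ : N →ₗ[ZMod p] E) (e : E) (n : ℕ) :
    DD θ (gx e ^ (n + 1)) = (n + 1) • (gx e ^ n * gd e) := by
  induction n with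
  | zero => simp
  | succ n ih =>
    rw [pow_succ', DD_odd, ih, DD_gx, par_gx, mul_smul_comm, ← mul_assoc, ← pow_succ',
      gx_eq, ← map_pow, ← inl_comm, add_nsmul _ (n + 1) 1, one_nsmul, add_comm]

theorem DD_gx_pow_p (θ : N →ₗ[ZMod p] E) (e : E) : DD θ (gx e ^ p) = 0 := by
  have hp : p = (p - 1) + 1 := (Nat.sub_add_cancel (Fact.out : p.Prime).one_le).symm
  have := DD_gx_pow θ e (p - 1)
  rw [← hp] at this
  rw [this, ← Nat.cast_smul_eq_nsmul (ZMod p), ZMod.natCast_self, zero_smul]

theorem DD_DD (θ : N →ₗ[ZMod p] E) (a : SA (ZMod p) E N) : DD θ (DD θ a) = 0 := by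
  induction a using ind with
  | alg r => rw [(DD_odd θ).alg, map_zero]
  | x e => simp
  | d e => simp
  | k u => simp [DD_gx_pow_p]
  | mul a b ha hb =>
    rw [DD_odd, map_add, DD_odd, DD_odd, ha, hb, DD_par]; simp
  | add a b ha hb => simp [ha, hb]

theorem DD_smap {E' : Type} [AddCommGroup E'] [Module (ZMod p) E'] (f : E' →ₗ[ZMod p] E)
    (θ : N →ₗ[ZMod p] E') (a : SA (ZMod p) E' N) :
    DD (f ∘ₗ θ) (smap f a) = smap f (DD θ a) :=
  (DD_odd _).ext_aux (DD_odd _) f (by simp) (by simp) (by simp) a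

end frob

end Pool.Agent.MP_79429d_co.KD
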