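import Pool.Agent.MP_79429d_co.K1

/-!
Gradings attached to a projection.
-/

set_option autoImplicit false

namespace Pool.Agent.MP_79429d_co.KD

open Polynomial

noncomputable section

variable {K : Type} [Field K] {E N : Type} [AddCommGroup E] [Module K E] [AddCommGroup N]
  [Module K N]

theorem exists_lam (π : E →ₗ[K] E) (w : ℕ) : ∃ F : SA K E N →ₐ[K] (SA K E N)[X],
    (∀ e, F (gx e) = monomial 1 (gx (π e)) + monomial 0 (gx (e - π e))) ∧
    ∀ v, F (go v) = monomial w (go (π v.1, 0)) + monomial 0 (go (v.1 - π v.1, v.2)) := by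
  let X : E →ₗ[K] (SA K E N)[X] :=
    ((monomial 1).restrictScalars K) ∘ₗ gx ∘ₗ π +
      ((monomial 0).restrictScalars K) ∘ₗ gx ∘ₗ (LinearMap.id - π)
  let O : E × N →ₗ[K] (SA K E N)[X] :=
    ((monomial w).restrictScalars K) ∘ₗ go ∘ₗ (π.prodMap 0) +
      ((monomial 0).restrictScalars K) ∘ₗ go ∘ₗ ((LinearMap.id - π).prodMap LinearMap.id)
  have hX : ∀ e, X e = monomial 1 (gx (π e)) + monomial 0 (gx (e - π e)) := fun e => rfl
  have hO : ∀ v, O v = monomial w (go (π v.1, 0)) + monomial 0 (go (v.1 - π v.1, v.2)) :=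
    fun v => rfl
  have hc : ∀ (i j : ℕ) (e : E) (a : SA K E N),
      monomial i (gx e) * monomial j a = monomial j a * monomial i (gx e) := by
    intro i j e a
    rw [monomial_mul_monomial, monomial_mul_monomial, gx_comm, add_comm]
  refine exists_lift X O (fun e e' => ?_) (fun e v => ?_) (fun v => ?_)
  · simp only [hX, mul_add, add_mul, hc _ _ (π e), hc _ _ (e - π e)]
    abel
  · simp only [hX, hO, mul_add, add_mul, hc _ _ (π e), hc _ _ (e - π e)]
    abel
  · simp only [hO, mul_add, add_mul, monomial_mul_monomial, go_sq]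
    rw [go_anti (v.1 - π v.1, v.2)]
    simp

/-- the coaction of the grading -/
def lam (π : E →ₗ[K] E) (w : ℕ) : SA K E N →ₐ[K] (SA K E N)[X] := (exists_lam π w).choose

theorem lam_gx (π : E →ₗ[K] E) (w : ℕ) (e : E) :
    lam π w (gx e : SA K E N) = monomial 1 (gx (π e)) + monomial 0 (gx (e - π e)) :=
  (exists_lam π w).choose_spec.1 e

theorem lam_gd (π : E →ₗ[K] E) (w : ℕ) (e : E) :
    lam π w (gd e : SA K E N) = monomial w (gd (π e)) + monomial 0 (gd (e - π e)) :=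
  (exists_lam π w).choose_spec.2 _

theorem lam_gk (π : E →ₗ[K] E) (w : ℕ) (u : N) :
    lam π w (gk u : SA K E N) = monomial 0 (gk u) := by
  have := (exists_lam (N := N) π w).choose_spec.2 (0, u)
  simp only [map_zero, sub_zero, Prod.mk_zero_zero, zero_add] at this
  exact this

/-- homogeneous components -/
def comp (π : E →ₗ[K] E) (w n : ℕ) : SA K E N →ₗ[K] SA K E N :=
  ((lcoeff (SA K E N) n).restrictScalars K) ∘ₗ (lam π w).toLinearMap

theorem comp_apply (π : E →ₗ[K] E) (w n : ℕ) (a : SA K E N) :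
    comp π w n a = (lam π w a).coeff n := rfl

theorem comp_mul (π : E →ₗ[K] E) (w n : ℕ) (a b : SA K E N) :
    comp π w n (a * b) =
      ∑ x ∈ Finset.HasAntidiagonal.antidiagonal n, comp π w x.1 a * comp π w x.2 b := by
  simp only [comp_apply, map_mul, coeff_mul]

theorem mem_of_comp_mem (π : E →ₗ[K] E) (w : ℕ) {U : Submodule K (SA K E N)} {a : SA K E N}
    (h : ∀ n, comp π w n a ∈ U) : a ∈ U := by
  have h1 : ∀ a : SA K E N, eval₂ (RingHom.id _) 1 (lam π w a) = a := by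
    intro a
    induction a using ind with
    | alg r =>
      rw [AlgHom.commutes, Polynomial.algebraMap_apply, eval₂_C]; rfl
    | x e => simp [lam_gx]
    | d e => simp [lam_gd]
    | k u => simp [lam_gk]
    | mul a b ha hb =>
      rw [map_mul, eval₂_mul_noncomm _ _ (fun _ => Commute.one_right _), ha, hb]
    | add a b ha hb => rw [map_add, eval₂_add, ha, hb]
  rw [← h1 a, eval₂_eq_sum, Polynomial.sum]
  refine U.sum_mem fun n _ => ?_
  simpa [comp_apply] using h n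

theorem comp_mem_family (π : E →ₗ[K] E) (w : ℕ) (F : ℕ → Submodule K (SA K E N))
    (h1 : 1 ∈ F 0) (hm : ∀ i j, ∀ a ∈ F i, ∀ b ∈ F j, a * b ∈ F (i + j))
    (hx1 : ∀ e, gx (π e) ∈ F 1) (hx0 : ∀ e, gx (e - π e) ∈ F 0)
    (hd1 : ∀ e, gd (π e) ∈ F w) (hd0 : ∀ e, gd (e - π e) ∈ F 0) (hk : ∀ u, gk u ∈ F 0)
    (a : SA K E N) (n : ℕ) : comp π w n a ∈ F n := by
  have hmono : ∀ (n i : ℕ) (b : SA K E N), b ∈ F i → (monomial i b).coeff n ∈ F n := by
    intro n i b hb
    rw [coeff_monomial]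
    split_ifs with h
    · rwa [← h]
    · exact zero_mem _
  induction a using ind generalizing n with
  | alg r =>
    rw [comp_apply, AlgHom.commutes, Polynomial.algebraMap_apply, ← monomial_zero_left]
    apply hmono
    rw [Algebra.algebraMap_eq_smul_one]
    exact (F 0).smul_mem _ h1
  | x e =>
    rw [comp_apply, lam_gx, coeff_add]; exact add_mem (hmono _ _ _ (hx1 e)) (hmono _ _ _ (hx0 e))
  | d e =>
    rw [comp_apply, lam_gd, coeff_add]; exact add_mem (hmono _ _ _ (hd1 e)) (hmono _ _ _ (hd0 e))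
  | k u => rw [comp_apply, lam_gk]; exact hmono _ _ _ (hk u)
  | mul a b ha hb =>
    rw [comp_mul]
    refine Submodule.sum_mem _ fun x hx => ?_
    rw [← Finset.HasAntidiagonal.mem_antidiagonal.1 hx]
    exact hm _ _ _ (ha _) _ (hb _)
  | add a b ha hb => rw [map_add]; exact add_mem (ha _) (hb _)

/-- homogeneous elements -/
def Hom (π : E →ₗ[K] E) (w n : ℕ) : Submodule K (SA K E N) :=
  LinearMap.eqLocus (lam π w).toLinearMap ((monomial n).restrictScalars K)

theorem mem_Hom {π : E →ₗ[K] E} {w n : ℕ} {a : SA K E N} :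
    a ∈ Hom π w n ↔ lam π w a = monomial n a := Iff.rfl

theorem one_mem_Hom (π : E →ₗ[K] E) (w : ℕ) : (1 : SA K E N) ∈ Hom π w 0 := by
  rw [mem_Hom, map_one]; rfl

theorem mul_mem_Hom {π : E →ₗ[K] E} {w i j : ℕ} {a b : SA K E N} (ha : a ∈ Hom π w i)
    (hb : b ∈ Hom π w j) : a * b ∈ Hom π w (i + j) := by
  rw [mem_Hom] at *
  rw [map_mul, ha, hb, monomial_mul_monomial]

theorem pow_mem_Hom {π : E →ₗ[K] E} {w i : ℕ} {a : SA K E N} (ha : a ∈ Hom π w i) (n : ℕ) :
    a ^ n ∈ Hom π w (n * i) := by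
  induction n with
  | zero => simpa using one_mem_Hom π w
  | succ n ih => rw [pow_succ, add_mul, one_mul]; exact mul_mem_Hom ih ha

theorem gx_mem_Hom_one {π : E →ₗ[K] E} (w : ℕ) {e : E} (h : π e = e) :
    (gx e : SA K E N) ∈ Hom π w 1 := by
  rw [mem_Hom, lam_gx, h]; simp

theorem gx_mem_Hom_zero {π : E →ₗ[K] E} (w : ℕ) {e : E} (h : π e = 0) :
    (gx e : SA K E N) ∈ Hom π w 0 := by
  rw [mem_Hom, lam_gx, h]; simp

theorem gd_mem_Hom {π : E →ₗ[K] E} (w : ℕ) {e : E} (h : π e = e) :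
    (gd e : SA K E N) ∈ Hom π w w := by
  rw [mem_Hom, lam_gd, h]; simp

theorem gd_mem_Hom_zero {π : E →ₗ[K] E} (w : ℕ) {e : E} (h : π e = 0) :
    (gd e : SA K E N) ∈ Hom π w 0 := by
  rw [mem_Hom, lam_gd, h]; simp

theorem gk_mem_Hom (π : E →ₗ[K] E) (w : ℕ) (u : N) : (gk u : SA K E N) ∈ Hom π w 0 := by
  rw [mem_Hom, lam_gk]

theorem comp_of_Hom {π : E →ₗ[K] E} {w n : ℕ} {a : SA K E N} (h : a ∈ Hom π w n) (m : ℕ) :
    comp π w m a = if n = m then a else 0 := by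
  rw [comp_apply, mem_Hom.1 h, coeff_monomial]

theorem comp_self {π : E →ₗ[K] E} {w n : ℕ} {a : SA K E N} (h : a ∈ Hom π w n) :
    comp π w n a = a := by
  rw [comp_of_Hom h, if_pos rfl]

theorem comp_ne {π : E →ₗ[K] E} {w n m : ℕ} {a : SA K E N} (h : a ∈ Hom π w n) (hm : n ≠ m) :
    comp π w m a = 0 := by
  rw [comp_of_Hom h, if_neg hm]

theorem comp_mem_Hom {π : E →ₗ[K] E} (hπ : ∀ e, π (π e) = π e) (w n : ℕ) (a : SA K E N) :
    comp π w n a ∈ Hom π w n :=
  comp_mem_family π w (Hom π w) (one_mem_Hom π w) (fun _ _ _ ha _ hb => mul_mem_Hom ha hb)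
    (fun e => gx_mem_Hom_one w (hπ e)) (fun e => gx_mem_Hom_zero w (by simp [hπ]))
    (fun e => gd_mem_Hom w (hπ e)) (fun e => gd_mem_Hom_zero w (by simp [hπ]))
    (gk_mem_Hom π w) a n

theorem comp_comp {π : E →ₗ[K] E} (hπ : ∀ e, π (π e) = π e) (w n : ℕ) (a : SA K E N) :
    comp π w n (comp π w n a) = comp π w n a := comp_self (comp_mem_Hom hπ w n a)

theorem comp_Hom_mul {π : E →ₗ[K] E} {w i : ℕ} {u : SA K E N} (hu : u ∈ Hom π w i) (j : ℕ)
    (a : SA K E N) : comp π w (i + j) (u * a) = u * comp π w j a := by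
  rw [comp_apply, map_mul, mem_Hom.1 hu, add_comm, coeff_monomial_mul, comp_apply]

theorem comp_Hom_mul_lt {π : E →ₗ[K] E} {w i : ℕ} {u : SA K E N} (hu : u ∈ Hom π w i) {j : ℕ}
    (hj : j < i) (a : SA K E N) : comp π w j (u * a) = 0 := by
  rw [comp_mul]
  refine Finset.sum_eq_zero fun x hx => ?_
  have := Finset.HasAntidiagonal.mem_antidiagonal.1 hx
  rw [comp_ne hu (by omega), zero_mul]

theorem comp_mul_Hom_zero {π : E →ₗ[K] E} {w : ℕ} {u : SA K E N} (hu : u ∈ Hom π w 0) (j : ℕ)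
    (a : SA K E N) : comp π w j (a * u) = comp π w j a * u := by
  rw [comp_apply, map_mul, mem_Hom.1 hu, monomial_zero_left, coeff_mul_C, comp_apply]

theorem ext_Hom {π : E →ₗ[K] E} (hπ : ∀ e, π (π e) = π e) (w : ℕ) {M : Type} [AddCommGroup M]
    [Module K M] {f g : SA K E N →ₗ[K] M} (h : ∀ n, ∀ a ∈ Hom π w n, f a = g a) (a : SA K E N) :
    f a = g a :=
  mem_of_comp_mem π w (U := LinearMap.eqLocus f g) fun n => h n _ (comp_mem_Hom hπ w n a)

theorem comp_shift {π : E →ₗ[K] E} (hπ : ∀ e, π (π e) = π e) {w s : ℕ}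
    {δ : SA K E N →ₗ[K] SA K E N} (h : ∀ n, ∀ a ∈ Hom π w n, δ a ∈ Hom π w (n + s)) (n : ℕ)
    (a : SA K E N) : comp π w (n + s) (δ a) = δ (comp π w n a) := by
  refine ext_Hom hπ w (f := comp π w (n + s) ∘ₗ δ) (g := δ ∘ₗ comp π w n) (fun m b hb => ?_) a
  simp only [LinearMap.comp_apply]
  rw [comp_of_Hom (h m b hb), comp_of_Hom hb]
  by_cases hm : m = n
  · simp [hm]
  · simp [hm]

theorem comp_shift_lt {π : E →ₗ[K] E} (hπ : ∀ e, π (π e) = π e) {w s : ℕ}
    {δ : SA K E N →ₗ[K] SA K E N} (h : ∀ n, ∀ a ∈ Hom π w n, δ a ∈ Hom π w (n + s)) {n : ℕ}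
    (hn : n < s) (a : SA K E N) : comp π w n (δ a) = 0 := by
  refine ext_Hom hπ w (f := comp π w n ∘ₗ δ) (g := 0) (fun m b hb => ?_) a
  simp only [LinearMap.comp_apply]
  rw [comp_ne (h m b hb) (by omega)]; rfl

theorem comp_smap {E' : Type} [AddCommGroup E'] [Module K E'] (f : E' →ₗ[K] E)
    {π : E →ₗ[K] E} {π' : E' →ₗ[K] E'} (h : ∀ e, π (f e) = f (π' e)) (w n : ℕ)
    (a : SA K E' N) : comp π w n (smap f a) = smap f (comp π' w n a) := by
  have := hom_ext (f := (lam π w).comp (smap f))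
    (g := (Polynomial.mapAlgHom (smap f)).comp (lam π' w))
    (fun e => by simp [lam_gx, h]) (fun e => by simp [lam_gd, h]) (fun e => by simp [lam_gk]) a
  simp only [AlgHom.comp_apply] at this
  rw [comp_apply, this, comp_apply]
  simp

theorem comp_par (π : E →ₗ[K] E) (w n : ℕ) (a : SA K E N) :
    comp π w n (par a) = par (comp π w n a) := by
  have := hom_ext (f := (lam π w).comp par)
    (g := (Polynomial.mapAlgHom par).comp (lam π w))
    (fun e => by simp [lam_gx]) (fun e => by simp [lam_gd]; abel) (fun e => by simp [lam_gk]) a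
  simp only [AlgHom.comp_apply] at this
  rw [comp_apply, this, comp_apply]
  simp

theorem mem_Hom_of_comp {π : E →ₗ[K] E} (hπ : ∀ e, π (π e) = π e) {w n : ℕ} {a : SA K E N}
    (h : ∀ m, m ≠ n → comp π w m a = 0) : a ∈ Hom π w n := by
  refine mem_of_comp_mem π w fun m => ?_
  by_cases hm : m = n
  · rw [hm]; exact comp_mem_Hom hπ w n a
  · rw [h m hm]; exact zero_mem _

theorem par_mem_Hom {π : E →ₗ[K] E} (hπ : ∀ e, π (π e) = π e) {w n : ℕ} {a : SA K E N}
    (h : a ∈ Hom π w n) : par a ∈ Hom π w n :=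
  mem_Hom_of_comp hπ fun m hm => by rw [comp_par, comp_ne h hm.symm, map_zero]

theorem smap_mem_Hom_zero {E' : Type} [AddCommGroup E'] [Module K E'] (f : E' →ₗ[K] E)
    {π : E →ₗ[K] E} (h : ∀ e, π (f e) = 0) (w : ℕ) (a : SA K E' N) :
    smap f a ∈ Hom π w 0 := by
  induction a using ind with
  | alg r =>
    rw [AlgHom.commutes, Algebra.algebraMap_eq_smul_one]
    exact Submodule.smul_mem _ _ (one_mem_Hom π w)
  | x e => rw [smap_gx]; exact gx_mem_Hom_zero w (h e)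
  | d e => rw [smap_gd]; exact gd_mem_Hom_zero w (h e)
  | k u => rw [smap_gk]; exact gk_mem_Hom π w u
  | mul a b ha hb => rw [map_mul]; exact mul_mem_Hom ha hb
  | add a b ha hb => rw [map_add]; exact add_mem ha hb

theorem IsOdd.mem_Hom {δ : SA K E N →ₗ[K] SA K E N} (hδ : IsOdd δ) {π : E →ₗ[K] E}
    (hπ : ∀ e, π (π e) = π e) {w s : ℕ}
    (hx1 : ∀ e, δ (gx (π e)) ∈ Hom π w (1 + s)) (hx0 : ∀ e, δ (gx (e - π e)) ∈ Hom π w s)
    (hd1 : ∀ e, δ (gd (π e)) ∈ Hom π w (w + s)) (hd0 : ∀ e, δ (gd (e - π e)) ∈ Hom π w s)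
    (hk : ∀ u, δ (gk u) ∈ Hom π w s) (n : ℕ) (a : SA K E N) (ha : a ∈ Hom π w n) :
    δ a ∈ Hom π w (n + s) := by
  have := comp_mem_family π w (fun n => Hom π w n ⊓ (Hom π w (n + s)).comap δ)
    ⟨one_mem_Hom π w, by simp [hδ.one]⟩
    (fun i j a ha b hb => ⟨mul_mem_Hom ha.1 hb.1, by
      simp only [SetLike.mem_coe, Submodule.mem_comap]
      rw [hδ]
      refine add_mem ?_ ?_
      · have := mul_mem_Hom ha.2 hb.1
        rwa [add_right_comm] at this
      · have := mul_mem_Hom (par_mem_Hom hπ ha.1) hb.2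
        rwa [← add_assoc] at this⟩)
    (fun e => ⟨gx_mem_Hom_one w (hπ e), hx1 e⟩)
    (fun e => ⟨gx_mem_Hom_zero w (by simp [hπ]), by simpa using hx0 e⟩)
    (fun e => ⟨gd_mem_Hom w (hπ e), hd1 e⟩)
    (fun e => ⟨gd_mem_Hom_zero w (by simp [hπ]), by simpa using hd0 e⟩)
    (fun u => ⟨gk_mem_Hom π w u, by simpa using hk u⟩) a n
  rw [comp_self ha] at this
  exact this.2

end

section frob

variable {p : ℕ} [Fact p.Prime] {E N : Type} [AddCommGroup E] [Module (ZMod p) E]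
  [AddCommGroup N] [Module (ZMod p) N]

/-- components for the regularity grading -/
noncomputable abbrev tau (n : ℕ) : SA (ZMod p) E N →ₗ[ZMod p] SA (ZMod p) E N :=
  comp LinearMap.id (p + 1) n

/-- homogeneous elements for the regularity grading -/
noncomputable abbrev Tau (n : ℕ) : Submodule (ZMod p) (SA (ZMod p) E N) :=
  Hom LinearMap.id (p + 1) n

theorem DD_mem_Tau (θ : N →ₗ[ZMod p] E) (n : ℕ) (a : SA (ZMod p) E N) (ha : a ∈ Tau n) :
    DD θ a ∈ Tau (n + p) := by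
  refine (DD_odd θ).mem_Hom (fun _ => rfl) (fun e => ?_) (by simp) (by simp) (by simp)
    (fun u => ?_) n a ha
  · rw [DD_gx, add_comm]; exact gd_mem_Hom _ rfl
  · rw [DD_gk]
    simpa using pow_mem_Hom (gx_mem_Hom_one (N := N) (π := LinearMap.id) (p + 1) (e := θ u) rfl) p

theorem tau_DD (θ : N →ₗ[ZMod p] E) (n : ℕ) (a : SA (ZMod p) E N) :
    tau (n + p) (DD θ a) = DD θ (tau n a) :=
  comp_shift (fun _ => rfl) (DD_mem_Tau θ) n a

theorem tau_DD_lt (θ : N →ₗ[ZMod p] E) {n : ℕ} (hn : n < p) (a : SA (ZMod p) E N) :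
    tau n (DD θ a) = 0 :=
  comp_shift_lt (fun _ => rfl) (DD_mem_Tau θ) hn a

theorem tau_tau (n : ℕ) (a : SA (ZMod p) E N) : tau n (tau n a) = tau n a :=
  comp_comp (fun _ => rfl) _ n a

theorem comp_DD {π : E →ₗ[ZMod p] E} (hπ : ∀ e, π (π e) = π e) {θ : N →ₗ[ZMod p] E}
    (hθ : ∀ u, π (θ u) = 0) (n : ℕ) (a : SA (ZMod p) E N) :
    comp π 1 n (DD θ a) = DD θ (comp π 1 n a) := by
  refine comp_shift (s := 0) hπ ((DD_odd θ).mem_Hom hπ (fun e => ?_) (fun e => ?_) (by simp)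
    (by simp) (fun u => ?_)) n a
  · rw [DD_gx]; exact gd_mem_Hom _ (hπ e)
  · rw [DD_gx]; exact gd_mem_Hom_zero _ (by simp [hπ])
  · rw [DD_gk]
    simpa using pow_mem_Hom (gx_mem_Hom_zero (N := N) 1 (hθ u)) p

end frob

end Pool.Agent.MP_79429d_co.KD
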