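import Pool.Agent.MP_79429d_co.K2

/-!
Orders of vanishing along subspaces and the modules attached to lists of vectors.
-/

set_option autoImplicit false

namespace Pool.Agent.MP_79429d_co.KD

noncomputable section

variable {K : Type} [Field K] {E N : Type} [AddCommGroup E] [Module K E] [AddCommGroup N]
  [Module K N]

/-- stability of a subspace under a map -/
def Stab (δ : SA K E N →ₗ[K] SA K E N) (U : Submodule K (SA K E N)) : Prop := ∀ a ∈ U, δ a ∈ U

/-- stability under parity -/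
abbrev PStab (U : Submodule K (SA K E N)) : Prop := Stab par.toLinearMap U

/-- graded subspaces -/
def Graded (π : E →ₗ[K] E) (w : ℕ) (U : Submodule K (SA K E N)) : Prop :=
  ∀ n, Stab (comp π w n) U

theorem Stab.top (δ : SA K E N →ₗ[K] SA K E N) : Stab δ ⊤ := fun _ _ => trivial

theorem Stab.inf {δ : SA K E N →ₗ[K] SA K E N} {U V : Submodule K (SA K E N)} (hU : Stab δ U)
    (hV : Stab δ V) : Stab δ (U ⊓ V) := fun a ha => ⟨hU a ha.1, hV a ha.2⟩

theorem Stab.iInf {δ : SA K E N →ₗ[K] SA K E N} {ι : Sort*} {U : ι → Submodule K (SA K E N)}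
    (hU : ∀ i, Stab δ (U i)) : Stab δ (⨅ i, U i) := fun a ha =>
  (Submodule.mem_iInf _).2 fun i => hU i a ((Submodule.mem_iInf _).1 ha i)

theorem PStab.one : PStab (1 : Submodule K (SA K E N)) := by
  intro a ha
  obtain ⟨r, rfl⟩ := Submodule.mem_one.1 ha
  exact Submodule.mem_one.2 ⟨r, by simp⟩

theorem PStab.mul {U V : Submodule K (SA K E N)} (hU : PStab U) (hV : PStab V) :
    PStab (U * V) := by
  intro a ha
  refine Submodule.mul_induction_on ha (fun u hu v hv => ?_) (fun x y hx hy => ?_)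
  · simp only [AlgHom.toLinearMap_apply, map_mul]
    exact Submodule.mul_mem_mul (hU u hu) (hV v hv)
  · rw [map_add]; exact add_mem hx hy

theorem PStab.pow {U : Submodule K (SA K E N)} (hU : PStab U) (n : ℕ) : PStab (U ^ n) := by
  induction n with
  | zero => rw [pow_zero]; exact PStab.one
  | succ n ih => rw [pow_succ]; exact ih.mul hU

theorem IsOdd.stab_one {δ : SA K E N →ₗ[K] SA K E N} (hδ : IsOdd δ) : Stab δ 1 := by
  intro a ha
  obtain ⟨r, rfl⟩ := Submodule.mem_one.1 ha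
  rw [hδ.alg]; exact zero_mem _

theorem IsOdd.stab_mul {δ : SA K E N →ₗ[K] SA K E N} (hδ : IsOdd δ)
    {U V : Submodule K (SA K E N)} (hU : Stab δ U) (hU' : PStab U) (hV : Stab δ V) :
    Stab δ (U * V) := by
  intro a ha
  refine Submodule.mul_induction_on ha (fun u hu v hv => ?_) (fun x y hx hy => ?_)
  · rw [hδ]
    exact add_mem (Submodule.mul_mem_mul (hU u hu) hv) (Submodule.mul_mem_mul (hU' u hu) (hV v hv))
  · rw [map_add]; exact add_mem hx hy

theorem IsOdd.stab_pow {δ : SA K E N →ₗ[K] SA K E N} (hδ : IsOdd δ)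
    {U : Submodule K (SA K E N)} (hU : Stab δ U) (hU' : PStab U) (n : ℕ) : Stab δ (U ^ n) := by
  induction n with
  | zero => rw [pow_zero]; exact hδ.stab_one
  | succ n ih => rw [pow_succ']; exact hδ.stab_mul hU hU' ih

theorem Graded.top (π : E →ₗ[K] E) (w : ℕ) : Graded π w (⊤ : Submodule K (SA K E N)) :=
  fun _ => Stab.top _

theorem Graded.one (π : E →ₗ[K] E) (w : ℕ) : Graded π w (1 : Submodule K (SA K E N)) := by
  intro n a ha
  obtain ⟨r, rfl⟩ := Submodule.mem_one.1 ha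
  rw [Algebra.algebraMap_eq_smul_one, map_smul, comp_of_Hom (one_mem_Hom π w)]
  refine Submodule.smul_mem _ _ ?_
  split_ifs
  · exact Submodule.mem_one.2 ⟨1, by simp⟩
  · exact zero_mem _

theorem Graded.mul {π : E →ₗ[K] E} {w : ℕ} {U V : Submodule K (SA K E N)} (hU : Graded π w U)
    (hV : Graded π w V) : Graded π w (U * V) := by
  intro n a ha
  refine Submodule.mul_induction_on ha (fun u hu v hv => ?_) (fun x y hx hy => ?_)
  · rw [comp_mul]
    exact Submodule.sum_mem _ fun x _ => Submodule.mul_mem_mul (hU _ u hu) (hV _ v hv)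
  · rw [map_add]; exact add_mem hx hy

theorem Graded.pow {π : E →ₗ[K] E} {w : ℕ} {U : Submodule K (SA K E N)} (hU : Graded π w U)
    (n : ℕ) : Graded π w (U ^ n) := by
  induction n with
  | zero => rw [pow_zero]; exact Graded.one π w
  | succ n ih => rw [pow_succ]; exact ih.mul hU

theorem Graded.inf {π : E →ₗ[K] E} {w : ℕ} {U V : Submodule K (SA K E N)} (hU : Graded π w U)
    (hV : Graded π w V) : Graded π w (U ⊓ V) := fun n => (hU n).inf (hV n)

theorem Graded.iInf {π : E →ₗ[K] E} {w : ℕ} {ι : Sort*} {U : ι → Submodule K (SA K E N)}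
    (hU : ∀ i, Graded π w (U i)) : Graded π w (⨅ i, U i) := fun n => Stab.iInf fun i => hU i n

/-- generators attached to a subspace -/
def Gen (S : Submodule K E) : Submodule K (SA K E N) := S.map gx ⊔ S.map gd

theorem mem_Gen {S : Submodule K E} {u : SA K E N} :
    u ∈ Gen S ↔ ∃ s ∈ S, ∃ t ∈ S, u = gx s + gd t := by
  constructor
  · intro h
    obtain ⟨_, ⟨s, hs, rfl⟩, _, ⟨t, ht, rfl⟩, rfl⟩ := Submodule.mem_sup.1 h
    exact ⟨s, hs, t, ht, rfl⟩
  · rintro ⟨s, hs, t, ht, rfl⟩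
    exact Submodule.add_mem_sup ⟨s, hs, rfl⟩ ⟨t, ht, rfl⟩

theorem gx_mem_Gen {S : Submodule K E} {s : E} (hs : s ∈ S) : (gx s : SA K E N) ∈ Gen S :=
  mem_Gen.2 ⟨s, hs, 0, zero_mem _, by simp⟩

theorem gd_mem_Gen {S : Submodule K E} {s : E} (hs : s ∈ S) : (gd s : SA K E N) ∈ Gen S :=
  mem_Gen.2 ⟨0, zero_mem _, s, hs, by simp⟩

theorem Gen_le {S : Submodule K E} {U : Submodule K (SA K E N)} (hx : ∀ s ∈ S, gx s ∈ U)
    (hd : ∀ s ∈ S, gd s ∈ U) : Gen S ≤ U := by
  intro u hu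
  obtain ⟨s, hs, t, ht, rfl⟩ := mem_Gen.1 hu
  exact add_mem (hx s hs) (hd t ht)

theorem Gen_mono {S T : Submodule K E} (h : S ≤ T) : (Gen S : Submodule K (SA K E N)) ≤ Gen T :=
  Gen_le (fun _ hs => gx_mem_Gen (h hs)) (fun _ hs => gd_mem_Gen (h hs))

theorem stab_Gen {δ : SA K E N →ₗ[K] SA K E N} {S : Submodule K E}
    (hx : ∀ s ∈ S, δ (gx s) ∈ Gen S) (hd : ∀ s ∈ S, δ (gd s) ∈ Gen S) : Stab δ (Gen S) :=
  fun _ ha => Gen_le (U := (Gen S).comap δ) hx hd ha

theorem pstab_Gen (S : Submodule K E) : PStab (Gen S : Submodule K (SA K E N)) :=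
  stab_Gen (fun s hs => by simpa using gx_mem_Gen hs) (fun s hs => by simpa using gd_mem_Gen hs)

theorem graded_Gen {π : E →ₗ[K] E} (w : ℕ) {S : Submodule K E} (h : ∀ s ∈ S, π s ∈ S) :
    Graded π w (Gen S : Submodule K (SA K E N)) := by
  have hm : ∀ (n i : ℕ) (b : SA K E N), b ∈ Gen S → (Polynomial.monomial i b).coeff n ∈ Gen S := by
    intro n i b hb
    rw [Polynomial.coeff_monomial]
    split_ifs
    · exact hb
    · exact zero_mem _
  intro n
  refine stab_Gen (fun s hs => ?_) (fun s hs => ?_)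
  · rw [comp_apply, lam_gx, Polynomial.coeff_add]
    exact add_mem (hm _ _ _ (gx_mem_Gen (h s hs))) (hm _ _ _ (gx_mem_Gen (sub_mem hs (h s hs))))
  · rw [comp_apply, lam_gd, Polynomial.coeff_add]
    exact add_mem (hm _ _ _ (gd_mem_Gen (h s hs))) (hm _ _ _ (gd_mem_Gen (sub_mem hs (h s hs))))

theorem Gen_comm (S : Submodule K E) {R : Submodule K (SA K E N)} (hR : PStab R) :
    Commute (Gen S) R := by
  apply le_antisymm
  · refine Submodule.mul_le.2 fun u hu a ha => ?_
    obtain ⟨s, hs, t, ht, rfl⟩ := mem_Gen.1 hu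
    rw [add_mul, gx_comm, gd_mul]
    exact add_mem (Submodule.mul_mem_mul ha (gx_mem_Gen hs))
      (Submodule.mul_mem_mul (hR a ha) (gd_mem_Gen ht))
  · refine Submodule.mul_le.2 fun a ha u hu => ?_
    obtain ⟨s, hs, t, ht, rfl⟩ := mem_Gen.1 hu
    rw [mul_add, ← gx_comm, mul_gd]
    exact add_mem (Submodule.mul_mem_mul (gx_mem_Gen hs) ha)
      (Submodule.mul_mem_mul (gd_mem_Gen ht) (hR a ha))

theorem le_mul_top (U : Submodule K (SA K E N)) : U ≤ U * ⊤ := fun a ha => by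
  simpa using Submodule.mul_mem_mul ha (Submodule.mem_top (x := (1 : SA K E N)))

theorem top_mul_top' : (⊤ : Submodule K (SA K E N)) * ⊤ = ⊤ :=
  le_antisymm le_top (le_mul_top _)

/-- order of vanishing at least `m` along a subspace -/
def Fil (S : Submodule K E) (m : ℕ) : Submodule K (SA K E N) := Gen S ^ m * ⊤

theorem Fil_zero (S : Submodule K E) : (Fil S 0 : Submodule K (SA K E N)) = ⊤ := by
  rw [Fil, pow_zero, one_mul]

theorem Fil_succ (S : Submodule K E) (m : ℕ) :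
    (Fil S (m + 1) : Submodule K (SA K E N)) = Gen S * Fil S m := by
  rw [Fil, Fil, pow_succ', mul_assoc]

theorem Fil_mul_top (S : Submodule K E) (m : ℕ) :
    (Fil S m : Submodule K (SA K E N)) * ⊤ = Fil S m := by
  rw [Fil, mul_assoc, top_mul_top']

theorem top_mul_Fil (S : Submodule K E) (m : ℕ) :
    ⊤ * (Fil S m : Submodule K (SA K E N)) = Fil S m := by
  rw [Fil, ← mul_assoc, ← ((Gen_comm S (Stab.top _)).pow_left m).eq, mul_assoc, top_mul_top']

theorem Fil_mul (S : Submodule K E) (i j : ℕ) :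
    (Fil S i : Submodule K (SA K E N)) * Fil S j = Fil S (i + j) := by
  rw [Fil, mul_assoc, top_mul_Fil, Fil, Fil, pow_add, mul_assoc]

theorem mul_mem_Fil {S : Submodule K E} {i j : ℕ} {a b : SA K E N} (ha : a ∈ Fil S i)
    (hb : b ∈ Fil S j) : a * b ∈ Fil S (i + j) := by
  rw [← Fil_mul]; exact Submodule.mul_mem_mul ha hb

theorem mul_mem_Fil_left {S : Submodule K E} {i : ℕ} {a : SA K E N} (ha : a ∈ Fil S i)
    (b : SA K E N) : a * b ∈ Fil S i := by
  rw [← Fil_mul_top]; exact Submodule.mul_mem_mul ha trivial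

theorem mul_mem_Fil_right {S : Submodule K E} {i : ℕ} (a : SA K E N) {b : SA K E N}
    (hb : b ∈ Fil S i) : a * b ∈ Fil S i := by
  rw [← top_mul_Fil]; exact Submodule.mul_mem_mul trivial hb

theorem Fil_anti (S : Submodule K E) {i j : ℕ} (h : i ≤ j) :
    (Fil S j : Submodule K (SA K E N)) ≤ Fil S i := by
  obtain ⟨k, rfl⟩ := Nat.exists_eq_add_of_le h
  rw [← Fil_mul]
  exact Submodule.mul_le.2 fun a ha b _ => mul_mem_Fil_left ha b

theorem Fil_mono {S T : Submodule K E} (h : S ≤ T) (m : ℕ) :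
    (Fil S m : Submodule K (SA K E N)) ≤ Fil T m :=
  mul_le_mul' (pow_le_pow_left' (Gen_mono h) m) le_rfl

theorem pow_le_Fil (S : Submodule K E) (m : ℕ) :
    (Gen S ^ m : Submodule K (SA K E N)) ≤ Fil S m := le_mul_top _

theorem Gen_le_Fil (S : Submodule K E) : (Gen S : Submodule K (SA K E N)) ≤ Fil S 1 := by
  simpa using pow_le_Fil (N := N) S 1

theorem pstab_Fil (S : Submodule K E) (m : ℕ) : PStab (Fil S m : Submodule K (SA K E N)) :=
  ((pstab_Gen S).pow m).mul (Stab.top _)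

theorem IsOdd.stab_Fil {δ : SA K E N →ₗ[K] SA K E N} (hδ : IsOdd δ) {S : Submodule K E}
    (h : Stab δ (Gen S)) (m : ℕ) : Stab δ (Fil S m) :=
  hδ.stab_mul (hδ.stab_pow h (pstab_Gen S) m) ((pstab_Gen S).pow m) (Stab.top _)

theorem graded_Fil {π : E →ₗ[K] E} (w : ℕ) {S : Submodule K E} (h : ∀ s ∈ S, π s ∈ S) (m : ℕ) :
    Graded π w (Fil S m : Submodule K (SA K E N)) :=
  ((graded_Gen w h).pow m).mul (Graded.top π w)

theorem comp_mem_Fil {π : E →ₗ[K] E} {S : Submodule K E} (h : ∀ e, π e ∈ S) (n : ℕ)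
    (a : SA K E N) : comp π 1 n a ∈ Fil S n :=
  comp_mem_family π 1 (Fil S) (by simp [Fil_zero]) (fun _ _ _ ha _ hb => mul_mem_Fil ha hb)
    (fun e => Gen_le_Fil S (gx_mem_Gen (h e))) (by simp [Fil_zero])
    (fun e => Gen_le_Fil S (gd_mem_Gen (h e))) (by simp [Fil_zero]) (by simp [Fil_zero]) a n

theorem pow_le_Hom {π : E →ₗ[K] E} {S : Submodule K E} (h : ∀ s ∈ S, π s = s) (m : ℕ) :
    (Gen S ^ m : Submodule K (SA K E N)) ≤ Hom π 1 m := by
  induction m with
  | zero =>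
    rw [pow_zero, Submodule.one_le]; exact one_mem_Hom π 1
  | succ m ih =>
    rw [pow_succ]
    refine Submodule.mul_le.2 fun a ha b hb => mul_mem_Hom (ih ha) ?_
    exact Gen_le (fun s hs => gx_mem_Hom_one 1 (h s hs)) (fun s hs => gd_mem_Hom 1 (h s hs)) hb

theorem comp_Fil_lt {π : E →ₗ[K] E} {S : Submodule K E} (h : ∀ s ∈ S, π s = s) {m j : ℕ}
    (hj : j < m) {a : SA K E N} (ha : a ∈ Fil S m) : comp π 1 j a = 0 := by
  refine Submodule.mul_induction_on ha (fun u hu v _ => ?_) (fun x y hx hy => ?_)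
  · exact comp_Hom_mul_lt (pow_le_Hom h m hu) hj v
  · rw [map_add, hx, hy, add_zero]

theorem mem_Fil_of_comp {π : E →ₗ[K] E} {S : Submodule K E} (h : ∀ e, π e ∈ S) {m : ℕ}
    {a : SA K E N} (ha : ∀ j < m, comp π 1 j a = 0) : a ∈ Fil S m := by
  refine mem_of_comp_mem π 1 fun n => ?_
  by_cases hn : n < m
  · rw [ha n hn]; exact zero_mem _
  · exact Fil_anti S (not_lt.1 hn) (comp_mem_Fil h n a)

theorem sub_comp_mem_Fil {π : E →ₗ[K] E} {S : Submodule K E} (h : ∀ e, π e ∈ S)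
    (h' : ∀ s ∈ S, π s = s) {k : ℕ} {a : SA K E N} (ha : a ∈ Fil S k) :
    a - comp π 1 k a ∈ Fil S (k + 1) := by
  have hπ : ∀ e, π (π e) = π e := fun e => h' _ (h e)
  refine mem_Fil_of_comp h fun j hj => ?_
  rw [map_sub, comp_of_Hom (comp_mem_Hom hπ 1 k a)]
  split_ifs with hk
  · rw [hk, sub_self]
  · rw [comp_Fil_lt h' (by omega) ha, sub_zero]

theorem exists_proj (S : Submodule K E) :
    ∃ π : E →ₗ[K] E, (∀ e, π e ∈ S) ∧ ∀ s ∈ S, π s = s := by
  obtain ⟨g, hg⟩ := LinearMap.exists_extend (p := S) (LinearMap.id : S →ₗ[K] S)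
  refine ⟨S.subtype ∘ₗ g, fun e => (g e).2, fun s hs => ?_⟩
  exact congrArg Subtype.val (LinearMap.congr_fun hg ⟨s, hs⟩)

theorem exists_proj_notMem (S : Submodule K E) {z : E} (hz : z ∉ S) :
    ∃ π : E →ₗ[K] E, (∀ e, π e ∈ S) ∧ (∀ s ∈ S, π s = s) ∧ π z = 0 := by
  obtain ⟨g, hg, hz'⟩ := LinearMap.exists_extend_of_notMem (p := S) (LinearMap.id : S →ₗ[K] S) hz 0
  refine ⟨S.subtype ∘ₗ g, fun e => (g e).2, fun s hs => ?_, by simp [hz']⟩
  exact congrArg Subtype.val (LinearMap.congr_fun hg ⟨s, hs⟩)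

theorem Fil_cancel_mem {S : Submodule K E} {z : E} (hz0 : z ≠ 0) (hz : z ∈ S) {m : ℕ}
    {a : SA K E N} (h : gx z * a ∈ Fil S (m + 1)) : a ∈ Fil S m := by
  obtain ⟨π, h1, h2⟩ := exists_proj S
  refine mem_Fil_of_comp h1 fun j hj => gx_mul_eq_zero hz0 ?_
  rw [← comp_Hom_mul (gx_mem_Hom_one 1 (h2 z hz))]
  exact comp_Fil_lt h2 (by omega) h

theorem Fil_cancel_notMem {S : Submodule K E} {z : E} (hz : z ∉ S) {m : ℕ}
    {a : SA K E N} (h : gx z * a ∈ Fil S m) : a ∈ Fil S m := by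
  obtain ⟨π, h1, h2, h3⟩ := exists_proj_notMem S hz
  have hz0 : z ≠ 0 := fun h => hz (h ▸ zero_mem _)
  refine mem_Fil_of_comp h1 fun j hj => gx_mul_eq_zero hz0 ?_
  rw [← comp_Hom_mul (gx_mem_Hom_zero 1 h3)]
  exact comp_Fil_lt h2 (by omega) h

theorem IsOdd.raise {δ : SA K E N →ₗ[K] SA K E N} (hδ : IsOdd δ) {S : Submodule K E}
    (hx : ∀ e, δ (gx e) = 0) (hd : ∀ e, δ (gd e) = 0) (hk : ∀ u, δ (gk u) ∈ Fil S 1) (k : ℕ)
    {a : SA K E N} (ha : a ∈ Fil S k) : δ a ∈ Fil S (k + 1) := by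
  induction k generalizing a with
  | zero =>
    clear ha
    induction a using ind with
    | alg r => rw [hδ.alg]; exact zero_mem _
    | x e => rw [hx]; exact zero_mem _
    | d e => rw [hd]; exact zero_mem _
    | k u => exact hk u
    | mul a b ha hb => rw [hδ]; exact add_mem (mul_mem_Fil_left ha _) (mul_mem_Fil_right _ hb)
    | add a b ha hb => rw [map_add]; exact add_mem ha hb
  | succ k ih =>
    rw [Fil_succ] at ha
    refine Submodule.mul_induction_on ha (fun u hu v hv => ?_) (fun x y hx hy => ?_)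
    · have h0 : δ u = 0 := by
        obtain ⟨s, -, t, -, rfl⟩ := mem_Gen.1 hu
        rw [map_add, hx, hd, add_zero]
      rw [hδ, h0, zero_mul, zero_add, Fil_succ]
      exact Submodule.mul_mem_mul (pstab_Gen S u hu) (ih hv)
    · rw [map_add]; exact add_mem hx hy

/-- the module attached to a list of vectors -/
def AA (c : List E) : Submodule K (SA K E N) := (c.map fun y => Gen (K ∙ y)).prod * ⊤

theorem AA_nil : (AA [] : Submodule K (SA K E N)) = ⊤ := by simp [AA]

theorem AA_cons (y : E) (c : List E) :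
    (AA (y :: c) : Submodule K (SA K E N)) = Gen (K ∙ y) * AA c := by
  simp [AA, mul_assoc]

theorem pstab_AA (c : List E) : PStab (AA c : Submodule K (SA K E N)) := by
  induction c with
  | nil => rw [AA_nil]; exact Stab.top _
  | cons y c ih => rw [AA_cons]; exact (pstab_Gen _).mul ih

theorem graded_AA (w : ℕ) (c : List E) :
    Graded LinearMap.id w (AA c : Submodule K (SA K E N)) := by
  induction c with
  | nil => rw [AA_nil]; exact Graded.top _ _
  | cons y c ih => rw [AA_cons]; exact (graded_Gen w fun _ h => h).mul ih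

open Classical in
/-- number of members of a list in a subspace -/
def cnt (c : List E) (S : Submodule K E) : ℕ := c.countP fun v => decide (v ∈ S)

theorem cnt_nil (S : Submodule K E) : cnt [] S = 0 := rfl

theorem cnt_cons_mem {y : E} {S : Submodule K E} (h : y ∈ S) (c : List E) :
    cnt (y :: c) S = cnt c S + 1 := by
  simp [cnt, h]

theorem cnt_cons_notMem {y : E} {S : Submodule K E} (h : y ∉ S) (c : List E) :
    cnt (y :: c) S = cnt c S := by
  simp [cnt, h]

theorem cnt_le_cons (y : E) (S : Submodule K E) (c : List E) : cnt c S ≤ cnt (y :: c) S := by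
  by_cases h : y ∈ S
  · rw [cnt_cons_mem h]; omega
  · rw [cnt_cons_notMem h]

theorem AA_le_Fil (c : List E) (S : Submodule K E) :
    (AA c : Submodule K (SA K E N)) ≤ Fil S (cnt c S) := by
  induction c with
  | nil => rw [cnt_nil, Fil_zero]; exact le_top
  | cons y c ih =>
    rw [AA_cons]
    by_cases h : y ∈ S
    · rw [cnt_cons_mem h, Fil_succ]
      exact mul_le_mul' (Gen_mono ((Submodule.span_singleton_le_iff_mem _ _).2 h)) ih
    · rw [cnt_cons_notMem h]
      exact Submodule.mul_le.2 fun a _ b hb => mul_mem_Fil_right a (ih hb)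

theorem Fil_two_le (z : E) {a : SA K E N} (ha : a ∈ Gen (K ∙ z) * (Gen (K ∙ z) * ⊤)) :
    ∃ b, a = gx z * b := by
  refine Submodule.mul_induction_on ha (fun u hu v hv => ?_) ?_
  · refine Submodule.mul_induction_on hv (fun u' hu' w _ => ?_) ?_
    · obtain ⟨s, hs, t, ht, rfl⟩ := mem_Gen.1 hu
      obtain ⟨s', hs', t', ht', rfl⟩ := mem_Gen.1 hu'
      obtain ⟨a, rfl⟩ := Submodule.mem_span_singleton.1 hs
      obtain ⟨b, rfl⟩ := Submodule.mem_span_singleton.1 ht
      obtain ⟨a', rfl⟩ := Submodule.mem_span_singleton.1 hs'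
      obtain ⟨b', rfl⟩ := Submodule.mem_span_singleton.1 ht'
      refine ⟨(a • (a' • gx z + b' • gd z) + (b * a') • gd z) * w, ?_⟩
      have h0 : (gd z * gd z : SA K E N) = 0 := go_sq _
      simp only [map_smul, ← mul_assoc]
      congr 1
      simp only [mul_add, add_mul, smul_mul_assoc, mul_smul_comm, h0, smul_zero, add_zero,
        ← gx_comm z (gd z), smul_add, smul_smul]
      module
    · rintro x y ⟨b, hb⟩ ⟨b', hb'⟩
      exact ⟨b + b', by rw [mul_add, hb, hb', mul_add]⟩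
  · rintro x y ⟨b, hb⟩ ⟨b', hb'⟩
    exact ⟨b + b', by rw [hb, hb', mul_add]⟩

end

section frob

variable {p : ℕ} [Fact p.Prime] {E N : Type} [AddCommGroup E] [Module (ZMod p) E]
  [AddCommGroup N] [Module (ZMod p) N]

theorem DD_stab_Gen (θ : N →ₗ[ZMod p] E) (S : Submodule (ZMod p) E) : Stab (DD θ) (Gen S) :=
  stab_Gen (fun s hs => by simpa using gd_mem_Gen hs) (fun s _ => by simp)

theorem DD_stab_Fil (θ : N →ₗ[ZMod p] E) (S : Submodule (ZMod p) E) (m : ℕ) :
    Stab (DD θ) (Fil S m) := (DD_odd θ).stab_Fil (DD_stab_Gen θ S) m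

theorem DD_stab_AA (θ : N →ₗ[ZMod p] E) (c : List E) : Stab (DD θ) (AA c) := by
  induction c with
  | nil => rw [AA_nil]; exact Stab.top _
  | cons y c ih => rw [AA_cons]; exact (DD_odd θ).stab_mul (DD_stab_Gen θ _) (pstab_Gen _) ih

end frob

end Pool.Agent.MP_79429d_co.KD
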