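import Pool.Agent.MP_79429d_co.K3

/-!
Splitting along a subspace, and the description of the modules by orders of vanishing.
-/

set_option autoImplicit false

namespace Pool.Agent.MP_79429d_co.KD

open scoped TensorProduct

noncomputable section

variable {K : Type} [Field K] {E N : Type} [AddCommGroup E] [Module K E] [AddCommGroup N]
  [Module K N]

theorem map₂_ind {M M' P : Type} [AddCommGroup M] [Module K M] [AddCommGroup M'] [Module K M']
    [AddCommGroup P] [Module K P] {f : M →ₗ[K] M' →ₗ[K] P} {U : Submodule K M}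
    {W : Submodule K M'} {Q : P → Prop} {β : P} (hβ : β ∈ Submodule.map₂ f U W)
    (mem : ∀ u ∈ U, ∀ a ∈ W, Q (f u a)) (add : ∀ x y, Q x → Q y → Q (x + y)) : Q β := by
  refine Submodule.iSup_induction (fun s : U => W.map (f s)) (motive := Q) hβ ?_ ?_ add
  · rintro ⟨u, hu⟩ _ ⟨a, ha, rfl⟩
    exact mem u hu a ha
  · simpa using mem 0 (zero_mem _) 0 (zero_mem _)

theorem contract_lemma {M M' P : Type} [AddCommGroup M] [Module K M] [AddCommGroup M']
    [Module K M'] [AddCommGroup P] [Module K P] (f : M →ₗ[K] M' →ₗ[K] P) (U : Submodule K M)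
    (W₀ W : Submodule K M') (Φ : Module.Dual K M → P →ₗ[K] M')
    (hΦ : ∀ φ, ∀ u ∈ U, ∀ a ∈ W₀, Φ φ (f u a) = φ u • a) {β : P}
    (hβ : β ∈ Submodule.map₂ f U W₀) (h : ∀ φ, Φ φ β ∈ W) : β ∈ Submodule.map₂ f U W := by
  classical
  let b := Module.Basis.ofVectorSpace K U
  choose φ hφ using fun j => LinearMap.exists_extend (p := U) (b.coord j)
  have hφ' : ∀ j (u : U), φ j u = b.repr u j := fun j u => LinearMap.congr_fun (hφ j) u
  have key : ∃ s₀ : Finset (Module.Basis.ofVectorSpaceIndex K U), ∀ s, s₀ ⊆ s →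
      β = ∑ j ∈ s, f (b j) (Φ (φ j) β) := by
    refine map₂_ind (Q := fun β => ∃ s₀ : Finset (Module.Basis.ofVectorSpaceIndex K U),
      ∀ s, s₀ ⊆ s → β = ∑ j ∈ s, f (b j) (Φ (φ j) β)) hβ (fun u hu a ha => ?_) ?_
    · refine ⟨(b.repr ⟨u, hu⟩).support, fun s hs => ?_⟩
      have h1 : (⟨u, hu⟩ : U) = ∑ j ∈ s, b.repr ⟨u, hu⟩ j • b j := by
        conv_lhs => rw [← b.linearCombination_repr ⟨u, hu⟩]
        rw [Finsupp.linearCombination_apply, Finsupp.sum_of_support_subset _ hs _ (by simp)]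
      have h2 : u = ∑ j ∈ s, b.repr ⟨u, hu⟩ j • (b j : M) := by
        simpa using congrArg Subtype.val h1
      simp only [hΦ _ u hu a ha, map_smul]
      conv_lhs => rw [h2]
      simp only [map_sum, map_smul, LinearMap.sum_apply, LinearMap.smul_apply]
      exact Finset.sum_congr rfl fun j _ => by rw [← hφ' j ⟨u, hu⟩]
    · rintro x y ⟨s, hs⟩ ⟨t, ht⟩
      refine ⟨s ∪ t, fun r hr => ?_⟩
      simp only [map_add, Finset.sum_add_distrib]
      rw [← hs r (Finset.union_subset_left hr), ← ht r (Finset.union_subset_right hr)]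
  obtain ⟨s, hs⟩ := key
  rw [hs s subset_rfl]
  exact Submodule.sum_mem _ fun j _ => Submodule.apply_mem_map₂ f (b j).2 (h _)

/-- a quotient map with kernel `S` together with a section -/
structure Split (S : Submodule K E) (E' : Type) [AddCommGroup E'] [Module K E'] where
  q : E →ₗ[K] E'
  σ : E' →ₗ[K] E
  qσ : ∀ e, q (σ e) = e
  ker : ∀ e, q e = 0 ↔ e ∈ S

theorem exists_split (S : Submodule K E) : ∃ L : Split S (E ⧸ S), L.q = S.mkQ := by
  obtain ⟨σ, hσ⟩ := LinearMap.exists_rightInverse_of_surjective S.mkQ (Submodule.range_mkQ S)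
  exact ⟨⟨S.mkQ, σ, fun e => LinearMap.congr_fun hσ e, fun e => Submodule.Quotient.mk_eq_zero S⟩,
    rfl⟩

namespace Split

variable {S : Submodule K E} {E' : Type} [AddCommGroup E'] [Module K E'] (L : Split S E')

/-- the projection onto `S` -/
def π : E →ₗ[K] E := LinearMap.id - L.σ ∘ₗ L.q

theorem π_apply (e : E) : L.π e = e - L.σ (L.q e) := rfl

theorem π_mem (e : E) : L.π e ∈ S := by
  rw [← L.ker, π_apply, map_sub, L.qσ, sub_self]

theorem π_of_mem (s : E) (hs : s ∈ S) : L.π s = s := by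
  rw [π_apply, (L.ker s).2 hs, map_zero, sub_zero]

theorem π_σ (e : E') : L.π (L.σ e) = 0 := by
  rw [π_apply, L.qσ, sub_self]

theorem π_π (e : E) : L.π (L.π e) = L.π e := L.π_of_mem _ (L.π_mem e)

theorem exists_Psi : ∃ Ψ : SA K E N →ₗ[K] SA K E N ⊗[K] SA K E' N,
    ∀ k, ∀ u ∈ (Gen S ^ k : Submodule K (SA K E N)), ∀ a, Ψ (u * smap L.σ a) = u ⊗ₜ a := by
  let X : E →ₗ[K] Module.End K (SA K E N ⊗[K] SA K E' N) :=
    LinearMap.rTensorHom _ ∘ₗ LinearMap.mul K _ ∘ₗ gx ∘ₗ L.π +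
      LinearMap.lTensorHom _ ∘ₗ LinearMap.mul K _ ∘ₗ gx ∘ₗ L.q
  let O : E × N →ₗ[K] Module.End K (SA K E N ⊗[K] SA K E' N) :=
    LinearMap.rTensorHom _ ∘ₗ LinearMap.mul K _ ∘ₗ go ∘ₗ L.π.prodMap 0 +
      LinearMap.llcomp K _ _ _ (LinearMap.rTensor _ par.toLinearMap) ∘ₗ
        LinearMap.lTensorHom _ ∘ₗ LinearMap.mul K _ ∘ₗ go ∘ₗ L.q.prodMap LinearMap.id
  have hX : ∀ e v w, X e (v ⊗ₜ w) = (gx (L.π e) * v) ⊗ₜ w + v ⊗ₜ (gx (L.q e) * w) := by
    intro e v w; simp [X]
  have hO : ∀ e v w, O e (v ⊗ₜ w) =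
      (go (L.π e.1, 0) * v) ⊗ₜ w + par v ⊗ₜ (go (L.q e.1, e.2) * w) := by
    intro e v w; simp [O]
  have hc : ∀ {F : Type} [AddCommGroup F] [Module K F] (e : F) (a b : SA K F N),
      a * (gx e * b) = gx e * (a * b) := by
    intro F _ _ e a b
    rw [← mul_assoc, ← gx_comm, mul_assoc]
  obtain ⟨ρ, hρx, hρo⟩ := exists_lift X O
    (fun e e' => TensorProduct.ext' fun v w => by
      simp only [Module.End.mul_apply, hX, map_add, hc (L.π e), hc (L.q e)]
      abel)
    (fun e e' => TensorProduct.ext' fun v w => by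
      simp only [Module.End.mul_apply, hX, hO, map_add, hc (L.π e), hc (L.q e), map_mul, par_gx]
      abel)
    (fun e => TensorProduct.ext' fun v w => by
      simp only [Module.End.mul_apply, hO, map_add, ← mul_assoc, go_sq, map_mul, par_go, par_par]
      simp [TensorProduct.neg_tmul])
  have h1 : ∀ a w, ρ (smap L.σ a) (1 ⊗ₜ w) = 1 ⊗ₜ (a * w) := by
    intro a
    induction a using ind with
    | alg r =>
      intro w
      rw [AlgHom.commutes, AlgHom.commutes, Module.algebraMap_end_apply, ← Algebra.smul_def,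
        TensorProduct.tmul_smul]
    | x e => intro w; rw [smap_gx, hρx, hX, L.π_σ, L.qσ]; simp
    | d e => intro w; rw [smap_gd, gd_eq, hρo, hO]; simp [L.π_σ, L.qσ, gd_eq, Prod.mk_zero_zero]
    | k u => intro w; rw [smap_gk, gk_eq, hρo, hO]; simp [gk_eq, Prod.mk_zero_zero]
    | mul a b ha hb => intro w; rw [map_mul, map_mul, Module.End.mul_apply, hb, ha, mul_assoc]
    | add a b ha hb =>
      intro w; rw [map_add, map_add, LinearMap.add_apply, ha, hb, add_mul, TensorProduct.tmul_add]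
  have h2 : ∀ u ∈ (Gen S : Submodule K (SA K E N)), ∀ v w, ρ u (v ⊗ₜ w) = (u * v) ⊗ₜ w := by
    intro u hu v w
    obtain ⟨s, hs, t, ht, rfl⟩ := mem_Gen.1 hu
    rw [map_add, LinearMap.add_apply, hρx, gd_eq, hρo, hX, hO]
    simp [L.π_of_mem s hs, L.π_of_mem t ht, (L.ker s).2 hs, (L.ker t).2 ht, add_mul,
      TensorProduct.add_tmul, Prod.mk_zero_zero]
  have h3 : ∀ k, ∀ u ∈ (Gen S ^ k : Submodule K (SA K E N)), ∀ v w,
      ρ u (v ⊗ₜ w) = (u * v) ⊗ₜ w := by
    intro k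
    induction k with
    | zero =>
      intro u hu v w
      rw [pow_zero] at hu
      obtain ⟨r, rfl⟩ := Submodule.mem_one.1 hu
      rw [AlgHom.commutes, Module.algebraMap_end_apply, ← Algebra.smul_def,
        TensorProduct.smul_tmul']
    | succ k ih =>
      intro u hu
      rw [pow_succ'] at hu
      refine Submodule.mul_induction_on hu (fun g hg u hu v w => ?_) (fun x y hx hy v w => ?_)
      · rw [map_mul, Module.End.mul_apply, ih u hu, h2 g hg, mul_assoc]
      · rw [map_add, LinearMap.add_apply, hx, hy, add_mul, TensorProduct.add_tmul]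
  refine ⟨LinearMap.applyₗ (1 ⊗ₜ 1) ∘ₗ ρ.toLinearMap, fun k u hu a => ?_⟩
  simp only [LinearMap.comp_apply, AlgHom.toLinearMap_apply, LinearMap.applyₗ_apply_apply]
  rw [map_mul, Module.End.mul_apply, h1, h3 k u hu, mul_one, mul_one]

theorem exists_Phi : ∃ Φ : Module.Dual K (SA K E N) → SA K E N →ₗ[K] SA K E' N,
    ∀ φ k, ∀ u ∈ (Gen S ^ k : Submodule K (SA K E N)), ∀ a, Φ φ (u * smap L.σ a) = φ u • a := by
  obtain ⟨Ψ, hΨ⟩ := L.exists_Psi (N := N)
  refine ⟨fun φ => (TensorProduct.lid K _).toLinearMap ∘ₗ LinearMap.rTensor _ φ ∘ₗ Ψ,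
    fun φ k u hu a => ?_⟩
  simp [hΨ k u hu]

theorem exists_Phi' : ∃ Φ : Module.Dual K (SA K E' N) → SA K E N →ₗ[K] SA K E N,
    ∀ φ k, ∀ u ∈ (Gen S ^ k : Submodule K (SA K E N)), ∀ a, Φ φ (u * smap L.σ a) = φ a • u := by
  obtain ⟨Ψ, hΨ⟩ := L.exists_Psi (N := N)
  refine ⟨fun φ => (TensorProduct.rid K _).toLinearMap ∘ₗ LinearMap.lTensor _ φ ∘ₗ Ψ,
    fun φ k u hu a => ?_⟩
  simp [hΨ k u hu]

/-- contraction of the first factor -/
def Phi : Module.Dual K (SA K E N) → SA K E N →ₗ[K] SA K E' N := L.exists_Phi.choose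

theorem Phi_apply (φ : Module.Dual K (SA K E N)) {k : ℕ} {u : SA K E N} (hu : u ∈ Gen S ^ k)
    (a : SA K E' N) : L.Phi φ (u * smap L.σ a) = φ u • a := L.exists_Phi.choose_spec φ k u hu a

/-- the multiplication map -/
def mu : SA K E N →ₗ[K] SA K E' N →ₗ[K] SA K E N :=
  (LinearMap.mul K _).compl₂ (smap L.σ).toLinearMap

theorem mu_apply (u : SA K E N) (a : SA K E' N) : L.mu u a = u * smap L.σ a := rfl

/-- the product of subspaces of the two factors -/
def star (U : Submodule K (SA K E N)) (W : Submodule K (SA K E' N)) : Submodule K (SA K E N) :=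
  Submodule.map₂ L.mu U W

theorem mem_star {U : Submodule K (SA K E N)} {W : Submodule K (SA K E' N)} {u : SA K E N}
    (hu : u ∈ U) {a : SA K E' N} (ha : a ∈ W) : u * smap L.σ a ∈ L.star U W :=
  Submodule.apply_mem_map₂ L.mu hu ha

theorem star_ind {U : Submodule K (SA K E N)} {W : Submodule K (SA K E' N)}
    {Q : SA K E N → Prop} {β : SA K E N} (hβ : β ∈ L.star U W)
    (mem : ∀ u ∈ U, ∀ a ∈ W, Q (u * smap L.σ a)) (add : ∀ x y, Q x → Q y → Q (x + y)) : Q β :=
  map₂_ind hβ mem add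

theorem star_mono {U U' : Submodule K (SA K E N)} {W W' : Submodule K (SA K E' N)} (hU : U ≤ U')
    (hW : W ≤ W') : L.star U W ≤ L.star U' W' := Submodule.map₂_le_map₂ hU hW

theorem star_of_Phi {k : ℕ} {U : Submodule K (SA K E N)} (hU : U ≤ Gen S ^ k)
    {W : Submodule K (SA K E' N)} {β : SA K E N} (hβ : β ∈ L.star U ⊤)
    (h : ∀ φ, L.Phi φ β ∈ W) : β ∈ L.star U W :=
  contract_lemma L.mu U ⊤ W L.Phi (fun φ _ hu a _ => L.Phi_apply φ (hU hu) a) hβ h

theorem comp_mem_star (k : ℕ) (a : SA K E N) : comp L.π 1 k a ∈ L.star (Gen S ^ k) ⊤ := by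
  let R : Submodule K (SA K E N) := LinearMap.range (smap L.σ).toLinearMap
  have hR : PStab R := by
    rintro _ ⟨a, rfl⟩
    exact ⟨par a, (par_smap _ _).symm⟩
  have hRR : R * R ≤ R := Submodule.mul_le.2 (by
    rintro _ ⟨a, rfl⟩ _ ⟨b, rfl⟩
    exact ⟨a * b, by simp⟩)
  have h1 : (1 : SA K E N) ∈ R := ⟨1, by simp⟩
  have h0 : ∀ a ∈ R, a ∈ Gen S ^ 0 * R := fun a ha => by rwa [pow_zero, one_mul]
  have hG : ∀ a ∈ Gen S, a ∈ Gen S ^ 1 * R := fun a ha => by
    simpa using Submodule.mul_mem_mul ha h1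
  have := comp_mem_family L.π 1 (fun k => Gen S ^ k * R) (h0 _ h1)
    (fun i j a ha b hb => by
      have := Submodule.mul_mem_mul ha hb
      rw [mul_assoc, ← mul_assoc R, ← ((Gen_comm S hR).pow_left j).eq, mul_assoc, ← mul_assoc,
        ← pow_add] at this
      exact mul_le_mul' le_rfl hRR this)
    (fun e => hG _ (gx_mem_Gen (L.π_mem e)))
    (fun e => h0 _ ⟨gx (L.q e), by simp [π_apply]⟩)
    (fun e => hG _ (gd_mem_Gen (L.π_mem e)))
    (fun e => h0 _ ⟨gd (L.q e), by simp [π_apply]⟩)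
    (fun u => h0 _ ⟨gk u, by simp⟩) a k
  refine Submodule.mul_le.2 ?_ this
  rintro u hu _ ⟨a, rfl⟩
  exact L.mem_star hu trivial

theorem Phi_mem_Fil {k m : ℕ} {T : Submodule K E'} {β : SA K E N}
    (hβ : β ∈ L.star (Gen S ^ k) ⊤) (h : β ∈ Fil (T.comap L.q) (k + m))
    (φ : Module.Dual K (SA K E N)) : L.Phi φ β ∈ Fil T m := by
  obtain ⟨π', h1, h2⟩ := exists_proj T
  let πT : E →ₗ[K] E := L.π + L.σ ∘ₗ π' ∘ₗ L.q
  have hT : ∀ s ∈ T.comap L.q, πT s = s := fun s hs => by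
    simp [πT, π_apply, h2 _ hs]
  have hS : ∀ s ∈ S, πT s = s := fun s hs => hT s (by simp [(L.ker s).2 hs])
  have hσ : ∀ e, πT (L.σ e) = L.σ (π' e) := fun e => by simp [πT, L.π_σ, L.qσ]
  refine mem_Fil_of_comp h1 fun j hj => ?_
  have : L.Phi φ (comp πT 1 (k + j) β) = comp π' 1 j (L.Phi φ β) := by
    refine L.star_ind (Q := fun β => L.Phi φ (comp πT 1 (k + j) β) = comp π' 1 j (L.Phi φ β)) hβ
      (fun u hu a _ => ?_) (fun x y hx hy => ?_)
    · rw [comp_Hom_mul (pow_le_Hom hS k hu), comp_smap _ hσ, L.Phi_apply φ hu, L.Phi_apply φ hu,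
        map_smul]
    · simp only [map_add, hx, hy]
  rw [← this, comp_Fil_lt hT (by omega) h, map_zero]

theorem star_left {k : ℕ} {β : SA K E N} (hβ : β ∈ L.star (Gen S ^ k) ⊤)
    (m : Submodule K E → ℕ) (h : ∀ T ≤ S, β ∈ Fil T (m T)) :
    β ∈ L.star (Gen S ^ k ⊓ ⨅ T ≤ S, Fil T (m T)) ⊤ := by
  obtain ⟨Φ, hΦ⟩ := L.exists_Phi' (N := N)
  rw [star, ← Submodule.map₂_flip] at hβ ⊢
  refine contract_lemma L.mu.flip ⊤ (Gen S ^ k) _ Φ (fun ψ a _ u hu => hΦ ψ k u hu a) hβ
    fun ψ => ?_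
  rw [Submodule.map₂_flip] at hβ
  refine ⟨L.star_ind (Q := fun β => Φ ψ β ∈ Gen S ^ k) hβ (fun u hu a _ => ?_)
    (fun x y hx hy => ?_), ?_⟩
  · rw [hΦ ψ k u hu]; exact Submodule.smul_mem _ _ hu
  · rw [map_add]; exact add_mem hx hy
  refine (Submodule.mem_iInf _).2 fun T => (Submodule.mem_iInf _).2 fun hT => ?_
  obtain ⟨π₀, h1, h2⟩ := exists_proj T
  let πT : E →ₗ[K] E := π₀ ∘ₗ L.π
  have hT1 : ∀ e, πT e ∈ T := fun e => h1 _
  have hT2 : ∀ s ∈ T, πT s = s := fun s hs => by simp [πT, L.π_of_mem s (hT hs), h2 s hs]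
  have hσ : ∀ e, πT (L.σ e) = 0 := fun e => by simp [πT, L.π_σ]
  refine mem_Fil_of_comp hT1 fun j hj => ?_
  have : Φ ψ (comp πT 1 j β) = comp πT 1 j (Φ ψ β) := by
    refine L.star_ind (Q := fun β => Φ ψ (comp πT 1 j β) = comp πT 1 j (Φ ψ β)) hβ
      (fun u hu a _ => ?_) (fun x y hx hy => ?_)
    · rw [comp_mul_Hom_zero (smap_mem_Hom_zero _ hσ 1 a), hΦ ψ k u hu,
        hΦ ψ k _ (((graded_Gen 1 fun s _ => hT (hT1 s)).pow k) j u hu), map_smul]
    · simp only [map_add, hx, hy]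
  rw [← this, comp_Fil_lt hT2 hj (h T hT), map_zero]

theorem comp_mem_star_of {k : ℕ} {b : SA K E N} (m : Submodule K E → ℕ)
    (m' : Submodule K E' → ℕ) (h1 : ∀ T ≤ S, b ∈ Fil T (m T))
    (h2 : ∀ T : Submodule K E', b ∈ Fil (T.comap L.q) (k + m' T)) :
    comp L.π 1 k b ∈ L.star (Gen S ^ k ⊓ ⨅ T ≤ S, Fil T (m T)) (⨅ T, Fil T (m' T)) := by
  refine L.star_of_Phi inf_le_left (L.star_left (L.comp_mem_star k b) m fun T hT => ?_)
    fun φ => (Submodule.mem_iInf _).2 fun T => L.Phi_mem_Fil (L.comp_mem_star k b) ?_ φ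
  · exact graded_Fil 1 (fun s hs => by rwa [L.π_of_mem s (hT hs)]) _ k b (h1 T hT)
  · exact graded_Fil 1 (fun s _ => by simp [(L.ker _).2 (L.π_mem s)]) _ k b (h2 T)

theorem smap_AA (c : List E) {a : SA K E' N} (ha : a ∈ AA (c.map L.q)) :
    smap L.σ a ∈ AA c ⊔ Fil S 1 := by
  induction c generalizing a with
  | nil => rw [AA_nil]; exact Submodule.mem_sup_left trivial
  | cons y c ih =>
    rw [List.map_cons, AA_cons] at ha
    refine Submodule.mul_induction_on ha (fun u hu v hv => ?_) (fun x y hx hy => ?_)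
    · have hy : L.σ (L.q y) = y - L.π y := by simp [π_apply]
      have hu' : smap L.σ u ∈ Gen (K ∙ y) ⊔ Fil S 1 := by
        refine Gen_le (U := (Gen (K ∙ y) ⊔ Fil S 1).comap (smap L.σ).toLinearMap)
          (fun s hs => ?_) (fun s hs => ?_) hu
        · obtain ⟨r, rfl⟩ := Submodule.mem_span_singleton.1 hs
          rw [map_smul]
          refine Submodule.smul_mem _ _ ?_
          rw [Submodule.mem_comap, AlgHom.toLinearMap_apply, smap_gx, hy, map_sub]
          exact sub_mem (Submodule.mem_sup_left (gx_mem_Gen (Submodule.mem_span_singleton_self y)))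
            (Submodule.mem_sup_right (Gen_le_Fil S (gx_mem_Gen (L.π_mem y))))
        · obtain ⟨r, rfl⟩ := Submodule.mem_span_singleton.1 hs
          rw [map_smul]
          refine Submodule.smul_mem _ _ ?_
          rw [Submodule.mem_comap, AlgHom.toLinearMap_apply, smap_gd, hy, map_sub]
          exact sub_mem (Submodule.mem_sup_left (gd_mem_Gen (Submodule.mem_span_singleton_self y)))
            (Submodule.mem_sup_right (Gen_le_Fil S (gd_mem_Gen (L.π_mem y))))
      obtain ⟨u₁, hu₁, u₂, hu₂, hu⟩ := Submodule.mem_sup.1 hu'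
      obtain ⟨v₁, hv₁, v₂, hv₂, hv⟩ := Submodule.mem_sup.1 (ih hv)
      rw [map_mul, ← hu, add_mul, ← hv, mul_add u₁, add_assoc, AA_cons]
      exact Submodule.add_mem_sup (Submodule.mul_mem_mul hu₁ hv₁)
        (add_mem (mul_mem_Fil_right _ hv₂) (mul_mem_Fil_left hu₂ _))
    · rw [map_add]; exact add_mem hx hy

theorem star_lift (c : List E) {k : ℕ} {Y : Submodule K (SA K E N)} (hY : Y ≤ Fil S k)
    {β : SA K E N} (hβ : β ∈ L.star Y (AA (c.map L.q))) : β ∈ Y * AA c ⊔ Fil S (k + 1) := by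
  refine L.star_ind (Q := fun β => β ∈ Y * AA c ⊔ Fil S (k + 1)) hβ (fun u hu a ha => ?_)
    (fun x y hx hy => add_mem hx hy)
  obtain ⟨v₁, hv₁, v₂, hv₂, hv⟩ := Submodule.mem_sup.1 (L.smap_AA c ha)
  rw [← hv, mul_add]
  exact Submodule.add_mem_sup (Submodule.mul_mem_mul hu hv₁) (mul_mem_Fil (hY hu) hv₂)

end Split

open Classical in
/-- the members of a list outside a subspace -/
def outl (S : Submodule K E) (c : List E) : List E := c.filter fun v => decide (v ∉ S)

theorem outl_cons_mem {y : E} {S : Submodule K E} (h : y ∈ S) (c : List E) :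
    outl S (y :: c) = outl S c := by
  simp [outl, h]

theorem outl_cons_notMem {y : E} {S : Submodule K E} (h : y ∉ S) (c : List E) :
    outl S (y :: c) = y :: outl S c := by
  simp [outl, h]

theorem cnt_eq_inf (c : List E) (S T : Submodule K E) :
    cnt c T = cnt c (T ⊓ S) + cnt (outl S c) T := by
  induction c with
  | nil => rfl
  | cons y c ih =>
    by_cases hS : y ∈ S
    · rw [outl_cons_mem hS]
      by_cases hT : y ∈ T
      · rw [cnt_cons_mem hT, cnt_cons_mem (show y ∈ T ⊓ S from ⟨hT, hS⟩)]; omega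
      · rw [cnt_cons_notMem hT, cnt_cons_notMem (fun h : y ∈ T ⊓ S => hT h.1), ih]
    · rw [outl_cons_notMem hS, cnt_cons_notMem (fun h : y ∈ T ⊓ S => hS h.2)]
      by_cases hT : y ∈ T
      · rw [cnt_cons_mem hT, cnt_cons_mem hT]; omega
      · rw [cnt_cons_notMem hT, cnt_cons_notMem hT, ih]

theorem cnt_map {E' : Type} [AddCommGroup E'] [Module K E'] (q : E →ₗ[K] E') (c : List E)
    (T : Submodule K E') : cnt (c.map q) T = cnt c (T.comap q) := by
  simp only [cnt, List.countP_map]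
  rfl

theorem Split.cnt_comap {S : Submodule K E} {E' : Type} [AddCommGroup E'] [Module K E']
    (L : Split S E') (c : List E) (T : Submodule K E') :
    cnt c (T.comap L.q) = cnt c S + cnt ((outl S c).map L.q) T := by
  rw [cnt_eq_inf c S, cnt_map, inf_eq_right.2]
  intro s hs
  simp [(L.ker s).2 hs]

theorem Split.ne_zero {S : Submodule K E} {E' : Type} [AddCommGroup E'] [Module K E']
    (L : Split S E') (c : List E) : ∀ v ∈ (outl S c).map L.q, v ≠ 0 := by
  intro v hv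
  obtain ⟨w, hw, rfl⟩ := List.mem_map.1 hv
  have := (List.mem_filter.1 hw).2
  rw [Ne, L.ker]
  simpa using this

theorem pow_mul_AA_le {z : E} (c : List E) (hc : ∀ v ∈ c, v ≠ 0) :
    (Gen (K ∙ z) ^ cnt c (K ∙ z) * AA (outl (K ∙ z) c) : Submodule K (SA K E N)) ≤ AA c := by
  induction c with
  | nil => simp [cnt_nil, outl]
  | cons y c ih =>
    have ih' := ih fun v hv => hc v (List.mem_cons_of_mem _ hv)
    by_cases h : y ∈ K ∙ z
    · have hy : (K ∙ y) = K ∙ z := by
        obtain ⟨r, rfl⟩ := Submodule.mem_span_singleton.1 h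
        refine Submodule.span_singleton_smul_eq (IsUnit.mk0 r ?_) z
        rintro rfl
        exact hc _ List.mem_cons_self (zero_smul _ _)
      rw [cnt_cons_mem h, outl_cons_mem h, pow_succ', mul_assoc, AA_cons, hy]
      exact mul_le_mul' le_rfl ih'
    · rw [cnt_cons_notMem h, outl_cons_notMem h, AA_cons, AA_cons, ← mul_assoc,
        ← (Gen_comm (K ∙ y) ((pstab_Gen (K ∙ z)).pow _)).eq, mul_assoc]
      exact mul_le_mul' le_rfl ih'

theorem finrank_quot_lt [FiniteDimensional K E] {S : Submodule K E} {y : E} (hy : y ∈ S)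
    (hy0 : y ≠ 0) : Module.finrank K (E ⧸ S) < Module.finrank K E := by
  have h1 := Submodule.finrank_quotient_add_finrank S
  have h2 : Module.finrank K S ≠ 0 := by
    intro h
    rw [Submodule.finrank_eq_zero] at h
    exact hy0 (by simpa [h] using hy)
  omega

theorem sat_aux (r : ℕ) : ∀ (E : Type) [AddCommGroup E] [Module K E] [FiniteDimensional K E],
    Module.finrank K E = r → ∀ c : List E, (∀ v ∈ c, v ≠ 0) →
      (⨅ T, Fil T (cnt c T) : Submodule K (SA K E N)) ≤ AA c := by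
  induction r using Nat.strong_induction_on with
  | _ r ihr =>
  intro E _ _ _ hr c hc
  induction c with
  | nil => rw [AA_nil]; exact le_top
  | cons z c ih =>
    have ih' := ih fun v hv => hc v (List.mem_cons_of_mem _ hv)
    have hz0 : z ≠ 0 := hc z List.mem_cons_self
    have hz : z ∈ K ∙ z := Submodule.mem_span_singleton_self z
    intro ω hω
    rw [Submodule.mem_iInf] at hω
    obtain ⟨L, -⟩ := exists_split (K ∙ z)
    have h1 := L.comp_mem_star_of (k := cnt (z :: c) (K ∙ z)) (b := ω) (fun _ => 0)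
      (cnt ((outl (K ∙ z) (z :: c)).map L.q)) (fun T _ => by simp [Fil_zero])
      (fun T => by rw [← L.cnt_comap]; exact hω _)
    have h2 := L.star_mono inf_le_left
      (ihr _ (hr ▸ finrank_quot_lt hz hz0) _ rfl _ (L.ne_zero (z :: c))) h1
    obtain ⟨ω₁, hω₁, ω₂, hω₂, h3⟩ := Submodule.mem_sup.1 (L.star_lift _ (pow_le_Fil _ _) h2)
    have h4 : ω₁ ∈ AA (z :: c) := pow_mul_AA_le _ hc hω₁
    have h5 : ω - ω₁ ∈ Fil (K ∙ z) (cnt (z :: c) (K ∙ z) + 1) := by
      have := add_mem (sub_comp_mem_Fil L.π_mem L.π_of_mem (hω (K ∙ z))) hω₂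
      rw [← h3] at this
      convert this using 1
      abel
    have h6 : ω - ω₁ ∈ Fil (K ∙ z) 2 := Fil_anti _ (by rw [cnt_cons_mem hz]; omega) h5
    rw [Fil_succ, Fil_succ, Fil_zero] at h6
    obtain ⟨γ, hγ⟩ := Fil_two_le z h6
    have h7 : γ ∈ AA c := by
      refine ih' ((Submodule.mem_iInf _).2 fun T => ?_)
      have := sub_mem (hω T) (AA_le_Fil _ T h4)
      rw [hγ] at this
      by_cases hT : z ∈ T
      · rw [cnt_cons_mem hT] at this
        exact Fil_cancel_mem hz0 hT this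
      · rw [cnt_cons_notMem hT] at this
        exact Fil_cancel_notMem hT this
    have h8 : ω = ω₁ + gx z * γ := by rw [← hγ]; abel
    rw [h8]
    refine add_mem h4 ?_
    rw [AA_cons]
    exact Submodule.mul_mem_mul (gx_mem_Gen hz) h7

theorem AA_eq [FiniteDimensional K E] {c : List E} (hc : ∀ v ∈ c, v ≠ 0) :
    (AA c : Submodule K (SA K E N)) = ⨅ T, Fil T (cnt c T) :=
  le_antisymm (le_iInf fun T => AA_le_Fil c T) (sat_aux _ E rfl c hc)

end

end Pool.Agent.MP_79429d_co.KD
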