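import Pool.Agent.MP_79429d_co.K4

/-!
Vanishing of cohomology for the graded pieces.
-/

set_option autoImplicit false

namespace Pool.Agent.MP_79429d_co.KD

noncomputable section

variable {p : ℕ} [Fact p.Prime] {E N : Type} [AddCommGroup E] [Module (ZMod p) E]
  [AddCommGroup N] [Module (ZMod p) N]

/-- vanishing of the cohomology of `U` in degree `n` -/
def Van (θ : N →ₗ[ZMod p] E) (U : Submodule (ZMod p) (SA (ZMod p) E N)) (n : ℕ) : Prop :=
  ∀ b ∈ U, DD θ b = 0 → tau n b ∈ U.map (DD θ)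

/-- vanishing of the cohomology of `U / U'` in degree `n` -/
def VQ (θ : N →ₗ[ZMod p] E) (U U' : Submodule (ZMod p) (SA (ZMod p) E N)) (n : ℕ) : Prop :=
  ∀ b ∈ U, DD θ b ∈ U' → tau n b ∈ U.map (DD θ) ⊔ U'

/-- graded for the regularity grading -/
abbrev TG (U : Submodule (ZMod p) (SA (ZMod p) E N)) : Prop := Graded LinearMap.id (p + 1) U

theorem tau_DD_mem (θ : N →ₗ[ZMod p] E) {U : Submodule (ZMod p) (SA (ZMod p) E N)} (hU : TG U)
    (n : ℕ) {b : SA (ZMod p) E N} (hb : b ∈ U) : tau n (DD θ b) ∈ U.map (DD θ) := by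
  by_cases hn : n < p
  · rw [tau_DD_lt θ hn]; exact zero_mem _
  · obtain ⟨m, rfl⟩ := Nat.exists_eq_add_of_le' (not_lt.1 hn)
    rw [tau_DD]
    exact ⟨_, hU m b hb, rfl⟩

theorem VQ.refl (θ : N →ₗ[ZMod p] E) {U : Submodule (ZMod p) (SA (ZMod p) E N)} (hU : TG U)
    (n : ℕ) : VQ θ U U n := fun b hb _ => Submodule.mem_sup_right (hU n b hb)

theorem VQ.trans {θ : N →ₗ[ZMod p] E} {U U' U'' : Submodule (ZMod p) (SA (ZMod p) E N)} {n : ℕ}
    (h1 : VQ θ U U' n) (h2 : VQ θ U' U'' n) (hU : TG U) (hU'' : TG U'') (l1 : U' ≤ U)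
    (l2 : U'' ≤ U') : VQ θ U U'' n := by
  intro b hb hD
  obtain ⟨_, ⟨b', hb', rfl⟩, u, hu, h⟩ := Submodule.mem_sup.1 (h1 b hb (l2 hD))
  have h3 : DD θ u ∈ U'' := by
    have : DD θ u = tau (n + p) (DD θ b) := by rw [tau_DD, ← h, map_add, DD_DD, zero_add]
    rw [this]; exact hU'' _ _ hD
  rw [← tau_tau, ← h, map_add]
  exact add_mem (Submodule.mem_sup_left (tau_DD_mem θ hU n hb'))
    ((sup_le_sup_right (Submodule.map_mono (f := DD θ) l1) U'') (h2 u hu h3))

theorem Van.of_VQ {θ : N →ₗ[ZMod p] E} {U : Submodule (ZMod p) (SA (ZMod p) E N)} {n : ℕ}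
    (h1 : Van θ ⊤ n) (h2 : ∀ m, m + p = n → VQ θ ⊤ U m) (hU : TG U) : Van θ U n := by
  intro b hb hD
  obtain ⟨b₀, -, h⟩ := h1 b trivial hD
  by_cases hn : n < p
  · rw [← tau_tau, ← h, tau_DD_lt θ hn]; exact zero_mem _
  · obtain ⟨m, rfl⟩ := Nat.exists_eq_add_of_le' (not_lt.1 hn)
    obtain ⟨_, ⟨b', -, rfl⟩, u, hu, h3⟩ :=
      Submodule.mem_sup.1 (h2 m rfl b₀ trivial (by rw [h]; exact hU _ _ hb))
    refine ⟨u, hu, ?_⟩
    rw [← tau_tau, ← h, tau_DD, ← h3, map_add, DD_DD, zero_add]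

theorem tau_smap {E' : Type} [AddCommGroup E'] [Module (ZMod p) E'] (f : E' →ₗ[ZMod p] E) (n : ℕ)
    (a : SA (ZMod p) E' N) : tau n (smap f a) = smap f (tau n a) :=
  comp_smap f (fun _ => rfl) _ n a

theorem dpow_eq_bot {K : Type} [Field K] {E N : Type} [AddCommGroup E] [Module K E]
    [AddCommGroup N] [Module K N] (S : Submodule K E) [FiniteDimensional K S] :
    ((S.map gd) ^ (Module.finrank K S + 1) : Submodule K (SA K E N)) = ⊥ := by
  let F : ExteriorAlgebra K S →ₐ[K] SA K E N :=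
    ExteriorAlgebra.lift K ⟨gd ∘ₗ S.subtype, fun _ => go_sq _⟩
  have h1 : S.map gd = (LinearMap.range (ExteriorAlgebra.ι K : S →ₗ[K] _)).map F.toLinearMap := by
    rw [← LinearMap.range_comp]
    have : F.toLinearMap ∘ₗ ExteriorAlgebra.ι K = gd ∘ₗ S.subtype := ExteriorAlgebra.ι_comp_lift _ _ _
    rw [this, LinearMap.range_comp, Submodule.range_subtype]
  have h2 : (⋀[K]^(Module.finrank K S + 1) S) = ⊥ := by
    rw [← Submodule.finrank_eq_zero, exteriorPower.finrank_eq, Nat.choose_succ_self]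
  rw [h1, ← Submodule.map_pow]
  change Submodule.map _ (⋀[K]^(Module.finrank K S + 1) S) = ⊥
  rw [h2, Submodule.map_bot]

theorem tau_pow_mem (S : Submodule (ZMod p) E) (k : ℕ) :
    ∀ u ∈ (Gen S ^ k : Submodule (ZMod p) (SA (ZMod p) E N)), ∀ a t, k + p * a < t + p →
      tau t u ∈ (S.map gd) ^ a * ⊤ := by
  induction k with
  | zero =>
    intro u hu a t h
    rcases a with _ | a
    · simp
    · have := pow_le_Hom (π := LinearMap.id) (S := S) (fun _ _ => rfl) 0 hu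
      rw [pow_zero] at hu
      obtain ⟨r, rfl⟩ := Submodule.mem_one.1 hu
      rw [Algebra.algebraMap_eq_smul_one, map_smul, comp_ne (one_mem_Hom _ _), smul_zero]
      · exact zero_mem _
      · rintro rfl
        rw [Nat.mul_succ] at h
        omega
  | succ k ih =>
    intro u hu a t h
    rw [pow_succ'] at hu
    refine Submodule.mul_induction_on hu (fun g hg u hu => ?_) (fun x y hx hy => ?_)
    · obtain ⟨s, hs, s', hs', rfl⟩ := mem_Gen.1 hg
      rw [add_mul, map_add]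
      refine add_mem ?_ ?_
      · have hx : (gx s : SA (ZMod p) E N) ∈ Tau 1 := gx_mem_Hom_one _ rfl
        rcases t with _ | t
        · rw [comp_Hom_mul_lt hx zero_lt_one]; exact zero_mem _
        · rw [add_comm t, comp_Hom_mul hx, gx_comm, ← top_mul_top', ← mul_assoc]
          exact Submodule.mul_mem_mul (ih u hu a t (by omega)) trivial
      · have hx : (gd s' : SA (ZMod p) E N) ∈ Tau (p + 1) := gd_mem_Hom _ rfl
        by_cases ht : t < p + 1
        · rw [comp_Hom_mul_lt hx ht]; exact zero_mem _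
        · obtain ⟨t, rfl⟩ := Nat.exists_eq_add_of_le (not_lt.1 ht)
          rcases a with _ | a
          · simp
          · rw [comp_Hom_mul hx, pow_succ', mul_assoc]
            rw [Nat.mul_succ] at h
            exact Submodule.mul_mem_mul ⟨s', hs', rfl⟩ (ih u hu a t (by omega))
    · rw [map_add]; exact add_mem hx hy

/-- the largest degree of the first factor -/
def tbound (p k ρ : ℕ) : ℕ := if k = 0 then 0 else k + p * ρ

theorem tau_pow_eq_zero (S : Submodule (ZMod p) E) [FiniteDimensional (ZMod p) S] {k t : ℕ}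
    {u : SA (ZMod p) E N} (hu : u ∈ Gen S ^ k) (ht : tbound p k (Module.finrank (ZMod p) S) < t) :
    tau t u = 0 := by
  unfold tbound at ht
  split_ifs at ht with hk
  · subst hk
    rw [pow_zero] at hu
    obtain ⟨r, rfl⟩ := Submodule.mem_one.1 hu
    rw [Algebra.algebraMap_eq_smul_one, map_smul, comp_ne (one_mem_Hom _ _) ht.ne, smul_zero]
  · have := tau_pow_mem S k u hu (Module.finrank (ZMod p) S + 1) t (by rw [Nat.mul_succ]; omega)
    rwa [dpow_eq_bot, Submodule.bot_mul, Submodule.mem_bot] at this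

namespace Split

variable {S : Submodule (ZMod p) E} {E' : Type} [AddCommGroup E'] [Module (ZMod p) E']
  (L : Split S E')

theorem tg_star {Y : Submodule (ZMod p) (SA (ZMod p) E N)}
    {W : Submodule (ZMod p) (SA (ZMod p) E' N)} (hY : TG Y) (hW : TG W) : TG (L.star Y W) := by
  intro n β hβ
  refine L.star_ind (Q := fun β => tau n β ∈ L.star Y W) hβ (fun u hu a ha => ?_)
    (fun x y hx hy => ?_)
  · rw [comp_mul]
    refine Submodule.sum_mem _ fun x _ => ?_
    rw [tau_smap]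
    exact L.mem_star (hY _ u hu) (hW _ a ha)
  · rw [map_add]; exact add_mem hx hy

theorem van_euler (θ : N →ₗ[ZMod p] E') {k : ℕ} (hk : ¬ p ∣ k)
    {Y : Submodule (ZMod p) (SA (ZMod p) E N)} {W : Submodule (ZMod p) (SA (ZMod p) E' N)}
    (hY : Y ≤ Gen S ^ k) (hY' : TG Y) (hW : TG W)
    (hc : ∀ δ : SA (ZMod p) E N →ₗ[ZMod p] SA (ZMod p) E N, IsOdd δ →
      (∀ T ≤ S, Stab δ (Gen T)) → Stab δ Y) (m : ℕ) :
    Van (L.σ ∘ₗ θ) (L.star Y W) m := by
  obtain ⟨δ, hδ, hx, hd, hκ⟩ := exists_con (N := N) L.π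
  have hδY : Stab δ Y := hc δ hδ fun T hT =>
    stab_Gen (fun s _ => by rw [hx]; exact zero_mem _)
      (fun s hs => by rw [hd, L.π_of_mem s (hT hs)]; exact gx_mem_Gen hs)
  have hpar : ∀ a, δ (par a) = - par (δ a) :=
    hδ.par_comm (by simp [hx]) (by simp [hd]) (by simp [hκ])
  have hμ : ∀ a, δ (smap L.σ a) = 0 := fun a => by
    have := hδ.ext_aux (δ' := 0) (fun _ _ => by simp) L.σ (by simp [hx])
      (by simp [hd, L.π_σ]) (by simp [hκ]) a
    simpa using this
  let C : SA (ZMod p) E N →ₗ[ZMod p] SA (ZMod p) E N :=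
    DD (L.σ ∘ₗ θ) ∘ₗ δ + δ ∘ₗ DD (L.σ ∘ₗ θ)
  have hC : ∀ a, C a = DD (L.σ ∘ₗ θ) (δ a) + δ (DD (L.σ ∘ₗ θ) a) := fun _ => rfl
  have hmul : ∀ a b, C (a * b) = C a * b + a * C b := by
    intro a b
    simp only [hC, hδ a b, DD_odd _ a b, map_add, DD_odd _ (δ a), DD_odd _ (par a),
      hδ (DD _ a), hδ (par a), DD_par, hpar, par_par]
    noncomm_ring
  have hG : ∀ u ∈ (Gen S : Submodule (ZMod p) (SA (ZMod p) E N)), C u = u := by
    intro u hu
    obtain ⟨s, hs, t, ht, rfl⟩ := mem_Gen.1 hu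
    simp [hC, hx, hd, L.π_of_mem s hs, L.π_of_mem t ht, add_comm]
  have hP : ∀ k : ℕ, ∀ u ∈ (Gen S ^ k : Submodule (ZMod p) (SA (ZMod p) E N)),
      C u = (k : ZMod p) • u := by
    intro k
    induction k with
    | zero =>
      intro u hu
      rw [pow_zero] at hu
      obtain ⟨r, rfl⟩ := Submodule.mem_one.1 hu
      simp [hC, hδ.alg, (DD_odd _).alg]
    | succ k ih =>
      intro u hu
      rw [pow_succ'] at hu
      refine Submodule.mul_induction_on hu (fun g hg u hu => ?_) (fun x y hx hy => ?_)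
      · rw [hmul, hG g hg, ih u hu, Nat.cast_succ, add_smul, one_smul, mul_smul_comm, add_comm]
      · rw [map_add, hx, hy, smul_add]
  intro β hβ hD
  have h1 : C β = (k : ZMod p) • β := by
    refine L.star_ind (Q := fun β => C β = (k : ZMod p) • β) hβ (fun u hu a _ => ?_)
      (fun x y hx hy => ?_)
    · rw [hmul, hP k u (hY hu), hC, hμ, DD_smap, hμ]; simp
    · rw [map_add, hx, hy, smul_add]
  have h2 : δ β ∈ L.star Y W := by
    refine L.star_ind (Q := fun β => δ β ∈ L.star Y W) hβ (fun u hu a ha => ?_)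
      (fun x y hx hy => ?_)
    · rw [hδ, hμ, mul_zero, add_zero]; exact L.mem_star (hδY u hu) ha
    · rw [map_add]; exact add_mem hx hy
  have hk' : (k : ZMod p) ≠ 0 := by rwa [Ne, ZMod.natCast_eq_zero_iff]
  have h3 : β = DD (L.σ ∘ₗ θ) ((k : ZMod p)⁻¹ • δ β) := by
    rw [hC, hD, map_zero, add_zero] at h1
    rw [map_smul, h1, smul_smul, inv_mul_cancel₀ hk', one_smul]
  rw [h3]
  exact tau_DD_mem _ (L.tg_star hY' hW) m (Submodule.smul_mem _ _ h2)

theorem van_res (θ : N →ₗ[ZMod p] E') {k T₀ m : ℕ}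
    {Y : Submodule (ZMod p) (SA (ZMod p) E N)} {W : Submodule (ZMod p) (SA (ZMod p) E' N)}
    (hY : Y ≤ Gen S ^ k) (hY' : TG Y) (hYD : Stab (DD (L.σ ∘ₗ θ)) Y) (hYp : PStab Y)
    (hW : TG W) (hT : ∀ u ∈ Y, ∀ t, T₀ < t → tau t u = 0)
    (H : ∀ t j, t ≤ T₀ → t + j = m → Van θ W j) : Van (L.σ ∘ₗ θ) (L.star Y W) m := by
  let Z : ℕ → Submodule (ZMod p) (SA (ZMod p) E N) :=
    fun t => Y ⊓ ⨅ s < t, LinearMap.ker (tau s)
  have hZ : ∀ t u, u ∈ Z t ↔ u ∈ Y ∧ ∀ s < t, tau s u = 0 := by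
    intro t u; simp [Z]
  have htt : ∀ s t (u : SA (ZMod p) E N), tau s (tau t u) = if t = s then tau t u else 0 :=
    fun s t u => comp_of_Hom (comp_mem_Hom (fun _ => rfl) _ t u) s
  have hZg : ∀ t, TG (Z t) := by
    intro t n u hu
    rw [hZ] at hu ⊢
    refine ⟨hY' n u hu.1, fun s hs => ?_⟩
    rw [htt]
    split_ifs with h
    · rw [h]; exact hu.2 s hs
    · rfl
  have key : ∀ d t, t + d = T₀ + 1 → ∀ β ∈ L.star (Z t) W, DD (L.σ ∘ₗ θ) β = 0 →
      tau m β ∈ (L.star Y W).map (DD (L.σ ∘ₗ θ)) := by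
    intro d
    induction d with
    | zero =>
      intro t ht β hβ _
      have : β = 0 := by
        refine L.star_ind (Q := fun β => β = 0) hβ (fun u hu a _ => ?_)
          (fun x y hx hy => by rw [hx, hy, add_zero])
        rw [hZ] at hu
        have : u ∈ (⊥ : Submodule (ZMod p) _) := mem_of_comp_mem LinearMap.id (p + 1) fun n => by
          by_cases hn : n < t
          · exact hu.2 n hn
          · exact hT u hu.1 n (by omega)
        rw [(Submodule.mem_bot _).1 this, zero_mul]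
      rw [this, map_zero]; exact zero_mem _
    | succ d ih =>
      intro t ht β hβ hD
      obtain ⟨β₁, hβ₁, hβ₂⟩ : ∃ β₁ ∈ L.star (Y ⊓ Tau t) W, β - β₁ ∈ L.star (Z (t + 1)) W := by
        refine L.star_ind (Q := fun β => ∃ β₁ ∈ L.star (Y ⊓ Tau t) W,
          β - β₁ ∈ L.star (Z (t + 1)) W) hβ (fun u hu a ha => ?_) ?_
        · rw [hZ] at hu
          refine ⟨tau t u * smap L.σ a,
            L.mem_star (Submodule.mem_inf.2 ⟨hY' t u hu.1, comp_mem_Hom (fun _ => rfl) _ t u⟩) ha,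
            ?_⟩
          rw [← sub_mul]
          refine L.mem_star ((hZ _ _).2 ⟨sub_mem hu.1 (hY' t u hu.1), fun s hs => ?_⟩) ha
          rw [map_sub, htt]
          split_ifs with h
          · rw [h, sub_self]
          · rw [hu.2 s (by omega), sub_zero]
        · rintro x y ⟨x₁, hx₁, hx⟩ ⟨y₁, hy₁, hy⟩
          exact ⟨x₁ + y₁, add_mem hx₁ hy₁, by rw [add_sub_add_comm]; exact add_mem hx hy⟩
      have ha : ∀ φ : Module.Dual (ZMod p) (SA (ZMod p) E N),
          L.Phi φ β₁ = L.Phi (φ ∘ₗ tau t) β := by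
        intro φ
        have e1 : L.Phi φ β₁ = L.Phi (φ ∘ₗ tau t) β₁ := by
          refine L.star_ind (Q := fun β₁ => L.Phi φ β₁ = L.Phi (φ ∘ₗ tau t) β₁) hβ₁
            (fun u hu a _ => ?_) (fun x y hx hy => by simp only [map_add, hx, hy])
          rw [L.Phi_apply _ (hY hu.1), L.Phi_apply _ (hY hu.1), LinearMap.comp_apply,
            comp_self hu.2]
        have e2 : L.Phi (φ ∘ₗ tau t) (β - β₁) = 0 := by
          refine L.star_ind (Q := fun β => L.Phi (φ ∘ₗ tau t) β = 0) hβ₂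
            (fun u hu a _ => ?_) (fun x y hx hy => by simp only [map_add, hx, hy, add_zero])
          rw [hZ] at hu
          rw [L.Phi_apply _ (hY hu.1), LinearMap.comp_apply, hu.2 t (by omega), map_zero,
            zero_smul]
        rw [map_sub, sub_eq_zero] at e2
        rw [e1, e2]
      have hb : ∀ φ : Module.Dual (ZMod p) (SA (ZMod p) E N),
          L.Phi (φ ∘ₗ tau t ∘ₗ par.toLinearMap) (DD (L.σ ∘ₗ θ) β) =
            DD θ (L.Phi (φ ∘ₗ tau t) β) := by
        intro φ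
        refine L.star_ind (Q := fun β => L.Phi (φ ∘ₗ tau t ∘ₗ par.toLinearMap)
          (DD (L.σ ∘ₗ θ) β) = DD θ (L.Phi (φ ∘ₗ tau t) β)) hβ
            (fun u hu a _ => ?_) (fun x y hx hy => by simp only [map_add, hx, hy])
        rw [hZ] at hu
        have h0 : tau t (DD (L.σ ∘ₗ θ) u) = 0 := by
          by_cases hn : t < p
          · exact tau_DD_lt _ hn u
          · obtain ⟨s, rfl⟩ := Nat.exists_eq_add_of_le' (not_lt.1 hn)
            rw [tau_DD, hu.2 s (by have := (Fact.out : p.Prime).pos; omega), map_zero]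
        rw [DD_odd, map_add, DD_smap, L.Phi_apply _ (hY (hYD u hu.1)),
          L.Phi_apply _ (u := par u) (hY (hYp u hu.1)), L.Phi_apply _ (hY hu.1), map_smul]
        simp [comp_par, h0]
      have hc : ∀ φ : Module.Dual (ZMod p) (SA (ZMod p) E N), L.Phi φ β₁ ∈ W := by
        intro φ
        refine L.star_ind (Q := fun β => L.Phi φ β ∈ W) hβ₁
            (fun u hu a ha => ?_) (fun x y hx hy => by rw [map_add]; exact add_mem hx hy)
        rw [L.Phi_apply _ (hY hu.1)]; exact W.smul_mem _ ha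
      have hd : tau m β₁ ∈ L.star (Y ⊓ Tau t) (W.map (DD θ)) := by
        by_cases hm : m < t
        · have : tau m β₁ = 0 := by
            refine L.star_ind (Q := fun β => tau m β = 0) hβ₁
              (fun u hu a _ => comp_Hom_mul_lt hu.2 hm _)
              (fun x y hx hy => by simp only [map_add, hx, hy, add_zero])
          rw [this]; exact zero_mem _
        · obtain ⟨j, rfl⟩ := Nat.exists_eq_add_of_le (not_lt.1 hm)
          refine L.star_of_Phi (inf_le_left.trans hY) ?_ fun φ => ?_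
          · refine L.star_ind (Q := fun β => tau (t + j) β ∈ L.star (Y ⊓ Tau t) ⊤) hβ₁
              (fun u hu a _ => ?_) (fun x y hx hy => by rw [map_add]; exact add_mem hx hy)
            rw [comp_Hom_mul hu.2, tau_smap]
            exact L.mem_star hu trivial
          · have e1 : L.Phi φ (tau (t + j) β₁) = tau j (L.Phi φ β₁) := by
              refine L.star_ind (Q := fun β => L.Phi φ (tau (t + j) β) = tau j (L.Phi φ β)) hβ₁
                (fun u hu a _ => ?_) (fun x y hx hy => by simp only [map_add, hx, hy])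
              rw [comp_Hom_mul hu.2, tau_smap, L.Phi_apply _ (hY hu.1), L.Phi_apply _ (hY hu.1),
                map_smul]
            rw [e1]
            refine H t j (by omega) rfl _ (hc φ) ?_
            rw [ha, ← hb, hD, map_zero]
      obtain ⟨γ, hγ, hγ'⟩ : ∃ γ ∈ L.star Y W,
          tau m β₁ - DD (L.σ ∘ₗ θ) γ ∈ L.star (Z (t + 1)) W := by
        refine L.star_ind (Q := fun η => ∃ γ ∈ L.star Y W,
          η - DD (L.σ ∘ₗ θ) γ ∈ L.star (Z (t + 1)) W) hd ?_ ?_
        · rintro u hu _ ⟨w, hw, rfl⟩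
          refine ⟨par u * smap L.σ w, L.mem_star (hYp u hu.1) hw, ?_⟩
          rw [DD_odd, par_par, DD_smap, sub_add_cancel_right]
          refine neg_mem (L.mem_star ((hZ _ _).2 ⟨hYD _ (hYp u hu.1), fun s hs => ?_⟩) hw)
          exact comp_ne (DD_mem_Tau _ t _ (par_mem_Hom (fun _ => rfl) hu.2))
            (by have := (Fact.out : p.Prime).pos; omega)
        · rintro x y ⟨x₁, hx₁, hx⟩ ⟨y₁, hy₁, hy⟩
          exact ⟨x₁ + y₁, add_mem hx₁ hy₁, by rw [map_add, add_sub_add_comm]; exact add_mem hx hy⟩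
      have h5 := ih (t + 1) (by omega) (tau m β - DD (L.σ ∘ₗ θ) γ) (by
        have := add_mem hγ' (L.tg_star (hZg _) hW m _ hβ₂)
        rw [map_sub] at this
        convert this using 1
        abel) (by rw [map_sub, DD_DD, ← tau_DD, hD, map_zero, sub_zero])
      rw [map_sub, tau_tau] at h5
      have := add_mem h5 (tau_DD_mem (L.σ ∘ₗ θ) (L.tg_star hY' hW) m hγ)
      rwa [sub_add_cancel] at this
  intro β hβ hD
  exact key (T₀ + 1) 0 (zero_add _) β
    (L.star_mono (fun u hu => (hZ 0 u).2 ⟨hu, fun _ h => absurd h (Nat.not_lt_zero _)⟩) le_rfl hβ) hD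

theorem vq_piece (θ : N →ₗ[ZMod p] E) {k m : ℕ} {U V : Submodule (ZMod p) (SA (ZMod p) E N)}
    (hU : U ≤ Fil S k) (hUD : Stab (DD θ) U) (hUg : TG U) (hcomp : ∀ b ∈ U, comp L.π 1 k b ∈ V)
    (hlift : V ≤ U ⊔ Fil S (k + 1)) (hV : Van (L.σ ∘ₗ L.q ∘ₗ θ) V m) :
    VQ θ U (U ⊓ Fil S (k + 1)) m := by
  have hraise : ∀ a ∈ Fil S k, DD θ a - DD (L.σ ∘ₗ L.q ∘ₗ θ) a ∈ Fil S (k + 1) := by
    intro a ha
    refine ((DD_odd θ).sub (DD_odd (L.σ ∘ₗ L.q ∘ₗ θ))).raise (by simp) (by simp) (fun u => ?_) k ha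
    have : (gx (θ u) ^ p - gx (L.σ (L.q (θ u))) ^ p : SA (ZMod p) E N) = gx (L.π (θ u)) ^ p := by
      have e : ∀ e : E, (gx e ^ p : SA (ZMod p) E N) = inl (frob e) := fun e => by
        rw [gx_eq, ← map_pow]; rfl
      rw [e, e, e, ← map_sub, ← map_sub]; rfl
    simp only [LinearMap.sub_apply, DD_gk, LinearMap.comp_apply]
    rw [this, ← pow_sub_one_mul (Fact.out : p.Prime).ne_zero]
    exact mul_mem_Fil_right _ (Gen_le_Fil S (gx_mem_Gen (L.π_mem _)))
  intro b hb hD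
  have h1 : DD (L.σ ∘ₗ L.q ∘ₗ θ) (comp L.π 1 k b) = 0 := by
    rw [← comp_DD L.π_π (θ := L.σ ∘ₗ L.q ∘ₗ θ) (fun u => L.π_σ _)]
    refine comp_Fil_lt L.π_of_mem k.lt_succ_self ?_
    have := sub_mem hD.2 (hraise b (hU hb))
    rwa [sub_sub_cancel] at this
  obtain ⟨γ, hγ, h2⟩ := hV _ (hcomp b hb) h1
  obtain ⟨γ₁, hγ₁, γ₂, hγ₂, h3⟩ := Submodule.mem_sup.1 (hlift hγ)
  have hγk : γ ∈ Fil S k := by
    rw [← h3]; exact add_mem (hU hγ₁) (Fil_anti S k.le_succ hγ₂)
  refine Submodule.mem_sup.2 ⟨DD θ γ₁, ⟨γ₁, hγ₁, rfl⟩, tau m b - DD θ γ₁,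
    ⟨sub_mem (hUg m b hb) (hUD _ hγ₁), ?_⟩, by abel⟩
  have h4 := graded_Fil (π := LinearMap.id) (p + 1) (fun _ h => h) (k + 1) m _
    (sub_comp_mem_Fil L.π_mem L.π_of_mem (hU hb))
  have := add_mem (sub_mem h4 (hraise γ hγk)) (DD_stab_Fil θ S _ _ hγ₂)
  rw [map_sub] at this
  change tau m b - tau m _ - _ + _ ∈ _ at this
  rw [← h2, ← h3, map_add (DD θ)] at this
  change _ ∈ Fil S (k + 1)
  convert this using 1
  abel

end Split

end

end Pool.Agent.MP_79429d_co.KD
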