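import Pool.Agent.MP_79429d_co.K5

/-!
The step from a list to a longer list, and the main induction on the dimension.
-/

set_option autoImplicit false

namespace Pool.Agent.MP_79429d_co.KD

noncomputable section

variable {p : ℕ} [Fact p.Prime] {E N : Type} [AddCommGroup E] [Module (ZMod p) E]
  [AddCommGroup N] [Module (ZMod p) N]

open Classical in
/-- the orders of vanishing in the middle of a step -/
def mC (c : List E) (y : E) (C : Finset (Submodule (ZMod p) E)) (T : Submodule (ZMod p) E) : ℕ :=
  cnt c T + if y ∈ T ∧ T ∉ C then 1 else 0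

theorem tg_iInf_Fil (m : Submodule (ZMod p) E → ℕ) :
    TG (⨅ T, Fil T (m T) : Submodule (ZMod p) (SA (ZMod p) E N)) :=
  Graded.iInf fun _ => graded_Fil _ (fun _ h => h) _

theorem tg_AA (c : List E) : TG (AA c : Submodule (ZMod p) (SA (ZMod p) E N)) := graded_AA _ c

theorem vq_step [FiniteDimensional (ZMod p) E] (θ : N →ₗ[ZMod p] E) {c : List E}
    (hc : ∀ v ∈ c, v ≠ 0) {y : E} (hy : y ≠ 0) {m : ℕ}
    (H : ∀ S : Submodule (ZMod p) E, y ∈ S → p ∣ cnt c S → ∀ t j,
      t ≤ tbound p (cnt c S) (Module.finrank (ZMod p) S) → t + j = m →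
        Van (S.mkQ ∘ₗ θ) (AA ((outl S c).map S.mkQ)) j) :
    VQ θ (AA c) (AA (y :: c)) m := by
  classical
  have key : ∀ n, ∀ C : Finset (Submodule (ZMod p) E), C.card = n → (∀ T ∈ C, y ∈ T) →
      (∀ T ∈ C, ∀ T', T ≤ T' → T' ∈ C) →
      VQ θ (⨅ T, Fil T (mC c y C T)) (⨅ T, Fil T (mC c y ∅ T)) m := by
    intro n
    induction n with
    | zero =>
      intro C hC _ _
      rw [Finset.card_eq_zero.1 hC]
      exact VQ.refl θ (tg_iInf_Fil _) m
    | succ n ih =>
      intro C hC h1 h2
      obtain ⟨S, hS⟩ := C.exists_minimal (Finset.card_pos.1 (by omega))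
      have hSC : S ∈ C := hS.prop
      have hyS : y ∈ S := h1 S hSC
      have hk : mC c y C S = cnt c S := by simp [mC, hSC]
      have hle : ∀ T, cnt c T ≤ mC c y C T := fun T => Nat.le_add_right _ _
      have heq : (⨅ T, Fil T (mC c y (C.erase S) T) : Submodule (ZMod p) (SA (ZMod p) E N)) =
          (⨅ T, Fil T (mC c y C T)) ⊓ Fil S (cnt c S + 1) := by
        apply le_antisymm
        · refine le_inf (le_iInf fun T => (iInf_le _ T).trans (Fil_anti T ?_))
            ((iInf_le _ S).trans (Fil_anti S ?_))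
          · unfold mC
            split_ifs with h h'
            · exact le_rfl
            · exact absurd ⟨h.1, fun h3 => h.2 (Finset.mem_of_mem_erase h3)⟩ h'
            · omega
            · exact le_rfl
          · simp [mC, hyS]
        · refine le_iInf fun T => ?_
          by_cases hT : T = S
          · subst hT
            exact inf_le_right.trans (Fil_anti T (by simp [mC, hyS]))
          · exact inf_le_left.trans ((iInf_le _ T).trans (Fil_anti T (by simp [mC, hT])))
      refine VQ.trans (U' := ⨅ T, Fil T (mC c y (C.erase S) T)) ?_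
        (ih _ (by rw [Finset.card_erase_of_mem hSC, hC]; rfl)
          (fun T hT => h1 T (Finset.mem_of_mem_erase hT)) (fun T hT T' hT' => ?_))
        (tg_iInf_Fil _) (tg_iInf_Fil _) (by rw [heq]; exact inf_le_left)
        (le_iInf fun T => (iInf_le _ T).trans (Fil_anti T ?_))
      · rw [heq]
        obtain ⟨L, hL⟩ := exists_split S
        let Y : Submodule (ZMod p) (SA (ZMod p) E N) :=
          Gen S ^ cnt c S ⊓ ⨅ T ≤ S, Fil T (mC c y C T)
        have hYs : ∀ δ : SA (ZMod p) E N →ₗ[ZMod p] SA (ZMod p) E N, IsOdd δ →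
            (∀ T ≤ S, Stab δ (Gen T)) → Stab δ Y := fun δ hδ h =>
          (hδ.stab_pow (h S le_rfl) (pstab_Gen S) _).inf
            (Stab.iInf fun T => Stab.iInf fun hT => hδ.stab_Fil (h T hT) _)
        have hYg : TG Y := ((graded_Gen _ fun _ h => h).pow _).inf
          (Graded.iInf fun T => Graded.iInf fun _ => graded_Fil _ (fun _ h => h) _)
        refine L.vq_piece θ (V := L.star Y (AA ((outl S c).map L.q)))
          ((iInf_le _ S).trans (by rw [hk])) (Stab.iInf fun T => DD_stab_Fil θ T _)
          (tg_iInf_Fil _) (fun b hb => ?_) (fun β hβ => ?_) ?_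
        · rw [AA_eq (L.ne_zero c)]
          rw [Submodule.mem_iInf] at hb
          refine L.comp_mem_star_of _ _ (fun T _ => hb T) fun T => ?_
          rw [← L.cnt_comap]
          exact Fil_anti _ (hle _) (hb _)
        · refine (sup_le_sup_right ?_ _ : Y * AA (outl S c) ⊔ Fil S (cnt c S + 1) ≤ _)
            (L.star_lift _ (inf_le_left.trans (pow_le_Fil _ _)) hβ)
          refine le_iInf fun T => Submodule.mul_le.2 fun u hu a ha => ?_
          have hu' : u ∈ Fil (T ⊓ S) (mC c y C (T ⊓ S)) :=
            (Submodule.mem_iInf _).1 ((Submodule.mem_iInf _).1 hu.2 (T ⊓ S)) inf_le_right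
          refine Fil_anti T ?_ (mul_mem_Fil (Fil_mono inf_le_left _ hu') (AA_le_Fil _ T ha))
          unfold mC
          rw [cnt_eq_inf c S T]
          split_ifs with h h'
          · omega
          · exact absurd ⟨⟨h.1, hyS⟩, fun h3 => h.2 (h2 _ h3 T inf_le_left)⟩ h'
          · omega
          · omega
        · by_cases hp : p ∣ cnt c S
          · refine L.van_res (L.q ∘ₗ θ) inf_le_left hYg (hYs _ (DD_odd _) fun T _ => DD_stab_Gen _ T)
              (((pstab_Gen S).pow _).inf (Stab.iInf fun T => Stab.iInf fun _ => pstab_Fil T _))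
              (tg_AA _) (fun u hu t ht => tau_pow_eq_zero S hu.1 ht) ?_
            rw [hL]
            exact H S hyS hp
          · exact L.van_euler (L.q ∘ₗ θ) hp inf_le_left hYg (tg_AA _) hYs m
      · refine Finset.mem_erase.2 ⟨?_, h2 T (Finset.mem_of_mem_erase hT) T' hT'⟩
        rintro rfl
        exact (Finset.mem_erase.1 hT).1
          (le_antisymm hT' (hS.le_of_le (Finset.mem_of_mem_erase hT) hT'))
      · unfold mC
        split_ifs with h h'
        · exact le_rfl
        · exact absurd ⟨h.1, Finset.notMem_empty _⟩ h'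
        · omega
        · exact le_rfl
  have : Finite E := Module.finite_of_finite (ZMod p)
  have : Fintype (Submodule (ZMod p) E) := Fintype.ofFinite _
  have h := key _ (Finset.univ.filter fun T => y ∈ T) rfl (by simp)
    (fun T hT T' hT' => by simpa using hT' (by simpa using hT))
  rw [AA_eq hc, AA_eq (c := y :: c) (by simpa [hy] using hc)]
  convert h using 3 with T T
  · simp [mC]
  · by_cases hT : y ∈ T
    · simp [mC, hT, cnt_cons_mem]
    · simp [mC, hT, cnt_cons_notMem]

theorem AA_cons_le (y : E) (c : List E) :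
    (AA (y :: c) : Submodule (ZMod p) (SA (ZMod p) E N)) ≤ AA c := by
  rw [AA_cons, (Gen_comm _ (pstab_AA c)).eq, AA, mul_assoc]
  exact mul_le_mul' le_rfl le_top

theorem cnt_replicate {z : E} {S : Submodule (ZMod p) E} (h : z ∈ S) (k : ℕ) :
    cnt (List.replicate k z) S = k := by
  induction k with
  | zero => rfl
  | succ k ih => rw [List.replicate_succ, cnt_cons_mem h, ih]

theorem outl_replicate {z : E} {S : Submodule (ZMod p) E} (h : z ∈ S) (k : ℕ) :
    outl S (List.replicate k z) = [] := by
  induction k with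
  | zero => rfl
  | succ k ih => rw [List.replicate_succ, outl_cons_mem h, ih]

theorem Fil_span_eq {z : E} (hz : z ≠ 0) (j : ℕ) {a : SA (ZMod p) E N}
    (ha : a ∈ Fil ((ZMod p) ∙ z) (j + 1)) : ∃ b, a = gx z ^ j * b := by
  induction j generalizing a with
  | zero => exact ⟨a, by simp⟩
  | succ j ih =>
    have h2 : a ∈ Fil ((ZMod p) ∙ z) 2 := Fil_anti _ (by omega) ha
    rw [Fil_succ, Fil_succ, Fil_zero] at h2
    obtain ⟨b, rfl⟩ := Fil_two_le z h2
    obtain ⟨b', rfl⟩ := ih (Fil_cancel_mem hz (Submodule.mem_span_singleton_self z) ha)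
    exact ⟨b', by rw [pow_succ', mul_assoc]⟩

theorem gx_pow_mul_eq_zero {z : E} (hz : z ≠ 0) (j : ℕ) {a : SA (ZMod p) E N}
    (ha : gx z ^ j * a = 0) : a = 0 := by
  induction j with
  | zero => simpa using ha
  | succ j ih => rw [pow_succ', mul_assoc] at ha; exact ih (gx_mul_eq_zero hz ha)

theorem finrank_pos_of_mem [FiniteDimensional (ZMod p) E] {S : Submodule (ZMod p) E} {y : E}
    (hy : y ∈ S) (hy0 : y ≠ 0) : 1 ≤ Module.finrank (ZMod p) S := by
  rw [Nat.one_le_iff_ne_zero]
  intro h
  rw [Submodule.finrank_eq_zero] at h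
  exact hy0 (by simpa [h] using hy)

theorem van_top (r : ℕ) : ∀ (E : Type) [AddCommGroup E] [Module (ZMod p) E]
    [FiniteDimensional (ZMod p) E], Module.finrank (ZMod p) E = r →
      ∀ θ : N →ₗ[ZMod p] E, Function.Surjective θ → ∀ n, 2 * p * r < n → Van θ ⊤ n := by
  induction r using Nat.strong_induction_on with
  | _ r ihr =>
  intro E _ _ _ hr θ hθ n hn
  by_cases h0 : ∀ z : E, z = 0
  · intro b _ _
    have := comp_mem_family (N := N) (LinearMap.id : E →ₗ[ZMod p] E) (p + 1)
      (fun n => if n = 0 then ⊤ else ⊥) (by simp)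
      (fun i j a ha b hb => by
        by_cases hi : i = 0
        · by_cases hj : j = 0
          · simp [hi, hj]
          · simp only [hj, if_false, Submodule.mem_bot] at hb
            rw [hb, mul_zero]; exact zero_mem _
        · simp only [hi, if_false, Submodule.mem_bot] at ha
          rw [ha, zero_mul]; exact zero_mem _)
      (fun e => by simp [h0 e]) (by simp) (fun e => by simp [h0 e]) (by simp) (by simp) b n
    rw [if_neg (by omega), Submodule.mem_bot] at this
    change comp _ _ _ _ ∈ _
    rw [this]; exact zero_mem _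
  push Not at h0
  obtain ⟨z, hz⟩ := h0
  have key : ∀ k ≤ p + 1, VQ θ ⊤ (AA (List.replicate k z)) n := by
    intro k hk
    induction k with
    | zero => rw [List.replicate_zero, AA_nil]; exact VQ.refl θ (Graded.top _ _) n
    | succ k ih =>
      refine VQ.trans (ih (by omega)) ?_ (Graded.top _ _) (tg_AA _) le_top (AA_cons_le _ _)
      refine vq_step θ (fun v hv => by rwa [List.eq_of_mem_replicate hv]) hz ?_
      intro S hS _ t j ht htj
      rw [outl_replicate hS, List.map_nil, AA_nil]
      rw [cnt_replicate hS] at ht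
      have h1 := Submodule.finrank_quotient_add_finrank S
      have h2 := finrank_pos_of_mem hS hz
      refine ihr _ (by omega) _ rfl _ ((Submodule.mkQ_surjective S).comp hθ) j ?_
      have h3 : t ≤ p + p * Module.finrank (ZMod p) S := by
        unfold tbound at ht
        split_ifs at ht <;> omega
      rw [← hr, ← h1] at hn
      nlinarith
  intro b _ hb
  obtain ⟨_, ⟨b', -, rfl⟩, a, ha, h⟩ := Submodule.mem_sup.1 (key (p + 1) le_rfl b trivial
    (by rw [hb]; exact zero_mem _))
  have h1 := AA_le_Fil _ ((ZMod p) ∙ z) ha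
  rw [cnt_replicate (Submodule.mem_span_singleton_self z)] at h1
  obtain ⟨b₁, rfl⟩ := Fil_span_eq hz p h1
  obtain ⟨u, rfl⟩ := hθ z
  have h2 : DD θ b₁ = 0 := by
    have := congrArg (DD θ) h
    rw [map_add, DD_DD, zero_add, ← tau_DD, hb, map_zero, DD_odd, DD_gx_pow_p, zero_mul, zero_add,
      map_pow, par_gx] at this
    exact gx_pow_mul_eq_zero hz p this
  refine ⟨b' + gk u * b₁, trivial, ?_⟩
  rw [← h, map_add, DD_odd, h2, mul_zero, add_zero, DD_gk]

theorem finrank_comap_le [FiniteDimensional (ZMod p) E] (S : Submodule (ZMod p) E)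
    (T : Submodule (ZMod p) (E ⧸ S)) : Module.finrank (ZMod p) (T.comap S.mkQ) ≤
      Module.finrank (ZMod p) T + Module.finrank (ZMod p) S := by
  obtain ⟨L, hL⟩ := exists_split S
  have h1 : T.comap S.mkQ ≤ T.map L.σ ⊔ S := by
    intro e he
    rw [← hL] at he
    have : e = L.σ (L.q e) + L.π e := by simp [L.π_apply]
    rw [this]
    exact Submodule.add_mem_sup ⟨_, he, rfl⟩ (L.π_mem e)
  calc _ ≤ Module.finrank (ZMod p) (T.map L.σ ⊔ S : Submodule _ _) := Submodule.finrank_mono h1
    _ ≤ Module.finrank (ZMod p) (T.map L.σ) + Module.finrank (ZMod p) S :=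
      Submodule.finrank_add_le_finrank_add_finrank _ _
    _ ≤ _ := Nat.add_le_add_right (Submodule.finrank_map_le _ _) _

theorem vq_main {D : ℕ} (hD1 : 1 ≤ D) (hD : 2 * D ≤ p + 1) (r : ℕ) :
    ∀ (E : Type) [AddCommGroup E] [Module (ZMod p) E] [FiniteDimensional (ZMod p) E],
      Module.finrank (ZMod p) E = r → ∀ θ : N →ₗ[ZMod p] E, Function.Surjective θ →
      ∀ c : List E, (∀ v ∈ c, v ≠ 0) → ∀ δ : ℕ,
      (∀ S : Submodule (ZMod p) E, cnt c S ≤ D * Module.finrank (ZMod p) S + δ) →
      ∀ m, p * (2 * D * r + δ) < D * (m + p) → VQ θ ⊤ (AA c) m := by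
  induction r using Nat.strong_induction_on with
  | _ r ihr =>
  intro E _ _ _ hr θ hθ c hc δ hb m hm
  induction c with
  | nil => rw [AA_nil]; exact VQ.refl θ (Graded.top _ _) m
  | cons y c ih =>
    have hc' : ∀ v ∈ c, v ≠ 0 := fun v hv => hc v (List.mem_cons_of_mem _ hv)
    have hy : y ≠ 0 := hc y List.mem_cons_self
    refine VQ.trans (ih hc' fun S => (cnt_le_cons y S c).trans (hb S)) ?_ (Graded.top _ _)
      (tg_AA _) le_top (AA_cons_le _ _)
    refine vq_step θ hc' hy ?_
    intro S hS hp t j ht htj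
    obtain ⟨L, hL⟩ := exists_split S
    have h1 := Submodule.finrank_quotient_add_finrank S
    have h2 := finrank_pos_of_mem hS hy
    have h3 := hb S
    rw [cnt_cons_mem hS] at h3
    have hθ' := (Submodule.mkQ_surjective S).comp hθ
    obtain ⟨δ', hδ'⟩ := Nat.exists_eq_add_of_le h3
    have hpos : 0 < p := (Fact.out : p.Prime).pos
    have hj : p * (2 * D * Module.finrank (ZMod p) (E ⧸ S) + δ') < D * j := by
      rw [← hr, ← h1, ← htj] at hm
      generalize Module.finrank (ZMod p) (E ⧸ S) = r' at *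
      generalize Module.finrank (ZMod p) S = ρ at *
      obtain ⟨l, hl⟩ := hp
      unfold tbound at ht
      split_ifs at ht with hk
      · have ht0 : t = 0 := by omega
        subst ht0
        rw [hk] at hδ'
        have e1 : p * D ≤ p * D * ρ := Nat.le_mul_of_pos_right _ h2
        have e2 : p * (D * ρ + δ) = p * (0 + 1 + δ') := by rw [hδ']
        nlinarith
      · rw [hl] at ht hδ' hk
        obtain ⟨l, rfl⟩ : ∃ l', l = l' + 1 := ⟨l - 1, by
          have : l ≠ 0 := by rintro rfl; exact hk rfl
          omega⟩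
        have e1 : D * l ≤ p * l := Nat.mul_le_mul_right _ (by omega)
        have e2 : p * (D * ρ + δ) = p * (p * (l + 1) + 1 + δ') := by rw [hδ']
        have e3 : D * t ≤ D * (p * (l + 1) + p * ρ) := Nat.mul_le_mul_left _ ht
        have e4 : p * (D * l) ≤ p * (p * l) := Nat.mul_le_mul_left _ e1
        have e5 : p * (2 * D) ≤ p * (p + 1) := Nat.mul_le_mul_left _ hD
        nlinarith
    refine Van.of_VQ (van_top _ _ rfl _ hθ' j ?_) (fun m' hm' => ?_) (tg_AA _)
    · refine Nat.lt_of_mul_lt_mul_left (a := D) ?_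
      nlinarith [Nat.zero_le (p * δ')]
    · refine ihr _ (by omega) _ rfl _ hθ' _ (hL ▸ L.ne_zero c) δ' (fun T => ?_) m' (hm' ▸ hj)
      have e1 := L.cnt_comap c T
      have e2 := hb (T.comap L.q)
      rw [cnt_cons_mem (by simp [(L.ker y).2 hS])] at e2
      rw [hL] at e1 e2
      have e3 := Nat.mul_le_mul_left D (finrank_comap_le S T)
      rw [mul_add] at e3
      omega

end

end Pool.Agent.MP_79429d_co.KD
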