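import Pool.Agent.MP_79429d_co.K6

/-!
The conclusion: sparse families of affine hyperplanes do not cover the space.
-/

set_option autoImplicit false

namespace Pool.Agent.MP_79429d_co.KD

open MvPolynomial

noncomputable section

variable {p : ℕ} [Fact p.Prime] {n : ℕ}

/-- the space of linear forms -/
abbrev EE (p n : ℕ) : Type := Fin n → ZMod p

/-- the standard basis -/
abbrev bb (p n : ℕ) : Module.Basis (Fin n) (ZMod p) (EE p n) := Pi.basisFun (ZMod p) (Fin n)

/-- polynomials -/
abbrev ee (p n : ℕ) : SymmetricAlgebra (ZMod p) (EE p n) ≃ₐ[ZMod p] MvPolynomial (Fin n) (ZMod p) :=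
  SymmetricAlgebra.equivMvPolynomial (bb p n)

/-- the top exponent -/
def tt (p n : ℕ) : Fin n →₀ ℕ := Finsupp.equivFunOnFinite.symm fun _ => p - 1

omit [Fact p.Prime] in
theorem tt_apply (i : Fin n) : tt p n i = p - 1 := rfl

theorem exists_sigma : ∃ (σ : SA (ZMod p) (EE p n) (EE p n) →ₗ[ZMod p] ZMod p)
    (φ : ExteriorAlgebra (ZMod p) (EE p n × EE p n) →ₗ[ZMod p] ZMod p),
    (∀ g l, σ (inl g * inr l) = coeff (tt p n) (ee p n g) * φ l) ∧
      φ (ExteriorAlgebra.ιMulti (ZMod p) n fun i => (bb p n i, 0)) = 1 := by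
  let φ : ExteriorAlgebra (ZMod p) (EE p n × EE p n) →ₗ[ZMod p] ZMod p :=
    ExteriorAlgebra.liftAlternating
      (Pi.single n ((bb p n).det.compLinearMap (LinearMap.fst (ZMod p) (EE p n) (EE p n))))
  refine ⟨TensorProduct.lift ((LinearMap.mul (ZMod p) (ZMod p)).compl₁₂
    (lcoeff (ZMod p) (tt p n) ∘ₗ (ee p n).toLinearMap) φ) ∘ₗ toT.toLinearMap, φ, fun g l => ?_, ?_⟩
  · simp [toT_inl_mul_inr]
  · simp only [φ, ExteriorAlgebra.liftAlternating_apply_ιMulti, Pi.single_eq_same,
      AlternatingMap.compLinearMap_apply, LinearMap.fst_apply]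
    exact (bb p n).det_self

theorem DD_inl (θ : EE p n →ₗ[ZMod p] EE p n) (P : MvPolynomial (Fin n) (ZMod p)) :
    DD θ (inl ((ee p n).symm P)) =
      ∑ i, inl ((ee p n).symm (pderiv i P)) * gd (bb p n i) := by
  induction P using MvPolynomial.induction_on with
  | C a =>
    rw [← MvPolynomial.algebraMap_eq, AlgEquiv.commutes, AlgHom.commutes, (DD_odd θ).alg]
    simp
  | add P Q hP hQ => simp only [map_add, hP, hQ, add_mul, Finset.sum_add_distrib]
  | mul_X P j hP =>
    rw [map_mul, map_mul, DD_odd, hP, par_inl, SymmetricAlgebra.equivMvPolynomial_symm_X, ← gx_eq,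
      DD_gx]
    simp only [Derivation.leibniz, smul_eq_mul, map_add, map_mul, add_mul, Finset.sum_add_distrib,
      SymmetricAlgebra.equivMvPolynomial_symm_X, ← gx_eq, pderiv_X]
    rw [add_comm, Finset.sum_mul]
    congr 1
    · rw [Finset.sum_eq_single j]
      · simp
      · intro i _ hi
        simp [Pi.single_eq_of_ne' hi]
      · simp
    · exact Finset.sum_congr rfl fun i _ => by rw [← gx_comm, mul_assoc]

theorem sigma_DD {σ : SA (ZMod p) (EE p n) (EE p n) →ₗ[ZMod p] ZMod p}
    {φ : ExteriorAlgebra (ZMod p) (EE p n × EE p n) →ₗ[ZMod p] ZMod p}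
    (h : ∀ g l, σ (inl g * inr l) = coeff (tt p n) (ee p n g) * φ l)
    (θ : EE p n →ₗ[ZMod p] EE p n) (a : SA (ZMod p) (EE p n) (EE p n)) : σ (DD θ a) = 0 := by
  have h1 : ∀ (i : Fin n) (a : SA (ZMod p) (EE p n) (EE p n)), σ (gx (bb p n i) ^ p * a) = 0 := by
    intro i a
    induction a using tens_ind with
    | zero => simp
    | tmul g l =>
      rw [gx_eq, ← map_pow, ← mul_assoc, ← map_mul, h, map_mul, map_pow,
        SymmetricAlgebra.equivMvPolynomial_ι_apply, X_pow_eq_monomial, coeff_monomial_mul',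
        if_neg, zero_mul]
      rw [Finsupp.single_le_iff, tt_apply]
      have := (Fact.out : p.Prime).pos
      omega
    | add a b ha hb => rw [mul_add, map_add, ha, hb, add_zero]
  have h2 : ∀ (e : EE p n) (a : SA (ZMod p) (EE p n) (EE p n)), σ (gx e ^ p * a) = 0 := by
    intro e a
    have e1 : ∀ e : EE p n, (gx e ^ p : SA (ZMod p) (EE p n) (EE p n)) = inl (frob e) :=
      fun e => by rw [gx_eq, ← map_pow]; rfl
    rw [e1, ← (bb p n).sum_repr e]
    simp only [map_sum, map_smul, Finset.sum_mul, smul_mul_assoc, ← e1, h1, smul_zero,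
      Finset.sum_const_zero]
  have h3 : ∀ l, ∀ a a' : SA (ZMod p) (EE p n) (EE p n), σ (a * DD θ (inr l) * a') = 0 := by
    intro l
    induction l using ExteriorAlgebra.induction with
    | algebraMap r => intro a a'; rw [AlgHom.commutes, (DD_odd θ).alg]; simp
    | ι v =>
      intro a a'
      rw [← go_eq', go_eq, map_add, DD_gd, DD_gk, zero_add, gx_eq, ← map_pow, ← inl_comm,
        map_pow, ← gx_eq, mul_assoc, h2]
    | mul l l' hl hl' =>
      intro a a'
      rw [map_mul inr, DD_odd, mul_add, add_mul, map_add, ← mul_assoc, ← mul_assoc, hl', mul_assoc,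
        hl, add_zero]
    | add l l' hl hl' => intro a a'; rw [map_add, map_add, mul_add, add_mul, map_add, hl, hl', add_zero]
  induction a using tens_ind with
  | zero => simp
  | tmul g l =>
    rw [DD_odd, map_add]
    have := h3 l (par (inl g)) 1
    rw [mul_one] at this
    rw [this, add_zero]
    obtain ⟨P, rfl⟩ := (ee p n).symm.surjective g
    rw [DD_inl, Finset.sum_mul, map_sum]
    refine Finset.sum_eq_zero fun i _ => ?_
    rw [mul_assoc, gd_eq, go_eq', ← map_mul, h, AlgEquiv.apply_symm_apply, coeff_pderiv, tt_apply]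
    have : ((p - 1 : ℕ) : ZMod p) + 1 = 0 := by
      rw [← Nat.cast_succ, Nat.succ_eq_add_one, Nat.sub_add_cancel (Fact.out : p.Prime).one_le,
        ZMod.natCast_self]
    rw [this, mul_zero, zero_mul]
  | add a b ha hb => rw [map_add, map_add, ha, hb, add_zero]

section general

variable {E N : Type} [AddCommGroup E] [Module (ZMod p) E] [AddCommGroup N] [Module (ZMod p) N]

theorem prod_closed (θ : N →ₗ[ZMod p] E) (L : List E) :
    DD θ (L.map fun e => gx e ^ (p - 1) * gd e).prod = 0 ∧
      (L.map fun e => (gx e ^ (p - 1) * gd e : SA (ZMod p) E N)).prod ∈ Tau (2 * p * L.length) := by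
  induction L with
  | nil => exact ⟨by simpa using (DD_odd θ).one, by simpa using one_mem_Hom _ _⟩
  | cons e L ih =>
    have h2 := (Fact.out : p.Prime).two_le
    rw [List.map_cons, List.prod_cons]
    constructor
    · have : DD θ (gx e ^ (p - 1) * gd e) = 0 := by
        have h1 : p - 1 = (p - 2) + 1 := by omega
        have h0 : (gd e * gd e : SA (ZMod p) E N) = 0 := go_sq _
        rw [DD_odd, DD_gd, mul_zero, add_zero, h1, DD_gx_pow, smul_mul_assoc, mul_assoc, h0]
        simp
      rw [DD_odd, this, ih.1]; simp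
    · have := mul_mem_Hom (mul_mem_Hom (pow_mem_Hom (gx_mem_Hom_one (N := N) (π := LinearMap.id)
        (p + 1) (e := e) rfl) (p - 1)) (gd_mem_Hom (p + 1) (e := e) rfl)) ih.2
      convert this using 2
      rw [List.length_cons, mul_add]
      omega

theorem prod_split (L : List E) :
    (L.map fun e => (gx e ^ (p - 1) * gd e : SA (ZMod p) E N)).prod =
      inl (L.map fun e => SymmetricAlgebra.ι (ZMod p) E e ^ (p - 1)).prod *
        inr (L.map fun e => ExteriorAlgebra.ι (ZMod p) ((e, 0) : E × N)).prod := by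
  induction L with
  | nil => simp
  | cons e L ih =>
    simp only [List.map_cons, List.prod_cons, map_mul, map_pow, ih, ← gx_eq, ← go_eq', ← gd_eq]
    rw [mul_assoc, mul_assoc, ← mul_assoc (gd e), ← inl_comm, mul_assoc]

/-- every member twice -/
def dbl (V : List E) : List E := V.flatMap fun v => [v, v]

omit [AddCommGroup E] in
theorem dbl_cons (v : E) (V : List E) : dbl (v :: V) = v :: v :: dbl V := by simp [dbl]

theorem cnt_dbl (V : List E) (S : Submodule (ZMod p) E) : cnt (dbl V) S = 2 * cnt V S := by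
  induction V with
  | nil => rfl
  | cons v V ih =>
    rw [dbl_cons]
    by_cases h : v ∈ S
    · simp only [cnt_cons_mem h, ih]; omega
    · simp only [cnt_cons_notMem h, ih]

theorem dbl_ne_zero {V : List E} (h : ∀ v ∈ V, v ≠ 0) : ∀ v ∈ dbl V, v ≠ 0 := by
  intro v hv
  obtain ⟨w, hw, hv⟩ := List.mem_flatMap.1 hv
  have : v = w := by simpa using hv
  exact this ▸ h w hw

theorem AA_dbl [FiniteDimensional (ZMod p) E] {V : List E} (h : ∀ v ∈ V, v ≠ 0)
    {a : SA (ZMod p) E N} (ha : a ∈ AA (dbl V)) :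
    ∃ b, a = inl (V.map (SymmetricAlgebra.ι (ZMod p) E)).prod * b := by
  induction V generalizing a with
  | nil => exact ⟨a, by simp⟩
  | cons v V ih =>
    have h' : ∀ w ∈ V, w ≠ 0 := fun w hw => h w (List.mem_cons_of_mem _ hw)
    have hv : v ≠ 0 := h v List.mem_cons_self
    rw [dbl_cons] at ha
    have h2 : a ∈ Gen ((ZMod p) ∙ v) * (Gen ((ZMod p) ∙ v) * ⊤) := by
      rw [AA_cons, AA_cons] at ha
      exact (mul_le_mul' le_rfl (mul_le_mul' le_rfl le_top) :
        Gen ((ZMod p) ∙ v) * (Gen ((ZMod p) ∙ v) * AA (dbl V)) ≤ _) ha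
    obtain ⟨b, rfl⟩ := Fil_two_le v h2
    have h3 : b ∈ AA (dbl V) := by
      rw [AA_eq (dbl_ne_zero h')]
      refine (Submodule.mem_iInf _).2 fun T => ?_
      have := AA_le_Fil _ T ha
      by_cases hT : v ∈ T
      · rw [cnt_cons_mem hT, cnt_cons_mem hT] at this
        exact Fil_anti T (Nat.le_succ _) (Fil_cancel_mem hv hT this)
      · rw [cnt_cons_notMem hT, cnt_cons_notMem hT] at this
        exact Fil_cancel_notMem hT this
    obtain ⟨b', rfl⟩ := ih h' h3
    exact ⟨b', by rw [List.map_cons, List.prod_cons, map_mul, gx_eq, mul_assoc]⟩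

end general

theorem exists_coeff_ne_zero {D : ℕ} (hD1 : 1 ≤ D) (hD : 2 * D ≤ p + 1) (V : List (EE p n))
    (hV : ∀ v ∈ V, v ≠ 0)
    (hb : ∀ S : Submodule (ZMod p) (EE p n), 2 * cnt V S ≤ D * Module.finrank (ZMod p) S) :
    ∃ g, coeff (tt p n)
      ((V.map fun v => ee p n (SymmetricAlgebra.ι (ZMod p) (EE p n) v)).prod * g) ≠ 0 := by
  obtain ⟨σ, φ, hσ, hφ⟩ := exists_sigma (p := p) (n := n)
  have hpos := (Fact.out : p.Prime).pos
  have hvq := vq_main (N := EE p n) hD1 hD n (EE p n) (by simp) LinearMap.id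
    Function.surjective_id (dbl V) (dbl_ne_zero hV) 0 (fun S => by rw [cnt_dbl]; exact hb S)
    (2 * p * n) (by nlinarith)
  obtain ⟨h1, h2⟩ := prod_closed (LinearMap.id : EE p n →ₗ[ZMod p] EE p n) (List.ofFn (bb p n))
  rw [List.length_ofFn] at h2
  obtain ⟨_, ⟨b', -, rfl⟩, a, ha, h⟩ :=
    Submodule.mem_sup.1 (hvq _ trivial (by rw [h1]; exact zero_mem _))
  change _ = comp _ _ _ _ at h
  rw [comp_self h2, prod_split] at h
  have h3 := congrArg σ h
  rw [map_add, sigma_DD hσ, zero_add, hσ, List.map_ofFn, List.map_ofFn,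
    List.prod_ofFn] at h3
  have h4 : (List.ofFn ((fun e => ExteriorAlgebra.ι (ZMod p) ((e, 0) : EE p n × EE p n)) ∘
      bb p n)).prod = ExteriorAlgebra.ιMulti (ZMod p) n fun i => (bb p n i, 0) :=
    (ExteriorAlgebra.ιMulti_apply _).symm
  have h5 : ee p n (∏ i, ((fun e => SymmetricAlgebra.ι (ZMod p) (EE p n) e ^ (p - 1)) ∘ bb p n) i)
      = monomial (tt p n) 1 := by
    rw [monomial_eq, Finsupp.prod_fintype _ _ (by simp), map_prod, C_1, one_mul]
    refine Finset.prod_congr rfl fun i _ => ?_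
    rw [Function.comp_apply, map_pow, SymmetricAlgebra.equivMvPolynomial_ι_apply, tt_apply]
  rw [h4, hφ, h5, coeff_monomial, if_pos rfl, mul_one] at h3
  obtain ⟨w, rfl⟩ := AA_dbl hV ha
  by_contra! hcon
  have : ∀ w, σ (inl (V.map (SymmetricAlgebra.ι (ZMod p) (EE p n))).prod * w) = 0 := by
    intro w
    induction w using tens_ind with
    | zero => simp
    | tmul g l =>
      rw [← mul_assoc, ← map_mul, hσ, map_mul, map_list_prod, List.map_map]
      exact mul_eq_zero_of_left (hcon _) _
    | add a b ha hb => rw [mul_add, map_add, ha, hb, add_zero]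
  rw [this] at h3
  exact zero_ne_one h3

/-- all monomials have degree below `m` -/
def Low (m : ℕ) (q : MvPolynomial (Fin n) (ZMod p)) : Prop := ∀ s ∈ q.support, s.degree < m

theorem Low.mul {m j : ℕ} {q q' : MvPolynomial (Fin n) (ZMod p)} (h : Low m q)
    (h' : q'.totalDegree ≤ j) : Low (m + j) (q * q') := by
  classical
  intro s hs
  obtain ⟨a, ha, b, hb, rfl⟩ := Finset.mem_add.1 (support_mul q q' hs)
  have h1 := h a ha
  have h2 : b.degree ≤ j := (le_totalDegree hb).trans h'
  rw [map_add]; omega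

theorem Low.add {m : ℕ} {q q' : MvPolynomial (Fin n) (ZMod p)} (h : Low m q) (h' : Low m q') :
    Low m (q + q') := by
  classical
  intro s hs
  rcases Finset.mem_union.1 (support_add hs) with hs | hs
  · exact h s hs
  · exact h' s hs

theorem ee_ι (v : EE p n) :
    ee p n (SymmetricAlgebra.ι (ZMod p) (EE p n) v) = ∑ i, C (v i) * X i := by
  conv_lhs => rw [← (bb p n).sum_repr v]
  simp only [map_sum, map_smul, SymmetricAlgebra.equivMvPolynomial_ι_apply, smul_eq_C_mul,
    Pi.basisFun_repr]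

theorem ee_ι_hom (v : EE p n) :
    (ee p n (SymmetricAlgebra.ι (ZMod p) (EE p n) v)).IsHomogeneous 1 := by
  rw [ee_ι]
  exact IsHomogeneous.sum _ _ _ fun i _ => (isHomogeneous_X _ i).C_mul _

theorem avoid {D : ℕ} (hD1 : 1 ≤ D) (hD : 2 * D ≤ p + 1) (W : List (EE p n × ZMod p))
    (hW : ∀ w ∈ W, w.1 ≠ 0)
    (hb : ∀ S : Submodule (ZMod p) (EE p n),
      2 * cnt (W.map Prod.fst) S ≤ D * Module.finrank (ZMod p) S) :
    ∃ x : Fin n → ZMod p, ∀ w ∈ W, w.1 ⬝ᵥ x ≠ w.2 := by
  obtain ⟨g, hg⟩ := exists_coeff_ne_zero hD1 hD (W.map Prod.fst)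
    (fun v hv => by obtain ⟨w, hw, rfl⟩ := List.mem_map.1 hv; exact hW w hw) hb
  rw [List.map_map] at hg
  set l : EE p n × ZMod p → MvPolynomial (Fin n) (ZMod p) :=
    (fun v => ee p n (SymmetricAlgebra.ι (ZMod p) (EE p n) v)) ∘ Prod.fst with hl
  have hl1 : ∀ w, (l w).IsHomogeneous 1 := fun w => ee_ι_hom w.1
  have h1 : ∀ W : List (EE p n × ZMod p), (W.map l).prod.IsHomogeneous W.length ∧
      (W.map fun w => l w - C w.2).prod.totalDegree ≤ W.length ∧
      Low W.length ((W.map fun w => l w - C w.2).prod - (W.map l).prod) := by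
    intro W
    induction W with
    | nil => exact ⟨by simpa using isHomogeneous_one _ _, by simp, by simp [Low]⟩
    | cons w W ih =>
      simp only [List.map_cons, List.prod_cons, List.length_cons]
      refine ⟨by rw [add_comm]; exact (hl1 w).mul ih.1, ?_, ?_⟩
      · refine (totalDegree_mul _ _).trans ?_
        have := (totalDegree_sub_C_le (l w) w.2).trans (hl1 w).totalDegree_le
        omega
      · have e1 := ih.2.2.mul (hl1 w).totalDegree_le
        have e2 : Low 1 (C (-w.2) : MvPolynomial (Fin n) (ZMod p)) := fun s hs => by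
          have := le_totalDegree hs
          rw [totalDegree_C] at this
          exact Nat.lt_succ_of_le this
        have e3 := e2.mul ih.2.1
        rw [add_comm] at e3
        convert e1.add e3 using 1
        rw [map_neg]; ring
  obtain ⟨h2, h3, h4⟩ := h1 W
  rw [← sum_homogeneousComponent g, Finset.mul_sum, coeff_sum] at hg
  obtain ⟨i, -, hi⟩ := Finset.exists_ne_zero_of_sum_ne_zero hg
  have hgi := homogeneousComponent_isHomogeneous i g
  have hdeg : (tt p n).degree = W.length + i := by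
    by_contra hne
    exact hi ((h2.mul hgi).coeff_eq_zero hne)
  have h5 : coeff (tt p n) ((W.map fun w => l w - C w.2).prod * homogeneousComponent i g) ≠ 0 := by
    have := h4.mul hgi.totalDegree_le
    have h6 : coeff (tt p n) (((W.map fun w => l w - C w.2).prod - (W.map l).prod) *
        homogeneousComponent i g) = 0 := by
      by_contra hne
      exact absurd (this _ (mem_support_iff.2 hne)) (by omega)
    rw [sub_mul, coeff_sub, sub_eq_zero] at h6
    rwa [h6]
  obtain ⟨x, -, hx⟩ := combinatorial_nullstellensatz_exists_eval_nonzero _ (tt p n) h5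
    (le_antisymm ((totalDegree_mul _ _).trans (by have := hgi.totalDegree_le; omega))
      (le_totalDegree (mem_support_iff.2 h5))) (fun _ => Finset.univ)
    (fun i => by
      rw [tt_apply, Finset.card_univ, ZMod.card]
      have := (Fact.out : p.Prime).pos
      omega)
  refine ⟨x, fun w hw hwx => hx ?_⟩
  rw [map_mul, map_list_prod, List.prod_eq_zero, zero_mul]
  simp only [List.map_map, List.mem_map]
  refine ⟨w, hw, ?_⟩
  simp [hl, ee_ι, ← hwx, dotProduct]

theorem cnt_rows_le (A : Matrix (Fin n) (Fin n) (ZMod p)) (hA : IsUnit A.det)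
    (S : Submodule (ZMod p) (EE p n)) :
    cnt (List.ofFn fun i => A i) S ≤ Module.finrank (ZMod p) S := by
  classical
  have h1 : LinearIndependent (ZMod p) A.row :=
    Matrix.linearIndependent_rows_iff_isUnit.2 ((Matrix.isUnit_iff_isUnit_det A).2 hA)
  have h2 : LinearIndependent (ZMod p)
      (fun i : {i : Fin n // A i ∈ S} => (⟨A i, i.2⟩ : S)) :=
    LinearIndependent.of_comp S.subtype (h1.comp _ Subtype.val_injective)
  refine le_trans (le_of_eq ?_) h2.fintype_card_le_finrank
  rw [cnt, List.ofFn_eq_map, List.countP_map, List.countP_eq_length_filter, Fintype.card_subtype,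
    ← List.toFinset_card_of_nodup ((List.nodup_finRange n).filter _)]
  congr 1
  ext i
  simp

theorem cnt_append {E : Type} [AddCommGroup E] [Module (ZMod p) E] (c c' : List E)
    (S : Submodule (ZMod p) E) : cnt (c ++ c') S = cnt c S + cnt c' S := List.countP_append

theorem avoid_two (hp : 7 ≤ p) (A : Matrix (Fin n) (Fin n) (ZMod p)) (hA : IsUnit A.det)
    (c d : Fin n → ZMod p) :
    ∃ x : Fin n → ZMod p, (∀ i, x i ≠ c i) ∧ ∀ i, A.mulVec x i ≠ d i := by
  have hrow : ∀ (B : Matrix (Fin n) (Fin n) (ZMod p)), IsUnit B.det → ∀ i, B i ≠ 0 :=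
    fun B hB i => (Matrix.linearIndependent_rows_iff_isUnit.2
      ((Matrix.isUnit_iff_isUnit_det B).2 hB)).ne_zero i
  obtain ⟨x, hx⟩ := avoid (D := 4) (by omega) (by omega)
    ((List.ofFn fun i => ((1 : Matrix (Fin n) (Fin n) (ZMod p)) i, c i)) ++
      List.ofFn fun i => (A i, d i))
    (fun w hw => by
      rcases List.mem_append.1 hw with hw | hw
      · obtain ⟨i, rfl⟩ := List.mem_ofFn.1 hw
        exact hrow 1 (by simp) i
      · obtain ⟨i, rfl⟩ := List.mem_ofFn.1 hw
        exact hrow A hA i)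
    (fun S => by
      rw [List.map_append, List.map_ofFn, List.map_ofFn, cnt_append]
      have h1 := cnt_rows_le (1 : Matrix (Fin n) (Fin n) (ZMod p)) (by simp) S
      have h2 := cnt_rows_le A hA S
      change 2 * (cnt (List.ofFn fun i => (1 : Matrix (Fin n) (Fin n) (ZMod p)) i) S +
        cnt (List.ofFn fun i => A i) S) ≤ _
      omega)
  refine ⟨x, fun i => ?_, fun i => hx _ (List.mem_append_right _ (List.mem_ofFn.2 ⟨i, rfl⟩))⟩
  have := hx _ (List.mem_append_left _ (List.mem_ofFn.2 ⟨i, rfl⟩))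
  rwa [show (1 : Matrix (Fin n) (Fin n) (ZMod p)) i ⬝ᵥ x = x i from
    congrFun (Matrix.one_mulVec x) i] at this

theorem avoid_many {k : ℕ} (hk : 4 * k ≤ p + 1) (A : Fin k → Matrix (Fin n) (Fin n) (ZMod p))
    (hA : ∀ j, IsUnit (A j).det) (c : Fin k → Fin n → ZMod p) :
    ∃ x : Fin n → ZMod p, ∀ j i, (A j).mulVec x i ≠ c j i := by
  rcases Nat.eq_zero_or_pos k with rfl | hk0
  · exact ⟨0, fun j => j.elim0⟩
  have hrow : ∀ (B : Matrix (Fin n) (Fin n) (ZMod p)), IsUnit B.det → ∀ i, B i ≠ 0 :=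
    fun B hB i => (Matrix.linearIndependent_rows_iff_isUnit.2
      ((Matrix.isUnit_iff_isUnit_det B).2 hB)).ne_zero i
  have hc : ∀ (L : List (Fin k)) (S : Submodule (ZMod p) (EE p n)),
      cnt ((L.flatMap fun j => List.ofFn fun i => (A j i, c j i)).map Prod.fst) S ≤
        L.length * Module.finrank (ZMod p) S := by
    intro L S
    induction L with
    | nil => simp [cnt_nil]
    | cons j L ih =>
      rw [List.flatMap_cons, List.map_append, cnt_append, List.map_ofFn, List.length_cons]
      have h2 := cnt_rows_le (A j) (hA j) S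
      change cnt (List.ofFn fun i => A j i) S + _ ≤ _
      nlinarith
  obtain ⟨x, hx⟩ := avoid (D := 2 * k) (by omega) (by omega)
    ((List.finRange k).flatMap fun j => List.ofFn fun i => (A j i, c j i))
    (fun w hw => by
      obtain ⟨j, -, hw⟩ := List.mem_flatMap.1 hw
      obtain ⟨i, rfl⟩ := List.mem_ofFn.1 hw
      exact hrow _ (hA j) i)
    (fun S => by
      have := hc (List.finRange k) S
      rw [List.length_finRange] at this
      nlinarith)
  exact ⟨x, fun j i => hx _ (List.mem_flatMap.2 ⟨j, List.mem_finRange j, List.mem_ofFn.2 ⟨i, rfl⟩⟩)⟩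

end

end Pool.Agent.MP_79429d_co.KD
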