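import Pool.Agent.MP_79429d_co.Sets

namespace Pool.Agent.Results.MP_79429d_co.PrimesFrom37

theorem result :
    ∀ p : ℕ, p.Prime → 37 ≤ p →
      ∀ n : ℕ, ∀ A : Matrix (Fin n) (Fin n) (ZMod p), IsUnit A.det →
        ∀ c d : Fin n → ZMod p,
          ∃ x : Fin n → ZMod p, (∀ i, x i ≠ c i) ∧ ∀ i, A.mulVec x i ≠ d i :=
  Pool.Agent.MP_79429d_co.avoid_of_ge

end Pool.Agent.Results.MP_79429d_co.PrimesFrom37
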