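import Pool.Agent.Mg.F79429d.G4a7d93

namespace Pool.Agent.MP_79429d_co.PrimesFrom5

theorem result :
    ∀ p : ℕ, p.Prime → 5 ≤ p →
      ∀ n : ℕ, ∀ A : Matrix (Fin n) (Fin n) (ZMod p), IsUnit A.det →
        ∀ c d : Fin n → ZMod p,
          ∃ x : Fin n → ZMod p, (∀ i, x i ≠ c i) ∧ ∀ i, A.mulVec x i ≠ d i := by
  intro p hp h5 n A hA c d
  have : Fact p.Prime := ⟨hp⟩
  obtain ⟨x, hx, hx'⟩ := Pool.Agent.MP_79429d_co.LD.exists_avoid (K := ZMod p) p ZMod.pow_card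
    (by omega) (by simp) (fun i => A i)
    (Matrix.linearIndependent_rows_iff_isUnit.2 ((Matrix.isUnit_iff_isUnit_det A).2 hA)) c d
  exact ⟨x, hx, fun i => hx' i⟩

end Pool.Agent.MP_79429d_co.PrimesFrom5
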