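import Pool.Agent.MP_79429d_co.Wide

open Finset

namespace Pool.Agent.MP_79429d_co

def upB (p x : ℕ) : Bool := decide (0 < x % p) && decide (2 * (x % p) < p)

def wideB (p : ℕ) (l : List ℕ) : Bool :=
  (List.range p).all fun u => u == 0 || l.any fun a => l.any fun b => l.any fun c =>
    upB p ((b + (p - 1) * a) * u) && upB p ((c + (p - 1) * b) * u) && upB p ((a + (p - 1) * c) * u)

lemma up_of_upB {p : ℕ} [NeZero p] (a b : ℕ) (u : ZMod p)
    (h : upB p ((b + (p - 1) * a) * u.val) = true) : Up (((b : ZMod p) - (a : ZMod p)) * u) := by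
  have e : ((b : ZMod p) - (a : ZMod p)) * u = (((b + (p - 1) * a) * u.val : ℕ) : ZMod p) := by
    have h1 : 1 ≤ p := NeZero.one_le
    push_cast [Nat.cast_sub h1]
    simp [sub_eq_add_neg]
  rw [e]
  unfold Up
  rw [ZMod.val_natCast]
  simpa [upB] using h

lemma wide_of_wideB {p : ℕ} [NeZero p] (l : List ℕ) (h : wideB p l = true) :
    Wide p (l.map fun a : ℕ => (a : ZMod p)).toFinset := by
  intro u hu
  have h1 := List.all_eq_true.1 h u.val (List.mem_range.2 (ZMod.val_lt u))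
  have h0 : u.val ≠ 0 := fun h => hu ((ZMod.val_eq_zero u).1 h)
  simp only [Bool.or_eq_true, beq_iff_eq, h0, false_or, List.any_eq_true, Bool.and_eq_true] at h1
  obtain ⟨a, ha, b, hb, c, hc, ⟨h1, h2⟩, h3⟩ := h1
  have mem : ∀ x ∈ l, (x : ZMod p) ∈ (l.map fun a : ℕ => (a : ZMod p)).toFinset := fun x hx =>
    List.mem_toFinset.2 (List.mem_map.2 ⟨x, hx, rfl⟩)
  exact ⟨a, mem a ha, b, mem b hb, c, mem c hc, up_of_upB a b u h1, up_of_upB b c u h2,
    up_of_upB c a u h3⟩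

lemma exists_of_list {p : ℕ} [NeZero p] (l : List ℕ) (h : wideB p l = true)
    (hl : l.length ^ 2 < p) : ∃ S : Finset (ZMod p), Wide p S ∧ S.card ^ 2 < p := by
  refine ⟨_, wide_of_wideB l h, lt_of_le_of_lt (Nat.pow_le_pow_left ?_ 2) hl⟩
  exact (List.toFinset_card_le _).trans (by simp)

lemma up_natCast {p : ℕ} [NeZero p] {x : ZMod p} (s : ℕ) (hx : x = s) (h0 : 0 < s)
    (h1 : 2 * s < p) : Up x := by
  unfold Up
  rw [hx, ZMod.val_cast_of_lt (by omega)]
  exact ⟨h0, h1⟩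

lemma tri {p : ℕ} [NeZero p] (S : Finset (ZMod p)) (u y : ZMod p) (h0 : 0 ∈ S) (hy : y ∈ S)
    (hy' : -y ∈ S) (s : ℕ) (hs : y * u = s) (h1 : p < 4 * s) (h2 : 2 * s < p) :
    ∃ a ∈ S, ∃ b ∈ S, ∃ c ∈ S, Up ((b - a) * u) ∧ Up ((c - b) * u) ∧ Up ((a - c) * u) := by
  refine ⟨0, h0, y, hy, -y, hy', up_natCast s (by rw [← hs]; ring) (by omega) h2,
    up_natCast (p - 2 * s) ?_ (by omega) (by omega),
    up_natCast s (by rw [← hs]; ring) (by omega) h2⟩
  rw [Nat.cast_sub h2.le]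
  push_cast
  rw [ZMod.natCast_self, ← hs]
  ring

lemma tri' {p : ℕ} [NeZero p] (hodd : p % 2 = 1) (S : Finset (ZMod p)) (u y : ZMod p)
    (h0 : 0 ∈ S) (hy : y ∈ S) (hy' : -y ∈ S) (s : ℕ) (hs : y * u = s) (h1 : p < 4 * s)
    (h2 : 4 * s < 3 * p) :
    ∃ a ∈ S, ∃ b ∈ S, ∃ c ∈ S, Up ((b - a) * u) ∧ Up ((c - b) * u) ∧ Up ((a - c) * u) := by
  by_cases h : 2 * s < p
  · exact tri S u y h0 hy hy' s hs h1 h
  · refine tri S u (-y) h0 hy' (by simpa using hy) (p - s) ?_ (by omega) (by omega)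
    rw [Nat.cast_sub (by omega), ZMod.natCast_self, ← hs]
    ring

lemma exists_scale (p r : ℕ) (hodd : p % 2 = 1) (hr : 0 < r) (hr2 : 2 * r < p) (m : ℕ)
    (hm : p < 4 * 3 ^ m) : ∃ j ≤ m, p < 4 * (3 ^ j * r) ∧ 4 * (3 ^ j * r) < 3 * p := by
  have hex : ∃ j, p < 4 * (3 ^ j * r) := ⟨m, by nlinarith [Nat.pow_pos (n := m) (by norm_num : 0 < 3)]⟩
  refine ⟨Nat.find hex, Nat.find_min' hex
    (by nlinarith [Nat.pow_pos (n := m) (by norm_num : 0 < 3)]), Nat.find_spec hex, ?_⟩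
  rcases h : Nat.find hex with _ | j
  · omega
  · have := Nat.find_min hex (m := j) (by omega)
    rw [pow_succ]
    have e : 3 ^ j * 3 * r = 3 * (3 ^ j * r) := by ring
    rw [e]
    omega

lemma exists_pow {p : ℕ} [NeZero p] (hodd : p % 2 = 1) (m : ℕ) (hm : p < 4 * 3 ^ m)
    (hc : (2 * m + 3) ^ 2 < p) : ∃ S : Finset (ZMod p), Wide p S ∧ S.card ^ 2 < p := by
  classical
  let P := (range (m + 1)).image fun j => (3 : ZMod p) ^ j
  let N := (range (m + 1)).image fun j => -(3 : ZMod p) ^ j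
  refine ⟨insert 0 (P ∪ N), ?_, lt_of_le_of_lt (Nat.pow_le_pow_left ?_ 2) hc⟩
  · intro u hu
    have hP : ∀ j ≤ m, (3 : ZMod p) ^ j ∈ insert 0 (P ∪ N) := fun j hj =>
      mem_insert_of_mem (mem_union_left _ (mem_image.2 ⟨j, mem_range.2 (by omega), rfl⟩))
    have hN : ∀ j ≤ m, -(3 : ZMod p) ^ j ∈ insert 0 (P ∪ N) := fun j hj =>
      mem_insert_of_mem (mem_union_right _ (mem_image.2 ⟨j, mem_range.2 (by omega), rfl⟩))
    have h0 : u.val ≠ 0 := fun h => hu ((ZMod.val_eq_zero u).1 h)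
    have hlt := ZMod.val_lt u
    by_cases h : 2 * u.val < p
    · obtain ⟨j, hj, h1, h2⟩ := exists_scale p u.val hodd (by omega) h m hm
      refine tri' hodd _ u (3 ^ j) (mem_insert_self _ _) (hP j hj) (hN j hj) _ ?_ h1 h2
      simp
    · obtain ⟨j, hj, h1, h2⟩ := exists_scale p (p - u.val) hodd (by omega) (by omega) m hm
      refine tri' hodd _ u (-3 ^ j) (mem_insert_self _ _) (hN j hj) (by simpa using hP j hj)
        _ ?_ h1 h2
      push_cast [Nat.cast_sub hlt.le]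
      simp
  · refine (card_insert_le _ _).trans ?_
    have h1 : P.card ≤ m + 1 := card_image_le.trans (by simp)
    have h2 : N.card ≤ m + 1 := card_image_le.trans (by simp)
    have := card_union_le P N
    omega

lemma sq_lt_pow (m : ℕ) : (2 * (m + 5) + 3) ^ 2 < 4 * 3 ^ (m + 4) := by
  induction m with
  | zero => norm_num
  | succ k ih =>
    have : 3 ^ (k + 1 + 4) = 3 * 3 ^ (k + 4) := by ring
    rw [this]
    generalize 3 ^ (k + 4) = X at ih ⊢
    nlinarith [Nat.zero_le k, Nat.zero_le (k * k)]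

lemma exists_wide {p : ℕ} (hp : p.Prime) (h37 : 37 ≤ p) :
    ∃ S : Finset (ZMod p), Wide p S ∧ S.card ^ 2 < p := by
  have : NeZero p := ⟨hp.ne_zero⟩
  have hodd : p % 2 = 1 := hp.eq_two_or_odd.resolve_left (by omega)
  by_cases h1 : 324 ≤ p
  · have hex : ∃ m, p < 4 * 3 ^ m := ⟨p, by
      have := Nat.lt_pow_self (n := p) (by norm_num : 1 < 3)
      omega⟩
    have hs := Nat.find_spec hex
    have h5 : 5 ≤ Nat.find hex := by
      by_contra h
      have : 3 ^ Nat.find hex ≤ 3 ^ 4 := Nat.pow_le_pow_right (by norm_num) (by omega)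
      omega
    obtain ⟨m, hm⟩ := Nat.exists_eq_add_of_le' h5
    have hmin := Nat.find_min hex (m := m + 4) (by omega)
    rw [hm] at hs
    exact exists_pow hodd (m + 5) hs ((sq_lt_pow m).trans_le (by omega))
  by_cases h2 : 122 ≤ p
  · exact exists_pow hodd 4 (by omega) (by omega)
  by_cases h3 : 82 ≤ p ∧ p < 108
  · exact exists_pow hodd 3 (by omega) (by omega)
  have hcases : p = 37 ∨ p = 41 ∨ p = 43 ∨ p = 47 ∨ p = 53 ∨ p = 59 ∨ p = 61 ∨ p = 67 ∨ p = 71 ∨
      p = 73 ∨ p = 79 ∨ p = 109 ∨ p = 113 := by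
    have hlt : p < 122 := by omega
    interval_cases p <;> first | omega | (exfalso; revert hp; norm_num)
  rcases hcases with rfl | rfl | rfl | rfl | rfl | rfl | rfl | rfl | rfl | rfl | rfl | rfl | rfl
  · exact exists_of_list [0, 1, 2, 4, 10, 24] (by decide +kernel) (by norm_num)
  · exact exists_of_list [0, 1, 2, 5, 16, 35] (by decide +kernel) (by norm_num)
  · exact exists_of_list [0, 1, 2, 5, 12, 30] (by decide +kernel) (by norm_num)
  · exact exists_of_list [0, 1, 2, 5, 12, 34] (by decide +kernel) (by norm_num)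
  · exact exists_of_list [0, 1, 2, 3, 6, 14, 34] (by decide +kernel) (by norm_num)
  · exact exists_of_list [0, 1, 2, 3, 6, 15, 37] (by decide +kernel) (by norm_num)
  · exact exists_of_list [0, 1, 4, 9, 22, 51] (by decide +kernel) (by norm_num)
  · exact exists_of_list [0, 1, 2, 24, 31, 41] (by decide +kernel) (by norm_num)
  · exact exists_of_list [0, 1, 2, 3, 7, 18, 51] (by decide +kernel) (by norm_num)
  · exact exists_of_list [0, 1, 2, 3, 7, 19, 52] (by decide +kernel) (by norm_num)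
  · exact exists_of_list [0, 1, 2, 3, 11, 31, 67] (by decide +kernel) (by norm_num)
  · exact exists_of_list [0, 1, 3, 10, 28, 108, 106, 99, 81] (by decide +kernel) (by norm_num)
  · exact exists_of_list [0, 1, 3, 10, 29, 112, 110, 103, 84] (by decide +kernel) (by norm_num)

theorem avoid_of_ge (p : ℕ) (hp : p.Prime) (h37 : 37 ≤ p) (n : ℕ)
    (A : Matrix (Fin n) (Fin n) (ZMod p)) (hA : IsUnit A.det) (c d : Fin n → ZMod p) :
    ∃ x : Fin n → ZMod p, (∀ i, x i ≠ c i) ∧ ∀ i, A.mulVec x i ≠ d i := by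
  have : Fact p.Prime := ⟨hp⟩
  obtain ⟨S, hS, hc⟩ := exists_wide hp h37
  have hne : S.Nonempty := by
    obtain ⟨a, ha, -⟩ := hS 1 one_ne_zero
    exact ⟨a, ha⟩
  exact avoid_of_weights S hS.hasWeights hne hc A hA c d

end Pool.Agent.MP_79429d_co
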