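import Pool.Agent.MP_79429d_co.Core

open Finset

namespace Pool.Agent.MP_79429d_co

/-- `x` is a residue strictly between `0` and `p / 2`. -/
def Up {p : ℕ} (x : ZMod p) : Prop := 0 < x.val ∧ 2 * x.val < p

instance {p : ℕ} (x : ZMod p) : Decidable (Up x) := by unfold Up; infer_instance

/-- Every nonzero dilate of `S` contains a triangle around the origin. -/
def Wide (p : ℕ) (S : Finset (ZMod p)) : Prop :=
  ∀ u : ZMod p, u ≠ 0 → ∃ a ∈ S, ∃ b ∈ S, ∃ c ∈ S,
    Up ((b - a) * u) ∧ Up ((c - b) * u) ∧ Up ((a - c) * u)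

/-- The planar cross product. -/
def cross (z w : ℂ) : ℝ := z.re * w.im - z.im * w.re

lemma cross_identity (x y z : ℂ) :
    (cross y z : ℂ) * x + (cross z x : ℂ) * y + (cross x y : ℂ) * z = 0 := by
  apply Complex.ext <;> simp [cross] <;> ring

variable {p : ℕ} [NeZero p]

lemma cross_psi (a b : ZMod p) :
    cross (ZMod.stdAddChar a) (ZMod.stdAddChar b) = (ZMod.stdAddChar (b - a) : ℂ).im := by
  have h : (ZMod.stdAddChar b : ℂ) = ZMod.stdAddChar a * ZMod.stdAddChar (b - a) := by
    rw [← AddChar.map_add_eq_mul, add_sub_cancel]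
  have hn : Complex.normSq (ZMod.stdAddChar a : ℂ) = 1 := by
    rw [ZMod.stdAddChar_apply]
    exact Circle.normSq_coe _
  rw [Complex.normSq_apply] at hn
  rw [h]
  simp only [cross, Complex.mul_re, Complex.mul_im]
  linear_combination (ZMod.stdAddChar (b - a) : ℂ).im * hn

lemma im_pos {x : ZMod p} (hx : Up x) : 0 < (ZMod.stdAddChar x : ℂ).im := by
  rw [ZMod.stdAddChar_apply, ZMod.toCircle_apply]
  have hp : (0 : ℝ) < p := Nat.cast_pos.2 (NeZero.pos p)
  have e : (2 * Real.pi * Complex.I * (x.val : ℂ) / (p : ℂ)) =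
      ((2 * Real.pi * x.val / p : ℝ) : ℂ) * Complex.I := by
    push_cast
    ring
  rw [e, Complex.exp_ofReal_mul_I_im]
  have h1 : (0 : ℝ) < x.val := Nat.cast_pos.2 hx.1
  have h2 : (2 : ℝ) * x.val < p := by exact_mod_cast hx.2
  apply Real.sin_pos_of_pos_of_lt_pi
  · have := Real.pi_pos
    positivity
  · rw [div_lt_iff₀ hp]
    nlinarith [Real.pi_pos]

lemma Wide.hasWeights {S : Finset (ZMod p)} (hS : Wide p S) : HasWeights p S := by
  classical
  intro u hu
  obtain ⟨a, ha, b, hb, c, hc, hab, hbc, hca⟩ := hS u hu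
  set za : ℂ := ZMod.stdAddChar (a * u) with hza
  set zb : ℂ := ZMod.stdAddChar (b * u) with hzb
  set zc : ℂ := ZMod.stdAddChar (c * u) with hzc
  have hγ : 0 < cross za zb := by
    rw [hza, hzb, cross_psi, ← sub_mul]
    exact im_pos hab
  have hα : 0 < cross zb zc := by
    rw [hzc, hzb, cross_psi, ← sub_mul]
    exact im_pos hbc
  have hβ : 0 < cross zc za := by
    rw [hza, hzc, cross_psi, ← sub_mul]
    exact im_pos hca
  set Z : ℂ := ∑ s ∈ S, ZMod.stdAddChar (s * u) with hZ
  set m : ℝ := |cross zb Z| / cross zb zc + |cross Z za| / cross zc za with hm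
  have hm0 : 0 ≤ m := by positivity
  have h1 : 0 ≤ cross zb Z + m * cross zb zc := by
    have : |cross zb Z| ≤ m * cross zb zc := by
      rw [hm, add_mul, div_mul_cancel₀ _ hα.ne']
      have : 0 ≤ |cross Z za| / cross zc za * cross zb zc := by positivity
      linarith
    linarith [neg_abs_le (cross zb Z)]
  have h2 : 0 ≤ cross Z za + m * cross zc za := by
    have : |cross Z za| ≤ m * cross zc za := by
      rw [hm, add_mul, div_mul_cancel₀ _ hβ.ne']
      have : 0 ≤ |cross zb Z| / cross zb zc * cross zc za := by positivity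
      linarith
    linarith [neg_abs_le (cross Z za)]
  have h3 : 0 ≤ m * cross za zb := by positivity
  refine ⟨fun s => cross za zb + (if s = a then cross zb Z + m * cross zb zc else 0) +
    (if s = b then cross Z za + m * cross zc za else 0) +
    (if s = c then m * cross za zb else 0), fun s => ?_, ?_⟩
  · have : 0 ≤ (if s = a then cross zb Z + m * cross zb zc else 0) := by split_ifs <;> simp [h1]
    have : 0 ≤ (if s = b then cross Z za + m * cross zc za else 0) := by split_ifs <;> simp [h2]
    have : 0 ≤ (if s = c then m * cross za zb else 0) := by split_ifs <;> simp [h3]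
    dsimp only
    linarith
  · simp only [Complex.ofReal_add, add_mul, sum_add_distrib, apply_ite ((↑) : ℝ → ℂ),
      Complex.ofReal_zero, ite_mul, zero_mul, sum_ite_eq', ha, hb, hc, if_true, ← mul_sum,
      Complex.ofReal_mul]
    rw [← hZ, ← hza, ← hzb, ← hzc]
    linear_combination cross_identity za zb Z + (m : ℂ) * cross_identity za zb zc

end Pool.Agent.MP_79429d_co
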